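import Pool.Agent.P.MP_a89d6d_nt.Z57.Defs

/-!
Algebraic properties of the functional: the polynomial part, the decomposition into simple
fractions, linearity, cancellation, and the substitution `T = z (z+1)`.
-/

namespace Pool.Agent.P.MP_a89d6d_nt.Z57

open Polynomial Finset Filter MeasureTheory
open Pool.Agent.P.MP_a89d6d_nt.Z23 (H W nc ach ff zpt)
open Pool.Agent.P.MP_a89d6d_nt.Z23.Large (IsZ)

namespace Core

theorem sig_X_pow (e : ℕ) : sig (X ^ e) = ((e : ℚ) + 1)⁻¹ • Polynomial.bernoulli (e + 1) := by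
  have := (Polynomial.basisMonomials ℚ).constr_basis ℚ
    (fun e : ℕ => ((e : ℚ) + 1)⁻¹ • Polynomial.bernoulli (e + 1)) e
  rw [coe_basisMonomials] at this
  rw [X_pow_eq_monomial]
  exact this

theorem sig_diff (Q : ℚ[X]) : (sig Q).comp (X + 1) - sig Q = Q := by
  induction Q using Polynomial.induction_on' with
  | add p q hp hq =>
    rw [map_add, add_comp, add_sub_add_comm, hp, hq]
  | monomial e c =>
    have he : ((e : ℚ) + 1) ≠ 0 := by positivity
    rw [← smul_X_eq_monomial, map_smul, sig_X_pow, smul_comp, smul_comp, add_comm X 1,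
      Polynomial.bernoulli_comp_one_add_X, ← smul_sub, ← smul_sub, add_sub_cancel_left,
      Nat.add_sub_cancel, ← Nat.cast_smul_eq_nsmul ℚ, smul_smul (((e : ℚ) + 1)⁻¹), Nat.cast_add,
      Nat.cast_one, inv_mul_cancel₀ he, one_smul]

theorem eq_C_of_comp (R : ℚ[X]) (h : R.comp (X + 1) = R) : R = C (R.eval 0) := by
  have h1 : ∀ n : ℕ, R.eval (n : ℚ) = R.eval 0 := by
    intro n
    induction n with
    | zero => simp
    | succ n ih =>
      have := congrArg (eval (n : ℚ)) h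
      rw [eval_comp, eval_add, eval_X, eval_one] at this
      rw [Nat.cast_add, Nat.cast_one, this, ih]
  rw [← sub_eq_zero]
  apply eq_zero_of_infinite_isRoot
  refine Set.infinite_of_injective_forall_mem (f := fun n : ℕ => (n : ℚ)) Nat.cast_injective ?_
  intro n
  simp only [Set.mem_ofPred_eq, IsRoot, eval_sub, eval_C, h1, sub_self]

theorem lp_apply (k : ℕ) (Q : ℚ[X]) : lp k Q = -(sig Q).coeff k := by
  simp only [lp, LinearMap.neg_apply, LinearMap.comp_apply, lcoeff_apply]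

end Core

theorem lp_diff (k : ℕ) (hk : 1 ≤ k) (S : ℚ[X]) : lp k (S.comp (X + 1) - S) = -S.coeff k := by
  have h1 := Core.sig_diff (S.comp (X + 1) - S)
  have h2 := Core.eq_C_of_comp (sig (S.comp (X + 1) - S) - S) (by
    rw [sub_comp]
    linear_combination h1)
  have h3 := congrArg (fun P : ℚ[X] => P.coeff k) h2
  simp only [coeff_sub, coeff_C, if_neg (by omega : k ≠ 0)] at h3
  rw [Core.lp_apply, sub_eq_zero.1 h3]

theorem lp_X_pow (k e : ℕ) :
    lp k (X ^ e) = -(((e + 1).choose k : ℚ) * _root_.bernoulli (e + 1 - k) / ((e : ℚ) + 1)) := by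
  rw [Core.lp_apply, Core.sig_X_pow, coeff_smul, Polynomial.coeff_bernoulli, smul_eq_mul]
  split_ifs with h
  · rw [div_eq_mul_inv]
    ring
  · rw [Nat.choose_eq_zero_of_lt (by omega)]
    simp

theorem lp_W (k m : ℕ) (hk : 1 ≤ k) : lp k (W m) = -((W (m + 1)).coeff k / ((m : ℚ) + 1)) := by
  have h := lp_diff k hk (W (m + 1))
  have h3 : (W (m + 1)).comp (X + 1) - W (m + 1) = ((m : ℚ) + 1) • W m := by
    rw [Z23.Core.W_comp, Z23.Core.W_succ, smul_eq_C_mul, map_add, map_one]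
    ring
  have hm : ((m : ℚ) + 1) ≠ 0 := by positivity
  rw [h3, map_smul, smul_eq_mul] at h
  field_simp
  linear_combination h

theorem lp_distrib (k p : ℕ) (hk : 1 ≤ k) (Q : ℚ[X]) :
    (p : ℚ) ^ k * lp k Q = ∑ c ∈ range p, lp k (loc p c Q) := by
  have h1 : ∀ c : ℕ, loc p c Q = loc p (c + 1) (sig Q) - loc p c (sig Q) := by
    intro c
    conv_lhs => rw [← Core.sig_diff Q]
    simp only [loc, sub_comp, comp_assoc, add_comp, X_comp, one_comp, Nat.cast_add, Nat.cast_one,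
      map_add, map_one]
    congr 2
    ring
  have h2 : ∑ c ∈ range p, loc p c Q =
      ((sig Q).comp (C (p : ℚ) * X)).comp (X + 1) - (sig Q).comp (C (p : ℚ) * X) := by
    rw [sum_congr rfl fun c _ => h1 c, sum_range_sub (fun c => loc p c (sig Q))]
    simp only [loc, comp_assoc, mul_comp, C_comp, X_comp, Nat.cast_zero, map_zero, zero_add]
    congr 2
    ring
  rw [← map_sum, h2, lp_diff k hk, comp_C_mul_X_coeff, Core.lp_apply]
  ring

theorem DZ_monic (S : Finset ℤ) : (DZ S).Monic :=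
  monic_prod_of_monic _ _ fun _ _ => monic_X_sub_C _

theorem DZ_natDegree (S : Finset ℤ) : (DZ S).natDegree = S.card := by
  rw [DZ, natDegree_prod_of_monic _ _ fun _ _ => monic_X_sub_C _]
  simp only [natDegree_X_sub_C, sum_const, smul_eq_mul, mul_one]

theorem DZ_eval (S : Finset ℤ) (y : ℚ) : (DZ S).eval y = ∏ i ∈ S, (y - (i : ℚ)) := by
  simp only [DZ, eval_prod, eval_sub, eval_X, eval_C]

theorem isZ_DZ (S : Finset ℤ) : IsZ (DZ S) :=
  Z23.Large.isZ_prod _ _ fun i _ => Z23.Large.isZ_X.sub (Z23.Large.isZ_C i)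

theorem card_SK (K : ℕ) : (SK K).card = 2 * K := by
  rw [SK, Int.card_Ico]
  omega

namespace Core

theorem prod_erase_ne (S : Finset ℤ) (i : ℤ) : ∏ j ∈ S.erase i, ((i : ℚ) - (j : ℚ)) ≠ 0 :=
  prod_ne_zero_iff.mpr fun _ hj =>
    sub_ne_zero.mpr fun h => (mem_erase.mp hj).1 (Int.cast_injective h).symm

theorem mod_eq (S : Finset ℤ) (N : ℚ[X]) :
    N %ₘ DZ S = ∑ i ∈ S, C (res S N i) * DZ (S.erase i) := by
  apply eq_of_degrees_lt_of_eval_index_eq (s := S) (v := fun j : ℤ => (j : ℚ))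
    (fun _ _ _ _ h => Int.cast_injective h)
  · have := degree_modByMonic_lt N (DZ_monic S)
    rwa [degree_eq_natDegree (DZ_monic S).ne_zero, DZ_natDegree] at this
  · rw [← mem_degreeLT]
    refine Submodule.sum_mem _ fun j hj => ?_
    rw [← smul_eq_C_mul]
    refine Submodule.smul_mem _ _ ?_
    rw [mem_degreeLT, degree_eq_natDegree (DZ_monic _).ne_zero, DZ_natDegree, card_erase_of_mem hj]
    have := card_pos.mpr ⟨j, hj⟩
    exact Nat.cast_lt.mpr (by omega)
  · intro i hi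
    have h2 : (DZ S).eval (i : ℚ) = 0 := by
      rw [DZ_eval]
      exact prod_eq_zero hi (sub_self _)
    have h3 := congrArg (eval (i : ℚ)) (modByMonic_add_div N (DZ S))
    rw [eval_add, eval_mul, h2, zero_mul, add_zero] at h3
    rw [h3, eval_finsetSum, sum_eq_single_of_mem i hi]
    · rw [eval_mul, eval_C, DZ_eval, res, div_mul_cancel₀ _ (prod_erase_ne S i)]
    · intro j _ hji
      rw [eval_mul, DZ_eval, prod_eq_zero (mem_erase.mpr ⟨hji.symm, hi⟩) (sub_self (i : ℚ)),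
        mul_zero]

theorem res_add (S : Finset ℤ) (P Q : ℚ[X]) (j : ℤ) :
    res S (P + Q) j = res S P j + res S Q j := by
  simp only [res, eval_add, _root_.add_div]

theorem res_smul (S : Finset ℤ) (c : ℚ) (P : ℚ[X]) (j : ℤ) :
    res S (c • P) j = c * res S P j := by
  simp only [res, eval_smul, smul_eq_mul, mul_div_assoc]

theorem DZ_union (S S' : Finset ℤ) (h : Disjoint S S') : DZ (S ∪ S') = DZ S * DZ S' :=
  prod_union h

theorem div_cancel (S S' : Finset ℤ) (h : Disjoint S S') (N : ℚ[X]) :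
    (DZ S' * N) /ₘ DZ (S ∪ S') = N /ₘ DZ S := by
  refine (div_modByMonic_unique (N /ₘ DZ S) (DZ S' * (N %ₘ DZ S)) (DZ_monic _) ⟨?_, ?_⟩).1
  · conv_rhs => rw [← modByMonic_add_div N (DZ S)]
    rw [DZ_union S S' h]
    ring
  · rw [DZ_union S S' h, mul_comm (DZ S), degree_mul, degree_mul]
    exact WithBot.add_lt_add_left (degree_ne_bot.2 (DZ_monic S').ne_zero)
      (degree_modByMonic_lt N (DZ_monic S))

theorem res_cancel_left (S S' : Finset ℤ) (h : Disjoint S S') (N : ℚ[X]) (i : ℤ) (hi : i ∈ S) :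
    res (S ∪ S') (DZ S' * N) i = res S N i := by
  have hi' : i ∉ S' := disjoint_left.1 h hi
  have e : (S ∪ S').erase i = S.erase i ∪ S' := by
    rw [erase_union_distrib, erase_eq_of_notMem hi']
  have h0 : ∏ j ∈ S', ((i : ℚ) - (j : ℚ)) ≠ 0 := by
    have := prod_erase_ne S' i
    rwa [erase_eq_of_notMem hi'] at this
  rw [res, res, e, prod_union (h.mono_left (erase_subset _ _)), eval_mul, DZ_eval,
    mul_comm (∏ j ∈ S.erase i, ((i : ℚ) - (j : ℚ))), mul_div_mul_left _ _ h0]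

theorem res_cancel_right (T S' : Finset ℤ) (N : ℚ[X]) (i : ℤ) (hi : i ∈ S') :
    res T (DZ S' * N) i = 0 := by
  rw [res, eval_mul, DZ_eval, prod_eq_zero hi (sub_self (i : ℚ)), zero_mul, zero_div]

theorem sum_res_cancel (S S' : Finset ℤ) (h : Disjoint S S') (N : ℚ[X]) (g : ℤ → ℚ) :
    ∑ i ∈ S ∪ S', res (S ∪ S') (DZ S' * N) i * g i = ∑ i ∈ S, res S N i * g i := by
  rw [sum_union h, sum_eq_zero (s := S') fun i hi => by rw [res_cancel_right _ _ _ _ hi, zero_mul],
    add_zero]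
  exact sum_congr rfl fun i hi => by rw [res_cancel_left S S' h N i hi]

end Core

theorem partial_fractions (S : Finset ℤ) (N : ℚ[X]) :
    N = (N /ₘ DZ S) * DZ S + ∑ i ∈ S, C (res S N i) * DZ (S.erase i) := by
  rw [← Core.mod_eq, add_comm, mul_comm, modByMonic_add_div]

theorem eval_divByMonic (S : Finset ℤ) (N : ℚ[X]) (y : ℤ) (hy : y ∉ S) :
    (N /ₘ DZ S).eval (y : ℚ) = N.eval (y : ℚ) / ∏ i ∈ S, ((y : ℚ) - (i : ℚ)) -
      ∑ i ∈ S, res S N i / ((y : ℚ) - (i : ℚ)) := by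
  have hne : ∀ i ∈ S, (y : ℚ) - (i : ℚ) ≠ 0 := fun i hi =>
    sub_ne_zero.mpr fun h => hy (by rwa [Int.cast_injective h])
  have h0 : ∏ i ∈ S, ((y : ℚ) - (i : ℚ)) ≠ 0 := prod_ne_zero_iff.mpr hne
  have h := congrArg (eval (y : ℚ)) (partial_fractions S N)
  rw [eval_add, eval_mul, DZ_eval, eval_finsetSum] at h
  rw [h, _root_.add_div, mul_div_cancel_right₀ _ h0, sum_div, add_sub_assoc, ← sum_sub_distrib,
    sum_eq_zero, add_zero]
  intro j hj
  have h1 := hne j hj
  have h2 : ∏ k ∈ S.erase j, ((y : ℚ) - (k : ℚ)) ≠ 0 :=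
    prod_ne_zero_iff.mpr fun k hk => hne k (mem_of_mem_erase hk)
  rw [← mul_prod_erase _ _ hj, eval_mul, eval_C, DZ_eval]
  field_simp
  ring

theorem LZ_linear (s : ℕ) (S : Finset ℤ) : IsLinearMap ℚ (LZ s S) := by
  refine ⟨fun P Q => ?_, fun c P => ?_⟩
  · simp only [LZ, Z23.Core.add_div (DZ_monic S), map_add, Core.res_add, add_mul, sum_add_distrib]
    ring
  · simp only [LZ, Z23.Core.smul_div (DZ_monic S), map_smul, Core.res_smul, smul_eq_mul, mul_sub,
      mul_sum, mul_assoc]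

theorem RZ_linear (S : Finset ℤ) : IsLinearMap ℚ (RZ S) := by
  refine ⟨fun P Q => ?_, fun c P => ?_⟩
  · simp only [RZ, Core.res_add, sum_add_distrib]
  · simp only [RZ, Core.res_smul, smul_eq_mul, mul_sum]

theorem FF_linear (s : ℕ) (a b x : ℚ) (m u : ℕ) : IsLinearMap ℚ (FF s a b x m u) := by
  refine ⟨fun P Q => ?_, fun c P => ?_⟩
  · have e : num m u (P + Q) = num m u P + num m u Q := by
      simp only [num, mul_add, map_add]
    simp only [FF, e, (LZ_linear _ _).map_add, (RZ_linear _).map_add]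
    ring
  · have e : num m u (c • P) = c • num m u P := by
      simp only [num, mul_smul_comm, map_smul]
    simp only [FF, e, (LZ_linear _ _).map_smul, (RZ_linear _).map_smul, smul_eq_mul]
    ring

theorem LZ_cancel (s : ℕ) (S S' : Finset ℤ) (h : Disjoint S S') (N : ℚ[X]) :
    LZ s (S ∪ S') (DZ S' * N) = LZ s S N := by
  rw [LZ, LZ, Core.div_cancel S S' h, Core.sum_res_cancel S S' h]

theorem RZ_cancel (S S' : Finset ℤ) (h : Disjoint S S') (N : ℚ[X]) :
    RZ (S ∪ S') (DZ S' * N) = RZ S N := by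
  have := Core.sum_res_cancel S S' h N fun _ => 1
  simpa only [mul_one, RZ] using this

theorem RZ_int (S : Finset ℤ) (N : ℚ[X]) (hN : IsZ N) : ∃ z : ℤ, RZ S N = z := by
  have h1 : IsZ (N %ₘ DZ S) := by
    have : N %ₘ DZ S = N - DZ S * (N /ₘ DZ S) := eq_sub_of_add_eq (modByMonic_add_div N (DZ S))
    rw [this]
    exact hN.sub ((isZ_DZ S).mul (hN.divByMonic (isZ_DZ S) (DZ_monic S)))
  obtain ⟨z, hz⟩ := h1.coeff (S.card - 1)
  refine ⟨z, ?_⟩
  rw [← hz, Core.mod_eq, finsetSum_coeff, RZ]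
  refine sum_congr rfl fun i hi => ?_
  have h2 := (DZ_monic (S.erase i)).coeff_natDegree
  rw [DZ_natDegree, card_erase_of_mem hi] at h2
  rw [coeff_C_mul, h2, mul_one]

theorem tr_lin (j : ℕ) : tr (X - C (tau j)) = (X - C (j : ℚ)) * (X - C (-1 - (j : ℚ))) := by
  simp only [tr, tau, map_sub, aeval_X, aeval_C, algebraMap_eq, map_mul, map_add, map_one, map_neg]
  ring

theorem tr_WT (m : ℕ) : tr (WT m) = DZ (SK m) := by
  induction m with
  | zero => simp [WT, DZ, SK]
  | succ m ih =>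
    have e : SK (m + 1) = insert (m : ℤ) (insert (-1 - (m : ℤ)) (SK m)) := by
      ext i
      simp only [SK, mem_insert, mem_Ico, Nat.cast_add, Nat.cast_one]
      omega
    have h1 : (-1 - (m : ℤ)) ∉ SK m := by
      simp only [SK, mem_Ico]
      omega
    have h2 : (m : ℤ) ∉ insert (-1 - (m : ℤ)) (SK m) := by
      simp only [SK, mem_insert, mem_Ico]
      omega
    rw [WT, prod_range_succ, map_mul, ← WT, ih, tr_lin, e, DZ, DZ, prod_insert h2, prod_insert h1]
    push_cast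
    ring

theorem tr_eval (P : ℚ[X]) (y : ℚ) : (tr P).eval y = P.eval (y * (y + 1)) := by
  rw [tr, ← comp_eq_aeval, eval_comp, eval_mul, eval_add, eval_X, eval_one]

theorem tr_natDegree_le (P : ℚ[X]) : (tr P).natDegree ≤ 2 * P.natDegree := by
  rw [tr, ← comp_eq_aeval, mul_comm 2]
  refine natDegree_comp_le.trans (Nat.mul_le_mul_left _ ?_)
  compute_degree

theorem isZ_tr (P : ℚ[X]) (hP : IsZ P) : IsZ (tr P) := by
  obtain ⟨R, hR⟩ := (Polynomial.mem_lifts _).1 hP
  refine (Polynomial.mem_lifts _).2 ⟨R.comp (X * (X + 1)), ?_⟩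
  rw [map_comp, hR, tr, ← comp_eq_aeval]
  simp only [Polynomial.map_mul, Polynomial.map_add, map_X, Polynomial.map_one]

theorem isZ_tau (j : ℕ) : IsZ (X - C (tau j)) := by
  have := Z23.Large.isZ_C ((j : ℤ) * ((j : ℤ) + 1))
  push_cast at this
  exact Z23.Large.isZ_X.sub this

theorem WT_monic (m : ℕ) : (WT m).Monic := monic_prod_of_monic _ _ fun _ _ => monic_X_sub_C _

theorem WT_natDegree (m : ℕ) : (WT m).natDegree = m := by
  rw [WT, natDegree_prod_of_monic _ _ fun _ _ => monic_X_sub_C _]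
  simp only [natDegree_X_sub_C, sum_const, card_range, smul_eq_mul, mul_one]

theorem num_natDegree_le (m u : ℕ) (P : ℚ[X]) :
    (num m u P).natDegree ≤ 1 + 2 * (m * u + P.natDegree) := by
  refine natDegree_mul_le.trans (Nat.add_le_add ?_ ((tr_natDegree_le _).trans ?_))
  · compute_degree
  · refine Nat.mul_le_mul_left _ (natDegree_mul_le.trans (Nat.add_le_add_right ?_ _))
    rw [(WT_monic u).natDegree_pow, WT_natDegree]

theorem isZ_num (m u : ℕ) (P : ℚ[X]) (hP : IsZ P) : IsZ (num m u P) := by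
  have h2 : IsZ (2 * X + 1 : ℚ[X]) := by
    have a := Z23.Large.isZ_C 2
    have b := Z23.Large.isZ_C 1
    have e2 : (C ((2 : ℤ) : ℚ) : ℚ[X]) = 2 := by
      push_cast
      rfl
    have e1 : (C ((1 : ℤ) : ℚ) : ℚ[X]) = 1 := by simp
    rw [e2] at a
    rw [e1] at b
    exact (a.mul Z23.Large.isZ_X).add b
  have hW : IsZ (WT u) := Z23.Large.isZ_prod _ _ fun j _ => isZ_tau j
  exact h2.mul (isZ_tr _ ((hW.pow m).mul hP))

end Pool.Agent.P.MP_a89d6d_nt.Z57
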