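import Pool.Agent.P.MP_a89d6d_nt.Z57.Defs

/-! Counting the members of a residue class in a symmetric interval. -/

namespace Pool.Agent.P.MP_a89d6d_nt.Z57

open Polynomial Finset Filter MeasureTheory
open Pool.Agent.P.MP_a89d6d_nt.Z23 (H W nc ach ff zpt)
open Pool.Agent.P.MP_a89d6d_nt.Z23.Large (IsZ)

namespace Count

theorem cnt_eq (p K : ℕ) (hp : 0 < p) (y : ℤ) :
    (cnt p K y : ℤ) = (y + K) / p - (y - K) / p := by
  have hp' : (0 : ℤ) < p := by exact_mod_cast hp
  have h1 : cnt p K y = (Finset.Ioc ((y - K) / p) ((y + K) / p)).card := by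
    unfold cnt
    symm
    refine Finset.card_bij (fun m _ => y - p * m) ?_ ?_ ?_
    · intro m hm
      rw [Finset.mem_Ioc, Int.ediv_lt_iff_lt_mul hp', Int.le_ediv_iff_mul_le hp'] at hm
      simp only [SK, Finset.mem_filter, Finset.mem_Ico]
      refine ⟨⟨by linarith [hm.2], by linarith [hm.1]⟩, ⟨m, by ring⟩⟩
    · intro m _ m' _ h
      have : (p : ℤ) * m = p * m' := by linarith
      exact mul_left_cancel₀ hp'.ne' this
    · intro i hi
      simp only [SK, Finset.mem_filter, Finset.mem_Ico] at hi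
      obtain ⟨⟨h1, h2⟩, m, hm⟩ := hi
      refine ⟨m, ?_, by linarith⟩
      rw [Finset.mem_Ioc, Int.ediv_lt_iff_lt_mul hp', Int.le_ediv_iff_mul_le hp']
      constructor <;> linarith
  have h2 : (y - K) / p ≤ (y + K) / p :=
    Int.ediv_le_ediv hp' (by linarith [Int.natCast_nonneg K])
  rw [h1, Int.card_Ioc, Int.toNat_of_nonneg (by linarith)]

theorem ediv_eq (p : ℕ) (x m : ℤ) (h1 : m * p ≤ x) (h2 : x < (m + 1) * p) : x / p = m := by
  have hp' : (0 : ℤ) < p := by linarith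
  apply le_antisymm
  · exact Int.lt_add_one_iff.mp ((Int.ediv_lt_iff_lt_mul hp').mpr h2)
  · exact (Int.le_ediv_iff_mul_le hp').mpr h1

theorem cnt_self (p : ℕ) (hp : 0 < p) (y : ℤ) : cnt p p y = 2 := by
  have hp' : (p : ℤ) ≠ 0 := by exact_mod_cast hp.ne'
  have h := cnt_eq p p hp y
  have e1 : (y + p) / p = y / p + 1 := by
    have := Int.add_mul_ediv_right y 1 hp'
    rwa [one_mul] at this
  have e2 : (y - p) / p = y / p + -1 := by
    have := Int.add_mul_ediv_right y (-1) hp'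
    rwa [neg_one_mul, ← sub_eq_add_neg] at this
  rw [e1, e2] at h
  omega

theorem cnt_large (p K c : ℕ) (h1 : p ≤ K) (h3 : K < 3 * p) (hc : c < p) :
    cnt p K c - 2 = (if c < K - p then 1 else 0) + (if c < K - 2 * p then 1 else 0) +
      (if c < 2 * p - K then 0 else 1) + (if c < 3 * p - K then 0 else 1) := by
  have h := cnt_eq p K (by omega) c
  have e1 : ((c : ℤ) + K) / p =
      1 + (if c < 2 * p - K then 0 else 1) + (if c < 3 * p - K then 0 else 1) := by
    apply ediv_eq <;> split_ifs <;> omega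
  have e2 : ((c : ℤ) - K) / p =
      -1 - (if c < K - p then 1 else 0) - (if c < K - 2 * p then 1 else 0) := by
    apply ediv_eq <;> split_ifs <;> omega
  rw [e1, e2] at h
  split_ifs at h ⊢ <;> omega

theorem sum_lt (n a : ℕ) :
    ∑ c ∈ range n, (if c < a then (1 : ℝ) else 0) = ((min n a : ℕ) : ℝ) := by
  induction n with
  | zero => simp
  | succ n ih =>
    rw [Finset.sum_range_succ, ih]
    split_ifs with h
    · rw [show min (n + 1) a = min n a + 1 by omega]; push_cast; ring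
    · rw [show min (n + 1) a = min n a by omega, add_zero]

end Count

theorem cnt_congr (p K : ℕ) {y y' : ℤ} (h : (p : ℤ) ∣ y - y') : cnt p K y = cnt p K y' := by
  unfold cnt
  congr 1
  refine Finset.filter_congr fun i _ => ?_
  rw [show y - i = (y - y') + (y' - i) by ring]
  exact dvd_add_right h

theorem cnt_neg (p K : ℕ) (y : ℤ) : cnt p K (-1 - y) = cnt p K y := by
  unfold cnt
  refine Finset.card_bij (fun i _ => -1 - i) ?_ ?_ ?_
  · intro i hi
    simp only [SK, Finset.mem_filter, Finset.mem_Ico] at hi ⊢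
    refine ⟨by omega, ?_⟩
    rw [show y - (-1 - i) = -(-1 - y - i) by ring]
    exact hi.2.neg_right
  · intro i _ j _ h
    linarith
  · intro i hi
    simp only [SK, Finset.mem_filter, Finset.mem_Ico] at hi
    refine ⟨-1 - i, ?_, by ring⟩
    simp only [SK, Finset.mem_filter, Finset.mem_Ico]
    refine ⟨by omega, ?_⟩
    rw [show -1 - y - (-1 - i) = -(y - i) by ring]
    exact hi.2.neg_right

theorem sum_cnt (p K : ℕ) (hp : 0 < p) : ∑ c ∈ range p, cnt p K c = 2 * K := by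
  have hp' : (0 : ℤ) < p := by exact_mod_cast hp
  have h1 : (SK K).card = 2 * K := by
    simp only [SK, Int.card_Ico]
    omega
  rw [← h1, Finset.card_eq_sum_card_fiberwise (f := fun i : ℤ => (i % p).toNat) (t := range p)]
  · refine Finset.sum_congr rfl fun c hc => ?_
    unfold cnt
    congr 1
    refine Finset.filter_congr fun i _ => ?_
    rw [Finset.mem_range] at hc
    have h0 := Int.emod_nonneg i hp'.ne'
    have hcm : (c : ℤ) % p = c := Int.emod_eq_of_lt (by omega) (by omega)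
    rw [← Int.modEq_iff_dvd, Int.ModEq, hcm]
    omega
  · intro i _
    have h0 := Int.emod_nonneg i hp'.ne'
    have h2 := Int.emod_lt_of_pos i hp'
    simp only [Finset.coe_range, Set.mem_Iio]
    omega

theorem cnt_bounds (p K : ℕ) (hp : 0 < p) (y : ℤ) :
    2 * K / p ≤ cnt p K y ∧ cnt p K y ≤ 2 * K / p + 1 := by
  have hp' : (0 : ℤ) < p := by exact_mod_cast hp
  have h := Count.cnt_eq p K hp y
  have a1 := Int.emod_nonneg (y - K) hp'.ne'
  have a2 := Int.emod_lt_of_pos (y - K) hp'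
  have a3 := Int.mul_ediv_add_emod (y - K) p
  have b2 : 2 * K % p < p := Nat.mod_lt _ hp
  have b3 : ((p * (2 * K / p) + 2 * K % p : ℕ) : ℤ) = ((2 * K : ℕ) : ℤ) := by
    rw [Nat.div_add_mod]
  generalize 2 * K / p = k at *
  generalize 2 * K % p = r at *
  push_cast at b3
  have b4 : (r : ℤ) < p := by exact_mod_cast b2
  have b5 := Int.natCast_nonneg r
  have l1 : (y - K) / p + k ≤ (y + K) / p := by
    rw [Int.le_ediv_iff_mul_le hp']
    linarith
  have l2 : (y + K) / p < (y - K) / p + k + 2 := by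
    rw [Int.ediv_lt_iff_lt_mul hp']
    linarith
  omega

theorem exists_class (p : ℕ) (hp : Odd p) (y : ℤ) :
    ∃ c < (p + 1) / 2, (p : ℤ) ∣ y - c ∨ (p : ℤ) ∣ -1 - y - c := by
  obtain ⟨q, rfl⟩ := hp
  have hp' : (0 : ℤ) < ((2 * q + 1 : ℕ) : ℤ) := by positivity
  have a1 := Int.emod_nonneg y hp'.ne'
  have a2 := Int.emod_lt_of_pos y hp'
  have a3 := Int.mul_ediv_add_emod y ((2 * q + 1 : ℕ) : ℤ)
  generalize y % ((2 * q + 1 : ℕ) : ℤ) = r at *
  generalize y / ((2 * q + 1 : ℕ) : ℤ) = m at *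
  obtain ⟨r, rfl⟩ := Int.eq_ofNat_of_zero_le a1
  by_cases h : r ≤ q
  · exact ⟨r, by omega, Or.inl ⟨m, by linarith⟩⟩
  · refine ⟨2 * q - r, by omega, Or.inr ⟨-m - 1, ?_⟩⟩
    rw [Nat.cast_sub (by omega), ← a3]
    push_cast
    ring

theorem cnt_small (p u c : ℕ) (h : 2 * u < p) (hc : c < (p + 1) / 2) :
    cnt p u c = if c < u then 1 else 0 := by
  have h0 := Count.cnt_eq p u (by omega) c
  have e1 : ((c : ℤ) + u) / p = 0 := by
    apply Count.ediv_eq <;> omega
  have e2 : ((c : ℤ) - u) / p = if c < u then -1 else 0 := by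
    apply Count.ediv_eq <;> split_ifs <;> omega
  rw [e1, e2] at h0
  split_ifs at h0 ⊢ <;> omega

theorem cnt_le_six (p K : ℕ) (h : K < 3 * p) (y : ℤ) : cnt p K y ≤ 6 := by
  have hp : 0 < p := by omega
  have h1 := (cnt_bounds p K hp y).2
  have h2 : 2 * K / p < 6 := (Nat.div_lt_iff_lt_mul hp).mpr (by omega)
  omega

theorem two_le_cnt (p K : ℕ) (hp : 0 < p) (h : p ≤ K) (y : ℤ) : 2 ≤ cnt p K y := by
  have h1 := (cnt_bounds p K hp y).1
  have h2 : 2 ≤ 2 * K / p := (Nat.le_div_iff_mul_le hp).mpr (by omega)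
  omega

theorem cnt_deep (p K : ℕ) (hp : 0 < p) (h : p ≤ K) (y : ℤ) :
    ((SK K \ SK p).filter fun i : ℤ => (p : ℤ) ∣ y - i).card = cnt p K y - 2 := by
  rw [← Count.cnt_self p hp y]
  unfold cnt
  have hs : SK p ⊆ SK K := by
    intro i hi
    simp only [SK, Finset.mem_Ico] at hi ⊢
    omega
  rw [← Finset.card_sdiff_of_subset (Finset.filter_subset_filter _ hs)]
  congr 1
  ext i
  simp only [Finset.mem_filter, Finset.mem_sdiff]
  tauto

theorem count_large (u p : ℕ) (hp : Odd p) (h : 14 * u < 3 * p) :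
    ∑ c ∈ range ((p + 1) / 2), (9 * ((cnt p (14 * u) c - 2 : ℕ) : ℝ)
      - (if c < u then 4 * ((cnt p (14 * u) c - 2 : ℕ) : ℝ)
          + ((min (cnt p (14 * u) c - 2) 1 : ℕ) : ℝ) else 0)
      + (if cnt p (14 * u) c - 2 = 4 then 1 else 0))
      + ((18 * u - max (14 * u - p) (p + u) : ℕ) : ℝ) ≤ lossL u p := by
  have hp0 : 0 < p := by omega
  have e5 : ((18 * u - max (14 * u - p) (p + u) : ℕ) : ℝ) =
      max (17 * (u : ℝ) - p) 0 - max (13 * (u : ℝ) - 2 * p) 0 := by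
    have : ((18 * u - max (14 * u - p) (p + u) : ℕ) : ℤ) =
        max (17 * (u : ℤ) - p) 0 - max (13 * (u : ℤ) - 2 * p) 0 := by omega
    exact_mod_cast this
  rw [e5]
  unfold lossL
  by_cases hK : p ≤ 14 * u
  swap
  · have hb : ∀ c : ℕ, cnt p (14 * u) c - 2 = 0 := by
      intro c
      have h1 := (cnt_bounds p (14 * u) hp0 c).2
      have h2 : 2 * (14 * u) / p < 2 := (Nat.div_lt_iff_lt_mul hp0).mpr (by omega)
      omega
    have hK' : 14 * (u : ℝ) < p := by exact_mod_cast not_le.mp hK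
    have hu : (0 : ℝ) ≤ u := Nat.cast_nonneg u
    rw [Finset.sum_eq_zero (fun c _ => by simp [hb c]), if_neg (not_le.mpr hK'),
      max_eq_right (by linarith : 14 * (u : ℝ) - p ≤ 0),
      max_eq_right (by linarith : 13 * (u : ℝ) - p ≤ 0),
      max_eq_right (by linarith : 15 * (u : ℝ) - 2 * p ≤ 0),
      max_eq_right (by linarith : 13 * (u : ℝ) - 2 * p ≤ 0),
      max_eq_right (by linarith : 15 * (u : ℝ) - 3 * p ≤ 0),
      max_eq_right (by linarith : 14 * (u : ℝ) - 5 * p / 2 ≤ 0)]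
    linarith
  have hK' : (p : ℝ) ≤ 14 * u := by exact_mod_cast hK
  rw [if_pos hK', max_eq_left (by linarith : 0 ≤ 14 * (u : ℝ) - p)]
  obtain ⟨q, hq⟩ := hp
  have hh : (p + 1) / 2 = q + 1 := by omega
  rw [hh]
  have key : ∀ c ∈ range (q + 1), (9 * ((cnt p (14 * u) c - 2 : ℕ) : ℝ)
      - (if c < u then 4 * ((cnt p (14 * u) c - 2 : ℕ) : ℝ)
          + ((min (cnt p (14 * u) c - 2) 1 : ℕ) : ℝ) else 0)
      + (if cnt p (14 * u) c - 2 = 4 then 1 else 0)) ≤
      19 + 9 * (if c < 14 * u - p then (1 : ℝ) else 0)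
        + 9 * (if c < 14 * u - 2 * p then (1 : ℝ) else 0)
        - 9 * (if c < 2 * p - 14 * u then (1 : ℝ) else 0)
        - 10 * (if c < 3 * p - 14 * u then (1 : ℝ) else 0)
        - 5 * (if c < min u (14 * u - p) then (1 : ℝ) else 0)
        - 4 * (if c < min u (14 * u - 2 * p) then (1 : ℝ) else 0)
        - 8 * (if c < u then (1 : ℝ) else 0)
        + 4 * (if c < min u (2 * p - 14 * u) then (1 : ℝ) else 0)
        + 4 * (if c < min u (3 * p - 14 * u) then (1 : ℝ) else 0) := by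
    intro c hc
    rw [Finset.mem_range] at hc
    rw [Count.cnt_large p (14 * u) c hK h (by omega)]
    simp only [lt_min_iff]
    by_cases h0 : c < u <;> by_cases h1 : c < 14 * u - p <;> by_cases h2 : c < 14 * u - 2 * p <;>
      by_cases h3 : c < 2 * p - 14 * u <;> by_cases h4 : c < 3 * p - 14 * u <;>
      simp only [h0, h1, h2, h3, h4, if_true, if_false, and_true, and_false, true_and,
        false_and, and_self] <;> norm_num
  have hs := Finset.sum_le_sum key
  simp only [Finset.sum_add_distrib, Finset.sum_sub_distrib, ← Finset.mul_sum, Count.sum_lt,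
    Finset.sum_const, Finset.card_range, nsmul_eq_mul] at hs
  simp only [Finset.sum_add_distrib, Finset.sum_sub_distrib, ← Finset.mul_sum]
  have e0 : ((min (q + 1) (14 * u - p) : ℕ) : ℝ) + ((min (q + 1) (14 * u - 2 * p) : ℕ) : ℝ)
      - ((min (q + 1) (2 * p - 14 * u) : ℕ) : ℝ) - ((min (q + 1) (3 * p - 14 * u) : ℕ) : ℝ)
      + 2 * ((q + 1 : ℕ) : ℝ) ≤ 14 * (u : ℝ) - p + 2 := by
    have : ((min (q + 1) (14 * u - p) : ℕ) : ℤ) + ((min (q + 1) (14 * u - 2 * p) : ℕ) : ℤ)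
      - ((min (q + 1) (2 * p - 14 * u) : ℕ) : ℤ) - ((min (q + 1) (3 * p - 14 * u) : ℕ) : ℤ)
      + 2 * ((q + 1 : ℕ) : ℤ) ≤ 14 * (u : ℤ) - p + 2 := by omega
    exact_mod_cast this
  have e1 : ((min (q + 1) (min u (14 * u - p)) : ℕ) : ℝ) =
      14 * (u : ℝ) - p - max (13 * (u : ℝ) - p) 0 := by
    have : ((min (q + 1) (min u (14 * u - p)) : ℕ) : ℤ) =
      14 * (u : ℤ) - p - max (13 * (u : ℤ) - p) 0 := by omega
    exact_mod_cast this
  have e2 : ((min (q + 1) (min u (14 * u - 2 * p)) : ℕ) : ℝ) + ((min (q + 1) u : ℕ) : ℝ)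
      - ((min (q + 1) (min u (2 * p - 14 * u)) : ℕ) : ℝ) =
      max (15 * (u : ℝ) - 2 * p) 0 - max (13 * (u : ℝ) - 2 * p) 0 := by
    have : ((min (q + 1) (min u (14 * u - 2 * p)) : ℕ) : ℤ) + ((min (q + 1) u : ℕ) : ℤ)
      - ((min (q + 1) (min u (2 * p - 14 * u)) : ℕ) : ℤ) =
      max (15 * (u : ℤ) - 2 * p) 0 - max (13 * (u : ℤ) - 2 * p) 0 := by omega
    exact_mod_cast this
  have e3 : ((min (q + 1) u : ℕ) : ℝ) - ((min (q + 1) (min u (3 * p - 14 * u)) : ℕ) : ℝ) =
      max (15 * (u : ℝ) - 3 * p) 0 := by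
    have : ((min (q + 1) u : ℕ) : ℤ) - ((min (q + 1) (min u (3 * p - 14 * u)) : ℕ) : ℤ) =
      max (15 * (u : ℤ) - 3 * p) 0 := by omega
    exact_mod_cast this
  have e4 : ((q + 1 : ℕ) : ℝ) - ((min (q + 1) (3 * p - 14 * u) : ℕ) : ℝ) ≤
      max (14 * (u : ℝ) - 5 * p / 2) 0 + 1 / 2 := by
    have : 2 * (((q + 1 : ℕ) : ℤ) - ((min (q + 1) (3 * p - 14 * u) : ℕ) : ℤ)) ≤
      max (28 * (u : ℤ) - 5 * p) 0 + 1 := by omega
    have h2 : 2 * (((q + 1 : ℕ) : ℝ) - ((min (q + 1) (3 * p - 14 * u) : ℕ) : ℝ)) ≤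
      max (28 * (u : ℝ) - 5 * p) 0 + 1 := by exact_mod_cast this
    have h3 : max (28 * (u : ℝ) - 5 * p) 0 ≤ 2 * max (14 * (u : ℝ) - 5 * p / 2) 0 := by
      have := le_max_left (14 * (u : ℝ) - 5 * p / 2) 0
      have := le_max_right (14 * (u : ℝ) - 5 * p / 2) 0
      exact max_le (by linarith) (by linarith)
    linarith
  linarith

end Pool.Agent.P.MP_a89d6d_nt.Z57
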