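import Pool.Agent.P.MP_a89d6d_nt.Z23.Large
import Pool.Agent.P.MP_a89d6d_nt.Z23.Integral1

/-!
Definitions for the theorem that `1, zeta(3), zeta(j)` are linearly independent over the rationals
for some `j` in `{5, 7}`. For odd `s` the functional `LZ s S N + zeta(s) * RZ S N` acts on the
rational function `N / DZ S` with simple poles at the integers of `S`. Formally it is the sum over
`m ≥ 0` of `F^(s-1)(m) / (s-1)!`, made odd under `z ↦ -1-z`.
-/

namespace Pool.Agent.P.MP_a89d6d_nt.Z57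

open Polynomial Finset
open Pool.Agent.P.MP_a89d6d_nt.Z23 (H ff)

/-- An antidifference: `(sig Q)(z+1) - (sig Q)(z) = Q(z)`. -/
noncomputable def sig : ℚ[X] →ₗ[ℚ] ℚ[X] :=
  (Polynomial.basisMonomials ℚ).constr ℚ fun e => ((e : ℚ) + 1)⁻¹ • Polynomial.bernoulli (e + 1)

/-- The functional on polynomials: minus the `k`-th coefficient of the antidifference. -/
noncomputable def lp (k : ℕ) : ℚ[X] →ₗ[ℚ] ℚ := -(Polynomial.lcoeff ℚ k ∘ₗ sig)

/-- Harmonic number attached to the pole `i`. -/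
def hz (s : ℕ) (i : ℤ) : ℚ := if 0 ≤ i then H s i.toNat else H s (-1 - i).toNat

/-- The denominator with simple zeros at the points of `S`. -/
noncomputable def DZ (S : Finset ℤ) : ℚ[X] := ∏ i ∈ S, (X - C (i : ℚ))

/-- Residue of `N / DZ S` at `i`. -/
noncomputable def res (S : Finset ℤ) (N : ℚ[X]) (i : ℤ) : ℚ :=
  N.eval (i : ℚ) / ∏ j ∈ S.erase i, ((i : ℚ) - (j : ℚ))

/-- The rational part of the functional of level `s` on `N / DZ S`. -/
noncomputable def LZ (s : ℕ) (S : Finset ℤ) (N : ℚ[X]) : ℚ :=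
  lp (s - 1) (N /ₘ DZ S) - ∑ i ∈ S, res S N i * hz s i

/-- The sum of the residues, the coefficient of `zeta(s)`. -/
noncomputable def RZ (S : Finset ℤ) (N : ℚ[X]) : ℚ := ∑ i ∈ S, res S N i

/-- The integers `-K, ..., K-1`. -/
noncomputable def SK (K : ℕ) : Finset ℤ := Ico (-(K : ℤ)) (K : ℤ)

/-- Substitution `T = z (z+1)`. -/
noncomputable def tr : ℚ[X] →ₐ[ℚ] ℚ[X] := aeval (X * (X + 1))

/-- The node `j (j+1)`. -/
def tau (j : ℕ) : ℚ := (j : ℚ) * ((j : ℚ) + 1)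

/-- The product of `T - j (j+1)` over `j < m`. -/
noncomputable def WT (m : ℕ) : ℚ[X] := ∏ j ∈ range m, (X - C (tau j))

/-- The numerator in the variable `z`. -/
noncomputable def num (m u : ℕ) (P : ℚ[X]) : ℚ[X] := (2 * X + 1) * tr (WT u ^ m * P)

/-- The functional `a L_3 + b L_s`, with `x` standing for `a zeta(3) + b zeta(s)`. -/
noncomputable def FF (s : ℕ) (a b x : ℚ) (m u : ℕ) (P : ℚ[X]) : ℚ :=
  a * LZ 3 (SK (14 * u)) (num m u P) + b * LZ s (SK (14 * u)) (num m u P)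
    + x * RZ (SK (14 * u)) (num m u P)

/-- Coefficients of two relations `xA = a3 zeta(3) + a5 zeta(5)`, `xB = b3 zeta(3) + b7 zeta(7)`. -/
structure Par where
  a3 : ℤ
  a5 : ℤ
  xA : ℤ
  b3 : ℤ
  b7 : ℤ
  xB : ℤ

/-- The first row functional. -/
noncomputable def FA (c : Par) (u : ℕ) : ℚ[X] → ℚ := FF 5 c.a3 c.a5 c.xA 3 u

/-- The second row functional. -/
noncomputable def FB (c : Par) (u : ℕ) : ℚ[X] → ℚ := FF 7 c.b3 c.b7 c.xB 5 u

/-- The matrix with `a` rows for `F` and `b` rows for `G`. -/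
noncomputable def hmat {R : Type} (F G : ℚ[X] → R) (a b : ℕ) (φ χ ψ : ℕ → ℚ[X]) :
    Matrix (Fin (a + b)) (Fin (a + b)) R :=
  Matrix.of fun t k => if (t : ℕ) < a then F (φ t * ψ k) else G (χ (t - a) * ψ k)

/-- The determinant in the monomial bases. -/
noncomputable def hdet {R : Type} [CommRing R] (F G : ℚ[X] → R) (a b : ℕ) : R :=
  (hmat F G a b (fun t => X ^ t) (fun t => X ^ t) (fun t => X ^ t)).det

/-- The determinant of size `18 u`. -/
noncomputable def Delta (c : Par) (u : ℕ) : ℚ := hdet (FA c u) (FB c u) (10 * u) (8 * u)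

/-- The first `h` members of the family are monic of the right degree. -/
def Mon (φ : ℕ → ℚ[X]) (h : ℕ) : Prop := ∀ t < h, (φ t).Monic ∧ (φ t).natDegree = t

/-- Number of `i` in `-K, ..., K-1` congruent to `y` modulo `p`. -/
noncomputable def cnt (p K : ℕ) (y : ℤ) : ℕ := ((SK K).filter fun i : ℤ => (p : ℤ) ∣ y - i).card

/-- The `p`-adic norm of a rational number. -/
noncomputable abbrev nr (p : ℕ) [Fact p.Prime] (q : ℚ) : ℝ := ‖(q : ℚ_[p])‖

/-- All coefficients have valuation at least `e`. -/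
def PN (p : ℕ) [Fact p.Prime] (Q : ℚ[X]) (e : ℤ) : Prop :=
  ∀ d, nr p (Q.coeff d) ≤ (p : ℝ) ^ (-e)

/-- The polynomial in the local variable `w`, `z = c + p w`. -/
noncomputable def loc (p c : ℕ) (Q : ℚ[X]) : ℚ[X] := Q.comp (C (c : ℚ) + C (p : ℚ) * X)

/-- On the class of `c`, `N` is `p ^ e * G` up to higher order. -/
def Ap (p : ℕ) [Fact p.Prime] (c : ℕ) (N : ℚ[X]) (e : ℕ) (G : ℚ[X]) : Prop :=
  PN p (loc p c N - C ((p : ℚ) ^ e) * G) (e + 1)

/-- The value of `T = z (z+1)` at `z = -1/2 + i y`. -/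
noncomputable def tt (y : ℝ) : ℝ := -y ^ 2 - 1 / 4

/-- The polynomial factor of the kernel of level `s`, for `s = 3, 5, 7`. -/
noncomputable def qs (s : ℕ) (σ : ℝ) : ℝ :=
  if s = 3 then 1 / 2 else if s = 5 then -(Real.pi ^ 2 * (1 - 3 * σ) / 6)
  else Real.pi ^ 4 * (2 - 30 * σ + 45 * σ ^ 2) / 90

/-- The kernel of level `s`. -/
noncomputable def oms (s : ℕ) (y : ℝ) : ℂ :=
  Complex.I * ((Real.pi ^ 2 * Z23.Integral.sh y * Z23.Integral.th y *
    qs s (Z23.Integral.sh y) : ℝ) : ℂ)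

/-- The weighted size of `WT u ^ (2 κ + 1) * P / WT (14 u - 2)` at `tt y`. -/
noncomputable def wt (κ u : ℕ) (P : ℚ[X]) (y : ℝ) : ℝ :=
  Real.exp (-2 * Real.pi * κ * |y|) * |aeval (tt y) (WT u)| ^ (2 * κ + 1) * |aeval (tt y) P| /
    |aeval (tt y) (WT (14 * u - 2))|

/-- Monic Chebyshev-type polynomials in `T` for the segment `0 ≤ y ^ 2 ≤ c ^ 2`. -/
noncomputable def chebT (c : ℚ) : ℕ → ℚ[X]
  | 0 => 1
  | 1 => X + C (1 / 4 + c ^ 2 / 2)
  | (d + 2) => (X + C (1 / 4 + c ^ 2 / 2)) * chebT c (d + 1) - C (c ^ 4 / 16) * chebT c d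

/-- Cumulative mass function of the weight. -/
noncomputable def TT (κ u : ℕ) (v : ℝ) : ℝ :=
  2 * κ * v - 2 * κ * ∑ i ∈ range u, ff v ((i : ℝ) + 1 / 2)
    + ∑ j ∈ Ico u (14 * u - 2), ff v ((j : ℝ) + 1 / 2)

/-- The loss at the primes above `14 u / 3`. -/
noncomputable def lossL (u p : ℝ) : ℝ :=
  4 * max (14 * u - p) 0 + 5 * max (13 * u - p) 0 + max (17 * u - p) 0
    - 4 * max (15 * u - 2 * p) 0 + 3 * max (13 * u - 2 * p) 0 - 4 * max (15 * u - 3 * p) 0
    + max (14 * u - 5 * p / 2) 0 + if p ≤ 14 * u then 19 else 0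

end Pool.Agent.P.MP_a89d6d_nt.Z57
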