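import Pool.Agent.P.MP_a89d6d_nt.Z57.Defs

/-!
Linear algebra for the determinant `hdet`: change of basis, a row operation and the Leibniz bounds.
-/

namespace Pool.Agent.P.MP_a89d6d_nt.Z57

open Polynomial Finset Filter MeasureTheory
open Pool.Agent.P.MP_a89d6d_nt.Z23 (H W nc ach ff zpt)
open Pool.Agent.P.MP_a89d6d_nt.Z23.Large (IsZ)

namespace Det

theorem expand_left {R : Type} [CommRing R] [Algebra ℚ R] (F : ℚ[X] → R) (hF : IsLinearMap ℚ F)
    (P Q : ℚ[X]) (m : ℕ) (hP : P.natDegree < m) :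
    F (P * Q) = ∑ s ∈ range m, algebraMap ℚ R (P.coeff s) * F (X ^ s * Q) := by
  have e : P * Q = ∑ s ∈ range m, P.coeff s • (X ^ s * Q) := by
    conv_lhs => rw [P.as_sum_range' m hP, Finset.sum_mul]
    refine Finset.sum_congr rfl fun s _ => ?_
    rw [← C_mul_X_pow_eq_monomial, smul_eq_C_mul, mul_assoc]
  have := map_sum (IsLinearMap.mk' F hF) (fun s => P.coeff s • (X ^ s * Q)) (range m)
  simp only [IsLinearMap.mk'_apply, hF.map_smul] at this
  rw [e, this]
  exact Finset.sum_congr rfl fun s _ => Algebra.smul_def _ _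

/-- The row coefficient matrix. -/
noncomputable def C1 (R : Type) [CommRing R] [Algebra ℚ R] (a b : ℕ) {ι : Type} (side : ι → Prop)
    [DecidablePred side] (φ : ι → ℚ[X]) : Matrix ι (Fin (a + b)) R :=
  Matrix.of fun i s => if side i then (if (s : ℕ) < a then algebraMap ℚ R ((φ i).coeff s) else 0)
    else (if (s : ℕ) < a then 0 else algebraMap ℚ R ((φ i).coeff (s - a)))

/-- The column coefficient matrix. -/
noncomputable def C2 (R : Type) [CommRing R] [Algebra ℚ R] (n : ℕ) {ι : Type}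
    (ψ : ι → ℚ[X]) : Matrix (Fin n) ι R :=
  Matrix.of fun t k => algebraMap ℚ R ((ψ k).coeff t)

theorem factor {R : Type} [CommRing R] [Algebra ℚ R] (F G : ℚ[X] → R)
    (hF : IsLinearMap ℚ F) (hG : IsLinearMap ℚ G) (a b : ℕ) {ι : Type} (side : ι → Prop)
    [DecidablePred side] (φ ψ : ι → ℚ[X])
    (hφ : ∀ i, (φ i).natDegree < if side i then a else b) (hψ : ∀ i, (ψ i).natDegree < a + b) :
    (Matrix.of fun i k => if side i then F (φ i * ψ k) else G (φ i * ψ k)) =
      C1 R a b side φ * (hmat F G a b (fun t => X ^ t) (fun t => X ^ t) (fun t => X ^ t) *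
        C2 R (a + b) ψ) := by
  ext i k
  have key : ∀ (E : ℚ[X] → R), IsLinearMap ℚ E → ∀ s : ℕ,
      ∑ t : Fin (a + b), E (X ^ s * X ^ (t : ℕ)) * algebraMap ℚ R ((ψ k).coeff t) =
        E (X ^ s * ψ k) := by
    intro E hE s
    rw [mul_comm (X ^ s) (ψ k), expand_left E hE (ψ k) (X ^ s) (a + b) (hψ k),
      ← Fin.sum_univ_eq_sum_range (fun t => algebraMap ℚ R ((ψ k).coeff t) * E (X ^ t * X ^ s))]
    exact Finset.sum_congr rfl fun t _ => by rw [mul_comm, mul_comm (X ^ s)]
  have row : ∀ s : Fin (a + b),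
      (hmat F G a b (fun t => X ^ t) (fun t => X ^ t) (fun t => X ^ t) * C2 R (a + b) ψ) s k =
        if (s : ℕ) < a then F (X ^ (s : ℕ) * ψ k) else G (X ^ ((s : ℕ) - a) * ψ k) := by
    intro s
    rw [Matrix.mul_apply]
    by_cases hs : (s : ℕ) < a
    · simp only [hmat, C2, Matrix.of_apply, hs, if_true]
      exact key F hF s
    · simp only [hmat, C2, Matrix.of_apply, hs, if_false]
      exact key G hG _
  rw [Matrix.mul_apply]
  simp only [row, C1, Matrix.of_apply]
  have hi := hφ i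
  rw [Fin.sum_univ_add]
  by_cases h : side i
  · simp only [h, if_true] at hi ⊢
    rw [expand_left F hF _ _ a hi,
      ← Fin.sum_univ_eq_sum_range (fun s => algebraMap ℚ R ((φ i).coeff s) * F (X ^ s * ψ k))]
    simp
  · simp only [h, if_false] at hi ⊢
    rw [expand_left G hG _ _ b hi,
      ← Fin.sum_univ_eq_sum_range (fun s => algebraMap ℚ R ((φ i).coeff s) * G (X ^ s * ψ k))]
    simp

theorem abs_det_le {m : ℕ} (M : Matrix (Fin m) (Fin m) ℝ) (r s : Fin m → ℝ)
    (h : ∀ i k, |M i k| ≤ r i * s k) :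
    |M.det| ≤ (m.factorial : ℝ) * ((∏ i, r i) * ∏ i, s i) := by
  rw [Matrix.det_apply]
  refine (abs_sum_le_sum_abs _ _).trans ?_
  have key : ∀ σ : Equiv.Perm (Fin m),
      |Equiv.Perm.sign σ • ∏ i, M (σ i) i| ≤ (∏ i, r i) * ∏ i, s i := by
    intro σ
    have e : |Equiv.Perm.sign σ • ∏ i, M (σ i) i| = ∏ i, |M (σ i) i| := by
      rw [← Finset.abs_prod]
      rcases Int.units_eq_one_or (Equiv.Perm.sign σ) with h1 | h1 <;> simp [h1]
    rw [e, ← Equiv.prod_comp σ r, ← Finset.prod_mul_distrib]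
    exact Finset.prod_le_prod (fun i _ => abs_nonneg _) fun i _ => h _ _
  calc _ ≤ ∑ _σ : Equiv.Perm (Fin m), (∏ i, r i) * ∏ i, s i := Finset.sum_le_sum fun σ _ => key σ
    _ = _ := by simp [Fintype.card_perm]

theorem prod_split (a b : ℕ) (f g : ℕ → ℝ) :
    ∏ t : Fin (a + b), (if (t : ℕ) < a then f t else g (t - a)) =
      (∏ t ∈ range a, f t) * ∏ t ∈ range b, g t := by
  rw [Fin.prod_univ_add, ← Fin.prod_univ_eq_prod_range f, ← Fin.prod_univ_eq_prod_range g]
  simp

end Det

theorem hmat_det_monic {R : Type} [CommRing R] [Algebra ℚ R] (F G : ℚ[X] → R)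
    (hF : IsLinearMap ℚ F) (hG : IsLinearMap ℚ G) (a b : ℕ) (φ χ ψ : ℕ → ℚ[X])
    (hφ : Mon φ a) (hχ : Mon χ b) (hψ : Mon ψ (a + b)) :
    (hmat F G a b φ χ ψ).det = hdet F G a b := by
  have hf := Det.factor F G hF hG a b (fun t : Fin (a + b) => (t : ℕ) < a)
    (fun t => if (t : ℕ) < a then φ t else χ (t - a)) (fun k => ψ k)
    (fun t => by
      by_cases h : (t : ℕ) < a
      · simp only [h, if_true]
        rw [(hφ t h).2]; exact h
      · simp only [h, if_false]
        have h2 : (t : ℕ) - a < b := by have := t.2; omega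
        rw [(hχ _ h2).2]; exact h2)
    (fun k => by rw [(hψ k k.2).2]; exact k.2)
  have e : hmat F G a b φ χ ψ = Matrix.of fun i k : Fin (a + b) =>
      if (i : ℕ) < a then F ((if (i : ℕ) < a then φ i else χ (i - a)) * ψ k)
      else G ((if (i : ℕ) < a then φ i else χ (i - a)) * ψ k) := by
    ext i k
    by_cases h : (i : ℕ) < a <;> simp [hmat, h]
  rw [e, hf, Matrix.det_mul, Matrix.det_mul]
  have d1 : (Det.C1 R a b (fun t : Fin (a + b) => (t : ℕ) < a)
      (fun t => if (t : ℕ) < a then φ t else χ (t - a))).det = 1 := by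
    rw [Matrix.det_of_isLowerTriangular]
    · refine Finset.prod_eq_one fun t _ => ?_
      by_cases h : (t : ℕ) < a
      · simp only [Det.C1, Matrix.of_apply, h, if_true]
        have := (hφ t h).1.coeff_natDegree
        rw [(hφ t h).2] at this
        rw [this, map_one]
      · simp only [Det.C1, Matrix.of_apply, h, if_false]
        have h2 : (t : ℕ) - a < b := by have := t.2; omega
        have := (hχ _ h2).1.coeff_natDegree
        rw [(hχ _ h2).2] at this
        rw [this, map_one]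
    · intro t s hts
      have hts' : (t : ℕ) < s := hts
      by_cases h : (t : ℕ) < a
      · simp only [Det.C1, Matrix.of_apply, h, if_true]
        rw [coeff_eq_zero_of_natDegree_lt (by rw [(hφ t h).2]; exact hts')]
        simp
      · simp only [Det.C1, Matrix.of_apply, h, if_false]
        have h2 : (t : ℕ) - a < b := by have := t.2; omega
        rw [coeff_eq_zero_of_natDegree_lt (by rw [(hχ _ h2).2]; omega)]
        simp
  have d2 : (Det.C2 R (a + b) (fun k : Fin (a + b) => ψ k)).det = 1 := by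
    rw [Matrix.det_of_isUpperTriangular]
    · refine Finset.prod_eq_one fun t _ => ?_
      simp only [Det.C2, Matrix.of_apply]
      have := (hψ t t.2).1.coeff_natDegree
      rw [(hψ t t.2).2] at this
      rw [this, map_one]
    · intro t s hts
      have hts' : (s : ℕ) < t := hts
      simp only [Det.C2, Matrix.of_apply]
      rw [coeff_eq_zero_of_natDegree_lt (by rw [(hψ s s.2).2]; exact hts')]
      simp
  rw [d1, d2, one_mul, mul_one, hdet]

theorem hdet_ne_zero_of (F G : ℚ[X] → ℚ) (hF : IsLinearMap ℚ F) (hG : IsLinearMap ℚ G) (a b : ℕ)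
    {ι : Type} [Fintype ι] [DecidableEq ι] (hι : Fintype.card ι = a + b) (side : ι → Prop)
    [DecidablePred side] (φ ψ : ι → ℚ[X])
    (hφ : ∀ i, (φ i).natDegree < if side i then a else b) (hψ : ∀ i, (ψ i).natDegree < a + b)
    (h : (Matrix.of fun i k => if side i then F (φ i * ψ k) else G (φ i * ψ k)).det ≠ 0) :
    hdet F G a b ≠ 0 := by
  intro h0
  apply h
  rw [Det.factor F G hF hG a b side φ ψ hφ hψ]
  let e := Fintype.equivFinOfCardEq hι
  rw [← Matrix.det_submatrix_equiv_self e.symm,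
    Matrix.submatrix_mul _ _ _ id _ Function.bijective_id,
    Matrix.submatrix_mul _ _ _ id _ Function.bijective_id, Matrix.det_mul, Matrix.det_mul,
    Matrix.submatrix_id_id]
  rw [hdet] at h0
  rw [h0, zero_mul, mul_zero]

theorem hdet_rowop (F G : ℚ[X] → ℝ) (hF : IsLinearMap ℚ F) (a b : ℕ)
    (V : ℚ[X]) (hV : V.natDegree + b ≤ a) (κ : ℝ) :
    hdet F (fun P => G P - κ * F (V * P)) a b = hdet F G a b := by
  let E : Matrix (Fin (a + b)) (Fin (a + b)) ℝ := Matrix.of fun t s =>
    if (t : ℕ) < a then 0 else if (s : ℕ) < a then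
      κ * algebraMap ℚ ℝ ((V * X ^ ((t : ℕ) - a)).coeff s) else 0
  have e : hmat F (fun P => G P - κ * F (V * P)) a b (fun t => X ^ t) (fun t => X ^ t)
      (fun t => X ^ t) =
      (1 - E) * hmat F G a b (fun t => X ^ t) (fun t => X ^ t) (fun t => X ^ t) := by
    rw [Matrix.sub_mul, Matrix.one_mul]
    ext t k
    rw [Matrix.sub_apply, Matrix.mul_apply]
    by_cases h : (t : ℕ) < a
    · simp [hmat, E, h]
    · have h2 : (V * X ^ ((t : ℕ) - a)).natDegree < a := by
        refine lt_of_le_of_lt natDegree_mul_le ?_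
        rw [natDegree_X_pow]
        have := t.2
        omega
      simp only [hmat, E, Matrix.of_apply, h, if_false]
      rw [← mul_assoc V, Det.expand_left F hF _ _ a h2, Fin.sum_univ_add,
        ← Fin.sum_univ_eq_sum_range (fun s => algebraMap ℚ ℝ (Polynomial.coeff
          (V * X ^ ((t : ℕ) - a) : ℚ[X]) s) * F (X ^ s * X ^ (k : ℕ))) a, Finset.mul_sum]
      simp [mul_assoc]
  have d : (1 - E).det = 1 := by
    rw [Matrix.det_of_isLowerTriangular]
    · refine Finset.prod_eq_one fun t _ => ?_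
      by_cases h : (t : ℕ) < a <;> simp [E, h]
    · intro t s hts
      have hts' : (t : ℕ) < s := hts
      have hne : t ≠ s := fun h => by rw [h] at hts'; exact lt_irrefl _ hts'
      by_cases h : (t : ℕ) < a
      · simp [E, h, hne]
      · have h3 : ¬ (s : ℕ) < a := by omega
        simp [E, h, h3, hne]
  rw [hdet, hdet, e, Matrix.det_mul, d, one_mul]

theorem hdet_cast (F G : ℚ[X] → ℚ) (a b : ℕ) :
    ((hdet F G a b : ℚ) : ℝ) = hdet (fun P => (F P : ℝ)) (fun P => (G P : ℝ)) a b := by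
  have := RingHom.map_det (Rat.castHom ℝ)
    (hmat F G a b (fun t => X ^ t) (fun t => X ^ t) (fun t => X ^ t))
  rw [hdet, hdet]
  refine this.trans ?_
  congr 1
  ext t k
  by_cases h : (t : ℕ) < a <;> simp [hmat, h]

theorem val_ge_of_levels (p : ℕ) [Fact p.Prime] (F G : ℚ[X] → ℚ) (hF : IsLinearMap ℚ F)
    (hG : IsLinearMap ℚ G) (a b : ℕ) (φ χ ψ : ℕ → ℚ[X])
    (hφ : Mon φ a) (hχ : Mon χ b) (hψ : Mon ψ (a + b)) (lA lB lC : ℕ → ℝ)
    (hA : ∀ t < a, ∀ k < a + b, nr p (F (φ t * ψ k)) ≤ (p : ℝ) ^ (-(lA t + lC k)))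
    (hB : ∀ t < b, ∀ k < a + b, nr p (G (χ t * ψ k)) ≤ (p : ℝ) ^ (-(lB t + lC k)))
    (h0 : hdet F G a b ≠ 0) :
    ∑ t ∈ range a, lA t + ∑ t ∈ range b, lB t + ∑ k ∈ range (a + b), lC k ≤
      (padicValRat p (hdet F G a b) : ℝ) := by
  have hp : (0 : ℝ) < p := by exact_mod_cast (Fact.out : p.Prime).pos
  refine Z23.le_val_of_norm_le p _ h0 _ ?_
  rw [← hmat_det_monic F G hF hG a b φ χ ψ hφ hχ hψ]
  have hb := Z23.det_norm_le p (hmat F G a b φ χ ψ)
    (fun t => if (t : ℕ) < a then (p : ℝ) ^ (-lA t) else (p : ℝ) ^ (-lB (t - a)))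
    (fun k => (p : ℝ) ^ (-lC k))
    (fun t => by split_ifs <;> positivity) (fun k => by positivity)
    (fun t k => by
      by_cases h : (t : ℕ) < a
      · simp only [hmat, Matrix.of_apply, h, if_true]
        rw [← Real.rpow_add hp, ← neg_add]
        exact hA t h k k.2
      · simp only [hmat, Matrix.of_apply, h, if_false]
        rw [← Real.rpow_add hp, ← neg_add]
        exact hB _ (by have := t.2; omega) k k.2)
  refine hb.trans (le_of_eq ?_)
  rw [Det.prod_split a b (fun t => (p : ℝ) ^ (-lA t)) (fun t => (p : ℝ) ^ (-lB t)),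
    Fin.prod_univ_eq_prod_range (fun k => (p : ℝ) ^ (-lC k)), ← Real.rpow_sum_of_pos hp,
    ← Real.rpow_sum_of_pos hp, ← Real.rpow_sum_of_pos hp, ← Real.rpow_add hp, ← Real.rpow_add hp]
  simp only [Finset.sum_neg_distrib]
  congr 1
  ring

theorem abs_hdet_le (F G : ℚ[X] → ℝ) (hF : IsLinearMap ℚ F) (hG : IsLinearMap ℚ G) (a b : ℕ)
    (φ χ ψ : ℕ → ℚ[X]) (hφ : Mon φ a) (hχ : Mon χ b) (hψ : Mon ψ (a + b)) (BA BB BC : ℕ → ℝ)
    (hA : ∀ t < a, ∀ k < a + b, |F (φ t * ψ k)| ≤ BA t * BC k)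
    (hB : ∀ t < b, ∀ k < a + b, |G (χ t * ψ k)| ≤ BB t * BC k) :
    |hdet F G a b| ≤ ((a + b).factorial : ℝ) *
      ((∏ t ∈ range a, BA t) * (∏ t ∈ range b, BB t) * ∏ k ∈ range (a + b), BC k) := by
  rw [← hmat_det_monic F G hF hG a b φ χ ψ hφ hχ hψ]
  have hb := Det.abs_det_le (hmat F G a b φ χ ψ)
    (fun t => if (t : ℕ) < a then BA t else BB (t - a)) (fun k => BC k)
    (fun t k => by
      by_cases h : (t : ℕ) < a
      · simp only [hmat, Matrix.of_apply, h, if_true]
        exact hA t h k k.2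
      · simp only [hmat, Matrix.of_apply, h, if_false]
        exact hB _ (by have := t.2; omega) k k.2)
  rwa [Det.prod_split a b BA BB, Fin.prod_univ_eq_prod_range BC] at hb

end Pool.Agent.P.MP_a89d6d_nt.Z57
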