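import Pool.Agent.P.MP_a89d6d_nt.Z57.Star
import Pool.Agent.P.MP_a89d6d_nt.Z57.Core
import Pool.Agent.P.MP_a89d6d_nt.Z57.Grid
import Pool.Agent.P.MP_a89d6d_nt.Z23.Energy2

/-!
The energy bound: monic bases whose weighted sizes have a small product.
-/

namespace Pool.Agent.P.MP_a89d6d_nt.Z57

open Polynomial Finset Filter MeasureTheory
open Pool.Agent.P.MP_a89d6d_nt.Z23 (H W nc ach ff zpt)
open Pool.Agent.P.MP_a89d6d_nt.Z23.Large (IsZ)

namespace Energy

open Grid
open Pool.Agent.P.MP_a89d6d_nt.Z23.Energy (GG sum_min sum_log_le le_sum_log GG_sub_le le_GG_sub)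

/-- Cumulative degrees. -/
def DD (g : ℕ → ℕ) (u : ℕ) : ℕ → ℕ
  | 0 => 0
  | l + 1 => u * g l / 16000

/-- Degrees of the factors of the polynomial of degree `t`. -/
def dd (g : ℕ → ℕ) (u t l : ℕ) : ℕ := min t (DD g u (l + 1)) - min t (DD g u l)

/-- A monotone mass profile of total mass `h`. -/
structure Good (g : ℕ → ℕ) (h : ℕ) : Prop where
  mono : ∀ l < 249, g l ≤ g (l + 1)
  le : ∀ l < 250, g l ≤ 16000 * h
  last : g 249 = 16000 * h
  small : h ≤ 18

theorem goodA : Good ga 10 :=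
  ⟨fun l hl => (grid_mono l hl).2.1, fun l hl => (grid_le l hl).1, grid_last.2.1, by norm_num⟩

theorem goodB : Good gb 8 :=
  ⟨fun l hl => (grid_mono l hl).2.2.1, fun l hl => (grid_le l hl).2.1, grid_last.2.2.1,
    by norm_num⟩

theorem goodC : Good gc 18 :=
  ⟨fun l hl => (grid_mono l hl).2.2.2, fun l hl => (grid_le l hl).2.2, grid_last.2.2.2,
    by norm_num⟩

variable {g : ℕ → ℕ} {h : ℕ}

theorem DD_mono (hg : Good g h) (u l : ℕ) (hl : l < 250) : DD g u l ≤ DD g u (l + 1) := by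
  cases l with
  | zero => exact Nat.zero_le _
  | succ l => exact Nat.div_le_div_right (Nat.mul_le_mul_left _ (hg.mono l (by omega)))

theorem DD_last (hg : Good g h) (u : ℕ) : DD g u 250 = h * u := by
  show u * g 249 / 16000 = h * u
  rw [hg.last, show u * (16000 * h) = 16000 * (h * u) by ring]
  exact Nat.mul_div_cancel_left _ (by norm_num)

theorem dd_cast (hg : Good g h) (u t l : ℕ) (hl : l < 250) :
    (dd g u t l : ℝ) = ((min t (DD g u (l + 1)) : ℕ) : ℝ) - ((min t (DD g u l) : ℕ) : ℝ) := by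
  unfold dd
  have := DD_mono hg u l hl
  rw [Nat.cast_sub (by omega)]

theorem sum_dd (hg : Good g h) (u t L : ℕ) (hL : L ≤ 250) :
    ∑ l ∈ range L, dd g u t l = min t (DD g u L) := by
  induction L with
  | zero => simp [DD]
  | succ L ih =>
    rw [sum_range_succ, ih (by omega)]
    have := DD_mono hg u L (by omega)
    unfold dd
    omega

theorem dd_le (u t l : ℕ) : dd g u t l ≤ t := by unfold dd; omega

theorem DD_le (u l : ℕ) : (DD g u (l + 1) : ℝ) ≤ u * ((g l : ℝ) / 16000) := by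
  have h := @Nat.cast_div_le ℝ _ _ _ (u * g l) 16000
  show ((u * g l / 16000 : ℕ) : ℝ) ≤ _
  push_cast at h
  linarith

theorem le_DD (u l : ℕ) : u * ((g l : ℝ) / 16000) - 1 ≤ DD g u (l + 1) := by
  have h : u * g l < 16000 * (DD g u (l + 1) + 1) := by
    show u * g l < 16000 * (u * g l / 16000 + 1)
    omega
  have h' : ((u * g l : ℕ) : ℝ) < ((16000 * (DD g u (l + 1) + 1) : ℕ) : ℝ) := by exact_mod_cast h
  push_cast at h'
  linarith

/-- The radii. -/
def CQ (u l : ℕ) : ℚ := (u : ℚ) * (gs l : ℚ) / 16000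

theorem CQ_pos (u l : ℕ) (hu : 1 ≤ u) : 0 < CQ u l := by
  unfold CQ
  have h1 : (0 : ℚ) < gs l := by exact_mod_cast gs_pos l
  have h2 : (0 : ℚ) < u := by exact_mod_cast hu
  positivity

theorem CQ_cast (u l : ℕ) : (CQ u l : ℝ) = (u : ℝ) * ((gs l : ℝ) / 16000) := by
  unfold CQ
  push_cast
  ring

theorem mass_le {g' : ℕ → ℕ} {h' : ℕ} (hg : Good g h) (hg' : Good g' h') (κ : ℕ)
    (hm : ∀ l < 250, (g l : ℝ) + g' l + r2 l + 1 ≤ (13 - 2 * κ) * 16000 + (2 * κ + 1) * r1 l)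
    (u t k : ℕ) (hu : 32000 ≤ u) (v : ℝ) (hv : 0 ≤ v) :
    ∑ l ∈ (range 250).filter (fun l => (CQ u l : ℝ) ≤ v), ((dd g u t l + dd g' u k l : ℕ) : ℝ) ≤
      TT κ u v := by
  set F := (range 250).filter (fun l => (CQ u l : ℝ) ≤ v) with hF
  rcases F.eq_empty_or_nonempty with h0 | h0
  · rw [h0]; simpa using TT_nonneg κ u v hv
  · set L := F.max' h0 with hL
    have hLF : L ∈ F := F.max'_mem h0
    rw [hF, mem_filter, mem_range] at hLF
    have hsub : F ⊆ range (L + 1) := fun l hl => mem_range.mpr (Nat.lt_succ_of_le (F.le_max' l hl))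
    have h1 : ∑ l ∈ F, ((dd g u t l + dd g' u k l : ℕ) : ℝ) ≤
        ∑ l ∈ range (L + 1), ((dd g u t l + dd g' u k l : ℕ) : ℝ) :=
      sum_le_sum_of_subset_of_nonneg hsub fun _ _ _ => by positivity
    have h2 : ∑ l ∈ range (L + 1), ((dd g u t l + dd g' u k l : ℕ) : ℝ) ≤
        DD g u (L + 1) + DD g' u (L + 1) := by
      rw [← Nat.cast_sum, sum_add_distrib, sum_dd hg u t (L + 1) (by omega),
        sum_dd hg' u k (L + 1) (by omega)]
      exact_mod_cast Nat.add_le_add (min_le_right _ _) (min_le_right _ _)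
    obtain ⟨-, ha, hb, -, -⟩ := grid_check L hLF.1
    have ha' : ((r1 L : ℝ) / 16000) ^ 2 ≤ 1 + ((gs L : ℝ) / 16000) ^ 2 := by
      have : ((r1 L : ℝ)) ^ 2 ≤ 16000 ^ 2 + (gs L : ℝ) ^ 2 := by exact_mod_cast ha
      rw [div_pow, div_pow, div_le_iff₀ (by norm_num)]
      nlinarith
    have hb' : 196 + ((gs L : ℝ) / 16000) ^ 2 ≤ ((r2 L : ℝ) / 16000) ^ 2 := by
      have : 196 * 16000 ^ 2 + (gs L : ℝ) ^ 2 ≤ ((r2 L : ℝ)) ^ 2 := by exact_mod_cast hb
      rw [div_pow, div_pow, le_div_iff₀ (by norm_num)]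
      nlinarith
    have h3 := TT_grid κ u (by omega) ((gs L : ℝ) / 16000) _ _ v (by positivity) (by positivity)
      ha' hb' (by rw [← CQ_cast]; exact hLF.2)
    have h4 := DD_le (g := g) u L
    have h5 := DD_le (g := g') u L
    have hu' : (32000 : ℝ) ≤ u := by exact_mod_cast hu
    have h6 := mul_le_mul_of_nonneg_left (hm L hLF.1) (by positivity : (0 : ℝ) ≤ u / 16000)
    nlinarith

/-- The basis polynomial of degree `t`. -/
noncomputable def ph (g : ℕ → ℕ) (u t : ℕ) : ℚ[X] :=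
  ∏ l ∈ range 250, chebT (CQ u l) (dd g u t l)

theorem ph_mon (hg : Good g h) (u : ℕ) : Mon (ph g u) (h * u) := by
  intro t ht
  refine ⟨monic_prod_of_monic _ _ fun _ _ => chebT_monic _ _, ?_⟩
  unfold ph
  rw [natDegree_prod_of_monic _ _ fun _ _ => chebT_monic _ _]
  simp only [chebT_natDegree]
  rw [sum_dd hg u t 250 le_rfl, DD_last hg]
  omega

/-- Logarithm of the capacity of the segment number `l`. -/
noncomputable def al (u l : ℕ) : ℝ := Real.log ((CQ u l : ℝ) ^ 2 / 4)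

/-- Logarithm of the constant in the bound for `ph g u t`. -/
noncomputable def lq (g : ℕ → ℕ) (u t : ℕ) : ℝ :=
  ∑ l ∈ range 250, (Real.log (18 * u + 1) + dd g u t l * al u l)

theorem abs_ph (hg : Good g h) (u t : ℕ) (hu : 1 ≤ u) (ht : t < h * u) (y : ℝ) :
    |aeval (tt y) (ph g u t)| ≤
      Real.exp (lq g u t + ∑ l ∈ range 250, 2 * (dd g u t l : ℝ) * ach (|y| / CQ u l)) := by
  unfold ph lq
  rw [map_prod, abs_prod, ← sum_add_distrib, Real.exp_sum]
  refine prod_le_prod (fun _ _ => abs_nonneg _) fun l _ => ?_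
  have hc := CQ_pos u l hu
  have hc' : (0 : ℝ) < CQ u l := by exact_mod_cast hc
  refine (chebT_bound (CQ u l) hc (dd g u t l) y).trans ?_
  unfold al
  rw [Real.exp_add, Real.exp_add, Real.exp_log (by positivity),
    Real.exp_nat_mul (Real.log ((CQ u l : ℝ) ^ 2 / 4)), Real.exp_log (by positivity)]
  have h1 : (dd g u t l : ℝ) + 1 ≤ 18 * u + 1 := by
    have h0 : h * u ≤ 18 * u := Nat.mul_le_mul_right _ hg.small
    have : dd g u t l ≤ 18 * u := (dd_le u t l).trans (ht.le.trans h0)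
    have h' : (dd g u t l : ℝ) ≤ ((18 * u : ℕ) : ℝ) := by exact_mod_cast this
    push_cast at h'
    linarith
  have h2 : (0 : ℝ) ≤ ((CQ u l : ℝ) ^ 2 / 4) ^ dd g u t l := by positivity
  gcongr

/-- Logarithm of `y ^ 2 + (i + 1/2) ^ 2`. -/
noncomputable def lg (y : ℝ) (i : ℕ) : ℝ :=
  2 * Real.log ((i : ℝ) + 1 / 2) + Real.log (1 + y ^ 2 / ((i : ℝ) + 1 / 2) ^ 2)

theorem abs_WT (m : ℕ) (y : ℝ) : |aeval (tt y) (WT m)| = Real.exp (∑ i ∈ range m, lg y i) := by
  unfold WT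
  rw [map_prod, abs_prod, Real.exp_sum]
  refine prod_congr rfl fun i _ => ?_
  have hw : (0 : ℝ) < (i : ℝ) + 1 / 2 := by positivity
  have hp : 0 < 1 + y ^ 2 / ((i : ℝ) + 1 / 2) ^ 2 := by positivity
  have e : aeval (tt y) (X - C (tau i) : ℚ[X]) = -(y ^ 2 + ((i : ℝ) + 1 / 2) ^ 2) := by
    simp only [map_sub, aeval_X, aeval_C, tt, tau, eq_ratCast]
    push_cast
    ring
  rw [e, abs_neg, abs_of_pos (by positivity)]
  unfold lg
  rw [Real.exp_add, Real.exp_log hp, show (2 : ℝ) * Real.log ((i : ℝ) + 1 / 2) =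
    ((2 : ℕ) : ℝ) * Real.log ((i : ℝ) + 1 / 2) by norm_num, Real.exp_nat_mul, Real.exp_log hw]
  field_simp
  ring

/-- Logarithm of the weight at `y = 0`. -/
noncomputable def lw (κ u : ℕ) : ℝ :=
  4 * κ * ∑ i ∈ range u, Real.log ((i : ℝ) + 1 / 2) -
    2 * ∑ j ∈ Ico u (14 * u - 2), Real.log ((j : ℝ) + 1 / 2)

theorem wt_le {g' : ℕ → ℕ} {h' : ℕ} (hg : Good g h) (hg' : Good g' h') (κ : ℕ)
    (hm : ∀ l < 250, (g l : ℝ) + g' l + r2 l + 1 ≤ (13 - 2 * κ) * 16000 + (2 * κ + 1) * r1 l)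
    (u t k : ℕ) (hu : 32000 ≤ u) (ht : t < h * u) (hk : k < h' * u) (y : ℝ) :
    wt κ u (ph g u t * ph g' u k) y ≤ Real.exp (lw κ u + lq g u t) * Real.exp (lq g' u k) := by
  have hs := star κ u 250 (fun l => dd g u t l + dd g' u k l) (fun l => (CQ u l : ℝ))
    (fun l => by exact_mod_cast CQ_pos u l (by omega))
    (fun v hv => mass_le hg hg' κ hm u t k hu v hv) y
  have hp := abs_ph hg u t (by omega) ht y
  have hp' := abs_ph hg' u k (by omega) hk y
  have hsum : 2 * ∑ l ∈ range 250, ((dd g u t l + dd g' u k l : ℕ) : ℝ) * ach (|y| / CQ u l) =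
      ∑ l ∈ range 250, 2 * (dd g u t l : ℝ) * ach (|y| / CQ u l) +
        ∑ l ∈ range 250, 2 * (dd g' u k l : ℝ) * ach (|y| / CQ u l) := by
    rw [mul_sum, ← sum_add_distrib]
    refine sum_congr rfl fun l _ => ?_
    push_cast
    ring
  rw [hsum] at hs
  obtain ⟨A, hA⟩ : ∃ A, A = ∑ l ∈ range 250, 2 * (dd g u t l : ℝ) * ach (|y| / CQ u l) := ⟨_, rfl⟩
  obtain ⟨B, hB⟩ : ∃ B, B = ∑ l ∈ range 250, 2 * (dd g' u k l : ℝ) * ach (|y| / CQ u l) :=
    ⟨_, rfl⟩
  rw [← hA] at hp hs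
  rw [← hB] at hp' hs
  unfold wt
  rw [map_mul, abs_mul, abs_WT, abs_WT, div_le_iff₀ (Real.exp_pos _)]
  have h1 : |aeval (tt y) (ph g u t)| * |aeval (tt y) (ph g' u k)| ≤
      Real.exp (lq g u t + A) * Real.exp (lq g' u k + B) :=
    mul_le_mul hp hp' (abs_nonneg _) (Real.exp_pos _).le
  calc Real.exp (-2 * Real.pi * κ * |y|) * Real.exp (∑ i ∈ range u, lg y i) ^ (2 * κ + 1) *
        (|aeval (tt y) (ph g u t)| * |aeval (tt y) (ph g' u k)|)
      ≤ Real.exp (-2 * Real.pi * κ * |y|) * Real.exp (∑ i ∈ range u, lg y i) ^ (2 * κ + 1) *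
        (Real.exp (lq g u t + A) * Real.exp (lq g' u k + B)) := by gcongr
    _ = Real.exp (-2 * Real.pi * κ * |y| + ((2 * κ + 1 : ℕ) : ℝ) * ∑ i ∈ range u, lg y i +
          (lq g u t + A + (lq g' u k + B))) := by
        rw [← Real.exp_nat_mul, ← Real.exp_add, ← Real.exp_add, ← Real.exp_add]
    _ ≤ _ := by
        rw [← Real.exp_add, ← Real.exp_add]
        apply Real.exp_le_exp.mpr
        rw [← sum_range_add_sum_Ico _ (show u ≤ 14 * u - 2 by omega)]
        unfold lw lg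
        rw [sum_add_distrib, sum_add_distrib, ← mul_sum, ← mul_sum]
        push_cast
        nlinarith

theorem abel (m a : ℕ → ℝ) (L : ℕ) :
    ∑ l ∈ range (L + 1), (m (l + 1) - m l) * a l =
      m (L + 1) * a L - m 0 * a 0 - ∑ l ∈ range L, m (l + 1) * (a (l + 1) - a l) := by
  induction L with
  | zero => simp; ring
  | succ L ih =>
    rw [sum_range_succ, ih, sum_range_succ]
    ring

/-- Lower bound for the increments of `al`. -/
noncomputable def lam (l : ℕ) : ℝ := 4 * (((gs (l + 1) : ℝ) - gs l) / ((gs (l + 1) : ℝ) + gs l))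

theorem lam_bounds (l : ℕ) (hl : l < 249) : 0 ≤ lam l ∧ lam l ≤ 4 := by
  have h1 : (0 : ℝ) < gs l := by exact_mod_cast gs_pos l
  have h2 : (gs l : ℝ) < gs (l + 1) := by exact_mod_cast (grid_mono l hl).1
  unfold lam
  constructor
  · have : (0 : ℝ) ≤ (gs (l + 1) : ℝ) - gs l := by linarith
    positivity
  · have : ((gs (l + 1) : ℝ) - gs l) / ((gs (l + 1) : ℝ) + gs l) ≤ 1 := by
      rw [div_le_one (by linarith)]; linarith
    linarith

theorem al_eq (u l : ℕ) (hu : 1 ≤ u) :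
    al u l = 2 * (Real.log u + Real.log ((gs l : ℝ) / 32000)) := by
  have h1 : (0 : ℝ) < gs l := by exact_mod_cast gs_pos l
  have h2 : (0 : ℝ) < u := by exact_mod_cast hu
  unfold al
  rw [CQ_cast, show ((u : ℝ) * ((gs l : ℝ) / 16000)) ^ 2 / 4 = (u * ((gs l : ℝ) / 32000)) ^ 2 by ring,
    Real.log_pow, Real.log_mul h2.ne' (by positivity)]
  norm_num

theorem lam_le (u l : ℕ) (hu : 1 ≤ u) (hl : l < 249) : lam l ≤ al u (l + 1) - al u l := by
  have h1 : (0 : ℝ) < gs l := by exact_mod_cast gs_pos l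
  have h2 : (gs l : ℝ) < gs (l + 1) := by exact_mod_cast (grid_mono l hl).1
  rw [al_eq u _ hu, al_eq u _ hu]
  have h3 := Real.le_log_one_add_of_nonneg (x := ((gs (l + 1) : ℝ) - gs l) / gs l)
    (div_nonneg (by linarith) h1.le)
  have e1 : 1 + ((gs (l + 1) : ℝ) - gs l) / gs l = ((gs (l + 1) : ℝ) / 32000) / (gs l / 32000) := by
    field_simp
    ring
  have e2 : 2 * (((gs (l + 1) : ℝ) - gs l) / gs l) / (((gs (l + 1) : ℝ) - gs l) / gs l + 2) =
      lam l / 2 := by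
    unfold lam
    have : (0 : ℝ) < (gs (l + 1) : ℝ) + gs l := by linarith
    have h5 : (0 : ℝ) < ((gs (l + 1) : ℝ) - gs l) / gs l + 2 := by
      have : (0 : ℝ) ≤ ((gs (l + 1) : ℝ) - gs l) / gs l := div_nonneg (by linarith) h1.le
      linarith
    rw [div_eq_iff h5.ne']
    field_simp
    ring
  rw [e1, e2, Real.log_div (by have : (0 : ℝ) < gs (l + 1) := by linarith
                               positivity) (by positivity)] at h3
  linarith

theorem lq_le (hg : Good g h) (u t : ℕ) (hu : 1 ≤ u) (ht : t < h * u) :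
    lq g u t ≤ 250 * Real.log (18 * u + 1) + t * (2 * (Real.log u + Real.log (375 / 64))) -
      ∑ l ∈ range 249, lam l * ((min t (DD g u (l + 1)) : ℕ) : ℝ) := by
  have h1 := abel (fun l => ((min t (DD g u l) : ℕ) : ℝ)) (al u) 249
  have h0 : DD g u 0 = 0 := rfl
  simp only [h0, Nat.min_zero, Nat.cast_zero, zero_mul, sub_zero] at h1
  rw [DD_last hg, min_eq_left ht.le, al_eq u 249 hu, grid_last.1] at h1
  unfold lq
  rw [sum_add_distrib, sum_const, card_range]
  have h3 : ∑ l ∈ range 250, (dd g u t l : ℝ) * al u l =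
      ∑ l ∈ range (249 + 1), (((min t (DD g u (l + 1)) : ℕ) : ℝ) - ((min t (DD g u l) : ℕ) : ℝ)) *
        al u l :=
    sum_congr rfl fun l hl => by rw [dd_cast hg u t l (mem_range.mp hl)]
  rw [h3, h1]
  have h4 : ∑ l ∈ range 249, lam l * ((min t (DD g u (l + 1)) : ℕ) : ℝ) ≤
      ∑ l ∈ range 249, ((min t (DD g u (l + 1)) : ℕ) : ℝ) * (al u (l + 1) - al u l) :=
    sum_le_sum fun l hl => by
      rw [mul_comm]
      exact mul_le_mul_of_nonneg_left (lam_le u l hu (mem_range.mp hl)) (by positivity)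
  have e : ((187500 : ℕ) : ℝ) / 32000 = 375 / 64 := by norm_num
  rw [e]
  simp only [nsmul_eq_mul, Nat.cast_ofNat]
  linarith

theorem sum_min_DD (hg : Good g h) (u l : ℕ) (hl : l < 250) :
    (u : ℝ) ^ 2 * (gain h (g l) : ℝ) - 27 * u ≤
      ∑ t ∈ range (h * u), ((min t (DD g u (l + 1)) : ℕ) : ℝ) := by
  have hk := hg.le l hl
  have hD : DD g u (l + 1) ≤ h * u := by
    have h1 : u * g l ≤ 16000 * (h * u) := by
      calc u * g l ≤ u * (16000 * h) := Nat.mul_le_mul_left _ hk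
        _ = 16000 * (h * u) := by ring
    show u * g l / 16000 ≤ h * u
    exact Nat.div_le_of_le_mul h1
  rw [sum_min _ _ hD]
  have h1 := DD_le (g := g) u l
  have h2 := le_DD (g := g) u l
  have h3 : (DD g u (l + 1) : ℝ) ≤ h * u := by exact_mod_cast hD
  have h4 : (0 : ℝ) ≤ DD g u (l + 1) := by positivity
  have hn : (0 : ℝ) ≤ u := by positivity
  have hh : (h : ℝ) ≤ 18 := by exact_mod_cast hg.small
  have hh0 : (0 : ℝ) ≤ h := by positivity
  have h5 : (DD g u (l + 1) : ℝ) ^ 2 ≤ (u * ((g l : ℝ) / 16000)) ^ 2 := pow_le_pow_left₀ h4 h1 2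
  have h6 := mul_le_mul_of_nonneg_left h2 (mul_nonneg hh0 hn)
  have h7 := mul_le_mul_of_nonneg_right hh hn
  unfold gain
  push_cast
  nlinarith

theorem sum_lq_le (hg : Good g h) (u : ℕ) (hu : 1 ≤ u) :
    ∑ t ∈ range (h * u), lq g u t ≤
      4500 * u * Real.log (18 * u + 1) + (h : ℝ) ^ 2 * (u : ℝ) ^ 2 * (Real.log u + Real.log (375 / 64))
        - (u : ℝ) ^ 2 * ∑ l ∈ range 249, lam l * (gain h (g l) : ℝ) + 26892 * u := by
  have hu' : (1 : ℝ) ≤ u := by exact_mod_cast hu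
  have hh : (h : ℝ) ≤ 18 := by exact_mod_cast hg.small
  have hh0 : (0 : ℝ) ≤ h := by positivity
  have h1 := sum_le_sum (s := range (h * u)) fun t ht => lq_le hg u t hu (mem_range.mp ht)
  rw [sum_sub_distrib, sum_add_distrib, sum_const, card_range, ← sum_mul, sum_comm] at h1
  have h2 : ∑ t ∈ range (h * u), (t : ℝ) ≤ (h : ℝ) ^ 2 * (u : ℝ) ^ 2 / 2 := by
    have h0 := sum_min (h * u) (h * u) le_rfl
    have e : ∑ t ∈ range (h * u), ((min t (h * u) : ℕ) : ℝ) = ∑ t ∈ range (h * u), (t : ℝ) :=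
      sum_congr rfl fun t ht => by rw [min_eq_left (mem_range.mp ht).le]
    rw [e] at h0
    rw [h0]
    push_cast
    nlinarith [mul_nonneg hh0 (by linarith : (0 : ℝ) ≤ u)]
  have h3 : ∑ l ∈ range 249, ((u : ℝ) ^ 2 * (lam l * (gain h (g l) : ℝ)) - 108 * u) ≤
      ∑ l ∈ range 249, ∑ t ∈ range (h * u), lam l * ((min t (DD g u (l + 1)) : ℕ) : ℝ) := by
    refine sum_le_sum fun l hl => ?_
    have hl' := mem_range.mp hl
    rw [← mul_sum]
    obtain ⟨a1, a2⟩ := lam_bounds l hl'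
    have a3 := mul_le_mul_of_nonneg_left (sum_min_DD hg u l (by omega)) a1
    nlinarith
  rw [sum_sub_distrib, ← mul_sum, sum_const, card_range] at h3
  have hl1 : 0 ≤ Real.log (18 * u + 1) := Real.log_nonneg (by linarith)
  have hl2 : 0 ≤ Real.log u + Real.log (375 / 64) :=
    add_nonneg (Real.log_nonneg hu') (Real.log_nonneg (by norm_num))
  have h4 := mul_le_mul_of_nonneg_right h2 (by linarith : 0 ≤ 2 * (Real.log u + Real.log (375 / 64)))
  have h5 := mul_le_mul_of_nonneg_right hh (mul_nonneg (by linarith : (0 : ℝ) ≤ 250 * u) hl1)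
  simp only [nsmul_eq_mul, Nat.cast_mul, Nat.cast_ofNat] at h1 h3
  nlinarith

theorem lw_le (κ u : ℕ) (hu : 2 ≤ u) :
    lw κ u ≤ (4 * κ + 2) * (u * Real.log u - u) - 28 * u * (Real.log 14 + Real.log u) + 28 * u
      + (2 * κ + 5) * Real.log (18 * u + 1) + 4 * κ := by
  unfold lw
  have hn' : (2 : ℝ) ≤ u := by exact_mod_cast hu
  have hκ : (0 : ℝ) ≤ κ := by positivity
  have h1 := sum_log_le u
  have h2 := le_sum_log u (14 * u - 2) (by omega) (by omega)
  have ec : ((14 * u - 2 : ℕ) : ℝ) = 14 * u - 2 := by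
    rw [Nat.cast_sub (by omega)]; push_cast; ring
  rw [ec] at h2
  have h3 := GG_sub_le (u : ℝ) ((u : ℝ) + 1 / 2) (by linarith) (by linarith)
  have h4 := GG_sub_le (14 * (u : ℝ) - 2 - 1 / 2) (14 * (u : ℝ)) (by linarith) (by linarith)
  have h5 := le_GG_sub ((u : ℝ) - 1 / 2) (u : ℝ) (by linarith) (by linarith)
  have h6 : 0 ≤ Real.log ((u : ℝ) - 1 / 2) := Real.log_nonneg (by linarith)
  have h7 : Real.log ((u : ℝ) + 1 / 2) ≤ Real.log (18 * u + 1) :=
    Real.log_le_log (by linarith) (by linarith)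
  have h7' : Real.log (14 * (u : ℝ)) ≤ Real.log (18 * u + 1) :=
    Real.log_le_log (by linarith) (by linarith)
  have h8 : -1 ≤ GG (1 / 2) := by
    unfold GG
    have := Real.log_two_lt_d9
    rw [one_div, Real.log_inv]
    linarith
  have h9 : GG (14 * (u : ℝ)) = 14 * u * (Real.log 14 + Real.log u) - 14 * u := by
    unfold GG
    rw [Real.log_mul (by norm_num) (by linarith)]
  have h10 : GG (u : ℝ) = u * Real.log u - u := rfl
  have e1 : (u : ℝ) + 1 / 2 - u = 1 / 2 := by ring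
  have e2 : 14 * (u : ℝ) - (14 * (u : ℝ) - 2 - 1 / 2) = 5 / 2 := by ring
  have e3 : (u : ℝ) - ((u : ℝ) - 1 / 2) = 1 / 2 := by ring
  rw [e1] at h3
  rw [e2] at h4
  rw [e3] at h5
  have k1 : ∑ i ∈ range u, Real.log ((i : ℝ) + 1 / 2) ≤
      u * Real.log u - u + 1 / 2 * Real.log (18 * u + 1) + 1 := by linarith
  have k2 := mul_le_mul_of_nonneg_left k1 (by linarith : (0 : ℝ) ≤ 4 * κ)
  nlinarith

theorem log_consts : 2.63895 ≤ Real.log 14 ∧ Real.log (375 / 64) ≤ 1.76805 := by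
  have a1 := Real.log_two_gt_d9
  have a2 := Real.log_two_lt_d9
  have b1 := Real.log_three_gt_d9
  have b2 := Real.log_three_lt_d9
  have c1 := Real.log_five_gt_d9
  have c2 := Real.log_five_lt_d9
  have h7 : Real.log (2 ^ 9 * 3 * 5 ^ 2) ≤ Real.log (14 ^ 4) :=
    Real.log_le_log (by norm_num) (by norm_num)
  rw [Real.log_mul (by norm_num) (by norm_num), Real.log_mul (by norm_num) (by norm_num),
    Real.log_pow, Real.log_pow, Real.log_pow] at h7
  have h53 : Real.log (375 / 64) = Real.log 3 + 3 * Real.log 5 - 6 * Real.log 2 := by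
    rw [show (375 / 64 : ℝ) = 3 * 5 ^ 3 / 2 ^ 6 by norm_num, Real.log_div (by norm_num) (by norm_num),
      Real.log_mul (by norm_num) (by norm_num), Real.log_pow, Real.log_pow]
    push_cast
    ring
  push_cast at h7
  refine ⟨by linarith, by linarith⟩

theorem gain_sum : (6904 / 10 : ℝ) ≤ ∑ l ∈ range 249, lam l * (gain 10 (ga l) : ℝ) +
    ∑ l ∈ range 249, lam l * (gain 8 (gb l) : ℝ) + ∑ l ∈ range 249, lam l * (gain 18 (gc l) : ℝ) := by
  have h := (Rat.cast_le (K := ℝ)).mpr grid_sum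
  rw [← sum_add_distrib, ← sum_add_distrib]
  rw [Rat.cast_sum] at h
  refine le_trans (le_of_eq (by norm_num)) (h.trans (le_of_eq (sum_congr rfl fun l _ => ?_)))
  unfold lam
  push_cast
  ring

theorem small_err : ∀ᶠ u : ℕ in atTop,
    100000 * (u : ℝ) * Real.log (18 * u + 1) ≤ 1 / 2 * (u : ℝ) ^ 2 := by
  have h := Real.isLittleO_log_id_atTop.bound (c := 1 / 3800000) (by norm_num)
  have h7 : Tendsto (fun n : ℕ => 18 * (n : ℝ) + 1) atTop atTop :=
    tendsto_atTop_add_const_right _ _ (tendsto_natCast_atTop_atTop.const_mul_atTop (by norm_num))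
  filter_upwards [h7.eventually h, eventually_ge_atTop 1] with n hn h1
  have hn0 : (1 : ℝ) ≤ n := by exact_mod_cast h1
  simp only [id, Real.norm_eq_abs] at hn
  rw [abs_of_nonneg (by positivity : (0 : ℝ) ≤ 18 * n + 1)] at hn
  have h2 := (le_abs_self _).trans hn
  nlinarith [mul_le_mul_of_nonneg_left h2 (by linarith : (0 : ℝ) ≤ n)]

end Energy

open Energy Grid in
theorem exists_good_basis : ∀ᶠ u : ℕ in atTop, ∃ (φ χ ψ : ℕ → ℚ[X]) (BA BB BC : ℕ → ℝ),
    Mon φ (10 * u) ∧ Mon χ (8 * u) ∧ Mon ψ (18 * u) ∧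
    (∀ t, 0 < BA t) ∧ (∀ t, 0 < BB t) ∧ (∀ t, 0 < BC t) ∧
    (∀ t < 10 * u, ∀ k < 18 * u, ∀ y : ℝ, wt 1 u (φ t * ψ k) y ≤ BA t * BC k) ∧
    (∀ t < 8 * u, ∀ k < 18 * u, ∀ y : ℝ, wt 2 u (χ t * ψ k) y ≤ BB t * BC k) ∧
    ∑ t ∈ range (10 * u), Real.log (BA t) + ∑ t ∈ range (8 * u), Real.log (BB t)
      + ∑ t ∈ range (18 * u), Real.log (BC t) ≤
      124 * (u : ℝ) ^ 2 * Real.log u - 793 * (u : ℝ) ^ 2 := by
  filter_upwards [small_err, eventually_ge_atTop 32000] with u h1 hu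
  refine ⟨ph ga u, ph gb u, ph gc u, fun t => Real.exp (lw 1 u + lq ga u t),
    fun t => Real.exp (lw 2 u + lq gb u t), fun t => Real.exp (lq gc u t),
    ph_mon goodA u, ph_mon goodB u, ph_mon goodC u, fun t => Real.exp_pos _,
    fun t => Real.exp_pos _, fun t => Real.exp_pos _,
    fun t ht k hk y => wt_le goodA goodC 1 (fun l hl => ?_) u t k hu ht hk y,
    fun t ht k hk y => wt_le goodB goodC 2 (fun l hl => ?_) u t k hu ht hk y, ?_⟩
  · have h : (ga l : ℝ) + gc l + r2 l + 1 ≤ 11 * 16000 + 3 * r1 l := by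
      exact_mod_cast (grid_check l hl).2.2.2.1
    push_cast
    linarith
  · have h : (gb l : ℝ) + gc l + r2 l + 1 ≤ 9 * 16000 + 5 * r1 l := by
      exact_mod_cast (grid_check l hl).2.2.2.2
    push_cast
    linarith
  · simp only [Real.log_exp]
    rw [sum_add_distrib, sum_add_distrib, sum_const, sum_const, card_range, card_range]
    have hu' : (32000 : ℝ) ≤ u := by exact_mod_cast hu
    have a1 := sum_lq_le goodA u (by omega)
    have a2 := sum_lq_le goodB u (by omega)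
    have a3 := sum_lq_le goodC u (by omega)
    have b1 := mul_le_mul_of_nonneg_left (lw_le 1 u (by omega)) (by linarith : (0 : ℝ) ≤ 10 * u)
    have b2 := mul_le_mul_of_nonneg_left (lw_le 2 u (by omega)) (by linarith : (0 : ℝ) ≤ 8 * u)
    obtain ⟨c1, c2⟩ := log_consts
    have d1 := mul_le_mul_of_nonneg_left c1 (by positivity : (0 : ℝ) ≤ 504 * (u : ℝ) ^ 2)
    have d2 := mul_le_mul_of_nonneg_left c2 (by positivity : (0 : ℝ) ≤ 488 * (u : ℝ) ^ 2)
    have d3 := mul_le_mul_of_nonneg_left gain_sum (by positivity : (0 : ℝ) ≤ (u : ℝ) ^ 2)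
    have hl : 1 ≤ Real.log (18 * u + 1) := by
      rw [Real.le_log_iff_exp_le (by linarith)]
      have := Real.exp_one_lt_d9
      linarith
    have d4 := mul_le_mul_of_nonneg_left hl (by linarith : (0 : ℝ) ≤ 86000 * u)
    have d5 := mul_nonneg (by linarith : (0 : ℝ) ≤ u) (by linarith : 0 ≤ Real.log (18 * u + 1))
    simp only [nsmul_eq_mul, Nat.cast_mul, Nat.cast_ofNat, Nat.cast_one] at a1 a2 a3 b1 b2 ⊢
    nlinarith [sq_nonneg (u : ℝ)]

end Pool.Agent.P.MP_a89d6d_nt.Z57
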