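import Pool.Agent.P.MP_a89d6d_nt.Z57.Integral1
import Pool.Agent.P.MP_a89d6d_nt.Z23.PiSq

/-!
Integral representation of the row functionals and the resulting bound for the matrix entries.
-/

namespace Pool.Agent.P.MP_a89d6d_nt.Z57

open Polynomial Finset Filter MeasureTheory
open Pool.Agent.P.MP_a89d6d_nt.Z23 (H W nc ach ff zpt)
open Pool.Agent.P.MP_a89d6d_nt.Z23.Large (IsZ)

namespace Integral

open Pool.Agent.P.MP_a89d6d_nt.Z23.Integral (sh th sh_pos sh_le abs_th_le sh_eq)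

theorem aeval_DZ (S : Finset ℤ) (z : ℂ) : aeval z (DZ S) = ∏ i ∈ S, (z - (i : ℂ)) := by
  simp [DZ, map_prod]

theorem half_le (y : ℝ) (i : ℤ) : (1 / 2 : ℝ) ≤ ‖zpt 0 y - (i : ℂ)‖ := by
  refine le_trans ?_ (Complex.abs_re_le_norm _)
  have h : (zpt 0 y - (i : ℂ)).re = -1 / 2 - (i : ℝ) := by
    simp [zpt]
    ring
  rw [h]
  rcases le_or_gt 0 i with hi | hi
  · have : (0 : ℝ) ≤ i := by exact_mod_cast hi
    rw [abs_of_nonpos (by linarith)]
    linarith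
  · have : (i : ℝ) ≤ -1 := by exact_mod_cast (show i ≤ -1 by omega)
    rw [abs_of_nonneg (by linarith)]
    linarith

theorem sub_ne (y : ℝ) (i : ℤ) : zpt 0 y - (i : ℂ) ≠ 0 := by
  intro h
  have := half_le y i
  rw [h, norm_zero] at this
  linarith

theorem le_norm_DZ (S : Finset ℤ) (y : ℝ) :
    (1 / 2 : ℝ) ^ S.card ≤ ‖aeval (zpt 0 y) (DZ S)‖ := by
  rw [aeval_DZ, norm_prod, ← prod_const]
  exact prod_le_prod (fun _ _ => by norm_num) fun i _ => half_le y i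

theorem DZ_ne (S : Finset ℤ) (y : ℝ) : aeval (zpt 0 y) (DZ S) ≠ 0 := by
  intro h
  have h1 := le_norm_DZ S y
  rw [h, norm_zero] at h1
  have : (0 : ℝ) < (1 / 2 : ℝ) ^ S.card := by positivity
  linarith

theorem continuous_aeval (N : ℚ[X]) : Continuous fun y : ℝ => aeval (zpt 0 y) N :=
  (Polynomial.continuous_aeval N).comp (Z23.Integral.continuous_zpt 0)

theorem integrable_ratio (s : ℕ) (S : Finset ℤ) (N : ℚ[X]) :
    Integrable fun y : ℝ => aeval (zpt 0 y) N / aeval (zpt 0 y) (DZ S) * oms s y := by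
  obtain ⟨C, hC0, hC⟩ := Z23.Integral.poly_le N 1
  refine integrable_oms s _ ((continuous_aeval N).div (continuous_aeval _) (DZ_ne S))
    (C / (1 / 2) ^ S.card) fun y => ?_
  have h1 := hC (zpt 0 y) (by
    rw [Z23.Integral.zpt_re]
    norm_num [abs_le])
  rw [Z23.Integral.zpt_im] at h1
  rw [norm_div, div_mul_eq_mul_div]
  exact div_le_div₀ (by positivity) h1 (by positivity) (le_norm_DZ S y)

theorem integrable_poly (s : ℕ) (N : ℚ[X]) :
    Integrable fun y : ℝ => aeval (zpt 0 y) N * oms s y := by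
  simpa [DZ] using integrable_ratio s ∅ N

theorem integrable_pole (s : ℕ) (i : ℤ) :
    Integrable fun y : ℝ => 1 / (zpt 0 y - i) * oms s y := by
  simpa [DZ] using integrable_ratio s {i} 1

theorem integral_ratio (s : ℕ) (hs : s = 3 ∨ s = 5 ∨ s = 7) (S : Finset ℤ) (N : ℚ[X]) :
    ∫ y : ℝ, aeval (zpt 0 y) N / aeval (zpt 0 y) (DZ S) * oms s y =
      (LZ s S N : ℂ) + riemannZeta s * (RZ S N : ℂ) := by
  have e : ∀ y : ℝ, aeval (zpt 0 y) N / aeval (zpt 0 y) (DZ S) * oms s y =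
      aeval (zpt 0 y) (N /ₘ DZ S) * oms s y +
      ∑ i ∈ S, (res S N i : ℂ) * (1 / (zpt 0 y - i) * oms s y) := by
    intro y
    have hD := DZ_ne S y
    have h1 := congrArg (aeval (zpt 0 y)) (partial_fractions S N)
    simp only [map_add, map_mul, map_sum, aeval_C, eq_ratCast] at h1
    rw [h1, add_div, mul_div_cancel_right₀ _ hD, add_mul, sum_div, sum_mul]
    congr 1
    refine sum_congr rfl fun j hj => ?_
    have h2 := sub_ne y j
    have h3 := DZ_ne (S.erase j) y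
    rw [aeval_DZ S, ← mul_prod_erase _ _ hj, ← aeval_DZ]
    field_simp
  simp only [e]
  rw [integral_add (integrable_poly _ _)
      (integrable_finsetSum _ fun j _ => (integrable_pole _ j).const_mul _),
    integral_finsetSum _ fun j _ => (integrable_pole _ j).const_mul _]
  simp only [integral_const_mul, oms_pole s hs, oms_poly s hs]
  unfold LZ RZ
  push_cast
  rw [mul_sum, sub_add_eq_add_sub, add_sub_assoc, ← sum_sub_distrib]
  congr 1
  exact sum_congr rfl fun j _ => by ring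

theorem aeval_tr (P : ℚ[X]) (y : ℝ) :
    aeval (zpt 0 y) (tr P) = ((aeval (tt y) P : ℝ) : ℂ) := by
  have h1 : aeval (zpt 0 y) (tr P) = aeval (aeval (zpt 0 y) (X * (X + 1) : ℚ[X])) P := by
    unfold tr
    exact (aeval_algHom_apply (aeval (zpt 0 y)) _ P).symm
  have h2 : aeval (zpt 0 y) (X * (X + 1) : ℚ[X]) = algebraMap ℝ ℂ (tt y) := by
    simp only [map_mul, map_add, aeval_X, map_one, zpt, tt, Complex.coe_algebraMap]
    push_cast
    linear_combination ((y : ℂ) ^ 2) * Complex.I_mul_I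
  rw [h1, h2, aeval_algebraMap_apply]
  rfl

theorem norm_ratio (m u : ℕ) (P : ℚ[X]) (y : ℝ) :
    ‖aeval (zpt 0 y) (num m u P) / aeval (zpt 0 y) (DZ (SK (14 * u)))‖ =
      2 * |y| * (|aeval (tt y) (WT u)| ^ m * |aeval (tt y) P|) / |aeval (tt y) (WT (14 * u))| := by
  have h1 : aeval (zpt 0 y) (2 * X + 1 : ℚ[X]) = ((2 * y : ℝ) : ℂ) * Complex.I := by
    simp only [map_mul, map_add, aeval_X, map_one, zpt, map_ofNat]
    push_cast
    ring
  rw [← tr_WT, aeval_tr]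
  unfold num
  rw [map_mul, h1, aeval_tr, norm_div, norm_mul, norm_mul, Complex.norm_I, Complex.norm_real,
    Complex.norm_real, Complex.norm_real, map_mul, map_pow]
  simp only [Real.norm_eq_abs, abs_mul, abs_pow, abs_two, mul_one]

theorem abs_lin (j : ℕ) (y : ℝ) :
    |aeval (tt y) (X - C (tau j))| = y ^ 2 + ((j : ℝ) + 1 / 2) ^ 2 := by
  have h : aeval (tt y) (X - C (tau j)) = -(y ^ 2 + ((j : ℝ) + 1 / 2) ^ 2) := by
    simp only [map_sub, aeval_X, aeval_C, eq_ratCast, tt, tau]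
    push_cast
    ring
  rw [h, abs_neg, abs_of_nonneg (by positivity)]

theorem WT_succ (m : ℕ) : WT (m + 1) = WT m * (X - C (tau m)) := by
  unfold WT
  rw [prod_range_succ]

theorem abs_WT_pos (m : ℕ) (y : ℝ) : 0 < |aeval (tt y) (WT m)| := by
  induction m with
  | zero => simp [WT]
  | succ m ih =>
    rw [WT_succ, map_mul, abs_mul, abs_lin]
    positivity

theorem le_abs_WT (u : ℕ) (hu : 1 ≤ u) (y : ℝ) :
    |aeval (tt y) (WT (14 * u - 2))| * (1 + y ^ 2) ^ 2 ≤ |aeval (tt y) (WT (14 * u))| := by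
  obtain ⟨k, hk⟩ : ∃ k, 14 * u = k + 1 + 1 + 1 := ⟨14 * u - 3, by omega⟩
  have h2 : 14 * u - 2 = k + 1 := by omega
  rw [h2, hk, WT_succ (k + 1 + 1), WT_succ (k + 1), map_mul, map_mul, abs_mul, abs_mul, abs_lin,
    abs_lin, mul_assoc, sq (1 + y ^ 2)]
  refine mul_le_mul_of_nonneg_left ?_ (abs_nonneg _)
  have hk0 : (0 : ℝ) ≤ k := Nat.cast_nonneg k
  refine mul_le_mul ?_ ?_ (by positivity) (by positivity)
  · push_cast
    nlinarith
  · push_cast
    nlinarith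

theorem norm_integral_le (κ u : ℕ) (hu : 1 ≤ u) (P : ℚ[X]) (B C0 : ℝ) (hC : 0 ≤ C0) (K : ℝ → ℂ)
    (hK : ∀ y, ‖K y‖ ≤ C0 * Real.exp (-2 * Real.pi * κ * |y|)) (h : ∀ y, wt κ u P y ≤ B) :
    ‖∫ y : ℝ, aeval (zpt 0 y) (num (2 * κ + 1) u P) / aeval (zpt 0 y) (DZ (SK (14 * u))) * K y‖
      ≤ C0 * Real.pi * B := by
  have h1 : C0 * Real.pi * B = ∫ y : ℝ, C0 * B * (1 + y ^ 2)⁻¹ := by
    rw [integral_const_mul, integral_univ_inv_one_add_sq]
    ring
  rw [h1]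
  refine norm_integral_le_of_norm_le (integrable_inv_one_add_sq.const_mul _)
    (Eventually.of_forall fun y => ?_)
  rw [norm_mul, norm_ratio]
  have h2 := h y
  unfold wt at h2
  have h3 : (0 : ℝ) < 1 + y ^ 2 := by positivity
  have h4 := le_abs_WT u hu y
  have h5 := abs_WT_pos (14 * u - 2) y
  have h6 : 2 * |y| ≤ 1 + y ^ 2 := by nlinarith [sq_nonneg (|y| - 1), sq_abs y]
  have hK' := hK y
  generalize Real.exp (-2 * Real.pi * κ * |y|) = E at h2 hK'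
  have hN : 0 ≤ |aeval (tt y) (WT u)| ^ (2 * κ + 1) * |aeval (tt y) P| := by positivity
  rw [mul_assoc] at h2
  generalize |aeval (tt y) (WT u)| ^ (2 * κ + 1) * |aeval (tt y) P| = N at h2 hN
  generalize |aeval (tt y) (WT (14 * u - 2))| = D at h2 h4 h5
  generalize |aeval (tt y) (WT (14 * u))| = D' at h4
  have h7 : 2 * |y| * N / D' ≤ N / D * (1 + y ^ 2)⁻¹ := by
    calc 2 * |y| * N / D' ≤ (1 + y ^ 2) * N / (D * (1 + y ^ 2) ^ 2) :=
          div_le_div₀ (by positivity) (mul_le_mul_of_nonneg_right h6 hN) (by positivity) h4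
      _ = N / D * (1 + y ^ 2)⁻¹ := by field_simp
  calc 2 * |y| * N / D' * ‖K y‖ ≤ N / D * (1 + y ^ 2)⁻¹ * (C0 * E) :=
        mul_le_mul h7 hK' (norm_nonneg _) (by positivity)
    _ = C0 * (E * N / D) * (1 + y ^ 2)⁻¹ := by ring
    _ ≤ C0 * B * (1 + y ^ 2)⁻¹ :=
        mul_le_mul_of_nonneg_right (mul_le_mul_of_nonneg_left h2 hC) (by positivity)

theorem FF_eq (s : ℕ) (hs : s = 3 ∨ s = 5 ∨ s = 7) (a b x : ℚ)
    (hx : (x : ℂ) = a * riemannZeta 3 + b * riemannZeta s) (m u : ℕ) (P : ℚ[X]) :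
    (FF s a b x m u P : ℂ) =
      (a : ℂ) * (∫ y : ℝ, aeval (zpt 0 y) (num m u P) / aeval (zpt 0 y) (DZ (SK (14 * u))) * oms 3 y)
      + (b : ℂ) * ∫ y : ℝ,
        aeval (zpt 0 y) (num m u P) / aeval (zpt 0 y) (DZ (SK (14 * u))) * oms s y := by
  rw [integral_ratio 3 (Or.inl rfl), integral_ratio s hs]
  unfold FF
  push_cast
  rw [hx]
  ring

theorem integral_comb (S : Finset ℤ) (N : ℚ[X]) (a b c : ℂ) :
    ∫ y : ℝ, aeval (zpt 0 y) N / aeval (zpt 0 y) (DZ S) *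
        (a * oms 3 y + b * oms 5 y + c * oms 7 y) =
      a * (∫ y : ℝ, aeval (zpt 0 y) N / aeval (zpt 0 y) (DZ S) * oms 3 y)
      + b * (∫ y : ℝ, aeval (zpt 0 y) N / aeval (zpt 0 y) (DZ S) * oms 5 y)
      + c * ∫ y : ℝ, aeval (zpt 0 y) N / aeval (zpt 0 y) (DZ S) * oms 7 y := by
  have h12 : Integrable fun y : ℝ =>
      a * (aeval (zpt 0 y) N / aeval (zpt 0 y) (DZ S) * oms 3 y)
        + b * (aeval (zpt 0 y) N / aeval (zpt 0 y) (DZ S) * oms 5 y) :=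
    ((integrable_ratio 3 S N).const_mul a).add ((integrable_ratio 5 S N).const_mul b)
  rw [← integral_const_mul, ← integral_const_mul, ← integral_const_mul,
    ← integral_add ((integrable_ratio 3 S N).const_mul a) ((integrable_ratio 5 S N).const_mul b),
    ← integral_add h12 ((integrable_ratio 7 S N).const_mul c)]
  refine integral_congr_ae (Eventually.of_forall fun y => ?_)
  simp only
  ring

theorem norm_comb (a b c y : ℝ) :
    ‖(a : ℂ) * oms 3 y + b * oms 5 y + c * oms 7 y‖ ≤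
      Real.pi ^ 2 * sh y * |a * qs 3 (sh y) + b * qs 5 (sh y) + c * qs 7 (sh y)| := by
  have h : (a : ℂ) * oms 3 y + b * oms 5 y + c * oms 7 y = Complex.I *
      ((Real.pi ^ 2 * sh y * (a * qs 3 (sh y) + b * qs 5 (sh y) + c * qs 7 (sh y)) * th y : ℝ) :
        ℂ) := by
    unfold oms
    push_cast
    ring
  rw [h, norm_mul, Complex.norm_I, one_mul, Complex.norm_real, Real.norm_eq_abs, abs_mul, abs_mul,
    abs_of_nonneg (mul_nonneg (sq_nonneg _) (sh_pos y).le)]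
  exact mul_le_of_le_one_right (mul_nonneg (mul_nonneg (sq_nonneg _) (sh_pos y).le)
    (abs_nonneg _)) (abs_th_le y)

theorem sh_le_one (y : ℝ) : sh y ≤ 1 := by
  rw [sh_eq]
  nlinarith [sq_nonneg (th y)]

theorem comb_eq (a b c σ : ℝ) : a * qs 3 σ + b * qs 5 σ + c * qs 7 σ =
    (a / 2 - b * Real.pi ^ 2 / 6 + c * Real.pi ^ 4 / 45)
      + σ * (b * Real.pi ^ 2 / 2 - c * Real.pi ^ 4 / 3 + σ * (c * Real.pi ^ 4 / 2)) := by
  simp only [qs]
  norm_num
  ring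

theorem abs_tail_le (p q σ : ℝ) (h0 : 0 ≤ σ) (h1 : σ ≤ 1) : |p + σ * q| ≤ |p| + |q| := by
  refine (abs_add_le _ _).trans ?_
  rw [abs_mul, abs_of_nonneg h0]
  have := mul_le_of_le_one_left (abs_nonneg q) h1
  linarith

theorem kernel_one (a b c : ℝ) : ∃ C0 : ℝ, 0 ≤ C0 ∧ ∀ y : ℝ,
    ‖(a : ℂ) * oms 3 y + b * oms 5 y + c * oms 7 y‖ ≤
      C0 * Real.exp (-2 * Real.pi * (1 : ℕ) * |y|) := by
  refine ⟨Real.pi ^ 2 * 4 * (|a / 2 - b * Real.pi ^ 2 / 6 + c * Real.pi ^ 4 / 45|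
    + (|b * Real.pi ^ 2 / 2 - c * Real.pi ^ 4 / 3| + |c * Real.pi ^ 4 / 2|)), by positivity,
    fun y => (norm_comb a b c y).trans ?_⟩
  have h0 := (sh_pos y).le
  have h1 := sh_le_one y
  have h2 := abs_tail_le (b * Real.pi ^ 2 / 2 - c * Real.pi ^ 4 / 3) (c * Real.pi ^ 4 / 2) _ h0 h1
  have h3 := abs_tail_le (a / 2 - b * Real.pi ^ 2 / 6 + c * Real.pi ^ 4 / 45)
    (b * Real.pi ^ 2 / 2 - c * Real.pi ^ 4 / 3 + sh y * (c * Real.pi ^ 4 / 2)) _ h0 h1
  rw [comb_eq, Nat.cast_one, mul_one]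
  calc _ ≤ Real.pi ^ 2 * (4 * Real.exp (-2 * Real.pi * |y|)) *
        (|a / 2 - b * Real.pi ^ 2 / 6 + c * Real.pi ^ 4 / 45|
          + (|b * Real.pi ^ 2 / 2 - c * Real.pi ^ 4 / 3| + |c * Real.pi ^ 4 / 2|)) :=
        mul_le_mul (mul_le_mul_of_nonneg_left (sh_le y) (sq_nonneg _)) (by linarith)
          (abs_nonneg _) (by positivity)
    _ = _ := by ring

theorem kernel_two (a b c : ℝ) (h : a / 2 - b * Real.pi ^ 2 / 6 + c * Real.pi ^ 4 / 45 = 0) :
    ∃ C0 : ℝ, 0 ≤ C0 ∧ ∀ y : ℝ, ‖(a : ℂ) * oms 3 y + b * oms 5 y + c * oms 7 y‖ ≤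
      C0 * Real.exp (-2 * Real.pi * (2 : ℕ) * |y|) := by
  refine ⟨Real.pi ^ 2 * 16 *
    (|b * Real.pi ^ 2 / 2 - c * Real.pi ^ 4 / 3| + |c * Real.pi ^ 4 / 2|), by positivity,
    fun y => (norm_comb a b c y).trans ?_⟩
  have h0 := (sh_pos y).le
  have h1 := sh_le_one y
  have h2 := abs_tail_le (b * Real.pi ^ 2 / 2 - c * Real.pi ^ 4 / 3) (c * Real.pi ^ 4 / 2) _ h0 h1
  have h3 : Real.exp (-2 * Real.pi * (2 : ℕ) * |y|) =
      Real.exp (-2 * Real.pi * |y|) * Real.exp (-2 * Real.pi * |y|) := by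
    rw [← Real.exp_add]
    congr 1
    push_cast
    ring
  rw [comb_eq, h, zero_add, abs_mul, abs_of_nonneg h0, h3]
  calc _ ≤ Real.pi ^ 2 * (4 * Real.exp (-2 * Real.pi * |y|)) *
        (4 * Real.exp (-2 * Real.pi * |y|) *
          (|b * Real.pi ^ 2 / 2 - c * Real.pi ^ 4 / 3| + |c * Real.pi ^ 4 / 2|)) :=
        mul_le_mul (mul_le_mul_of_nonneg_left (sh_le y) (sq_nonneg _))
          (mul_le_mul (sh_le y) h2 (abs_nonneg _) (by positivity))
          (mul_nonneg h0 (abs_nonneg _)) (by positivity)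
    _ = _ := by ring

theorem thA_ne (a b : ℤ) (hb : b ≠ 0) : (a : ℝ) / 2 - b * Real.pi ^ 2 / 6 ≠ 0 := by
  intro h
  have hb' : (b : ℝ) ≠ 0 := by exact_mod_cast hb
  refine Z23.PiSq.irrational ⟨3 * a / b, ?_⟩
  push_cast
  field_simp
  linarith

theorem num_WT_sq (u : ℕ) (P : ℚ[X]) : num 3 u (WT u ^ 2 * P) = num 5 u P := by
  unfold num
  congr 2
  ring

end Integral

theorem entry_bound (c : Par) (h5 : c.a5 ≠ 0)
    (hA : (c.xA : ℂ) = c.a3 * riemannZeta 3 + c.a5 * riemannZeta 5)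
    (hB : (c.xB : ℂ) = c.b3 * riemannZeta 3 + c.b7 * riemannZeta 7) :
    ∃ κ Cst : ℝ, 0 < Cst ∧ ∀ u : ℕ, 1 ≤ u → ∀ (P : ℚ[X]) (B : ℝ),
      ((∀ y : ℝ, wt 1 u P y ≤ B) → |(FA c u P : ℝ)| ≤ Cst * B) ∧
      ((∀ y : ℝ, wt 2 u P y ≤ B) →
        |(FB c u P : ℝ) - κ * (FA c u (WT u ^ 2 * P) : ℝ)| ≤ Cst * B) := by
  have hne := Integral.thA_ne c.a3 c.a5 h5
  obtain ⟨κ, hκ⟩ : ∃ κ : ℝ, κ * ((c.a3 : ℝ) / 2 - c.a5 * Real.pi ^ 2 / 6) =
      (c.b3 : ℝ) / 2 + c.b7 * Real.pi ^ 4 / 45 := ⟨_, div_mul_cancel₀ _ hne⟩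
  obtain ⟨C1, hC1, hK1⟩ := Integral.kernel_one c.a3 c.a5 0
  obtain ⟨C2, hC2, hK2⟩ := Integral.kernel_two (c.b3 - κ * c.a3) (-(κ * c.a5)) c.b7
    (by linarith)
  have hp := Real.pi_pos
  have hB0 : ∀ (k u : ℕ) (P : ℚ[X]) (B : ℝ), (∀ y : ℝ, wt k u P y ≤ B) → 0 ≤ B := by
    intro k u P B h
    refine le_trans ?_ (h 0)
    unfold wt
    positivity
  refine ⟨κ, (C1 + C2) * Real.pi + 1, by positivity, fun u hu P B => ⟨fun h => ?_, fun h => ?_⟩⟩
  · have h1 := Integral.norm_integral_le 1 u hu P B C1 hC1 _ hK1 h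
    have h2 := Integral.FF_eq 5 (by norm_num) c.a3 c.a5 c.xA (by simpa using hA) 3 u P
    rw [Integral.integral_comb] at h1
    have h3 : ((FA c u P : ℝ) : ℂ) = (FF 5 c.a3 c.a5 c.xA 3 u P : ℂ) := by
      simp [FA]
    have h4 : |(FA c u P : ℝ)| ≤ C1 * Real.pi * B := by
      rw [← Real.norm_eq_abs, ← Complex.norm_real, h3, h2]
      simpa using h1
    have h6 := hB0 _ _ _ _ h
    have h7 : 0 ≤ C2 * Real.pi * B := by positivity
    nlinarith
  · have h1 := Integral.norm_integral_le 2 u hu P B C2 hC2 _ hK2 h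
    have h2 := Integral.FF_eq 5 (by norm_num) c.a3 c.a5 c.xA (by simpa using hA) 3 u
      (WT u ^ 2 * P)
    have h2' := Integral.FF_eq 7 (by norm_num) c.b3 c.b7 c.xB (by simpa using hB) 5 u P
    rw [Integral.num_WT_sq] at h2
    rw [Integral.integral_comb] at h1
    have h3 : (((FB c u P : ℝ) - κ * (FA c u (WT u ^ 2 * P) : ℝ) : ℝ) : ℂ) =
        (FF 7 c.b3 c.b7 c.xB 5 u P : ℂ) - κ * (FF 5 c.a3 c.a5 c.xA 3 u (WT u ^ 2 * P) : ℂ) := by
      simp [FA, FB]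
    have h4 : |(FB c u P : ℝ) - κ * (FA c u (WT u ^ 2 * P) : ℝ)| ≤ C2 * Real.pi * B := by
      rw [← Real.norm_eq_abs, ← Complex.norm_real, h3, h2, h2']
      refine le_trans (le_of_eq ?_) h1
      congr 1
      push_cast
      ring
    have h6 := hB0 _ _ _ _ h
    have h7 : 0 ≤ C1 * Real.pi * B := by positivity
    nlinarith

end Pool.Agent.P.MP_a89d6d_nt.Z57
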