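import Mathlib

/-! Greedy choice of levels, and three elementary summation lemmas. -/

set_option autoImplicit false

namespace Pool.Agent.P.MP_a89d6d_nt.Z57

open Finset

theorem greedy (Cl : Finset ℕ) (hC : Cl.Nonempty) (γ : ℕ → ℝ) :
    ∃ (ν : ℕ → ℕ → ℕ) (l : ℕ → ℝ), (∀ t, ∑ c ∈ Cl, ν t c = t) ∧
      (∀ t, ∀ c ∈ Cl, l t ≤ γ c + ν t c) ∧
      ∀ (h : ℕ) (Λ : ℝ), ∑ t ∈ range h, max (Λ - l t) 0 =
        ∑ c ∈ Cl, ∑ i ∈ range (ν h c), max (Λ - γ c - i) 0 := by
  have hex : ∀ μ : ℕ → ℕ, ∃ c ∈ Cl, ∀ c' ∈ Cl, γ c + μ c ≤ γ c' + μ c' := fun μ =>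
    Cl.exists_min_image (fun c => γ c + (μ c : ℝ)) hC
  choose b hb hb' using hex
  let ν : ℕ → ℕ → ℕ := fun t =>
    Nat.rec (fun _ => 0) (fun _ μ => Function.update μ (b μ) (μ (b μ) + 1)) t
  have hν : ∀ t, ν (t + 1) = Function.update (ν t) (b (ν t)) (ν t (b (ν t)) + 1) := fun _ => rfl
  have key : ∀ {M : Type} [AddCommMonoid M] (t : ℕ) (F : ℕ → ℕ → M),
      ∑ c ∈ Cl, ∑ i ∈ range (ν (t + 1) c), F c i =
        ∑ c ∈ Cl, ∑ i ∈ range (ν t c), F c i + F (b (ν t)) (ν t (b (ν t))) := by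
    intro M _ t F
    rw [← add_sum_erase _ _ (hb (ν t)), ← add_sum_erase _ _ (hb (ν t)), hν, Function.update_self,
      sum_range_succ, add_right_comm]
    congr 2
    refine sum_congr rfl fun c hc => ?_
    rw [Function.update_of_ne (ne_of_mem_erase hc)]
  refine ⟨ν, fun t => γ (b (ν t)) + (Nat.cast (ν t (b (ν t))) : ℝ), fun t => ?_, fun t c hc => ?_,
    fun h Λ => ?_⟩
  · induction t with
    | zero => simp [ν]
    | succ t ih =>
      have := key t (fun _ _ => (1 : ℕ))
      simp only [sum_const, card_range, smul_eq_mul, mul_one] at this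
      rw [this, ih]
  · exact hb' (ν t) c hc
  · induction h with
    | zero => simp [ν]
    | succ h ih => rw [sum_range_succ, ih, key h (fun c i => max (Λ - γ c - i) 0), sub_sub]

theorem sum_max_le_sq (x : ℝ) (n : ℕ) :
    ∑ i ∈ range n, max (x - i) 0 ≤ (x + 1 / 2) ^ 2 / 2 := by
  induction n generalizing x with
  | zero => simp; positivity
  | succ n ih =>
    rcases le_or_gt x 0 with hx | hx
    · rw [sum_eq_zero fun i _ => max_eq_right (by have : (0 : ℝ) ≤ i := Nat.cast_nonneg i; linarith)]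
      positivity
    · rw [sum_range_succ']
      have h := ih (x - 1)
      have e : ∑ i ∈ range n, max (x - ((i + 1 : ℕ) : ℝ)) 0 = ∑ i ∈ range n, max (x - 1 - i) 0 :=
        sum_congr rfl fun i _ => by push_cast; ring_nf
      rw [e, Nat.cast_zero, sub_zero, max_eq_left hx.le]
      nlinarith

theorem sum_max_le_tri (x : ℝ) (m n : ℕ) (hx : x ≤ m) :
    ∑ i ∈ range n, max (x - i) 0 ≤ (m : ℝ) * (m + 1) / 2 := by
  induction m generalizing x n with
  | zero =>
    rw [sum_eq_zero fun i _ => max_eq_right (by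
      have : (0 : ℝ) ≤ i := Nat.cast_nonneg i
      rw [Nat.cast_zero] at hx; linarith)]
    simp
  | succ m ih =>
    rcases n with _ | n
    · simp; positivity
    · rw [sum_range_succ']
      push_cast at hx
      have h := ih (x - 1) n (by linarith)
      have e : ∑ i ∈ range n, max (x - ((i + 1 : ℕ) : ℝ)) 0 = ∑ i ∈ range n, max (x - 1 - i) 0 :=
        sum_congr rfl fun i _ => by push_cast; ring_nf
      have h0 : (0 : ℝ) ≤ m := Nat.cast_nonneg m
      have h1 : max x 0 ≤ (m : ℝ) + 1 := max_le hx (by linarith)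
      rw [e, Nat.cast_zero, sub_zero]
      push_cast
      nlinarith

theorem greedy_nodes (Nd : Finset ℕ) (cls : ℕ → ℕ) (g : ℕ → ℝ) :
    ∃ (U : ℕ → Finset ℕ) (l : ℕ → ℝ), (∀ t ≤ Nd.card, U t ⊆ Nd ∧ (U t).card = t) ∧
      (∀ t < Nd.card, ∀ j ∈ Nd \ U t,
        l t ≤ g (cls j) + ((U t).filter fun j' => cls j' = cls j).card) ∧
      (∀ t < Nd.card, ∃ j ∈ Nd \ U t,
        l t = g (cls j) + ((U t).filter fun j' => cls j' = cls j).card) ∧
      ∑ t ∈ range Nd.card, l t = ∑ c ∈ Nd.image cls,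
        ∑ k ∈ range (Nd.filter fun j => cls j = c).card, (g c + k) := by
  have hex : ∀ A : Finset ℕ, ∃ j, (Nd \ A).Nonempty → j ∈ Nd \ A ∧ ∀ j₁ ∈ Nd \ A,
      g (cls j) + ((A.filter fun j' => cls j' = cls j).card : ℝ) ≤
        g (cls j₁) + (A.filter fun j' => cls j' = cls j₁).card := by
    intro A
    by_cases h : (Nd \ A).Nonempty
    · obtain ⟨j, hj, hj'⟩ := (Nd \ A).exists_min_image
        (fun j => g (cls j) + ((A.filter fun j' => cls j' = cls j).card : ℝ)) h
      exact ⟨j, fun _ => ⟨hj, hj'⟩⟩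
    · exact ⟨0, fun h' => (h h').elim⟩
  choose b hb using hex
  let U : ℕ → Finset ℕ := fun t => Nat.rec ∅ (fun _ A => insert (b A) A) t
  have hU : ∀ t, U (t + 1) = insert (b (U t)) (U t) := fun _ => rfl
  have hne : ∀ t < Nd.card, (U t).card = t → (Nd \ U t).Nonempty := by
    intro t ht hc
    rw [sdiff_nonempty]
    intro h
    have := card_le_card h
    omega
  have h1 : ∀ t ≤ Nd.card, U t ⊆ Nd ∧ (U t).card = t := by
    intro t
    induction t with
    | zero => intro _; simp [U]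
    | succ t ih =>
      intro ht
      obtain ⟨h2, h3⟩ := ih (by omega)
      have h4 := mem_sdiff.1 (hb _ (hne t ht h3)).1
      rw [hU]
      exact ⟨insert_subset h4.1 h2, by rw [card_insert_of_notMem h4.2, h3]⟩
  have hne' : ∀ t < Nd.card, (Nd \ U t).Nonempty := fun t ht => hne t ht (h1 t ht.le).2
  refine ⟨U, fun t => g (cls (b (U t))) + ((U t).filter fun j' => cls j' = cls (b (U t))).card,
    h1, fun t ht j hj => (hb _ (hne' t ht)).2 j hj, fun t ht => ⟨_, (hb _ (hne' t ht)).1, rfl⟩, ?_⟩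
  have key : ∀ n ≤ Nd.card, ∑ t ∈ range n, (g (cls (b (U t))) +
      (((U t).filter fun j' => cls j' = cls (b (U t))).card : ℝ)) = ∑ c ∈ Nd.image cls,
        ∑ k ∈ range ((U n).filter fun j => cls j = c).card, (g c + k) := by
    intro n
    induction n with
    | zero => intro _; simp [U]
    | succ n ih =>
      intro hn
      have h4 := mem_sdiff.1 (hb _ (hne' n hn)).1
      have h5 : cls (b (U n)) ∈ Nd.image cls := mem_image_of_mem _ h4.1
      rw [sum_range_succ, ih (by omega), ← add_sum_erase _ _ h5, ← add_sum_erase _ _ h5, hU,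
        filter_insert, if_pos rfl, card_insert_of_notMem (fun h => h4.2 (mem_filter.1 h).1),
        sum_range_succ, add_right_comm]
      congr 1
      refine sum_congr rfl fun c hc => ?_
      rw [filter_insert, if_neg (ne_of_mem_erase hc).symm]
  rw [key _ le_rfl, eq_of_subset_of_card_le (h1 _ le_rfl).1 (h1 _ le_rfl).2.ge]

theorem sum_half (p : ℕ) (hp : Odd p) (f : ℕ → ℝ) (hf : ∀ c < p, f (p - 1 - c) = f c) :
    2 * ∑ c ∈ range ((p + 1) / 2), f c = ∑ c ∈ range p, f c + f ((p - 1) / 2) := by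
  obtain ⟨k, rfl⟩ := hp
  have e1 : (2 * k + 1 + 1) / 2 = k + 1 := by omega
  have e2 : (2 * k + 1 - 1) / 2 = k := by omega
  have e3 : 2 * k + 1 = (k + 1) + k := by omega
  have e4 : ∑ c ∈ range k, f (k + 1 + c) = ∑ c ∈ range k, f c := by
    rw [← sum_range_reflect]
    refine sum_congr rfl fun c hc => ?_
    have hc' := mem_range.1 hc
    rw [← hf c (by omega)]
    congr 1
    omega
  rw [e1, e2, e3, sum_range_add f (k + 1) k, e4, sum_range_succ]
  ring

end Pool.Agent.P.MP_a89d6d_nt.Z57
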