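import Pool.Agent.P.MP_a89d6d_nt.Z57.LocalInt
import Pool.Agent.P.MP_a89d6d_nt.Z57.Det
import Pool.Agent.P.MP_a89d6d_nt.Z57.Greedy
import Pool.Agent.P.MP_a89d6d_nt.Z57.Count

/-!
Valuation of the determinant at the primes `p > 14 u / 3`.
-/

namespace Pool.Agent.P.MP_a89d6d_nt.Z57

open Polynomial Finset Filter MeasureTheory
open Pool.Agent.P.MP_a89d6d_nt.Z23 (H W nc ach ff zpt)
open Pool.Agent.P.MP_a89d6d_nt.Z23.Large (IsZ)

namespace Large

/-- The rational number `q` has valuation at least `e`. -/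
def Nv (p : ℕ) [Fact p.Prime] (q : ℚ) (e : ℕ) : Prop := nr p q * (p : ℝ) ^ e ≤ 1

section nv

variable {p : ℕ} [Fact p.Prime]

theorem Nv.mul {q q' : ℚ} {e e' : ℕ} (h : Nv p q e) (h' : Nv p q' e') :
    Nv p (q * q') (e + e') := by
  unfold Nv nr at *
  rw [Rat.cast_mul, norm_mul, pow_add]
  calc _ = (‖(q : ℚ_[p])‖ * (p : ℝ) ^ e) * (‖(q' : ℚ_[p])‖ * (p : ℝ) ^ e') := by ring
    _ ≤ 1 * 1 := mul_le_mul h h' (by positivity) zero_le_one
    _ = 1 := one_mul 1

theorem nv_one : Nv p 1 0 := by simp [Nv, nr]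

theorem Nv.pow {q : ℚ} {e : ℕ} (h : Nv p q e) (n : ℕ) : Nv p (q ^ n) (n * e) := by
  induction n with
  | zero => simpa using nv_one
  | succ n ih => rw [pow_succ, add_mul, one_mul]; exact ih.mul h

theorem nv_prod {ι : Type} (s : Finset ι) (f : ι → ℚ) (e : ι → ℕ) (h : ∀ i ∈ s, Nv p (f i) (e i)) :
    Nv p (∏ i ∈ s, f i) (∑ i ∈ s, e i) := by
  classical
  induction s using Finset.induction_on with
  | empty => simpa using nv_one
  | insert a s ha ih =>
    rw [prod_insert ha, sum_insert ha]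
    exact (h a (mem_insert_self _ _)).mul (ih fun i hi => h i (mem_insert_of_mem hi))

theorem Nv.mono {q : ℚ} {e e' : ℕ} (h : Nv p q e) (he : e' ≤ e) : Nv p q e' :=
  le_trans (mul_le_mul_of_nonneg_left (pow_le_pow_right₀ (Z23.Local.one_le_p p) he) (norm_nonneg _)) h

theorem nv_int (z : ℤ) : Nv p (z : ℚ) 0 := by
  unfold Nv
  rw [pow_zero, mul_one]
  exact Z23.Large.norm_int_le p z

theorem nv_isZ {P : ℚ[X]} (hP : IsZ P) (y : ℤ) : Nv p (P.eval (y : ℚ)) 0 := by
  obtain ⟨z, hz⟩ := hP.eval y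
  rw [hz]; exact nv_int z

theorem nv_dvd (z : ℤ) (h : (p : ℤ) ∣ z) : Nv p (z : ℚ) 1 := by
  have h1 : ‖(z : ℚ_[p])‖ ≤ (p : ℝ) ^ (-((1 : ℕ) : ℤ)) := by
    rw [Padic.norm_int_le_pow_iff_dvd]; simpa using h
  have hp : (0 : ℝ) < p := lt_of_lt_of_le zero_lt_one (Z23.Local.one_le_p p)
  unfold Nv nr
  rw [Rat.cast_intCast, pow_one]
  simp only [Nat.cast_one, zpow_neg, zpow_one] at h1
  calc _ ≤ (p : ℝ)⁻¹ * p := mul_le_mul_of_nonneg_right h1 hp.le
    _ = 1 := inv_mul_cancel₀ hp.ne'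

theorem Nv.bound {q : ℚ} {e a : ℕ} {x : ℝ} (h : Nv p q e) (hx : (a : ℝ) ≤ e + x) :
    nr p q * (p : ℝ) ^ a ≤ (p : ℝ) ^ x := by
  have hp : (0 : ℝ) < p := lt_of_lt_of_le zero_lt_one (Z23.Local.one_le_p p)
  have h1 : (p : ℝ) ^ a ≤ (p : ℝ) ^ e * (p : ℝ) ^ x := by
    rw [← Real.rpow_natCast, ← Real.rpow_natCast, ← Real.rpow_add hp]
    exact Real.rpow_le_rpow_of_exponent_le (Z23.Local.one_le_p p) hx
  calc _ ≤ nr p q * ((p : ℝ) ^ e * (p : ℝ) ^ x) := mul_le_mul_of_nonneg_left h1 (norm_nonneg _)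
    _ = (nr p q * (p : ℝ) ^ e) * (p : ℝ) ^ x := by ring
    _ ≤ 1 * (p : ℝ) ^ x := mul_le_mul_of_nonneg_right h (by positivity)
    _ = _ := one_mul _

theorem nv_lin (y : ℤ) (j : ℕ) :
    Nv p ((X - C (tau j)).eval ((y : ℚ) * (y + 1)))
      (if (p : ℤ) ∣ y - j ∨ (p : ℤ) ∣ -1 - y - j then 1 else 0) := by
  have e : (X - C (tau j)).eval ((y : ℚ) * (y + 1)) = ((-((y - j) * (-1 - y - j)) : ℤ) : ℚ) := by
    simp only [eval_sub, eval_X, eval_C, tau]
    push_cast
    ring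
  rw [e]
  split_ifs with h
  · refine nv_dvd _ ((dvd_neg).2 ?_)
    rcases h with h | h
    · exact h.mul_right _
    · exact h.mul_left _
  · exact nv_int _

end nv

/-- The class of an integer under congruence and reflection. -/
noncomputable def cl (p : ℕ) (y : ℤ) : ℕ := by
  classical
  exact if h : Odd p then (exists_class p h y).choose else 0

theorem cl_lt {p : ℕ} (hp : Odd p) (y : ℤ) : cl p y < (p + 1) / 2 := by
  unfold cl; rw [dif_pos hp]; exact (exists_class p hp y).choose_spec.1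

theorem cl_dvd {p : ℕ} (hp : Odd p) (y : ℤ) :
    (p : ℤ) ∣ y - cl p y ∨ (p : ℤ) ∣ -1 - y - cl p y := by
  unfold cl; rw [dif_pos hp]; exact (exists_class p hp y).choose_spec.2

theorem cl_unique {p : ℕ} (hp : Odd p) {c c' : ℕ} (hc : c < (p + 1) / 2) (hc' : c' < (p + 1) / 2)
    (h : (p : ℤ) ∣ (c : ℤ) - c' ∨ (p : ℤ) ∣ -1 - (c : ℤ) - c') : c = c' := by
  obtain ⟨r, rfl⟩ := hp
  rcases h with h | h
  · have := Int.eq_zero_of_abs_lt_dvd h (by rw [abs_lt]; push_cast; constructor <;> omega)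
    omega
  · have h2 : (((2 * r + 1 : ℕ)) : ℤ) ∣ -1 - (c : ℤ) - c' + (2 * r + 1 : ℕ) := h.add dvd_rfl
    have := Int.eq_zero_of_abs_lt_dvd h2 (by rw [abs_lt]; push_cast; constructor <;> omega)
    push_cast at this
    omega

theorem dv {p a b : ℤ} (h : p ∣ a) (e : a = b) : p ∣ b := e ▸ h

theorem rel_trans {p a b c : ℤ} (h : p ∣ a - b ∨ p ∣ -1 - a - b) (h' : p ∣ c - b ∨ p ∣ -1 - c - b) :
    p ∣ a - c ∨ p ∣ -1 - a - c := by
  rcases h with h | h <;> rcases h' with h' | h'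
  · exact Or.inl (dv (dvd_sub h h') (by ring))
  · exact Or.inr (dv (dvd_sub h' h) (by ring))
  · exact Or.inr (dv (dvd_sub h h') (by ring))
  · exact Or.inl (dv (dvd_sub h' h) (by ring))

theorem rel_symm {p a b : ℤ} (h : p ∣ a - b ∨ p ∣ -1 - a - b) : p ∣ b - a ∨ p ∣ -1 - b - a := by
  rcases h with h | h
  · exact Or.inl (dv (dvd_neg.2 h) (by ring))
  · exact Or.inr (dv h (by ring))

theorem cl_eq_iff {p : ℕ} (hp : Odd p) (y y' : ℤ) :
    cl p y = cl p y' ↔ (p : ℤ) ∣ y - y' ∨ (p : ℤ) ∣ -1 - y - y' := by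
  constructor
  · intro h
    have h2 := cl_dvd hp y'
    rw [← h] at h2
    exact rel_trans (cl_dvd hp y) h2
  · intro h
    exact cl_unique hp (cl_lt hp y) (cl_lt hp y')
      (rel_trans (rel_symm (cl_dvd hp y)) (rel_trans (rel_symm (cl_dvd hp y')) h))

theorem cnt_cl {p : ℕ} (hp : Odd p) (K : ℕ) (y : ℤ) : cnt p K (cl p y) = cnt p K y := by
  rcases cl_dvd hp y with h | h
  · exact (cnt_congr p K h).symm
  · rw [← cnt_neg p K y]; exact (cnt_congr p K h).symm

/-- The poles attached to a set of nodes. -/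
noncomputable def Dz (U : Finset ℕ) : Finset ℤ :=
  U.image (fun j : ℕ => (j : ℤ)) ∪ U.image (fun j : ℕ => -1 - (j : ℤ))

/-- The polynomial vanishing at a set of nodes. -/
noncomputable def NP (U : Finset ℕ) : ℚ[X] := ∏ j ∈ U, (X - C (tau j))

theorem mem_Dz {U : Finset ℕ} {i : ℤ} : i ∈ Dz U ↔ ∃ j ∈ U, i = j ∨ i = -1 - j := by
  simp only [Dz, mem_union, mem_image]
  constructor
  · rintro (⟨j, hj, rfl⟩ | ⟨j, hj, rfl⟩)
    · exact ⟨j, hj, Or.inl rfl⟩
    · exact ⟨j, hj, Or.inr rfl⟩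
  · rintro ⟨j, hj, rfl | rfl⟩
    · exact Or.inl ⟨j, hj, rfl⟩
    · exact Or.inr ⟨j, hj, rfl⟩

theorem tr_NP (U : Finset ℕ) : tr (NP U) = DZ (Dz U) := by
  unfold NP DZ Dz
  rw [map_prod, prod_union, prod_image, prod_image, ← prod_mul_distrib]
  · refine prod_congr rfl fun j _ => ?_
    rw [tr_lin]; push_cast; rfl
  · intro a _ b _ h
    simp only at h
    omega
  · intro a _ b _ h
    simp only at h
    omega
  · rw [disjoint_left]
    intro i h1 h2
    simp only [mem_image] at h1 h2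
    obtain ⟨a, -, rfl⟩ := h1
    obtain ⟨b, -, h⟩ := h2
    omega

theorem Dz_Ico (p K : ℕ) : Dz (Ico p K) = SK K \ SK p := by
  ext i
  simp only [mem_Dz, SK, Finset.mem_sdiff, mem_Ico]
  constructor
  · rintro ⟨j, hj, rfl | rfl⟩ <;> omega
  · intro h
    rcases le_or_gt 0 i with h0 | h0
    · exact ⟨i.toNat, by omega, Or.inl (by omega)⟩
    · exact ⟨(-1 - i).toNat, by omega, Or.inr (by omega)⟩

theorem NP_monic (U : Finset ℕ) : (NP U).Monic := monic_prod_of_monic _ _ fun _ _ => monic_X_sub_C _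

theorem NP_natDegree (U : Finset ℕ) : (NP U).natDegree = U.card := by
  unfold NP
  rw [natDegree_prod_of_monic _ _ fun _ _ => monic_X_sub_C _]
  simp

theorem isZ_NP (U : Finset ℕ) : IsZ (NP U) := Z23.Large.isZ_prod _ _ fun j _ => isZ_tau j

/-- The row polynomials. -/
noncomputable def RP (Cl : Finset ℕ) (ν : ℕ → ℕ) : ℚ[X] := ∏ c ∈ Cl, (X - C (tau c)) ^ ν c

theorem RP_monic (Cl : Finset ℕ) (ν : ℕ → ℕ) : (RP Cl ν).Monic :=
  monic_prod_of_monic _ _ fun _ _ => (monic_X_sub_C _).pow _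

theorem RP_natDegree (Cl : Finset ℕ) (ν : ℕ → ℕ) : (RP Cl ν).natDegree = ∑ c ∈ Cl, ν c := by
  unfold RP
  rw [natDegree_prod_of_monic _ _ fun _ _ => (monic_X_sub_C _).pow _]
  refine sum_congr rfl fun c _ => ?_
  rw [(monic_X_sub_C _).natDegree_pow, natDegree_X_sub_C, mul_one]

theorem isZ_RP (Cl : Finset ℕ) (ν : ℕ → ℕ) : IsZ (RP Cl ν) :=
  Z23.Large.isZ_prod _ _ fun j _ => (isZ_tau j).pow _

theorem nodes_le {p K : ℕ} (hp : Odd p) (c : ℕ) :
    ((Ico p K).filter fun j : ℕ => cl p j = c).card ≤ cnt p K c - 2 := by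
  rcases le_or_gt p K with h | h
  · rw [← cnt_deep p K hp.pos h]
    classical
    refine card_le_card_of_injOn (fun j : ℕ => if (p : ℤ) ∣ (c : ℤ) - j then (j : ℤ) else -1 - j)
      (fun j hj => ?_) (fun a _ b _ hab => ?_)
    · simp only [coe_filter, Set.mem_ofPred_eq] at hj ⊢
      have h2 := cl_dvd hp (j : ℤ)
      rw [hj.2] at h2
      rw [← Dz_Ico, mem_Dz]
      split_ifs with h3
      · exact ⟨⟨j, hj.1, Or.inl rfl⟩, h3⟩
      · refine ⟨⟨j, hj.1, Or.inr rfl⟩, ?_⟩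
        rcases h2 with h2 | h2
        · exact absurd (dv (dvd_neg.2 h2) (by ring)) h3
        · exact dv (dvd_neg.2 h2) (by ring)
    · simp only at hab
      split_ifs at hab <;> omega
  · rw [Ico_eq_empty (by omega)]
    simp

section entries

variable {p : ℕ} [Fact p.Prime]

theorem num_eval (m u : ℕ) (P : ℚ[X]) (y : ℤ) : (num m u P).eval (y : ℚ) =
    (((2 * y + 1 : ℤ)) : ℚ) * ((DZ (SK u)).eval (y : ℚ) ^ m * P.eval ((y : ℚ) * (y + 1))) := by
  unfold num
  rw [map_mul, map_pow, tr_WT, eval_mul, eval_mul, eval_pow, tr_eval]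
  simp

theorem nv_RP (hp : Odd p) (ν : ℕ → ℕ) (y : ℤ) :
    Nv p ((RP (range ((p + 1) / 2)) ν).eval ((y : ℚ) * (y + 1))) (ν (cl p y)) := by
  unfold RP
  rw [eval_prod]
  refine (nv_prod _ _ (fun c : ℕ => ν c * if (p : ℤ) ∣ y - c ∨ (p : ℤ) ∣ -1 - y - c then 1 else 0)
    fun c _ => ?_).mono ?_
  · rw [eval_pow]; exact (nv_lin y c).pow _
  · refine le_trans ?_ (single_le_sum (f := fun c : ℕ =>
      ν c * if (p : ℤ) ∣ y - c ∨ (p : ℤ) ∣ -1 - y - c then 1 else 0) (fun _ _ => Nat.zero_le _)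
      (mem_range.2 (cl_lt hp y)))
    simp only [if_pos (cl_dvd hp y), mul_one, le_refl]

theorem nv_NP (hp : Odd p) (U : Finset ℕ) (y : ℤ) :
    Nv p ((NP U).eval ((y : ℚ) * (y + 1))) (U.filter fun j : ℕ => cl p j = cl p y).card := by
  unfold NP
  rw [eval_prod]
  refine (nv_prod _ _ (fun j : ℕ => if (p : ℤ) ∣ y - j ∨ (p : ℤ) ∣ -1 - y - j then 1 else 0)
    fun c _ => nv_lin y c).mono (le_of_eq ?_)
  rw [card_filter]
  refine sum_congr rfl fun j _ => ?_
  simp only [eq_comm (a := cl p j), cl_eq_iff hp]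

/-- Columns that contain all the nodes. -/
theorem entry_full (s : ℕ) (hs : 3 ≤ s) (hso : Odd s) (hsp : s ≤ p) (m u k : ℕ)
    (h : 14 * u < 3 * p) (h15 : 15 ≤ p) (hk : k < 18 * u) (hk' : 14 * u - p ≤ k) (φ : ℚ[X])
    (hφ : IsZ φ) (hd : m * u + φ.natDegree < 13 * u) :
    nr p (LZ s (SK (14 * u)) (num m u (φ * (NP (Ico p (14 * u)) * X ^ (k - (14 * u - p)))))) ≤
      if p + u ≤ k then (p : ℝ) else 1 := by
  set K := 14 * u with hK
  set N' := num m u (φ * X ^ (k - (K - p))) with hN'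
  have e1 : num m u (φ * (NP (Ico p K) * X ^ (k - (K - p)))) = DZ (SK K \ SK p) * N' := by
    rw [hN', ← Dz_Ico, ← tr_NP]
    unfold num
    simp only [map_mul]
    ring
  have e2 : LZ s (SK K) (DZ (SK K \ SK p) * N') = LZ s (SK K ∩ SK p) N' := by
    rw [← LZ_cancel s (SK K ∩ SK p) (SK K \ SK p) (disjoint_sdiff_inter _ _).symm, union_comm,
      sdiff_union_inter]
  have e3 : LZ s (SK p) (DZ (SK p \ SK K) * N') = LZ s (SK K ∩ SK p) N' := by
    rw [inter_comm, ← LZ_cancel s (SK p ∩ SK K) (SK p \ SK K) (disjoint_sdiff_inter _ _).symm,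
      union_comm, sdiff_union_inter]
  have hZ : IsZ (DZ (SK p \ SK K) * N') :=
    (isZ_DZ _).mul (isZ_num m u _ (hφ.mul (Z23.Large.isZ_X.pow _)))
  have d1 : (SK p \ SK K).card ≤ 2 * (p - K) := by
    rw [← Dz_Ico]
    refine (card_union_le _ _).trans ?_
    have a := card_image_le (s := Ico K p) (f := fun j : ℕ => (j : ℤ))
    have b := card_image_le (s := Ico K p) (f := fun j : ℕ => -1 - (j : ℤ))
    rw [Nat.card_Ico] at a b
    omega
  have d2 : (φ * X ^ (k - (K - p))).natDegree ≤ φ.natDegree + (k - (K - p)) := by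
    refine natDegree_mul_le.trans ?_
    rw [natDegree_X_pow]
  have d3 := num_natDegree_le m u (φ * X ^ (k - (K - p)))
  have d4 : (DZ (SK p \ SK K) * N').natDegree ≤ (SK p \ SK K).card + N'.natDegree := by
    refine natDegree_mul_le.trans ?_
    rw [DZ_natDegree]
  rw [← hN'] at d3
  have d5 : (DZ (SK p \ SK K) * N').natDegree + 1 + 2 * u ≤ 2 * (k + p) := by omega
  obtain ⟨s1, s2⟩ := shallow p s hs hso hsp _ hZ
  rw [e1, e2, ← e3]
  split_ifs with hc
  · apply s1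
    have : 15 * p ≤ p ^ 2 := by nlinarith
    omega
  · apply s2
    omega

/-- Columns that miss a node. -/
theorem entry_part (hp : Odd p) (s : ℕ) (hs : 2 ≤ s) (m u : ℕ)
    (h : 14 * u < 3 * p) (h15 : 15 ≤ p) (hpK : p ≤ 14 * u) (U : Finset ℕ)
    (hU : U ⊆ Ico p (14 * u)) (ν : ℕ → ℕ)
    (hd : m * u + (RP (range ((p + 1) / 2)) ν).natDegree < 13 * u) (x : ℝ) (hx : 1 ≤ x)
    (hl : ∀ j ∈ Ico p (14 * u) \ U,
      ((cnt p (14 * u) (cl p j) - 2 : ℕ) : ℝ) + 1 + s ≤
        m * (cnt p u (cl p j) : ℝ) + ν (cl p j) +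
          (U.filter fun j' : ℕ => cl p j' = cl p j).card + x) :
    nr p (LZ s (SK (14 * u)) (num m u (RP (range ((p + 1) / 2)) ν * NP U))) ≤ (p : ℝ) ^ x := by
  set K := 14 * u with hK
  set φ := RP (range ((p + 1) / 2)) ν with hφ
  have hp1 := Z23.Local.one_le_p p
  have hsq : 15 * p ≤ p ^ 2 := by nlinarith
  have hpx : (p : ℝ) ≤ (p : ℝ) ^ x := by
    simpa using Real.rpow_le_rpow_of_exponent_le hp1 hx
  have dU : U.card ≤ K := by
    have := card_le_card hU
    rw [Nat.card_Ico] at this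
    omega
  have d2 : (φ * NP U).natDegree ≤ φ.natDegree + U.card := by
    refine natDegree_mul_le.trans ?_
    rw [NP_natDegree]
  have d3 := num_natDegree_le m u (φ * NP U)
  have hZ : IsZ (num m u (φ * NP U)) := isZ_num m u _ ((isZ_RP _ _).mul (isZ_NP _))
  refine polewise p s hs K (by omega) (num m u (φ * NP U)) hZ (by omega) _
    hpx fun i hi => ?_
  have h2 := two_le_cnt p K hp.pos hpK i
  have v1 : Nv p ((DZ (SK u)).eval (i : ℚ)) (cnt p u i) := norm_DZ_eval_le p (SK u) i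
  rw [num_eval, eval_mul]
  by_cases hc : ∃ j ∈ Ico p K \ U, cl p j = cl p i
  · obtain ⟨j, hj, hji⟩ := hc
    have v := (nv_int (p := p) (2 * i + 1)).mul ((v1.pow m).mul
      ((nv_RP hp ν i).mul (nv_NP hp U i)))
    have hl' := hl j hj
    rw [hji, cnt_cl hp, cnt_cl hp] at hl'
    have b := v.bound (a := cnt p K i - 1 + s) (x := x) (by
      have e : cnt p K i - 1 = cnt p K i - 2 + 1 := by omega
      rw [e]
      push_cast
      linarith)
    refine le_trans ?_ b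
    rw [pow_add (p : ℝ) (cnt p K i - 1) s, ← mul_assoc (nr p _)]
    have c1 : (if i ∈ SK p then (1 : ℝ) else (p : ℝ) ^ s) ≤ (p : ℝ) ^ s := by
      split_ifs
      · exact one_le_pow₀ hp1
      · exact le_rfl
    exact mul_le_mul_of_nonneg_left c1 (by positivity)
  · push Not at hc
    have key : ∀ i' ∈ SK K \ SK p, (p : ℤ) ∣ i - i' → i' ∈ Dz U := by
      intro i' hi' hd'
      rw [← Dz_Ico, mem_Dz] at hi'
      obtain ⟨j, hj, hij⟩ := hi'
      refine mem_Dz.2 ⟨j, ?_, hij⟩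
      by_contra hn
      refine hc j (Finset.mem_sdiff.2 ⟨hj, hn⟩) ((cl_eq_iff hp _ _).2 ?_)
      rcases hij with rfl | rfl
      · exact Or.inl (dv (dvd_neg.2 hd') (by ring))
      · exact Or.inr (dv (dvd_neg.2 hd') (by ring))
    have e : (NP U).eval ((i : ℚ) * (i + 1)) = (DZ (Dz U)).eval (i : ℚ) := by
      rw [← tr_eval, tr_NP]
    by_cases hip : i ∈ SK p
    · rw [if_pos hip, mul_one]
      have v2 : Nv p ((DZ (Dz U)).eval (i : ℚ)) (cnt p K i - 2) := by
        refine Nv.mono (norm_DZ_eval_le p (Dz U) i) ?_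
        rw [← cnt_deep p K hp.pos hpK]
        refine card_le_card fun i' hi' => ?_
        rw [mem_filter] at hi' ⊢
        exact ⟨key i' hi'.1 hi'.2, hi'.2⟩
      have v := (nv_int (p := p) (2 * i + 1)).mul ((v1.pow m).mul
        ((nv_RP hp ν i).mul (e ▸ v2)))
      refine v.bound ?_
      have e : cnt p K i - 1 = cnt p K i - 2 + 1 := by omega
      rw [e]
      push_cast
      have a1 : (0 : ℝ) ≤ (m : ℝ) * cnt p u i := by positivity
      have a2 : (0 : ℝ) ≤ ν (cl p i) := by positivity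
      linarith
    · have z : (DZ (Dz U)).eval (i : ℚ) = 0 := by
        rw [DZ_eval]
        exact prod_eq_zero (key i (Finset.mem_sdiff.2 ⟨hi, hip⟩) (by simp)) (sub_self _)
      rw [e, z]
      simp only [mul_zero, nr, Rat.cast_zero, norm_zero, zero_mul]
      positivity

/-- Number of deep poles in the class `c`. -/
noncomputable def bb (p u c : ℕ) : ℕ := cnt p (14 * u) c - 2

/-- Column offset. -/
noncomputable def gg (p u c : ℕ) : ℝ := if u ≤ c then -9 else if bb p u c ≤ 1 then -4 else -5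

/-- Row offset. -/
noncomputable def gam (p u m w c : ℕ) : ℝ :=
  if bb p u c = 0 then 0 else m * (if c < u then 1 else 0) - bb p u c - w - gg p u c

/-- The column polynomials. -/
noncomputable def psi (p u : ℕ) (U : ℕ → Finset ℕ) (k : ℕ) : ℚ[X] :=
  if k < 14 * u - p then NP (U k) else NP (Ico p (14 * u)) * X ^ (k - (14 * u - p))

/-- The column levels. -/
noncomputable def lev (p u : ℕ) (l : ℕ → ℝ) (k : ℕ) : ℝ :=
  if k < 14 * u - p then l k else if p + u ≤ k then -1 else 0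

omit [Fact p.Prime] in
theorem bb_le {u : ℕ} (h : 14 * u < 3 * p) (c : ℕ) : bb p u c ≤ 4 := by
  have := cnt_le_six p (14 * u) h c
  unfold bb
  omega

omit [Fact p.Prime] in
theorem gg_le {u : ℕ} (h : 14 * u < 3 * p) (c k : ℕ) (hk : k < bb p u c) :
    gg p u c + k ≤ -1 := by
  have h4 := bb_le h c
  have a : (k : ℝ) ≤ 3 := by exact_mod_cast (by omega : k ≤ 3)
  unfold gg
  split_ifs with h1 h2
  · linarith
  · have : k = 0 := by omega
    subst this; norm_num
  · linarith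

omit [Fact p.Prime] in
theorem used_lt (hp : Odd p) {u : ℕ} {U : Finset ℕ} (hU : U ⊆ Ico p (14 * u)) {j : ℕ}
    (hj : j ∈ Ico p (14 * u) \ U) :
    (U.filter fun j' : ℕ => cl p j' = cl p j).card < bb p u (cl p j) := by
  refine lt_of_lt_of_le ?_ (nodes_le hp (cl p j))
  rw [Finset.mem_sdiff] at hj
  refine card_lt_card ⟨filter_subset_filter _ hU, fun hs => hj.2 ?_⟩
  exact (mem_filter.1 (hs (mem_filter.2 ⟨hj.1, rfl⟩))).1

theorem entry (hp : Odd p) (u : ℕ) (h : 14 * u < 3 * p) (h15 : 15 ≤ p) (m w s : ℕ) (hs : 3 ≤ s)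
    (hso : Odd s) (hsw : s + 1 ≤ w) (hw : w ≤ 8) (ν : ℕ → ℕ) (l : ℝ)
    (hd : m * u + ∑ c ∈ range ((p + 1) / 2), ν c < 13 * u)
    (hl : ∀ c ∈ range ((p + 1) / 2), l ≤ gam p u m w c + ν c) (U : ℕ → Finset ℕ) (lC : ℕ → ℝ)
    (k : ℕ) (hk : k < 18 * u) (h1 : k < 14 * u - p → U k ⊆ Ico p (14 * u))
    (h2 : k < 14 * u - p → ∀ j ∈ Ico p (14 * u) \ U k,
      lC k ≤ gg p u (cl p j) + ((U k).filter fun j' : ℕ => cl p j' = cl p j).card)
    (h3 : k < 14 * u - p → lC k ≤ -1) :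
    nr p (LZ s (SK (14 * u)) (num m u (RP (range ((p + 1) / 2)) ν * psi p u U k))) ≤
      (p : ℝ) ^ (-(min 0 l + lev p u lC k)) := by
  have hp1 := Z23.Local.one_le_p p
  have hm := min_le_left 0 l
  unfold psi lev
  by_cases hc : k < 14 * u - p
  · rw [if_pos hc, if_pos hc]
    refine entry_part hp s (by omega) m u h h15 (by omega) _ (h1 hc) ν
      (by rw [RP_natDegree]; exact hd) _ (by linarith [h3 hc]) fun j hj => ?_
    have a1 := h2 hc j hj
    have a2 := hl _ (mem_range.2 (cl_lt hp (j : ℤ)))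
    have a3 := used_lt hp (h1 hc) hj
    have a4 := min_le_right 0 l
    have a5 : (s : ℝ) + 1 ≤ w := by exact_mod_cast hsw
    rw [cnt_small p u _ (by omega) (cl_lt hp (j : ℤ))]
    unfold gam at a2
    rw [if_neg (by omega)] at a2
    change ((bb p u (cl p j) : ℕ) : ℝ) + 1 + s ≤ _
    push_cast
    linarith
  · rw [if_neg hc, if_neg hc]
    refine (entry_full s hs hso (by omega) m u k h h15 hk (by omega) _ (isZ_RP _ _)
      (by rw [RP_natDegree]; exact hd)).trans ?_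
    split_ifs
    · simpa using Real.rpow_le_rpow_of_exponent_le hp1 (show 1 ≤ -(min 0 l + -1) by linarith)
    · exact Real.one_le_rpow hp1 (by linarith)

theorem entry_FF (hp : Odd p) (u : ℕ) (h : 14 * u < 3 * p) (h15 : 15 ≤ p) (m s : ℕ) (hs : 3 ≤ s)
    (hso : Odd s) (hw : s + 1 ≤ 8) (a b x : ℤ) (ν : ℕ → ℕ) (l : ℝ)
    (hd : m * u + ∑ c ∈ range ((p + 1) / 2), ν c < 13 * u)
    (hl : ∀ c ∈ range ((p + 1) / 2), l ≤ gam p u m (s + 1) c + ν c) (U : ℕ → Finset ℕ)
    (lC : ℕ → ℝ) (k : ℕ) (hk : k < 18 * u) (h1 : k < 14 * u - p → U k ⊆ Ico p (14 * u))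
    (h2 : k < 14 * u - p → ∀ j ∈ Ico p (14 * u) \ U k,
      lC k ≤ gg p u (cl p j) + ((U k).filter fun j' : ℕ => cl p j' = cl p j).card)
    (h3 : k < 14 * u - p → lC k ≤ -1) :
    nr p (FF s a b x m u (RP (range ((p + 1) / 2)) ν * psi p u U k)) ≤
      (p : ℝ) ^ (-(min 0 l + lev p u lC k)) := by
  refine norm_FF_le p s a b x m u _ _
    (entry hp u h h15 m (s + 1) 3 le_rfl (by decide) (by omega) hw ν l hd hl U lC k hk h1 h2 h3)
    (entry hp u h h15 m (s + 1) s hs hso le_rfl hw ν l hd hl U lC k hk h1 h2 h3) ?_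
  have hZ : IsZ (psi p u U k) := by
    unfold psi
    split_ifs
    · exact isZ_NP _
    · exact (isZ_NP _).mul (Z23.Large.isZ_X.pow _)
  obtain ⟨z, hz⟩ := RZ_int (SK (14 * u)) _ (isZ_num m u _ ((isZ_RP (range ((p + 1) / 2)) ν).mul hZ))
  rw [hz]
  refine (Z23.Large.norm_int_le p z).trans (Real.one_le_rpow (Z23.Local.one_le_p p) ?_)
  have hm := min_le_left 0 l
  have : lev p u lC k ≤ 0 := by
    unfold lev
    split_ifs with hc
    · linarith [h3 hc]
    · norm_num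
    · exact le_rfl
  linarith

end entries

/-- A natural number bounding minus the row offset. -/
noncomputable def mg (p u c d : ℕ) : ℕ := if c < u then bb p u c - 2 else bb p u c - d

theorem row_sum (Cl : Finset ℕ) (γ : ℕ → ℝ) (M : ℕ → ℕ) (hM : ∀ c ∈ Cl, -γ c ≤ M c)
    (ν : ℕ → ℕ) (l : ℕ → ℝ) (h : ℕ)
    (e : ∑ t ∈ range h, max (0 - l t) 0 = ∑ c ∈ Cl, ∑ i ∈ range (ν c), max (0 - γ c - i) 0) :
    -∑ c ∈ Cl, (M c : ℝ) * (M c + 1) / 2 ≤ ∑ t ∈ range h, min 0 (l t) := by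
  have e1 : ∑ t ∈ range h, min 0 (l t) = -∑ t ∈ range h, max (0 - l t) 0 := by
    rw [← sum_neg_distrib]
    refine sum_congr rfl fun t _ => ?_
    rcases le_total 0 (l t) with h | h
    · rw [min_eq_left h, max_eq_right (by linarith), neg_zero]
    · rw [min_eq_right h, max_eq_left (by linarith)]; ring
  rw [e1, e, neg_le_neg_iff]
  exact sum_le_sum fun c hc => sum_max_le_tri (0 - γ c) (M c) (ν c) (by linarith [hM c hc])

theorem gamA_le {p u : ℕ} (h : 14 * u < 3 * p) (c : ℕ) : -gam p u 3 (5 + 1) c ≤ mg p u c 3 := by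
  have h4 := bb_le h c
  unfold gam gg mg
  generalize bb p u c = b at *
  by_cases hc : c < u
  · simp only [if_pos hc, if_neg (not_le.2 hc)]
    interval_cases b <;> norm_num
  · simp only [if_neg hc, if_pos (not_lt.1 hc)]
    interval_cases b <;> norm_num

theorem gamB_le {p u : ℕ} (h : 14 * u < 3 * p) (c : ℕ) : -gam p u 5 (7 + 1) c ≤ mg p u c 1 := by
  have h4 := bb_le h c
  unfold gam gg mg
  generalize bb p u c = b at *
  by_cases hc : c < u
  · simp only [if_pos hc, if_neg (not_le.2 hc)]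
    interval_cases b <;> norm_num
  · simp only [if_neg hc, if_pos (not_lt.1 hc)]
    interval_cases b <;> norm_num

theorem per_class {p u : ℕ} (h : 14 * u < 3 * p) (c : ℕ) :
    (mg p u c 3 : ℝ) * (mg p u c 3 + 1) / 2 + (mg p u c 1 : ℝ) * (mg p u c 1 + 1) / 2 -
        ∑ k ∈ range (bb p u c), (gg p u c + k) ≤
      9 * (bb p u c : ℝ) - (if c < u then 4 * (bb p u c : ℝ) + ((min (bb p u c) 1 : ℕ) : ℝ) else 0)
        + (if bb p u c = 4 then 1 else 0) := by
  have h4 := bb_le h c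
  unfold gg mg
  generalize bb p u c = b at *
  by_cases hc : c < u
  · simp only [if_pos hc, if_neg (not_le.2 hc)]
    interval_cases b <;> norm_num [sum_range_succ]
  · simp only [if_neg hc, if_pos (not_lt.1 hc)]
    interval_cases b <;> norm_num [sum_range_succ]

theorem col_sum {p u : ℕ} (hp : Odd p) (h : 14 * u < 3 * p) (l : ℕ → ℝ)
    (e : ∑ t ∈ range (14 * u - p), l t = ∑ c ∈ (Ico p (14 * u)).image (fun j : ℕ => cl p j),
      ∑ k ∈ range ((Ico p (14 * u)).filter fun j : ℕ => cl p j = c).card, (gg p u c + k)) :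
    ∑ c ∈ range ((p + 1) / 2), ∑ k ∈ range (bb p u c), (gg p u c + k) -
        ((18 * u - max (14 * u - p) (p + u) : ℕ) : ℝ) ≤ ∑ k ∈ range (18 * u), lev p u l k := by
  have e1 : ∑ k ∈ range (18 * u), lev p u l k = ∑ t ∈ range (14 * u - p), l t -
      ((18 * u - max (14 * u - p) (p + u) : ℕ) : ℝ) := by
    unfold lev
    rw [sum_ite]
    have f1 : (range (18 * u)).filter (fun k => k < 14 * u - p) = range (14 * u - p) := by
      ext k; simp only [mem_filter, mem_range]; omega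
    rw [f1, sum_ite, filter_filter]
    have f2 : (range (18 * u)).filter (fun k => ¬ k < 14 * u - p ∧ p + u ≤ k) =
        Ico (max (14 * u - p) (p + u)) (18 * u) := by
      ext k; simp only [mem_filter, mem_range, mem_Ico]; omega
    rw [f2]
    simp [sub_eq_add_neg]
  rw [e1, e, sub_le_sub_iff_right]
  have s1 : (Ico p (14 * u)).image (fun j : ℕ => cl p j) ⊆ range ((p + 1) / 2) := by
    intro c hc
    obtain ⟨j, -, rfl⟩ := mem_image.1 hc
    exact mem_range.2 (cl_lt hp _)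
  rw [sum_subset s1]
  · refine sum_le_sum fun c _ => ?_
    refine sum_le_sum_of_subset_of_nonpos' (range_subset_range.2 (nodes_le hp c)) fun k hk _ => ?_
    linarith [gg_le h c k (mem_range.1 hk)]
  · intro c _ hc
    rw [filter_eq_empty_iff.2 fun j hj hjc => hc (mem_image.2 ⟨j, hj, hjc⟩)]
    simp

end Large

open Large in
theorem val_large (c : Par) (u p : ℕ) (hp : p.Prime) (hu : 3 ≤ u) (h : 14 * u < 3 * p)
    (h0 : Delta c u ≠ 0) : -lossL u p ≤ (padicValRat p (Delta c u) : ℝ) := by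
  have := Fact.mk hp
  have h15 : 15 ≤ p := by omega
  have hodd : Odd p := hp.odd_of_ne_two (by omega)
  have hC : (range ((p + 1) / 2)).Nonempty := nonempty_range_iff.2 (by omega)
  obtain ⟨νA, lA, hA1, hA2, hA3⟩ := greedy _ hC (gam p u 3 (5 + 1))
  obtain ⟨νB, lB, hB1, hB2, hB3⟩ := greedy _ hC (gam p u 5 (7 + 1))
  obtain ⟨U, lC, hU1, hU2, hU3, hU4⟩ :=
    greedy_nodes (Ico p (14 * u)) (fun j : ℕ => cl p j) (gg p u)
  rw [Nat.card_Ico] at hU1 hU2 hU3 hU4
  have k1 : ∀ k, k < 14 * u - p → U k ⊆ Ico p (14 * u) := fun k hk => (hU1 k hk.le).1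
  have k3 : ∀ k, k < 14 * u - p → lC k ≤ -1 := fun k hk => by
    obtain ⟨j, hj, e⟩ := hU3 k hk
    rw [e]
    exact gg_le h _ _ (used_lt hodd (k1 k hk) hj)
  have hψ : Mon (psi p u U) (10 * u + 8 * u) := by
    intro k _
    unfold psi
    split_ifs with hc
    · exact ⟨NP_monic _, by rw [NP_natDegree, (hU1 k hc.le).2]⟩
    · refine ⟨(NP_monic _).mul (monic_X_pow _), ?_⟩
      rw [(NP_monic _).natDegree_mul (monic_X_pow _), NP_natDegree, natDegree_X_pow, Nat.card_Ico]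
      omega
  have main := val_ge_of_levels p (FA c u) (FB c u) (FF_linear _ _ _ _ _ _)
    (FF_linear _ _ _ _ _ _) (10 * u) (8 * u) (fun t => RP (range ((p + 1) / 2)) (νA t))
    (fun t => RP (range ((p + 1) / 2)) (νB t)) (psi p u U)
    (fun t _ => ⟨RP_monic _ _, by rw [RP_natDegree, hA1]⟩)
    (fun t _ => ⟨RP_monic _ _, by rw [RP_natDegree, hB1]⟩) hψ
    (fun t => min 0 (lA t)) (fun t => min 0 (lB t)) (lev p u lC)
    (fun t ht k hk => entry_FF hodd u h h15 3 5 (by norm_num) (by decide) (by norm_num) _ _ _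
      (νA t) (lA t) (by rw [hA1]; omega) (hA2 t) U lC k (by omega) (k1 k) (hU2 k) (k3 k))
    (fun t ht k hk => entry_FF hodd u h h15 5 7 (by norm_num) (by decide) (by norm_num) _ _ _
      (νB t) (lB t) (by rw [hB1]; omega) (hB2 t) U lC k (by omega) (k1 k) (hU2 k) (k3 k)) h0
  have r1 := row_sum _ _ (fun c => mg p u c 3) (fun c _ => gamA_le h c) _ _ _ (hA3 (10 * u) 0)
  have r2 := row_sum _ _ (fun c => mg p u c 1) (fun c _ => gamB_le h c) _ _ _ (hB3 (8 * u) 0)
  have r3 := col_sum hodd h lC hU4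
  have r4 := sum_le_sum fun c (_ : c ∈ range ((p + 1) / 2)) => per_class h c
  have r5 := count_large u p hodd h
  rw [sum_sub_distrib, sum_add_distrib] at r4
  rw [show 10 * u + 8 * u = 18 * u by ring] at main
  change _ ≤ (padicValRat p (Delta c u) : ℝ) at main
  unfold bb at r3 r4
  linarith

end Pool.Agent.P.MP_a89d6d_nt.Z57
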