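import Pool.Agent.P.MP_a89d6d_nt.Z57.Defs
import Pool.Agent.P.MP_a89d6d_nt.Z34.Lower1

/-!
From lower bounds on all valuations of a rational number to a lower bound on its logarithm.
-/

namespace Pool.Agent.P.MP_a89d6d_nt.Z57

open Polynomial Finset Filter MeasureTheory
open Pool.Agent.P.MP_a89d6d_nt.Z23 (H W nc ach ff zpt)
open Pool.Agent.P.MP_a89d6d_nt.Z23.Large (IsZ)

namespace Lower

open Topology ArithmeticFunction
open Pool.Agent.P.MP_a89d6d_nt.Z23.Lower (PP mem_PP log_factorial_le psi_scaled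
  sum_vonMangoldt_div_eq)
open Pool.Agent.P.MP_a89d6d_nt.Z34.Lower2 (SS sum_piece)

lemma harm :
    ∑ m ∈ Icc (1 : ℕ) 256, ((256 : ℚ) / (m : ℚ) * 4 - 4) < (1024 : ℚ) * (512435 / 100000) := by
  decide +kernel

/-- Mertens' first theorem, lower bound with a good constant. -/
lemma mertens_lower : ∀ᶠ n : ℕ in atTop,
    Real.log n + 807 / 1000 ≤ ∑ d ∈ Ioc 0 (4 * n), vonMangoldt d / (d : ℝ) := by
  have h1 : Tendsto (fun n : ℕ => ∑ m ∈ Icc 1 256,
      (Chebyshev.psi (((256 : ℝ) / (m : ℕ) * 4) * n) / n - Chebyshev.psi (4 * n) / n)) atTop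
      (𝓝 (∑ m ∈ Icc 1 256, (((256 : ℝ) / (m : ℕ) * 4) - 4))) :=
    tendsto_finsetSum _ fun m _ => (psi_scaled (by positivity)).sub (psi_scaled (by norm_num))
  have h2 : (∑ m ∈ Icc 1 256, (((256 : ℝ) / (m : ℕ) * 4) - 4)) < 1024 * (512435 / 100000) := by
    have := (Rat.cast_lt (K := ℝ)).mpr harm
    push_cast at this
    linarith
  filter_upwards [h1.eventually (gt_mem_nhds h2), eventually_gt_atTop 0] with n hn hn0
  have hn' : (0 : ℝ) < n := by exact_mod_cast hn0
  have h3 := log_factorial_le (4 * n) 256 (by omega)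
  have h4 := Pool.Agent.Lib.Mertens.le_log_factorial (256 * (4 * n))
  have h5 : Real.log ((256 * (4 * n) : ℕ) : ℝ) = 10 * Real.log 2 + Real.log n := by
    rw [show ((256 * (4 * n) : ℕ) : ℝ) = 2 ^ 10 * n by push_cast; ring,
      Real.log_mul (by norm_num) (by positivity), Real.log_pow]
    push_cast
    ring
  have h6 : ∑ m ∈ Icc 1 256, (Chebyshev.psi (((256 : ℕ) : ℝ) / (m : ℕ) * ((4 * n : ℕ) : ℝ)) -
      Chebyshev.psi ((4 * n : ℕ) : ℝ)) < 1024 * (512435 / 100000) * n := by
    rw [← div_lt_iff₀ hn', sum_div]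
    convert hn using 2 with m _
    push_cast
    rw [sub_div, mul_assoc]
  rw [h5] at h4
  have l2 := Real.log_two_gt_d9
  set S := ∑ d ∈ Ioc 0 (4 * n), vonMangoldt d / (d : ℝ)
  push_cast at h3 h4 h6
  have h7 : 1024 * (n : ℝ) * (10 * Real.log 2 + Real.log n - 1 - 512435 / 100000) ≤
      1024 * n * S := by linarith
  have h8 := le_of_mul_le_mul_left h7 (by positivity)
  linarith

/-- The error from the small primes is negligible. -/
lemma err_small : ∀ᶠ n : ℕ in atTop,
    Real.sqrt (100000 * n) * (232 * n * Real.log (100000 * n)) ≤ (1 / 20) * (n : ℝ) ^ 2 := by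
  have h1 : Tendsto (fun x : ℝ => Real.log x / Real.sqrt x) atTop (𝓝 0) := by
    have := (isLittleO_log_rpow_atTop (r := 1 / 2) (by norm_num)).tendsto_div_nhds_zero
    refine this.congr fun x => ?_
    rw [Real.sqrt_eq_rpow]
  have h3 : Tendsto (fun n : ℕ => (100000 : ℝ) * n) atTop atTop :=
    tendsto_natCast_atTop_atTop.const_mul_atTop (by norm_num)
  have h4 := (h1.comp h3).const_mul (232 * 100000)
  simp only [mul_zero] at h4
  filter_upwards [h4.eventually (gt_mem_nhds (show (0 : ℝ) < 1 / 20 by norm_num)),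
    eventually_gt_atTop 0] with n hn hn0
  have hn' : (0 : ℝ) < n := by exact_mod_cast hn0
  simp only [Function.comp] at hn
  have hs : 0 < Real.sqrt (100000 * n) := Real.sqrt_pos.2 (by positivity)
  have hs2 : Real.sqrt (100000 * n) * Real.sqrt (100000 * n) = 100000 * n :=
    Real.mul_self_sqrt (by positivity)
  set s := Real.sqrt (100000 * n)
  have e : s * (232 * n * Real.log (100000 * n)) =
      (232 * 100000 * (Real.log (100000 * n) / s)) * (n : ℝ) ^ 2 := by
    have : (n : ℝ) = s * s / 100000 := by linarith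
    generalize Real.log (100000 * n) = l
    rw [this]
    field_simp
  rw [e]
  exact mul_le_mul_of_nonneg_right hn.le (by positivity)

/-- The medium bound with the two small terms absorbed. -/
lemma med_clean (n p : ℕ) (hn : 10000 ≤ n) (hp : 100000 * n ≤ p ^ 2) :
    976 * (n : ℝ) ^ 2 / (p : ℝ) ^ 2 + 10 ≤ n / 50 := by
  have hn' : (10000 : ℝ) ≤ n := by exact_mod_cast hn
  have hp' : (100000 : ℝ) * n ≤ (p : ℝ) ^ 2 := by exact_mod_cast hp
  have h1 : 976 * (n : ℝ) ^ 2 / (p : ℝ) ^ 2 ≤ 976 * (n : ℝ) ^ 2 / (100000 * n) :=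
    div_le_div_of_nonneg_left (by positivity) (by positivity) hp'
  have h2 : 976 * (n : ℝ) ^ 2 / (100000 * n) = 976 / 100000 * n := by
    field_simp
  linarith

theorem lower_start : ∀ᶠ n : ℕ in atTop, ∀ v : ℕ → ℝ,
    (∀ p : ℕ, p.Prime → 100000 * n ≤ p ^ 2 →
      124 * (n : ℝ) ^ 2 / p - 5301 / 50 * n - 7 / 6 * p ≤ v p) →
    (∀ p : ℕ, p.Prime → 124 * (n : ℝ) ^ 2 * ∑ k ∈ Icc 1 (Nat.log p (28 * n)), 1 / (p : ℝ) ^ k
      - 232 * n * (Nat.log p (64 * n) : ℝ) ≤ v p) →
    124 * (n : ℝ) ^ 2 * Real.log n - 33341 / 100 * (n : ℝ) ^ 2 ≤ SS v (4 * n) := by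
  filter_upwards [mertens_lower,
    sum_piece 0 4 (5301 / 50) (7 / 6) (43342 / 100) le_rfl (by norm_num) (by norm_num),
    err_small, eventually_gt_atTop 0] with n hM h1 hE hn0 v hmed hsmall
  have hn' : (0 : ℝ) < n := by exact_mod_cast hn0
  have hn1 : (1 : ℝ) ≤ n := by exact_mod_cast hn0
  have hlog : ∀ p : ℕ, 0 ≤ Real.log p := fun p => Real.log_natCast_nonneg p
  rw [zero_mul, Nat.floor_zero, show (4 : ℝ) * n = ((4 * n : ℕ) : ℝ) by push_cast; ring,
    Nat.floor_natCast] at h1
  set E : ℝ := 232 * n * Real.log (100000 * n) with hEdef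
  have hE0 : 0 ≤ E := by
    have : 0 ≤ Real.log (100000 * n) := Real.log_nonneg (by linarith)
    positivity
  have t1 : ∀ p ∈ PP (4 * n),
      124 * (n : ℝ) ^ 2 * ((∑ k ∈ Icc 1 (Nat.log p (4 * n)), 1 / (p : ℝ) ^ k) * Real.log p)
        - (5301 / 50 * n + 7 / 6 * p) * Real.log p - (if p ^ 2 < 100000 * n then E else 0) ≤
      v p * Real.log p := by
    intro p hp
    obtain ⟨hp1, hp2⟩ := mem_PP.1 hp
    have hp0 : (0 : ℝ) < p := by exact_mod_cast hp2.pos
    split_ifs with hc
    · have hs := mul_le_mul_of_nonneg_right (hsmall p hp2) (hlog p)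
      have a1 : ∑ k ∈ Icc 1 (Nat.log p (4 * n)), 1 / (p : ℝ) ^ k ≤
          ∑ k ∈ Icc 1 (Nat.log p (28 * n)), 1 / (p : ℝ) ^ k :=
        sum_le_sum_of_subset_of_nonneg
          (Icc_subset_Icc_right (Nat.log_mono_right (by omega))) fun _ _ _ => by positivity
      have a2 : (Nat.log p (64 * n) : ℝ) * Real.log p ≤ Real.log (100000 * n) := by
        rw [← Real.log_pow]
        refine Real.log_le_log (by positivity) ?_
        have : p ^ Nat.log p (64 * n) ≤ 100000 * n :=
          (Nat.pow_log_le_self p (by omega)).trans (by omega)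
        exact_mod_cast this
      have a4 : 0 ≤ (5301 / 50 * (n : ℝ) + 7 / 6 * p) * Real.log p := by
        have := hlog p
        positivity
      have a5 := mul_le_mul_of_nonneg_left (mul_le_mul_of_nonneg_right a1 (hlog p))
        (show 0 ≤ 124 * (n : ℝ) ^ 2 by positivity)
      have a6 := mul_le_mul_of_nonneg_left a2 (show 0 ≤ 232 * (n : ℝ) by positivity)
      rw [hEdef]
      linarith
    · rw [not_lt] at hc
      have hs := mul_le_mul_of_nonneg_right (hmed p hp2 hc) (hlog p)
      have hl : Nat.log p (4 * n) = 1 :=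
        (Nat.log_eq_iff (Or.inl one_ne_zero)).2 ⟨by simpa using hp1, by norm_num; omega⟩
      rw [hl, Icc_self, sum_singleton, pow_one]
      refine le_trans (le_of_eq ?_) hs
      ring
  have t1' := sum_le_sum t1
  rw [sum_sub_distrib, sum_sub_distrib, ← mul_sum, ← sum_vonMangoldt_div_eq,
    ← sum_filter, sum_const, nsmul_eq_mul] at t1'
  have hcard : (((PP (4 * n)).filter fun p => p ^ 2 < 100000 * n).card : ℝ) ≤
      Real.sqrt (100000 * n) := by
    have : ((PP (4 * n)).filter fun p => p ^ 2 < 100000 * n) ⊆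
        Ioc 0 (Nat.sqrt (100000 * n)) := by
      intro p hp
      obtain ⟨hp1, hp2⟩ := mem_filter.1 hp
      exact mem_Ioc.2 ⟨(mem_PP.1 hp1).2.pos, Nat.le_sqrt'.2 hp2.le⟩
    have h := card_le_card this
    rw [Nat.card_Ioc, Nat.sub_zero] at h
    calc _ ≤ ((Nat.sqrt (100000 * n) : ℕ) : ℝ) := by exact_mod_cast h
      _ ≤ Real.sqrt ((100000 * n : ℕ) : ℝ) := Real.nat_sqrt_le_real_sqrt
      _ = _ := by push_cast; rfl
  have b1 := mul_le_mul_of_nonneg_right hcard hE0
  have b2 := mul_le_mul_of_nonneg_left hM (show 0 ≤ 124 * (n : ℝ) ^ 2 by positivity)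
  have b5 : 0 ≤ (n : ℝ) ^ 2 := by positivity
  unfold SS
  change ∑ p ∈ PP (4 * n), _ ≤ _ at h1
  linarith

/-- The tangent line of `1 / p` at `13 n / 3`. -/
lemma tangent (n p : ℝ) (hp : 0 < p) :
    744 / 13 * n - 1116 / 169 * p ≤ 124 * n ^ 2 / p := by
  rw [le_div_iff₀ hp]
  nlinarith [sq_nonneg (13 * n - 3 * p)]

lemma loss_le (u p : ℝ) (hu : 19000 ≤ u) :
    lossL u p ≤ 4 * max (14 * u - p) 0 + 5 * max (13 * u - p) 0 + max (17 * u - p) 0
      - 4 * max (15 * u - 2 * p) 0 + 3 * max (13 * u - 2 * p) 0 - 4 * max (15 * u - 3 * p) 0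
      + max (14 * u - 5 * p / 2) 0 + u / 1000 := by
  unfold lossL
  split_ifs <;> linarith

lemma loss1 (u p : ℝ) (hu : 19000 ≤ u) (h2 : p ≤ 5 * u) :
    lossL u p ≤ 71001 / 1000 * u + 3 / 2 * p := by
  have := loss_le u p hu
  rw [max_eq_left (by linarith), max_eq_left (by linarith), max_eq_left (by linarith),
    max_eq_left (by linarith), max_eq_left (by linarith), max_eq_left (by linarith),
    max_eq_left (by linarith)] at this
  linarith

lemma loss2 (u p : ℝ) (hu : 19000 ≤ u) (h1 : 5 * u < p) (h2 : p ≤ 28 / 5 * u) :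
    lossL u p ≤ 131001 / 1000 * u + -21 / 2 * p := by
  have := loss_le u p hu
  rw [max_eq_left (by linarith), max_eq_left (by linarith), max_eq_left (by linarith),
    max_eq_left (by linarith), max_eq_left (by linarith), max_eq_right (by linarith),
    max_eq_left (by linarith)] at this
  linarith

lemma loss3 (u p : ℝ) (hu : 19000 ≤ u) (h1 : 28 / 5 * u < p) (h2 : p ≤ 13 / 2 * u) :
    lossL u p ≤ 117001 / 1000 * u + -8 * p := by
  have := loss_le u p hu
  rw [max_eq_left (by linarith), max_eq_left (by linarith), max_eq_left (by linarith),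
    max_eq_left (by linarith), max_eq_left (by linarith), max_eq_right (by linarith),
    max_eq_right (by linarith)] at this
  linarith

lemma loss4 (u p : ℝ) (hu : 19000 ≤ u) (h1 : 13 / 2 * u < p) (h2 : p ≤ 15 / 2 * u) :
    lossL u p ≤ 78001 / 1000 * u + -2 * p := by
  have := loss_le u p hu
  rw [max_eq_left (by linarith), max_eq_left (by linarith), max_eq_left (by linarith),
    max_eq_left (by linarith), max_eq_right (by linarith), max_eq_right (by linarith),
    max_eq_right (by linarith)] at this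
  linarith

lemma loss5 (u p : ℝ) (hu : 19000 ≤ u) (h1 : 15 / 2 * u < p) (h2 : p ≤ 13 * u) :
    lossL u p ≤ 138001 / 1000 * u + -10 * p := by
  have := loss_le u p hu
  rw [max_eq_left (by linarith), max_eq_left (by linarith), max_eq_left (by linarith),
    max_eq_right (by linarith), max_eq_right (by linarith), max_eq_right (by linarith),
    max_eq_right (by linarith)] at this
  linarith

lemma loss6 (u p : ℝ) (hu : 19000 ≤ u) (h1 : 13 * u < p) (h2 : p ≤ 14 * u) :
    lossL u p ≤ 73001 / 1000 * u + -5 * p := by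
  have := loss_le u p hu
  rw [max_eq_left (by linarith), max_eq_right (by linarith), max_eq_left (by linarith),
    max_eq_right (by linarith), max_eq_right (by linarith), max_eq_right (by linarith),
    max_eq_right (by linarith)] at this
  linarith

lemma loss7 (u p : ℝ) (hu : 0 ≤ u) (h1 : 14 * u < p) : lossL u p = max (17 * u - p) 0 := by
  unfold lossL
  rw [if_neg (by linarith), max_eq_right (by linarith : 14 * u - p ≤ 0),
    max_eq_right (by linarith : 13 * u - p ≤ 0), max_eq_right (by linarith : 15 * u - 2 * p ≤ 0),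
    max_eq_right (by linarith : 13 * u - 2 * p ≤ 0),
    max_eq_right (by linarith : 15 * u - 3 * p ≤ 0),
    max_eq_right (by linarith : 14 * u - 5 * p / 2 ≤ 0)]
  ring

end Lower

open Pool.Agent.P.MP_a89d6d_nt.Z23.Lower (log_rat_eq)
open Pool.Agent.P.MP_a89d6d_nt.Z34.Lower2 (SS SS_add piece)

theorem lower_abstract : ∀ᶠ n : ℕ in atTop, ∀ q : ℚ, q ≠ 0 →
    (∀ p : ℕ, p.Prime → 64 * n ≤ p ^ 2 →
      124 * (n : ℝ) ^ 2 / p - 106 * n - 7 * p / 6 - 976 * (n : ℝ) ^ 2 / (p : ℝ) ^ 2 - 10 ≤
        (padicValRat p q : ℝ)) →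
    (∀ p : ℕ, p.Prime → 14 * n < 3 * p → -lossL n p ≤ (padicValRat p q : ℝ)) →
    (∀ p : ℕ, p.Prime → 124 * (n : ℝ) ^ 2 * ∑ k ∈ Icc 1 (Nat.log p (28 * n)), 1 / (p : ℝ) ^ k
      - 232 * n * (Nat.log p (64 * n) : ℝ) ≤ (padicValRat p q : ℝ)) →
    124 * (n : ℝ) ^ 2 * Real.log n - 791 * (n : ℝ) ^ 2 ≤ Real.log |(q : ℝ)| := by
  filter_upwards [Lower.lower_start,
    piece 4 (14 / 3) (5301 / 50 - 744 / 13) (7 / 6 + 1116 / 169) (5498 / 100) (by norm_num)
      (by norm_num) (by norm_num),
    piece (14 / 3) 5 (71001 / 1000) (3 / 2) (2609 / 100) (by norm_num) (by norm_num) (by norm_num),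
    piece 5 (28 / 5) (131001 / 1000) (-21 / 2) (4522 / 100) (by norm_num) (by norm_num)
      (by norm_num),
    piece (28 / 5) (13 / 2) (117001 / 1000) (-8) (6175 / 100) (by norm_num) (by norm_num)
      (by norm_num),
    piece (13 / 2) (15 / 2) (78001 / 1000) (-2) (6401 / 100) (by norm_num) (by norm_num)
      (by norm_num),
    piece (15 / 2) 13 (138001 / 1000) (-10) (19526 / 100) (by norm_num) (by norm_num)
      (by norm_num),
    piece 13 14 (73001 / 1000) (-5) (551 / 100) (by norm_num) (by norm_num) (by norm_num),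
    piece 14 17 17 (-1) (451 / 100) (by norm_num) (by norm_num) (by norm_num),
    eventually_ge_atTop 19000] with n h0 h1 h2 h3 h4 h5 h6 h7 h8 hn q hq hmed hlarge hsmall
  set v : ℕ → ℝ := fun p => (padicValRat p q : ℝ) with hv
  have hn' : (19000 : ℝ) ≤ n := by exact_mod_cast hn
  have hmed' : ∀ p : ℕ, p.Prime → 100000 * n ≤ p ^ 2 →
      124 * (n : ℝ) ^ 2 / p - 5301 / 50 * n - 7 / 6 * p ≤ v p := fun p hp h => by
    have a := hmed p hp (by omega)
    have b := Lower.med_clean n p (by omega) h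
    simp only [hv]
    linarith
  have hl : ∀ p : ℕ, p.Prime → 14 / 3 * (n : ℝ) < p → -lossL n p ≤ v p := fun p hp h =>
    hlarge p hp (by exact_mod_cast (by linarith : 14 * (n : ℝ) < 3 * p))
  have g0 := h0 v hmed' hsmall
  have g1 := h1 v fun p hp k1 _ => by
    have k3 : 4 * n < p := by exact_mod_cast k1
    have a := hmed' p hp (by nlinarith)
    have b := Lower.tangent n p (by exact_mod_cast hp.pos)
    linarith
  have g2 := h2 v fun p hp k1 k2 => by
    linarith [hl p hp k1, Lower.loss1 n p hn' k2]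
  have g3 := h3 v fun p hp k1 k2 => by
    linarith [hl p hp (by linarith), Lower.loss2 n p hn' k1 k2]
  have g4 := h4 v fun p hp k1 k2 => by
    linarith [hl p hp (by linarith), Lower.loss3 n p hn' k1 k2]
  have g5 := h5 v fun p hp k1 k2 => by
    linarith [hl p hp (by linarith), Lower.loss4 n p hn' k1 k2]
  have g6 := h6 v fun p hp k1 k2 => by
    linarith [hl p hp (by linarith), Lower.loss5 n p hn' k1 k2]
  have g7 := h7 v fun p hp k1 k2 => by
    linarith [hl p hp (by linarith), Lower.loss6 n p hn' k1 k2]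
  have g8 := h8 v fun p hp k1 k2 => by
    have a := hl p hp (by linarith)
    rw [Lower.loss7 n p (by linarith) k1, max_eq_left (by linarith)] at a
    linarith
  rw [show (4 : ℝ) * n = ((4 * n : ℕ) : ℝ) by push_cast; ring, Nat.floor_natCast] at g1
  rw [show (17 : ℝ) * n = ((17 * n : ℕ) : ℝ) by push_cast; ring, Nat.floor_natCast] at g8
  set N := 17 * n + q.num.natAbs + q.den with hN
  rw [log_rat_eq q hq N (by omega) (by omega)]
  have g9 : SS v (17 * n) ≤ SS v N := by
    rw [SS_add v (show 17 * n ≤ N by omega), le_add_iff_nonneg_right]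
    refine sum_nonneg fun p hp => mul_nonneg ?_ (Real.log_natCast_nonneg p)
    obtain ⟨hp1, hp2⟩ := mem_filter.1 hp
    have hp3 : 17 * (n : ℝ) < p := by exact_mod_cast (mem_Ioc.1 hp1).1
    have a := hl p hp2 (by linarith)
    rw [Lower.loss7 n p (by linarith) (by linarith), max_eq_right (by linarith), neg_zero] at a
    exact a
  change _ ≤ SS v N
  have b5 : 0 ≤ (n : ℝ) ^ 2 := by positivity
  linarith

end Pool.Agent.P.MP_a89d6d_nt.Z57
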