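import Pool.Agent.P.MP_a89d6d_nt.Z57.Local
import Pool.Agent.P.MP_a89d6d_nt.Z57.Det
import Pool.Agent.P.MP_a89d6d_nt.Z57.Greedy
import Pool.Agent.P.MP_a89d6d_nt.Z57.Count

/-!
The valuation of the determinant at primes `p` with `64 u ≤ p ^ 2`.
-/

namespace Pool.Agent.P.MP_a89d6d_nt.Z57

open Polynomial Finset Filter MeasureTheory
open Pool.Agent.P.MP_a89d6d_nt.Z23 (H W nc ach ff zpt)
open Pool.Agent.P.MP_a89d6d_nt.Z23.Large (IsZ)

namespace Medium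

/-- The monic polynomial with prescribed multiplicities at the nodes. -/
noncomputable def phi (Cl : Finset ℕ) (n : ℕ → ℕ) : ℚ[X] := ∏ c ∈ Cl, (X - C (tau c)) ^ n c

theorem phi_monic (Cl : Finset ℕ) (n : ℕ → ℕ) : (phi Cl n).Monic :=
  monic_prod_of_monic _ _ fun _ _ => (monic_X_sub_C _).pow _

theorem phi_natDegree (Cl : Finset ℕ) (n : ℕ → ℕ) : (phi Cl n).natDegree = ∑ c ∈ Cl, n c := by
  rw [phi, natDegree_prod_of_monic _ _ fun _ _ => (monic_X_sub_C _).pow _]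
  simp only [natDegree_pow, natDegree_X_sub_C, mul_one]

theorem mon_phi (Cl : Finset ℕ) (ν : ℕ → ℕ → ℕ) (hν : ∀ t, ∑ c ∈ Cl, ν t c = t) (h : ℕ) :
    Mon (fun t => phi Cl (ν t)) h := fun t _ =>
  ⟨phi_monic _ _, by rw [phi_natDegree, hν]⟩

theorem norm_phi_eval (p : ℕ) [hp : Fact p.Prime] (Cl : Finset ℕ) (n : ℕ → ℕ) (y : ℤ) (c : ℕ)
    (hc : c ∈ Cl) (h : (p : ℤ) ∣ y - c ∨ (p : ℤ) ∣ -1 - y - c) :
    nr p ((phi Cl n).eval ((y : ℚ) * (y + 1))) ≤ (p : ℝ) ^ (-(n c : ℝ)) := by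
  have e1 : (phi Cl n).eval ((y : ℚ) * (y + 1)) =
      ((∏ c ∈ Cl, (y * (y + 1) - c * (c + 1)) ^ n c : ℤ) : ℚ) := by
    simp [phi, eval_prod, tau]
  have e2 : (p : ℤ) ∣ y * (y + 1) - c * (c + 1) := by
    rcases h with h | h
    · rw [show y * (y + 1) - c * (c + 1) = (y - c) * (y + c + 1) by ring]
      exact h.mul_right _
    · rw [show y * (y + 1) - c * (c + 1) = (-1 - y - c) * (c - y) by ring]
      exact h.mul_right _
  have e3 : (p : ℤ) ^ n c ∣ ∏ c ∈ Cl, (y * (y + 1) - c * (c + 1)) ^ n c :=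
    (pow_dvd_pow_of_dvd e2 _).trans
      (dvd_prod_of_mem (fun c : ℕ => (y * (y + 1) - c * (c + 1)) ^ n c) hc)
  rw [e1, nr, Rat.cast_intCast]
  refine ((Padic.norm_int_le_pow_iff_dvd _ _).2 e3).trans (le_of_eq ?_)
  rw [← Real.rpow_intCast]
  push_cast
  rfl

theorem cnt_class (p K : ℕ) (y : ℤ) (c : ℕ) (h : (p : ℤ) ∣ y - c ∨ (p : ℤ) ∣ -1 - y - c) :
    cnt p K y = cnt p K c := by
  rcases h with h | h
  · exact cnt_congr p K h
  · rw [← cnt_neg p K y]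
    exact cnt_congr p K h

theorem num_eval (m u : ℕ) (P : ℚ[X]) (y : ℚ) :
    (num m u P).eval y = (2 * y + 1) * ((DZ (SK u)).eval y ^ m * P.eval (y * (y + 1))) := by
  rw [num, eval_mul, tr_eval, eval_mul, eval_pow, ← tr_eval (WT u), tr_WT]
  simp

theorem entry_bound (p : ℕ) [hp : Fact p.Prime] (hodd : Odd p) (s : ℕ) (hs : 3 ≤ s) (a b x : ℤ)
    (m u : ℕ) (h64 : 64 * u ≤ p ^ 2) (n n' : ℕ → ℕ) (g : ℕ → ℝ) (l l' : ℝ)
    (hdeg : m * u + ∑ c ∈ range ((p + 1) / 2), n c + ∑ c ∈ range ((p + 1) / 2), n' c + 2 ≤ 31 * u)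
    (hl : ∀ c ∈ range ((p + 1) / 2),
      l ≤ (m * (cnt p u c : ℝ) - cnt p (14 * u) c - ((s - 1 : ℕ) : ℝ) - g c) + n c)
    (hl' : ∀ c ∈ range ((p + 1) / 2), l' ≤ g c + n' c) :
    nr p (FF s a b x m u (phi (range ((p + 1) / 2)) n * phi (range ((p + 1) / 2)) n')) ≤
      (p : ℝ) ^ (-(l + l')) := by
  have hp0 : (0 : ℝ) < p := by exact_mod_cast hp.out.pos
  have hp1 : (1 : ℝ) ≤ p := by exact_mod_cast hp.out.pos
  set P := phi (range ((p + 1) / 2)) n * phi (range ((p + 1) / 2)) n' with hP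
  set E : ℝ := (p : ℝ) ^ (-(l + l' + ((s - 1 : ℕ) : ℝ))) with hE
  have hE0 : 0 ≤ E := by positivity
  have hN : (num m u P).natDegree + 1 < p ^ 2 := by
    have h1 := num_natDegree_le m u P
    have h2 : P.natDegree = ∑ c ∈ range ((p + 1) / 2), n c + ∑ c ∈ range ((p + 1) / 2), n' c := by
      rw [hP, Monic.natDegree_mul (phi_monic _ _) (phi_monic _ _), phi_natDegree, phi_natDegree]
    omega
  have hval : ∀ y : ℤ, nr p ((num m u P).eval (y : ℚ)) * (p : ℝ) ^ cnt p (14 * u) y ≤ E := by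
    intro y
    obtain ⟨c, hc, hcy⟩ := exists_class p hodd y
    have hc' := mem_range.2 hc
    have h1 := norm_phi_eval p _ n y c hc' hcy
    have h2 := norm_phi_eval p _ n' y c hc' hcy
    have h3 : nr p ((DZ (SK u)).eval (y : ℚ)) ≤ (p : ℝ) ^ (-(cnt p u c : ℝ)) := by
      have h4 := norm_DZ_eval_le p (SK u) y
      rw [← cnt_class p u y c hcy, Real.rpow_neg hp0.le, Real.rpow_natCast, ← one_div,
        le_div_iff₀ (by positivity)]
      exact h4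
    have h4 : nr p (2 * (y : ℚ) + 1) ≤ 1 := by
      have : (2 * (y : ℚ) + 1) = ((2 * y + 1 : ℤ) : ℚ) := by push_cast; ring
      rw [this, nr, Rat.cast_intCast]
      exact Padic.norm_int_le_one _
    have h5 : nr p ((num m u P).eval (y : ℚ)) ≤
        1 * (((p : ℝ) ^ (-(cnt p u c : ℝ))) ^ m * ((p : ℝ) ^ (-(n c : ℝ)) * (p : ℝ) ^ (-(n' c : ℝ)))) := by
      rw [num_eval, hP, eval_mul]
      simp only [nr, Rat.cast_mul, Rat.cast_pow, norm_mul, norm_pow] at h1 h2 h3 h4 ⊢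
      gcongr
    rw [cnt_class p (14 * u) y c hcy]
    refine (mul_le_mul_of_nonneg_right h5 (by positivity)).trans ?_
    rw [one_mul, ← Real.rpow_natCast, ← Real.rpow_natCast, ← Real.rpow_mul hp0.le,
      ← Real.rpow_add hp0, ← Real.rpow_add hp0, ← Real.rpow_add hp0]
    refine Real.rpow_le_rpow_of_exponent_le hp1 ?_
    have := hl c hc'
    have := hl' c hc'
    linarith
  have hK : 2 * (14 * u) ≤ p ^ 2 := by omega
  obtain ⟨h3, hR⟩ := local_bound p 3 (by norm_num) (14 * u) hK _ hN E hval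
  obtain ⟨h4, -⟩ := local_bound p s (by omega) (14 * u) hK _ hN E hval
  have hfin : E * (p : ℝ) ^ (s - 1) = (p : ℝ) ^ (-(l + l')) := by
    rw [hE, ← Real.rpow_natCast, ← Real.rpow_add hp0]
    congr 1
    ring
  rw [← hfin]
  refine norm_FF_le p s a b x m u P _ (h3.trans ?_) h4 (hR.trans ?_)
  · exact mul_le_mul_of_nonneg_left (pow_le_pow_right₀ hp1 (by omega)) hE0
  · exact le_mul_of_one_le_right hE0 (one_le_pow₀ hp1)

theorem exists_levels (Cl : Finset ℕ) (hC : Cl.Nonempty) (γ : ℕ → ℝ) :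
    ∃ (ν : ℕ → ℕ → ℕ) (l : ℕ → ℝ), (∀ t, ∑ c ∈ Cl, ν t c = t) ∧
      (∀ t, ∀ c ∈ Cl, l t ≤ γ c + ν t c) ∧
      ∀ (h : ℕ) (Λ : ℝ), h * Λ - (∑ c ∈ Cl, (Λ - γ c + 1 / 2) ^ 2) / 2 ≤ ∑ t ∈ range h, l t := by
  obtain ⟨ν, l, h1, h2, h3⟩ := greedy Cl hC γ
  refine ⟨ν, l, h1, h2, fun h Λ => ?_⟩
  have h4 : ∑ t ∈ range h, (Λ - l t) ≤ ∑ c ∈ Cl, (Λ - γ c + 1 / 2) ^ 2 / 2 := by
    refine (sum_le_sum fun t _ => le_max_left _ 0).trans ?_
    rw [h3]
    exact sum_le_sum fun c _ => sum_max_le_sq (Λ - γ c) _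
  rw [sum_sub_distrib, sum_const, card_range, nsmul_eq_mul, ← sum_div] at h4
  linarith

/-- Deviation of the class count from its mean. -/
noncomputable def dev (p K c : ℕ) : ℝ := (cnt p K c : ℝ) - 2 * K / p

theorem sum_dev (p K : ℕ) (hp : 0 < p) : ∑ c ∈ range p, dev p K c = 0 := by
  have hp' : (0 : ℝ) < p := by exact_mod_cast hp
  have h1 : ∑ c ∈ range p, (cnt p K c : ℝ) = 2 * K := by exact_mod_cast sum_cnt p K hp
  simp only [dev, sum_sub_distrib, h1, sum_const, card_range, nsmul_eq_mul]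
  field_simp
  ring

theorem dev_sq_le (p K c : ℕ) (hp : 0 < p) : dev p K c ^ 2 ≤ 1 := by
  have hp' : (0 : ℝ) < p := by exact_mod_cast hp
  obtain ⟨h1, h2⟩ := cnt_bounds p K hp c
  have h3 : ((2 * K / p : ℕ) : ℝ) ≤ 2 * K / p := by
    have := Nat.cast_div_le (α := ℝ) (m := 2 * K) (n := p)
    push_cast at this
    exact this
  have h4 : (2 * K / p : ℝ) ≤ ((2 * K / p : ℕ) : ℝ) + 1 := by
    rw [div_le_iff₀ hp']
    have := Nat.lt_div_mul_add (a := 2 * K) hp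
    have h5 : ((2 * K : ℕ) : ℝ) ≤ ((2 * K / p * p + p : ℕ) : ℝ) := by exact_mod_cast this.le
    push_cast at h5
    linarith
  have h5 : ((2 * K / p : ℕ) : ℝ) ≤ cnt p K c := by exact_mod_cast h1
  have h6 : (cnt p K c : ℝ) ≤ ((2 * K / p : ℕ) : ℝ) + 1 := by exact_mod_cast h2
  unfold dev
  nlinarith

theorem sum_dev_sq (p K : ℕ) (hp : 0 < p) : ∑ c ∈ range p, dev p K c ^ 2 ≤ p / 4 := by
  have hp' : (0 : ℝ) < p := by exact_mod_cast hp
  set a : ℝ := ((2 * K / p : ℕ) : ℝ) + 1 / 2 - 2 * K / p with ha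
  have h1 : ∀ c : ℕ, dev p K c ^ 2 = 1 / 4 + 2 * a * dev p K c - a ^ 2 := by
    intro c
    obtain ⟨h1, h2⟩ := cnt_bounds p K hp c
    have h3 : (dev p K c - a) ^ 2 = 1 / 4 := by
      have h4 : dev p K c - a = cnt p K c - ((2 * K / p : ℕ) : ℝ) - 1 / 2 := by
        rw [ha, dev]; ring
      rw [h4]
      rcases (by omega : cnt p K c = 2 * K / p ∨ cnt p K c = 2 * K / p + 1) with h | h
      · rw [h]; ring
      · rw [h]; push_cast; ring
    linarith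
  simp only [h1, sum_sub_distrib, sum_add_distrib, ← mul_sum, sum_dev p K hp, sum_const,
    card_range, nsmul_eq_mul]
  nlinarith [mul_nonneg hp'.le (sq_nonneg a)]

theorem dev_symm (p K c : ℕ) (hc : c < p) : dev p K (p - 1 - c) = dev p K c := by
  unfold dev
  rw [cnt_class p K ((p - 1 - c : ℕ) : ℤ) c (Or.inr ?_)]
  have : ((p - 1 - c : ℕ) : ℤ) = p - 1 - c := by omega
  rw [this]
  exact ⟨-1, by ring⟩

/-- The sum of the three squares. -/
noncomputable def fsq (p u c : ℕ) : ℝ :=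
  (20 * (u / p) + (dev p (14 * u) c - dev p u c) / 3) ^ 2
    + (16 * (u / p) + (dev p (14 * u) c - 7 * dev p u c) / 3) ^ 2
    + (36 * (u / p) - (8 * dev p u c - 2 * dev p (14 * u) c) / 3) ^ 2

theorem sum_fsq (p u : ℕ) (hodd : Odd p) :
    2 * ∑ c ∈ range ((p + 1) / 2), fsq p u c ≤
      1952 * (u / p : ℝ) ^ 2 * p + 14 * p / 3 + 3904 * (u / p : ℝ) ^ 2 + 38 := by
  have hp : 0 < p := hodd.pos
  rw [sum_half p hodd _ fun c hc => by simp only [fsq, dev_symm p _ c hc]]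
  have h1 : ∑ c ∈ range p, fsq p u c ≤ 1952 * (u / p : ℝ) ^ 2 * p + 14 * p / 3 := by
    have h2 : ∀ c, fsq p u c ≤ 1952 * (u / p : ℝ) ^ 2 + 72 * (u / p : ℝ) * dev p (14 * u) c
        - 280 * (u / p : ℝ) * dev p u c + 46 / 3 * dev p u c ^ 2
        + 10 / 3 * dev p (14 * u) c ^ 2 := by
      intro c
      unfold fsq
      nlinarith [sq_nonneg (dev p u c + dev p (14 * u) c)]
    refine (sum_le_sum fun c _ => h2 c).trans ?_
    simp only [sum_sub_distrib, sum_add_distrib, ← mul_sum, sum_dev p _ hp, sum_const,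
      card_range, nsmul_eq_mul]
    linarith [sum_dev_sq p u hp, sum_dev_sq p (14 * u) hp]
  have h3 : fsq p u ((p - 1) / 2) ≤ 3904 * (u / p : ℝ) ^ 2 + 38 := by
    have h4 := dev_sq_le p u ((p - 1) / 2) hp
    have h5 := dev_sq_le p (14 * u) ((p - 1) / 2) hp
    unfold fsq
    generalize dev p u ((p - 1) / 2) = a at *
    generalize dev p (14 * u) ((p - 1) / 2) = b at *
    generalize (u / p : ℝ) = μ at *
    nlinarith [sq_nonneg (20 * μ - (b - a) / 3), sq_nonneg (16 * μ - (b - 7 * a) / 3),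
      sq_nonneg (36 * μ + (8 * a - 2 * b) / 3), sq_nonneg (a + b)]
  linarith

end Medium

open Medium in
theorem val_medium (c : Par) (u p : ℕ) (hp : p.Prime) (hu : 1 ≤ u) (h64 : 64 * u ≤ p ^ 2)
    (h0 : Delta c u ≠ 0) :
    124 * (u : ℝ) ^ 2 / p - 106 * u - 7 * p / 6 - 976 * (u : ℝ) ^ 2 / (p : ℝ) ^ 2 - 10 ≤
      (padicValRat p (Delta c u) : ℝ) := by
  have : Fact p.Prime := ⟨hp⟩
  have hp' : (0 : ℝ) < p := by exact_mod_cast hp.pos
  have hodd : Odd p := hp.odd_of_ne_two (by rintro rfl; omega)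
  have hC : (range ((p + 1) / 2)).Nonempty := ⟨0, mem_range.2 (by have := hp.pos; omega)⟩
  set g : ℕ → ℝ := fun j => (8 * dev p u j - 2 * dev p (14 * u) j) / 3 with hg
  obtain ⟨νA, lA, hA1, hA2, hA3⟩ := exists_levels _ hC fun j =>
    (3 : ℕ) * (cnt p u j : ℝ) - cnt p (14 * u) j - ((5 - 1 : ℕ) : ℝ) - g j
  obtain ⟨νB, lB, hB1, hB2, hB3⟩ := exists_levels _ hC fun j =>
    (5 : ℕ) * (cnt p u j : ℝ) - cnt p (14 * u) j - ((7 - 1 : ℕ) : ℝ) - g j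
  obtain ⟨νC, lC, hC1, hC2, hC3⟩ := exists_levels _ hC g
  have hv := val_ge_of_levels p (FA c u) (FB c u) (FF_linear _ _ _ _ _ _) (FF_linear _ _ _ _ _ _)
    (10 * u) (8 * u) _ _ _ (mon_phi _ νA hA1 _) (mon_phi _ νB hB1 _) (mon_phi _ νC hC1 _) lA lB lC
    (fun t ht k hk => entry_bound p hodd 5 (by norm_num) _ _ _ 3 u h64 _ _ g _ _
      (by rw [hA1, hC1]; omega) (hA2 t) (hC2 k))
    (fun t ht k hk => entry_bound p hodd 7 (by norm_num) _ _ _ 5 u h64 _ _ g _ _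
      (by rw [hB1, hC1]; omega) (hB2 t) (hC2 k)) h0
  refine le_trans ?_ hv
  have h1 := hA3 (10 * u) (-2 * (u / p) - 9 / 2)
  have h2 := hB3 (8 * u) (-2 * (u / p) - 13 / 2)
  have h3 := hC3 (10 * u + 8 * u) (36 * (u / p) - 1 / 2)
  have h4 := sum_fsq p u hodd
  have h5 : ∑ j ∈ range ((p + 1) / 2), fsq p u j =
      ∑ j ∈ range ((p + 1) / 2), (-2 * (u / p : ℝ) - 9 / 2 -
        ((3 : ℕ) * (cnt p u j : ℝ) - cnt p (14 * u) j - ((5 - 1 : ℕ) : ℝ) - g j) + 1 / 2) ^ 2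
      + ∑ j ∈ range ((p + 1) / 2), (-2 * (u / p : ℝ) - 13 / 2 -
        ((5 : ℕ) * (cnt p u j : ℝ) - cnt p (14 * u) j - ((7 - 1 : ℕ) : ℝ) - g j) + 1 / 2) ^ 2
      + ∑ j ∈ range ((p + 1) / 2), (36 * (u / p : ℝ) - 1 / 2 - g j + 1 / 2) ^ 2 := by
    rw [← sum_add_distrib, ← sum_add_distrib]
    refine sum_congr rfl fun j _ => ?_
    simp only [fsq, hg, dev]
    push_cast
    ring
  obtain ⟨μ, hμ⟩ : ∃ μ : ℝ, (u : ℝ) = p * μ := ⟨u / p, by field_simp⟩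
  have e1 : (u / p : ℝ) = μ := by rw [hμ]; field_simp
  have e2 : 124 * (u : ℝ) ^ 2 / p = 124 * μ ^ 2 * p := by rw [hμ]; field_simp
  have e3 : 976 * (u : ℝ) ^ 2 / (p : ℝ) ^ 2 = 976 * μ ^ 2 := by rw [hμ]; field_simp
  have e4 : (u : ℝ) * μ = μ ^ 2 * p := by rw [hμ]; ring
  rw [e2, e3]
  rw [h5] at h4
  rw [e1] at h1 h2 h3 h4
  push_cast at h1 h2 h3 h4
  nlinarith

end Pool.Agent.P.MP_a89d6d_nt.Z57
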