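import Pool.Agent.P.MP_a89d6d_nt.Z57.Core

/-!
The local determinant of size `18` does not vanish.
-/

namespace Pool.Agent.P.MP_a89d6d_nt.Z57

open Polynomial Finset Filter
open Pool.Agent.P.MP_a89d6d_nt.Z23 (H)

namespace Gamma

/-- The product of `T - tau j'` over `j' < 14`, `j' ≠ j`. -/
noncomputable def ET (j : ℕ) : ℚ[X] := ∏ j' ∈ (range 14).erase j, (X - C (tau j'))

/-- Residue of `1 / WT 14` at `tau j`. -/
def rho (j : ℕ) : ℚ := ∏ k ∈ (range 14).erase j, (tau j - tau k)⁻¹

/-- Power sums of the nodes against the residues. -/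
def sg (n : ℕ) : ℚ := ∑ j ∈ range 14, rho j * tau j ^ n

/-- The functional in the variable `T`. -/
noncomputable def Ph (s : ℕ) (P : ℚ[X]) : ℚ := LZ s (SK 14) ((2 * X + 1) * tr P)

/-- The moments of the polynomial part. -/
noncomputable def mm (k d : ℕ) : ℚ := lp k ((2 * X + 1) * (X * (X + 1)) ^ d)

theorem tau_inj : Set.InjOn tau (range 14 : Finset ℕ) := by
  intro a _ b _ h
  unfold tau at h
  have h1 : a * (a + 1) = b * (b + 1) := by exact_mod_cast h
  nlinarith [Nat.le_antisymm_iff.mp (rfl : a = a), lt_trichotomy a b]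

theorem one_eq : (1 : ℚ[X]) = ∑ j ∈ range 14, C (rho j) * ET j := by
  rw [← Lagrange.sum_basis tau_inj ⟨0, by simp⟩]
  refine sum_congr rfl fun j _ => ?_
  unfold Lagrange.basis Lagrange.basisDivisor rho ET
  rw [prod_mul_distrib, map_prod]

theorem WT_eq (j : ℕ) (hj : j ∈ range 14) : WT 14 = (X - C (tau j)) * ET j := by
  unfold WT ET
  rw [mul_prod_erase (range 14) (fun j : ℕ => (X - C (tau j) : ℚ[X])) hj]

theorem X_pow_eq (n : ℕ) : (X : ℚ[X]) ^ n =
    (∑ d ∈ range n, sg (n - 1 - d) • X ^ d) * WT 14 +
      ∑ j ∈ range 14, (rho j * tau j ^ n) • ET j := by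
  induction n with
  | zero =>
    simp only [pow_zero, range_zero, sum_empty, zero_mul, zero_add, mul_one, smul_eq_C_mul]
    exact one_eq
  | succ n ih =>
    have h1 : ∑ d ∈ range (n + 1), sg (n + 1 - 1 - d) • (X : ℚ[X]) ^ d =
        X * (∑ d ∈ range n, sg (n - 1 - d) • X ^ d) + C (sg n) := by
      rw [sum_range_succ', mul_sum]
      congr 1
      · refine sum_congr rfl fun d _ => ?_
        rw [show n + 1 - 1 - (d + 1) = n - 1 - d by omega, mul_smul_comm, pow_succ']
      · simp [smul_eq_C_mul]
    have h2 : X * ∑ j ∈ range 14, (rho j * tau j ^ n) • ET j =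
        C (sg n) * WT 14 + ∑ j ∈ range 14, (rho j * tau j ^ (n + 1)) • ET j := by
      unfold sg
      rw [map_sum, sum_mul, mul_sum, ← sum_add_distrib]
      refine sum_congr rfl fun j hj => ?_
      rw [WT_eq j hj]
      simp only [smul_eq_C_mul, map_mul, map_pow]
      ring
    rw [pow_succ', h1]
    conv_lhs => rw [ih, mul_add, h2]
    ring

theorem Ph_linear (s : ℕ) : IsLinearMap ℚ (Ph s) :=
  ⟨fun P Q => by unfold Ph; rw [map_add, mul_add, (LZ_linear s _).map_add],
   fun a P => by unfold Ph; rw [map_smul, mul_smul_comm, (LZ_linear s _).map_smul]⟩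

theorem Ph_sum (s : ℕ) (t : Finset ℕ) (a : ℕ → ℚ) (P : ℕ → ℚ[X]) :
    Ph s (∑ i ∈ t, a i • P i) = ∑ i ∈ t, a i * Ph s (P i) := by
  have := map_sum (IsLinearMap.mk' _ (Ph_linear s)) (fun i => a i • P i) t
  simp only [IsLinearMap.mk'_apply] at this
  rw [this]
  exact sum_congr rfl fun i _ => (Ph_linear s).map_smul _ _

theorem LZ_erase (s : ℕ) (S : Finset ℤ) (i : ℤ) (hi : i ∈ S) :
    LZ s S (DZ (S.erase i)) = -hz s i := by
  have h := LZ_cancel s {i} (S.erase i) (by simp) 1
  rw [mul_one, show ({i} : Finset ℤ) ∪ S.erase i = S by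
    rw [← insert_eq, insert_erase hi]] at h
  rw [h]
  have h0 : (1 : ℚ[X]) /ₘ DZ {i} = 0 := by
    rw [divByMonic_eq_zero_iff (DZ_monic _), degree_one,
      degree_eq_natDegree (DZ_monic _).ne_zero, DZ_natDegree]
    simp
  simp [LZ, h0, res]

theorem DZ_split (S : Finset ℤ) (i : ℤ) (hi : i ∈ S) :
    DZ S = (X - C (i : ℚ)) * DZ (S.erase i) := by
  unfold DZ
  rw [mul_prod_erase S (fun i : ℤ => (X - C (i : ℚ) : ℚ[X])) hi]

theorem Ph_ET (s j : ℕ) (hj : j ∈ range 14) : Ph s (ET j) = -2 * H s j := by
  have hj' := mem_range.mp hj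
  have e : DZ (SK 14) = (X - C (j : ℚ)) * (X - C (-1 - (j : ℚ))) * tr (ET j) := by
    rw [← tr_WT, ← tr_lin, ← map_mul, WT_eq j hj]
  have m1 : (j : ℤ) ∈ SK 14 := by simp only [SK, mem_Ico]; omega
  have m2 : (-1 - (j : ℤ)) ∈ SK 14 := by simp only [SK, mem_Ico]; omega
  have e1 : DZ ((SK 14).erase (j : ℤ)) = (X - C (-1 - (j : ℚ))) * tr (ET j) := by
    have h1 := DZ_split _ _ m1
    rw [e, mul_assoc] at h1
    push_cast at h1
    exact (mul_left_cancel₀ (X_sub_C_ne_zero _) h1).symm
  have e2 : DZ ((SK 14).erase (-1 - (j : ℤ))) = (X - C (j : ℚ)) * tr (ET j) := by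
    have h1 := DZ_split _ _ m2
    rw [e, mul_comm (X - C (j : ℚ)), mul_assoc] at h1
    push_cast at h1
    exact (mul_left_cancel₀ (X_sub_C_ne_zero _) h1).symm
  have e3 : (2 * X + 1) * tr (ET j) =
      DZ ((SK 14).erase (j : ℤ)) + DZ ((SK 14).erase (-1 - (j : ℤ))) := by
    rw [e1, e2]
    simp only [map_sub, map_neg, map_one]
    ring
  unfold Ph
  rw [e3, (LZ_linear s _).map_add, LZ_erase s _ _ m1, LZ_erase s _ _ m2]
  unfold hz
  rw [if_pos (by omega), if_neg (by omega), show (-1 - (-1 - (j : ℤ))).toNat = j by omega,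
    Int.toNat_natCast]
  ring

theorem Ph_WT (s d : ℕ) : Ph s (X ^ d * WT 14) = mm (s - 1) d := by
  have h := LZ_cancel s ∅ (SK 14) (by simp) ((2 * X + 1) * (X * (X + 1)) ^ d)
  rw [empty_union] at h
  unfold Ph mm
  rw [map_mul, tr_WT, map_pow, show tr X = X * (X + 1) by simp [tr],
    show (2 * X + 1) * ((X * (X + 1)) ^ d * DZ (SK 14)) =
      DZ (SK 14) * ((2 * X + 1) * (X * (X + 1)) ^ d) by ring, h]
  simp [LZ, DZ]

theorem Ph_X_pow (s n : ℕ) : Ph s (X ^ n) = ∑ d ∈ range n, sg (n - 1 - d) * mm (s - 1) d
    + ∑ j ∈ range 14, rho j * tau j ^ n * (-2 * H s j) := by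
  rw [X_pow_eq n, (Ph_linear s).map_add, sum_mul]
  simp only [smul_mul_assoc]
  rw [Ph_sum, Ph_sum]
  simp only [Ph_WT]
  congr 1
  exact sum_congr rfl fun j hj => by rw [Ph_ET s j hj]

/-- Binomial coefficients in a form that is cheap to evaluate. -/
def ch (n k : ℕ) : ℕ := n.descFactorial k / k.factorial

theorem ch_eq (n k : ℕ) : n.choose k = ch n k := Nat.choose_eq_descFactorial_div_factorial n k

/-- Bernoulli numbers. -/
def bL : List ℚ :=
  [1, -1/2, 1/6, 0, -1/30, 0, 1/42, 0, -1/30, 0, 5/66, 0, -691/2730, 0, 7/6, 0, -3617/510, 0,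
   43867/798, 0, -174611/330, 0, 854513/138, 0, -236364091/2730, 0, 8553103/6, 0,
   -23749461029/870, 0]

theorem bL_check : ∀ n < 30, ∑ k ∈ range (n + 1), (ch (n + 1) k : ℚ) * bL.getD k 0 =
    if n + 1 = 1 then 1 else 0 := by
  decide +kernel

theorem bern (n : ℕ) : n < 30 → _root_.bernoulli n = bL.getD n 0 := by
  induction n using Nat.strong_induction_on with
  | _ n ih =>
    intro hn
    have h1 := _root_.sum_bernoulli (n + 1)
    have h2 := bL_check n hn
    simp only [← ch_eq] at h2
    rw [← h1, sum_range_succ, sum_range_succ,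
      sum_congr rfl fun k hk => by rw [← ih k (mem_range.mp hk) (by have := mem_range.mp hk; omega)]]
      at h2
    have h3 : (((n + 1).choose n : ℕ) : ℚ) ≠ 0 := by
      exact_mod_cast (Nat.choose_pos (Nat.le_succ n)).ne'
    exact (mul_left_cancel₀ h3 (add_left_cancel h2)).symm

/-- The value of `lp k` on a monomial. -/
def bb (k e : ℕ) : ℚ := -((ch (e + 1) k : ℚ) * bL.getD (e + 1 - k) 0 / ((e : ℚ) + 1))

theorem lp_eq (k e : ℕ) (h : e + 1 - k < 30) : lp k (X ^ e) = bb k e := by
  rw [lp_X_pow, bern _ h, ch_eq, bb]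

theorem mm_eq (k d : ℕ) (hk : 4 ≤ k) (hd : d < 16) : mm k d =
    ∑ a ∈ range (d + 1), (ch d a : ℚ) * (2 * bb k (d + a + 1) + bb k (d + a)) := by
  have e : ((2 * X + 1) * (X * (X + 1)) ^ d : ℚ[X]) =
      ∑ a ∈ range (d + 1), (d.choose a : ℚ) • ((2 : ℚ) • X ^ (d + a + 1) + X ^ (d + a)) := by
    rw [mul_pow, add_pow, mul_sum, mul_sum]
    refine sum_congr rfl fun a _ => ?_
    simp only [smul_eq_C_mul, map_natCast, map_ofNat]
    ring
  unfold mm
  rw [e, map_sum]
  refine sum_congr rfl fun a ha => ?_
  have := mem_range.mp ha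
  rw [map_smul, map_add, map_smul, lp_eq _ _ (by omega), lp_eq _ _ (by omega), ch_eq]
  rfl

/-- Table of `sg`. -/
def sL : List ℚ :=
  [0, 0, 0, 0, 0, 0, 0, 0, 0, 0, 0, 0, 0, 1, 910, 467376, 179070112, 57138768544, 16086628598976,
   4137325399485696, 994408564660999680, 226893590546384966400, 49704702919159015016960,
   10542053304801176181112832, 2178518940081845167627960320, 440792826257322213402049789952,
   87662477303444077532454860324864, 17187944537709044698938697003696128,
   3330641610838576982931822360922423296, 639124702609695750863762943958080356352]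

theorem sL_check : ∀ n < 30, sg n = sL.getD n 0 := by
  decide +kernel

theorem sL_zero : ∀ n < 13, sL.getD n 0 = 0 := by
  decide +kernel

/-- Table of `mm 4`. -/
def m4L : List ℚ :=
  [0, -1/2, 2/3, -11/12, 5/3, -13/3, 16, -242/3, 1600/3, -22368/5, 139136/3, -8729696/15,
   43449856/5, -15983547136/105, 46363762688/15, -72003550720]

/-- Table of `mm 6`. -/
def m6L : List ℚ :=
  [0, 0, -1/3, 5/6, -29/15, 11/2, -313/15, 1589/15, -31568/45, 29432/5, -305152/5, 34463264/45,
   -171532928/15, 3004785472/15, -36607356928/9, 1421293096192/15]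

theorem m4_check : ∀ d < 16, ∑ a ∈ range (d + 1),
    (ch d a : ℚ) * (2 * bb 4 (d + a + 1) + bb 4 (d + a)) = m4L.getD d 0 := by
  decide +kernel

theorem m6_check : ∀ d < 16, ∑ a ∈ range (d + 1),
    (ch d a : ℚ) * (2 * bb 6 (d + a + 1) + bb 6 (d + a)) = m6L.getD d 0 := by
  decide +kernel

theorem sum_eq (k : ℕ) (L : List ℚ) (hL : ∀ d < 16, mm k d = L.getD d 0) (n : ℕ) (hn : n < 30) :
    ∑ d ∈ range n, sg (n - 1 - d) * mm k d =
      ∑ d ∈ range n, sL.getD (n - 1 - d) 0 * L.getD d 0 := by
  refine sum_congr rfl fun d hd => ?_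
  have := mem_range.mp hd
  rw [sL_check _ (by omega)]
  by_cases h : d < 16
  · rw [hL d h]
  · rw [sL_zero _ (by omega), zero_mul, zero_mul]

/-- A common denominator. -/
def den : ℚ := 1019988853486156144674108653651353537094331924480000000000

/-- Numerators for the level `5`. -/
def t5L : List ℤ :=
  [-3591509399578970277934111319307974400, 447299591649854902858784768789505600,
   307950045390552442851374211360950400, -472585502996498094082046969223502080,
   548928969645003549643192035505420800, -723475997911084141189378355440757760,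
   1222006095855220618011926889090938880, -2744254299280558920996905370434949120,
   8129978490853295562332718558732165120, -31005819058476256327912619222536273920,
   148340254880087395306604576154104463360, -870585572427582519839003559609118556160,
   6152581431951090358583967804940307005440,
   -2115309504233319134482863978220232036739307101164717998080,
   -1924931648852320364950346757949395635573415971473552543580160,
   -988644894850551739704102428239786502421224599250991970595635200,
   -378788709837724922309968683417149705224641931178972283837339402240,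
   -120866180161311007251808521848023440888889301999314620883222124298240,
   -34028198366485454899875711004099642864694193235888812018059073741127680,
   -8751723739638006428800295788462661718553149534392884948908472050898698240,
   -2103481887918425655598467926211439881954326329870504014156092653004830801920,
   -479950168532391276735123584815328527106284885293053839538271393653889328742400,
   -105140830489990663854514015478204035355265690838451952168470316966699571819315200,
   -22299705549780199015445882394632771987046815126359411115244751135371349072313057280,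
   -4608241819107423662161478017577825969897759398833406044560641397062190653209418137600,
   -932413254779979805579307122900202556732023862386241529460726264099922363608619087298560,
   -185433271404612877947762357363288111357745064605916137356503719806005247469200190702878720,
   -36357822438851104095226851971333549104113019933877084866002002682960008518657425623293624320,
   -7045337854601813548004066240722151020898116157712187323287768848089077600591512652771261153280,
   -1351946557820583013834310418436020518762041083462703825412943467008151226433878599543355573534720]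

/-- Numerators for the level `7`. -/
def t7L : List ℤ :=
  [-3713426307613274568503752605127704540, 132076650370496314783778059638040985,
   175782017287759513629744334080454690, 50897988343055080264139771583988892,
   -326990711436139627523299248005348120, 688612495248892500672781693686284624,
   -1420426326734137951429539541666260512, 3458709190068829680486922646395383488,
   -10550265349471576339625486757167512448, 40624677719827832146856494285003927808,
   -194945209972840496114343129364597512704, 1145165502024244188880497673097118178304,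
   -8095411757495784978287002618499227621376,
   -2057010046700762940667012402193406856603802599214974578688,
   -1871879142497694338418558995622605118304855558087749324578816,
   -961397127586815811862255129991663050375099685434314088537866240,
   -368349019447830862421146645174150439931560950900836165273381208064,
   -117535020951117528371992685332685941961043485703024337035821797801984,
   -33090356645637451566850652254677614758132323776034440067712652388466688,
   -8510519913212324499469850946809305985575971913167363994910123333391745024,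
   -2045508408032961663632208460571858553278718020902331377801981221644491292672,
   -466722395285923139993254080079540499687637804555064380040412248368304173875200,
   -102243073272986836916550589652472532529380919280565103889511790086060496031580160,
   -21685109560831000427010667494988508841725175940570878479076370194253778285051772928,
   -4481235346676253058595785557086444202061457926634738198697661046772852426008806031360,
   -906715272124935681088876946244302949257541811777069080525146264398332580820397856915456,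
   -180322596531862079212898448962042005282308981124406210118641077803195223671980165873795072,
   -35355774596203006495291644534316208696951794108160766516951048526745667657431077127383416832,
   -6851163255454565773746682047048958781155467631675084228633855018198580291810566156866748940288,
   -1314685934362781525950189646444874612624587890688756369401332913331737223650272566151573114191872]

theorem t5_check : ∀ n < 30, ∑ d ∈ range n, sL.getD (n - 1 - d) 0 * m4L.getD d 0
    + ∑ j ∈ range 14, rho j * tau j ^ n * (-2 * H 5 j) = den⁻¹ * (t5L.getD n 0 : ℤ) := by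
  decide +kernel

theorem t7_check : ∀ n < 30, ∑ d ∈ range n, sL.getD (n - 1 - d) 0 * m6L.getD d 0
    + ∑ j ∈ range 14, rho j * tau j ^ n * (-2 * H 7 j) = den⁻¹ * (t7L.getD n 0 : ℤ) := by
  decide +kernel

theorem Ph5 (n : ℕ) (hn : n < 30) : Ph 5 (X ^ n) = den⁻¹ * (t5L.getD n 0 : ℤ) := by
  rw [Ph_X_pow, sum_eq 4 m4L (fun d hd => (mm_eq 4 d le_rfl hd).trans (m4_check d hd)) n hn,
    t5_check n hn]

theorem Ph7 (n : ℕ) (hn : n < 30) : Ph 7 (X ^ n) = den⁻¹ * (t7L.getD n 0 : ℤ) := by
  rw [Ph_X_pow, sum_eq 6 m6L (fun d hd => (mm_eq 6 d (by norm_num) hd).trans (m6_check d hd)) n hn,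
    t7_check n hn]

/-- The integer matrix. -/
def Gz (i k : ℕ) : ℤ := if i < 10 then t5L.getD (3 + i + k) 0 else t7L.getD (5 + (i - 10) + k) 0

/-- An inverse modulo `101`. -/
def invL : List (List ℤ) :=
  [[37, 27, 15, 95, 8, 15, 27, 26, 73, 18, 56, 48, 82, 54, 10, 54, 94, 41],
   [29, 50, 36, 99, 79, 90, 21, 8, 82, 86, 3, 43, 29, 93, 91, 2, 13, 54],
   [69, 91, 89, 14, 12, 0, 23, 10, 15, 84, 80, 63, 20, 45, 22, 76, 52, 53],
   [47, 10, 88, 29, 4, 2, 75, 21, 59, 47, 31, 11, 62, 31, 26, 88, 49, 69],
   [67, 21, 82, 47, 88, 84, 71, 74, 69, 10, 63, 58, 37, 99, 75, 8, 44, 79],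
   [95, 70, 19, 34, 75, 27, 99, 12, 58, 18, 66, 38, 61, 27, 53, 35, 16, 17],
   [0, 55, 74, 43, 19, 25, 96, 97, 7, 83, 75, 60, 46, 52, 94, 94, 58, 92],
   [65, 21, 36, 81, 9, 66, 63, 67, 65, 82, 82, 88, 58, 34, 15, 67, 88, 2],
   [59, 64, 37, 38, 39, 75, 22, 32, 86, 96, 32, 81, 37, 72, 28, 15, 54, 61],
   [69, 74, 19, 14, 56, 91, 20, 61, 68, 50, 26, 87, 22, 41, 87, 83, 83, 97],
   [2, 44, 56, 86, 97, 28, 83, 14, 43, 13, 21, 63, 47, 81, 80, 22, 83, 42],
   [81, 57, 35, 1, 54, 42, 88, 98, 3, 77, 39, 86, 78, 95, 98, 21, 72, 62],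
   [39, 76, 68, 40, 90, 15, 70, 34, 33, 36, 10, 59, 69, 29, 44, 85, 65, 88],
   [25, 63, 98, 88, 19, 57, 76, 36, 76, 91, 13, 64, 82, 62, 55, 36, 47, 84],
   [87, 59, 84, 66, 35, 87, 76, 21, 12, 38, 31, 6, 55, 6, 56, 22, 14, 62],
   [38, 60, 32, 51, 85, 44, 94, 59, 39, 6, 66, 26, 40, 76, 49, 54, 78, 96],
   [30, 96, 16, 13, 27, 36, 48, 40, 8, 59, 40, 3, 41, 42, 90, 55, 27, 38],
   [43, 55, 2, 21, 9, 2, 27, 35, 7, 45, 37, 42, 40, 26, 40, 70, 73, 63]]

/-- Entries of the inverse. -/
def Iv (l k : ℕ) : ℤ := (invL.getD l []).getD k 0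

theorem inv_check : ∀ i < 18, ∀ k < 18,
    (∑ l ∈ range 18, Gz i l * Iv l k) % 101 = if i = k then 1 else 0 := by
  decide +kernel

theorem det_Gz : (Matrix.of fun i k : Fin (10 * 1 + 8 * 1) => Gz i k).det ≠ 0 := by
  intro h0
  set A : Matrix (Fin (10 * 1 + 8 * 1)) (Fin (10 * 1 + 8 * 1)) ℤ :=
    Matrix.of fun i k => Gz i k with hA
  have h1 : (A.map (Int.castRingHom (ZMod 101))) *
      (Matrix.of fun l k : Fin (10 * 1 + 8 * 1) => ((Iv l k : ℤ) : ZMod 101)) = 1 := by
    ext i k
    have h := inv_check i i.2 k k.2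
    have h2 := congrArg (Int.cast : ℤ → ZMod 101) h
    rw [show (101 : ℤ) = ((101 : ℕ) : ℤ) from rfl, ZMod.intCast_mod] at h2
    rw [Matrix.mul_apply, Matrix.one_apply]
    simp only [hA, Matrix.map_apply, Matrix.of_apply, eq_intCast]
    rw [Fin.sum_univ_eq_sum_range (fun l => ((Gz i l : ℤ) : ZMod 101) * ((Iv l k : ℤ) : ZMod 101))]
    push_cast at h2
    rw [h2]
    simp only [Fin.ext_iff]
  have h3 := congrArg Matrix.det h1
  rw [Matrix.det_mul, Matrix.det_one, ← RingHom.mapMatrix_apply, ← RingHom.map_det, h0, map_zero,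
    zero_mul] at h3
  exact absurd h3 (by decide)

theorem FF_eq (s m n k : ℕ) : FF s 0 1 0 m 1 (X ^ n * X ^ k) = Ph s (X ^ (m + n + k)) := by
  have : WT 1 = X := by simp [WT, tau]
  unfold FF Ph num
  rw [this, ← pow_add, ← pow_add, ← add_assoc]
  simp

end Gamma

theorem Delta_loc : Delta ⟨0, 1, 0, 0, 1, 0⟩ 1 ≠ 0 := by
  have e : hmat (FA ⟨0, 1, 0, 0, 1, 0⟩ 1) (FB ⟨0, 1, 0, 0, 1, 0⟩ 1) (10 * 1) (8 * 1)
      (fun t => X ^ t) (fun t => X ^ t) (fun t => X ^ t) = Gamma.den⁻¹ •
        (Matrix.of fun i k : Fin (10 * 1 + 8 * 1) => Gamma.Gz i k).map (Int.castRingHom ℚ) := by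
    ext i k
    have hi : (i : ℕ) < 18 := i.2
    have hk : (k : ℕ) < 18 := k.2
    simp only [hmat, FA, FB, Matrix.of_apply, Matrix.smul_apply, Matrix.map_apply, eq_intCast,
      smul_eq_mul, Int.cast_zero, Int.cast_one, Gamma.FF_eq, Gamma.Gz, Nat.mul_one]
    split_ifs with h
    · exact Gamma.Ph5 _ (by omega)
    · exact Gamma.Ph7 _ (by omega)
  unfold Delta hdet
  rw [e, Matrix.det_smul, ← RingHom.mapMatrix_apply, ← RingHom.map_det]
  refine mul_ne_zero (pow_ne_zero _ (inv_ne_zero (by norm_num [Gamma.den]))) ?_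
  simpa using Gamma.det_Gz

end Pool.Agent.P.MP_a89d6d_nt.Z57
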