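import Pool.Agent.P.MP_a89d6d_nt.Z57.LocF
import Pool.Agent.P.MP_a89d6d_nt.Z57.Gamma
import Pool.Agent.P.MP_a89d6d_nt.Z57.Det

/-!
The determinant does not vanish when `u` is a large prime.
-/

namespace Pool.Agent.P.MP_a89d6d_nt.Z57

open Polynomial Finset Filter MeasureTheory
open Pool.Agent.P.MP_a89d6d_nt.Z23 (H W nc ach ff zpt)
open Pool.Agent.P.MP_a89d6d_nt.Z23.Large (IsZ)

namespace Nonzero

open Pool.Agent.P.MP_a89d6d_nt.Z23.Large (isZ_X isZ_C isZ_prod)

/-- The product of `T - tau j'` over `j' < p`, `j' ≠ j`. -/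
noncomputable def ET (p j : ℕ) : ℚ[X] := ∏ j' ∈ (range p).erase j, (X - C (tau j'))

theorem isZ_ET (p j : ℕ) : IsZ (ET p j) := isZ_prod _ _ fun j' _ => isZ_tau j'

theorem isZ_WT (m : ℕ) : IsZ (WT m) := isZ_prod _ _ fun j' _ => isZ_tau j'

theorem isZ_zero : IsZ (0 : ℚ[X]) := by simpa using isZ_C 0

theorem isZ_one : IsZ (1 : ℚ[X]) := by simpa using isZ_C 1

theorem ET_natDegree_le (p j : ℕ) (hj : j < p) : (ET p j).natDegree ≤ p - 1 := by
  unfold ET
  refine (natDegree_prod_le _ _).trans ?_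
  simp only [natDegree_X_sub_C, sum_const, smul_eq_mul, mul_one]
  rw [card_erase_of_mem (mem_range.mpr hj), card_range]

theorem DZ_split (S : Finset ℤ) (i : ℤ) (hi : i ∈ S) :
    DZ S = (X - C (i : ℚ)) * DZ (S.erase i) := by
  unfold DZ
  rw [mul_prod_erase S (fun i : ℤ => (X - C (i : ℚ) : ℚ[X])) hi]

theorem DZ_SK_eq (p j : ℕ) (hj : j < p) :
    DZ (SK p) = (X - C (j : ℚ)) * (X - C (-1 - (j : ℚ))) * tr (ET p j) := by
  rw [← tr_WT, ← tr_lin, ← map_mul]
  unfold WT ET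
  rw [mul_prod_erase (range p) (fun j : ℕ => (X - C (tau j) : ℚ[X])) (mem_range.mpr hj)]

theorem DZ_erase_pos (p j : ℕ) (hj : j < p) :
    DZ ((SK p).erase (j : ℤ)) = (X - C (-1 - (j : ℚ))) * tr (ET p j) := by
  have h1 := DZ_split (SK p) (j : ℤ) (by simp only [SK, mem_Ico]; omega)
  rw [DZ_SK_eq p j hj, mul_assoc] at h1
  push_cast at h1
  exact (mul_left_cancel₀ (X_sub_C_ne_zero _) h1).symm

theorem DZ_erase_neg (p j : ℕ) (hj : j < p) :
    DZ ((SK p).erase (-1 - (j : ℤ))) = (X - C (j : ℚ)) * tr (ET p j) := by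
  have h1 := DZ_split (SK p) (-1 - (j : ℤ)) (by simp only [SK, mem_Ico]; omega)
  rw [DZ_SK_eq p j hj, mul_comm (X - C (j : ℚ)), mul_assoc] at h1
  push_cast at h1
  exact (mul_left_cancel₀ (X_sub_C_ne_zero _) h1).symm

theorem row_eq (p j : ℕ) (hj : j < p) :
    (2 * X + 1) * tr (ET p j) =
      DZ ((SK p).erase (j : ℤ)) + DZ ((SK p).erase (-1 - (j : ℤ))) := by
  rw [DZ_erase_pos p j hj, DZ_erase_neg p j hj]
  simp only [map_sub, map_neg, map_one]
  ring

theorem col_eq (p j : ℕ) (hj : j < p) :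
    C (2 * (j : ℚ) + 1) * tr (ET p j) =
      DZ ((SK p).erase (j : ℤ)) - DZ ((SK p).erase (-1 - (j : ℤ))) := by
  rw [DZ_erase_pos p j hj, DZ_erase_neg p j hj]
  simp only [map_sub, map_neg, map_one, map_add, map_mul, map_ofNat]
  ring

theorem SK_one : SK 1 = {-1, 0} := by
  ext i
  simp only [SK, mem_Ico, mem_insert, mem_singleton]
  omega

theorem DZ_one : DZ (SK 1) = X * (X + 1) := by
  rw [SK_one]
  unfold DZ
  rw [prod_pair (by norm_num)]
  simp
  ring

theorem DZ_one_erase_zero : DZ ((SK 1).erase 0) = X + 1 := by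
  have : (SK 1).erase 0 = {-1} := by rw [SK_one]; decide
  rw [this]
  simp [DZ]

theorem DZ_one_erase_neg : DZ ((SK 1).erase (-1)) = X := by
  have : (SK 1).erase (-1) = {0} := by rw [SK_one]; decide
  rw [this]
  simp [DZ]

variable {p : ℕ} [hp : Fact p.Prime]

theorem Ap_pos (c j : ℕ) (hc : c < p) (hj : j < p) :
    Ap p c (DZ ((SK p).erase (j : ℤ))) 1 (if c = j then X + 1 else 0) := by
  by_cases h : c = j
  · subst h
    have := Ap_DZ_erase p c hc 1 0 (by rw [SK_one]; simp)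
    rw [DZ_one_erase_zero] at this
    simpa using this
  · have hd : ¬ (p : ℤ) ∣ (c : ℤ) - (j : ℤ) := by
      intro hd
      have := Int.eq_zero_of_abs_lt_dvd hd (by rw [abs_lt]; constructor <;> omega)
      omega
    have := Ap_DZ_erase' p c hc 1 (j : ℤ) hd
    rw [if_neg h]
    unfold Ap
    simpa using this

theorem Ap_neg (c j : ℕ) (hc : c < p) (hj : j < p) :
    Ap p c (DZ ((SK p).erase (-1 - (j : ℤ)))) 1 (if c + j + 1 = p then X else 0) := by
  by_cases h : c + j + 1 = p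
  · have := Ap_DZ_erase p c hc 1 (-1) (by rw [SK_one]; simp)
    rw [DZ_one_erase_neg] at this
    have h2 : (c : ℤ) + (p : ℤ) * (-1) = -1 - (j : ℤ) := by omega
    rw [h2] at this
    rw [if_pos h]
    simpa using this
  · have hd : ¬ (p : ℤ) ∣ (c : ℤ) - (-1 - (j : ℤ)) := by
      intro hd
      have hd' : (p : ℤ) ∣ (c : ℤ) - (-1 - (j : ℤ)) - p := dvd_sub hd dvd_rfl
      have := Int.eq_zero_of_abs_lt_dvd hd' (by rw [abs_lt]; constructor <;> omega)
      omega
    have := Ap_DZ_erase' p c hc 1 (-1 - (j : ℤ)) hd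
    rw [if_neg h]
    unfold Ap
    simpa using this

/-- The local leading form. -/
noncomputable def GG (p n j j' c : ℕ) : ℚ[X] :=
  (X * (X + 1)) ^ n * (((if c = j then X + 1 else 0) + (if c + j + 1 = p then X else 0)) *
    ((if c = j' then X + 1 else 0) - (if c + j' + 1 = p then X else 0)))

theorem isZ_ite (P : Prop) [Decidable P] {Q : ℚ[X]} (h : IsZ Q) : IsZ (if P then Q else 0) := by
  split_ifs
  · exact h
  · exact isZ_zero

theorem isZ_X1 : IsZ (X + 1 : ℚ[X]) := isZ_X.add isZ_one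

omit hp in
theorem isZ_GG (n j j' c : ℕ) : IsZ (GG p n j j' c) :=
  ((isZ_X.mul isZ_X1).pow n).mul (((isZ_ite _ isZ_X1).add (isZ_ite _ isZ_X)).mul
    ((isZ_ite _ isZ_X1).sub (isZ_ite _ isZ_X)))

omit hp in
theorem GG_natDegree (n j j' c : ℕ) : (GG p n j j' c).natDegree ≤ 2 * n + 2 := by
  have hX : (X : ℚ[X]).natDegree ≤ 1 := natDegree_X_le
  have hX1 : (X + 1 : ℚ[X]).natDegree ≤ 1 := by
    refine (natDegree_add_le _ _).trans ?_
    simp
  have hi : ∀ (P : Prop) [Decidable P] (Q : ℚ[X]), Q.natDegree ≤ 1 →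
      (if P then Q else 0).natDegree ≤ 1 := by
    intro P _ Q h
    split_ifs
    · exact h
    · simp
  have h1 : (X * (X + 1) : ℚ[X]).natDegree ≤ 2 := natDegree_mul_le.trans (add_le_add hX hX1)
  have h2 : ((X * (X + 1) : ℚ[X]) ^ n).natDegree ≤ n * 2 :=
    natDegree_pow_le.trans (Nat.mul_le_mul_left n h1)
  unfold GG
  refine natDegree_mul_le.trans (add_le_add (by omega) (natDegree_mul_le.trans ?_))
  have a1 := (natDegree_add_le _ _).trans (max_le (hi (c = j) _ hX1) (hi (c + j + 1 = p) _ hX))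
  have a2 := (natDegree_sub_le _ _).trans (max_le (hi (c = j') _ hX1) (hi (c + j' + 1 = p) _ hX))
  omega

omit hp in
theorem sum_GG (n j j' : ℕ) (hj : j < p) (hj' : j' < p) :
    ∑ c ∈ range p, GG p n j j' c = if j = j' then (2 * X + 1) * (X * (X + 1)) ^ n else 0 := by
  unfold GG
  rw [← mul_sum]
  have h : ∑ c ∈ range p, (((if c = j then X + 1 else 0) + (if c + j + 1 = p then X else 0)) *
      ((if c = j' then X + 1 else 0) - (if c + j' + 1 = p then X else 0)) : ℚ[X]) =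
      if j = j' then 2 * X + 1 else 0 := by
    simp only [add_mul, sum_add_distrib, ite_mul, zero_mul]
    rw [sum_eq_single j, sum_eq_single (p - 1 - j)]
    · have e1 : p - 1 - j + j + 1 = p := by omega
      rw [if_pos rfl, if_pos e1]
      by_cases h1 : j = j'
      · subst h1
        rw [if_pos rfl, if_pos e1, if_pos rfl]
        by_cases h2 : j + j + 1 = p
        · rw [if_pos h2, if_pos (by omega)]
          ring
        · rw [if_neg h2, if_neg (by omega)]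
          ring
      · rw [if_neg h1, if_neg h1, if_neg (show ¬ p - 1 - j + j' + 1 = p by omega)]
        by_cases h2 : j + j' + 1 = p
        · rw [if_pos h2, if_pos (by omega)]
          ring
        · rw [if_neg h2, if_neg (by omega)]
          ring
    · intro b _ hb
      rw [if_neg (by omega)]
    · intro h
      exact absurd (mem_range.mpr (by omega)) h
    · intro b _ hb
      rw [if_neg hb]
    · intro h
      exact absurd (mem_range.mpr hj) h
  rw [h]
  split_ifs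
  · ring
  · ring

/-- The numerator of an entry. -/
noncomputable def NN (p n j j' : ℕ) : ℚ[X] :=
  DZ (SK p) ^ n * (((2 * X + 1) * tr (ET p j)) * (C (2 * (j' : ℚ) + 1) * tr (ET p j')))

theorem Ap_NN (n j j' c : ℕ) (hj : j < p) (hj' : j' < p) (hc : c < p) :
    Ap p c (NN p n j j') (2 * n + 2) (GG p n j j' c) := by
  unfold NN GG
  rw [row_eq p j hj, col_eq p j' hj']
  have h0 := Ap_DZ p c hc 1
  rw [DZ_one, one_mul] at h0
  have h1 := h0.pow (isZ_X.mul isZ_X1) n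
  have h2 := (Ap_pos c j hc hj).add (Ap_neg c j hc hj)
  have h3 := (Ap_pos c j' hc hj').sub (Ap_neg c j' hc hj')
  have h4 := h2.mul h3 ((isZ_ite _ isZ_X1).add (isZ_ite _ isZ_X))
    ((isZ_ite _ isZ_X1).sub (isZ_ite _ isZ_X))
  exact h1.mul h4 ((isZ_X.mul isZ_X1).pow n)
    (((isZ_ite _ isZ_X1).add (isZ_ite _ isZ_X)).mul ((isZ_ite _ isZ_X1).sub (isZ_ite _ isZ_X)))

omit hp in
theorem num_eq (m i k j j' : ℕ) :
    num m p (WT p ^ i * ET p j * (WT p ^ k * (C (2 * (j' : ℚ) + 1) * ET p j'))) =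
      NN p (m + i + k) j j' := by
  unfold num NN
  have hC : tr (C (2 * (j' : ℚ) + 1)) = C (2 * (j' : ℚ) + 1) := by
    unfold tr
    rw [aeval_C]
    rfl
  rw [map_mul, map_mul, map_mul, map_mul, map_mul, hC, map_pow, map_pow, map_pow, tr_WT]
  ring

omit hp in
theorem isZ_NN (n j j' : ℕ) : IsZ (NN p n j j') := by
  have h := isZ_num n p (WT p ^ 0 * ET p j * (WT p ^ 0 * (C (2 * (j' : ℚ) + 1) * ET p j')))
    ((((isZ_WT p).pow 0).mul (isZ_ET p j)).mul (((isZ_WT p).pow 0).mul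
      (Z23.Large.IsZ.mul (by simpa using isZ_C (2 * (j' : ℤ) + 1)) (isZ_ET p j'))))
  rw [num_eq] at h
  exact h

omit hp in
theorem row_natDegree (i j : ℕ) (hj : j < p) : (WT p ^ i * ET p j).natDegree ≤ i * p + (p - 1) :=
  natDegree_mul_le.trans (add_le_add (natDegree_pow_le.trans (by rw [WT_natDegree]))
    (ET_natDegree_le p j hj))

omit hp in
theorem col_natDegree (k j : ℕ) (hj : j < p) :
    (WT p ^ k * (C (2 * (j : ℚ) + 1) * ET p j)).natDegree ≤ k * p + (p - 1) :=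
  natDegree_mul_le.trans (add_le_add (natDegree_pow_le.trans (by rw [WT_natDegree]))
    ((natDegree_C_mul_le _ _).trans (ET_natDegree_le p j hj)))

omit hp in
theorem NN_natDegree (n j j' : ℕ) (hj : j < p) (hj' : j' < p) :
    (NN p n j j').natDegree ≤ 1 + 2 * (n * p + (p - 1 + (p - 1))) := by
  have h := num_natDegree_le n p
    (WT p ^ 0 * ET p j * (WT p ^ 0 * (C (2 * (j' : ℚ) + 1) * ET p j')))
  rw [num_eq] at h
  have h1 := row_natDegree (p := p) 0 j hj
  have h2 := col_natDegree (p := p) 0 j' hj'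
  have h3 := natDegree_mul_le (p := WT p ^ 0 * ET p j)
    (q := WT p ^ 0 * (C (2 * (j' : ℚ) + 1) * ET p j'))
  simp only [add_zero] at h
  omega

/-- The local value. -/
noncomputable def lam (s n : ℕ) : ℚ := LZ s (SK 14) ((2 * X + 1) * (X * (X + 1)) ^ n)

theorem local_NN (h64 : 64 ≤ p) (s : ℕ) (hs : 3 ≤ s) (hs7 : s ≤ 7) (n j j' : ℕ) (hn : n < 30)
    (hj : j < p) (hj' : j' < p) :
    nr p (LZ s (SK (14 * p)) (NN p n j j') -
        (p : ℚ) ^ (2 * (n : ℤ) - 25 - s) * (if j = j' then lam s n else 0))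
        ≤ (p : ℝ) ^ (-(2 * (n : ℤ) - 24 - s)) ∧
      nr p (RZ (SK (14 * p)) (NN p n j j')) ≤ (p : ℝ) ^ (-(2 * (n : ℤ) - 25)) := by
  have hd : (NN p n j j').natDegree + 1 < p ^ 2 := by
    have h1 := NN_natDegree (p := p) n j j' hj hj'
    have h2 : n * p ≤ 29 * p := Nat.mul_le_mul_right p (by omega)
    have h3 : 64 * p ≤ p ^ 2 := by rw [sq]; exact Nat.mul_le_mul_right p h64
    omega
  have key := local_formula p h64 s hs hs7 (NN p n j j') (isZ_NN n j j') hd (2 * n + 2)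
    (by omega) (GG p n j j')
    (fun c _ => ⟨isZ_GG n j j' c, (GG_natDegree n j j' c).trans (by omega)⟩)
    (fun c hc => Ap_NN n j j' c hj hj' hc)
  rw [sum_GG n j j' hj hj'] at key
  have e1 : (((2 * n + 2 : ℕ) : ℤ) - 27 - s) = 2 * (n : ℤ) - 25 - s := by push_cast; ring
  have e2 : (((2 * n + 2 : ℕ) : ℤ) - 26 - s) = 2 * (n : ℤ) - 24 - s := by push_cast; ring
  have e3 : (((2 * n + 2 : ℕ) : ℤ) - 27) = 2 * (n : ℤ) - 25 := by push_cast; ring
  rw [e1, e2, e3] at key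
  have e4 : LZ s (SK 14) (if j = j' then (2 * X + 1) * (X * (X + 1)) ^ n else 0) =
      if j = j' then lam s n else 0 := by
    split_ifs
    · rfl
    · exact (LZ_linear s (SK 14)).map_zero
  rw [e4] at key
  exact key

theorem nr_mul (a b : ℚ) : nr p (a * b) = nr p a * nr p b := by
  simp [nr]

theorem nr_add_le (a b : ℚ) : nr p (a + b) ≤ max (nr p a) (nr p b) := by
  unfold nr
  push_cast
  exact Padic.nonarchimedean _ _

theorem nr_int (z : ℤ) : nr p (z : ℚ) ≤ 1 := by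
  simpa [nr] using Padic.norm_int_le_one (p := p) z

theorem nr_zpow (e : ℤ) : nr p ((p : ℚ) ^ e) = (p : ℝ) ^ (-e) := by
  unfold nr
  push_cast
  exact Padic.norm_p_zpow e

theorem nr_nonneg (a : ℚ) : 0 ≤ nr p a := norm_nonneg _

theorem entry_close (h64 : 64 ≤ p) (s : ℕ) (hs : 5 ≤ s) (hs7 : s ≤ 7) (a b x : ℤ) (n j j' : ℕ)
    (hn : n < 30) (hj : j < p) (hj' : j' < p) (h3 : nr p (lam 3 n) ≤ 1) :
    nr p ((p : ℚ) ^ (-(2 * (n : ℤ) - 25 - s)) *
      (a * LZ 3 (SK (14 * p)) (NN p n j j') + b * LZ s (SK (14 * p)) (NN p n j j')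
        + x * RZ (SK (14 * p)) (NN p n j j')) - b * (if j = j' then lam s n else 0)) < 1 := by
  obtain ⟨k3, kR⟩ := local_NN h64 3 le_rfl (by omega) n j j' hn hj hj'
  obtain ⟨ks, -⟩ := local_NN h64 s (by omega) hs7 n j j' hn hj hj'
  set L3 := LZ 3 (SK (14 * p)) (NN p n j j')
  set Ls := LZ s (SK (14 * p)) (NN p n j j')
  set R := RZ (SK (14 * p)) (NN p n j j')
  set d3 : ℚ := if j = j' then lam 3 n else 0 with hd3
  set ds : ℚ := if j = j' then lam s n else 0
  have hp1 : (1 : ℝ) < p := by exact_mod_cast hp.out.one_lt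
  have hp0 : (p : ℚ) ≠ 0 := by exact_mod_cast hp.out.ne_zero
  have hd3' : nr p d3 ≤ 1 := by
    rw [hd3]
    split_ifs
    · exact h3
    · simp [nr]
  set E : ℤ := 2 * (n : ℤ) - 25 - s with hE
  have hid : (p : ℚ) ^ (-E) * (a * L3 + b * Ls + x * R) - b * ds =
      a * ((p : ℚ) ^ (-E) * (L3 - (p : ℚ) ^ (2 * (n : ℤ) - 25 - (3 : ℕ)) * d3))
        + a * ((p : ℚ) ^ ((s : ℤ) - 3) * d3)
        + b * ((p : ℚ) ^ (-E) * (Ls - (p : ℚ) ^ E * ds)) + x * ((p : ℚ) ^ (-E) * R) := by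
    have f1 : (p : ℚ) ^ (-E) * (p : ℚ) ^ E = 1 := by rw [← zpow_add₀ hp0]; simp
    have f2 : (p : ℚ) ^ (-E) * (p : ℚ) ^ (2 * (n : ℤ) - 25 - (3 : ℕ)) = (p : ℚ) ^ ((s : ℤ) - 3) := by
      rw [← zpow_add₀ hp0]
      congr 1
      rw [hE]
      push_cast
      ring
    linear_combination (b * ds) * f1 + (a * d3) * f2
  rw [hid]
  have hz : ∀ (z : ℤ) (q : ℚ), nr p q < 1 → nr p (z * q) < 1 := by
    intro z q hq
    rw [nr_mul]
    exact mul_lt_one_of_nonneg_of_lt_one_right (nr_int z) (nr_nonneg q) hq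
  have hw : ∀ (q : ℚ) (e : ℤ), nr p q ≤ (p : ℝ) ^ (-e) → E < e →
      nr p ((p : ℚ) ^ (-E) * q) < 1 := by
    intro q e hq he
    rw [nr_mul, nr_zpow, neg_neg]
    refine (mul_le_mul_of_nonneg_left hq (by positivity)).trans_lt ?_
    rw [← zpow_add₀ (by positivity)]
    exact zpow_lt_one_of_neg₀ hp1 (by omega)
  have t1 := hz a _ (hw _ _ k3 (by rw [hE]; push_cast; omega))
  have t2 : nr p (a * ((p : ℚ) ^ ((s : ℤ) - 3) * d3)) < 1 := by
    refine hz a _ ?_
    rw [nr_mul, nr_zpow]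
    exact mul_lt_one_of_nonneg_of_lt_one_left (by positivity)
      (zpow_lt_one_of_neg₀ hp1 (by omega)) hd3'
  have t3 := hz b _ (hw _ _ ks (by rw [hE]; omega))
  have t4 := hz x _ (hw _ _ kR (by rw [hE]; omega))
  refine (nr_add_le _ _).trans_lt (max_lt ((nr_add_le _ _).trans_lt (max_lt
    ((nr_add_le _ _).trans_lt (max_lt t1 t2)) t3)) t4)

theorem det_ne_zero_of_close {ι : Type} [Fintype ι] [DecidableEq ι] (A B : Matrix ι ι ℚ)
    (hB : ∀ i j, nr p (B i j) ≤ 1) (hAB : ∀ i j, nr p (A i j - B i j) < 1)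
    (hd : nr p B.det = 1) : A.det ≠ 0 := by
  have hA : ∀ i j, nr p (A i j) ≤ 1 := by
    intro i j
    have := nr_add_le (p := p) (A i j - B i j) (B i j)
    rw [sub_add_cancel] at this
    exact this.trans (max_le (hAB i j).le (hB i j))
  let A0 : Matrix ι ι ℤ_[p] := fun i j => ⟨(A i j : ℚ_[p]), hA i j⟩
  let B0 : Matrix ι ι ℤ_[p] := fun i j => ⟨(B i j : ℚ_[p]), hB i j⟩
  have cA : ((A0.det : ℤ_[p]) : ℚ_[p]) = ((A.det : ℚ) : ℚ_[p]) := by
    have h1 := (PadicInt.Coe.ringHom (p := p)).map_det A0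
    have h2 := (Rat.castHom ℚ_[p]).map_det A
    exact h1.trans h2.symm
  have cB : ((B0.det : ℤ_[p]) : ℚ_[p]) = ((B.det : ℚ) : ℚ_[p]) := by
    have h1 := (PadicInt.Coe.ringHom (p := p)).map_det B0
    have h2 := (Rat.castHom ℚ_[p]).map_det B
    exact h1.trans h2.symm
  let ρ := IsLocalRing.residue ℤ_[p]
  have hρ : ∀ z : ℤ_[p], ρ z = 0 ↔ ‖z‖ < 1 := by
    intro z
    rw [IsLocalRing.residue_eq_zero_iff, IsLocalRing.mem_maximalIdeal, PadicInt.mem_nonunits]
  have hm : ρ.mapMatrix A0 = ρ.mapMatrix B0 := by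
    ext i j
    simp only [RingHom.mapMatrix_apply, Matrix.map_apply]
    rw [← sub_eq_zero, ← map_sub, hρ]
    have := hAB i j
    unfold nr at this
    push_cast at this
    exact this
  intro h0
  have h1 : A0.det = 0 := by
    apply Subtype.ext
    rw [cA, h0]
    simp
  have h2 : ρ B0.det = 0 := by
    rw [ρ.map_det, ← hm, ← ρ.map_det, h1, map_zero]
  rw [hρ, PadicInt.norm_def, cB] at h2
  exact absurd hd h2.ne

omit hp in
theorem ev_le_one (q : ℚ) : ∀ᶠ p : ℕ in atTop, ∀ [Fact p.Prime], nr p q ≤ 1 := by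
  filter_upwards [eventually_gt_atTop q.den] with p h _
  exact Padic.norm_rat_le_one fun hd => absurd (Nat.le_of_dvd q.den_pos hd) (by omega)

omit hp in
theorem ev_eq_one (q : ℚ) (hq : q ≠ 0) : ∀ᶠ p : ℕ in atTop, ∀ [Fact p.Prime], nr p q = 1 := by
  filter_upwards [ev_le_one q, ev_le_one q⁻¹] with p h1 h2 _
  have h3 : nr p q * nr p q⁻¹ = 1 := by
    rw [← nr_mul, mul_inv_cancel₀ hq]
    simp [nr]
  refine le_antisymm h1 ?_
  by_contra h
  push Not at h
  have := mul_lt_one_of_nonneg_of_lt_one_left (nr_nonneg q) h h2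
  linarith

/-- The local matrix. -/
noncomputable def Gam (c : Par) : Matrix (Fin (10 * 1 + 8 * 1)) (Fin (10 * 1 + 8 * 1)) ℚ :=
  Matrix.of fun i k => if (i : ℕ) < 10 then c.a5 * lam 5 (3 + i + k)
    else c.b7 * lam 7 (5 + (i - 10) + k)

omit hp in
theorem num_one (m i k : ℕ) : num m 1 (X ^ i * X ^ k) = (2 * X + 1) * (X * (X + 1)) ^ (m + i + k) := by
  have h1 : WT 1 = X := by simp [WT, tau]
  have h2 : tr X = X * (X + 1) := by simp [tr]
  unfold num
  rw [h1, map_mul, map_mul, map_pow, map_pow, map_pow, h2]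
  ring

omit hp in
theorem Gam_det (c : Par) (h5 : c.a5 ≠ 0) (h7 : c.b7 ≠ 0) : (Gam c).det ≠ 0 := by
  have h : Gam c = Matrix.diagonal (fun i : Fin (10 * 1 + 8 * 1) =>
      if (i : ℕ) < 10 then (c.a5 : ℚ) else c.b7) *
      hmat (FA ⟨0, 1, 0, 0, 1, 0⟩ 1) (FB ⟨0, 1, 0, 0, 1, 0⟩ 1) (10 * 1) (8 * 1)
        (fun t => X ^ t) (fun t => X ^ t) (fun t => X ^ t) := by
    ext i k
    rw [Matrix.diagonal_mul]
    simp only [Gam, hmat, Matrix.of_apply, FA, FB, FF, num_one, lam, mul_one]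
    split_ifs <;> simp
  rw [h, Matrix.det_mul, Matrix.det_diagonal]
  refine mul_ne_zero (prod_ne_zero_iff.mpr fun i _ => ?_) Delta_loc
  split_ifs
  · exact_mod_cast h5
  · exact_mod_cast h7

/-- The row polynomials. -/
noncomputable def phi (p : ℕ) (t : Fin (10 * 1 + 8 * 1) × Fin p) : ℚ[X] :=
  WT p ^ (if (t.1 : ℕ) < 10 then (t.1 : ℕ) else t.1 - 10) * ET p t.2

/-- The column polynomials. -/
noncomputable def psi (p : ℕ) (t : Fin (10 * 1 + 8 * 1) × Fin p) : ℚ[X] :=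
  WT p ^ (t.1 : ℕ) * (C (2 * ((t.2 : ℕ) : ℚ) + 1) * ET p t.2)

theorem det_ne_zero (c : Par) (h64 : 64 ≤ p) (h3 : ∀ n < 30, nr p (lam 3 n) ≤ 1)
    (hG : ∀ i k, nr p (Gam c i k) ≤ 1) (hD : nr p (Gam c).det = 1) :
    (Matrix.of fun t t' : Fin (10 * 1 + 8 * 1) × Fin p =>
      if (t.1 : ℕ) < 10 then FA c p (phi p t * psi p t') else FB c p (phi p t * psi p t')).det
      ≠ 0 := by
  set M := (Matrix.of fun t t' : Fin (10 * 1 + 8 * 1) × Fin p =>
      if (t.1 : ℕ) < 10 then FA c p (phi p t * psi p t') else FB c p (phi p t * psi p t')) with hM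
  have hp0 : (p : ℚ) ≠ 0 := by exact_mod_cast hp.out.ne_zero
  have key := det_ne_zero_of_close (p := p)
    (Matrix.diagonal (fun t : Fin (10 * 1 + 8 * 1) × Fin p =>
      (p : ℚ) ^ (if (t.1 : ℕ) < 10 then -(2 * (3 + ((t.1 : ℕ) : ℤ)) - 30)
        else -(2 * (5 + (((t.1 : ℕ) - 10 : ℕ) : ℤ)) - 32))) * M *
      Matrix.diagonal (fun t : Fin (10 * 1 + 8 * 1) × Fin p => (p : ℚ) ^ (-(2 * ((t.1 : ℕ) : ℤ)))))
    (Matrix.blockDiagonal fun _ : Fin p => Gam c) ?_ ?_ ?_
  · intro h0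
    apply key
    rw [Matrix.det_mul, Matrix.det_mul, h0, mul_zero, zero_mul]
  · rintro ⟨i, j⟩ ⟨k, j'⟩
    rw [Matrix.blockDiagonal_apply]
    split_ifs
    · exact hG i k
    · simp [nr]
  · rintro ⟨i, j⟩ ⟨k, j'⟩
    have hi : (i : ℕ) < 18 := i.2
    have hk : (k : ℕ) < 18 := k.2
    rw [Matrix.mul_diagonal, Matrix.diagonal_mul, Matrix.blockDiagonal_apply, hM]
    simp only [Matrix.of_apply, Gam, phi, psi]
    by_cases h : (i : ℕ) < 10
    · simp only [if_pos h, FA, FF, num_eq]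
      have := entry_close h64 5 le_rfl (by omega) c.a3 c.a5 c.xA (3 + i + k) j j' (by omega)
        j.2 j'.2 (h3 _ (by omega))
      convert this using 3
      · rw [mul_right_comm, ← zpow_add₀ hp0]
        congr 2
        push_cast
        ring
      · simp only [Fin.ext_iff]
        split_ifs <;> simp
    · simp only [if_neg h, FB, FF, num_eq]
      have := entry_close h64 7 (by omega) le_rfl c.b3 c.b7 c.xB (5 + (i - 10) + k) j j' (by omega)
        j.2 j'.2 (h3 _ (by omega))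
      convert this using 3
      · rw [mul_right_comm, ← zpow_add₀ hp0]
        congr 2
        push_cast
        ring
      · simp only [Fin.ext_iff]
        split_ifs <;> simp
  · rw [Matrix.det_blockDiagonal, prod_const]
    unfold nr at hD ⊢
    rw [Rat.cast_pow, norm_pow, hD, one_pow]

end Nonzero

theorem nonzero (c : Par) (h5 : c.a5 ≠ 0) (h7 : c.b7 ≠ 0) :
    ∀ᶠ p : ℕ in atTop, p.Prime → Delta c p ≠ 0 := by
  have e1 : ∀ᶠ p : ℕ in atTop, ∀ n ∈ range 30, ∀ [Fact p.Prime], nr p (Nonzero.lam 3 n) ≤ 1 :=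
    (eventually_all_finset _).mpr fun n _ => Nonzero.ev_le_one _
  have e2 : ∀ᶠ p : ℕ in atTop, ∀ i k, ∀ [Fact p.Prime], nr p (Nonzero.Gam c i k) ≤ 1 :=
    eventually_all.mpr fun i => eventually_all.mpr fun k => Nonzero.ev_le_one _
  filter_upwards [eventually_ge_atTop 64, e1, e2,
    Nonzero.ev_eq_one _ (Nonzero.Gam_det c h5 h7)] with p h64 h1 h2 h3 hp
  have : Fact p.Prime := ⟨hp⟩
  refine hdet_ne_zero_of (FA c p) (FB c p) (FF_linear _ _ _ _ _ _) (FF_linear _ _ _ _ _ _)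
    (10 * p) (8 * p) (ι := Fin (10 * 1 + 8 * 1) × Fin p) (by simp; ring)
    (fun t => (t.1 : ℕ) < 10) (Nonzero.phi p) (Nonzero.psi p) (fun t => ?_) (fun t => ?_)
    (Nonzero.det_ne_zero c h64 (fun n hn => h1 n (mem_range.mpr hn)) (fun i k => h2 i k) h3)
  · have hi : (t.1 : ℕ) < 18 := t.1.2
    unfold Nonzero.phi
    by_cases h : (t.1 : ℕ) < 10
    · simp only [if_pos h]
      have a1 := Nonzero.row_natDegree (p := p) t.1 t.2 t.2.2
      have a2 : (t.1 : ℕ) * p ≤ 9 * p := Nat.mul_le_mul_right p (by omega)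
      omega
    · simp only [if_neg h]
      have a1 := Nonzero.row_natDegree (p := p) (t.1 - 10) t.2 t.2.2
      have a2 : ((t.1 : ℕ) - 10) * p ≤ 7 * p := Nat.mul_le_mul_right p (by omega)
      omega
  · have hi : (t.1 : ℕ) < 18 := t.1.2
    unfold Nonzero.psi
    have a1 := Nonzero.col_natDegree (p := p) t.1 t.2 t.2.2
    have a2 : (t.1 : ℕ) * p ≤ 17 * p := Nat.mul_le_mul_right p (by omega)
    omega

end Pool.Agent.P.MP_a89d6d_nt.Z57
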