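import Pool.Agent.P.MP_a89d6d_nt.Z57.Local
import Pool.Agent.P.MP_a89d6d_nt.Z57.Det
import Pool.Agent.P.MP_a89d6d_nt.Z23.Small

/-! The valuation of the determinant at an arbitrary prime, from factorials. -/

namespace Pool.Agent.P.MP_a89d6d_nt.Z57

open Polynomial Finset Filter MeasureTheory
open Pool.Agent.P.MP_a89d6d_nt.Z23 (H W nc ach ff zpt)
open Pool.Agent.P.MP_a89d6d_nt.Z23.Large (IsZ)

namespace Small

theorem mem_SK {K : ℕ} {i : ℤ} : i ∈ SK K ↔ -(K : ℤ) ≤ i ∧ i < K := mem_Ico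

theorem prod_SK (K : ℕ) (f : ℤ → ℚ) :
    ∏ i ∈ SK K, f i = ∏ j ∈ range (2 * K), f ((j : ℤ) - K) := by
  refine (prod_nbij' (fun j : ℕ => (j : ℤ) - K) (fun i : ℤ => (i + K).toNat) ?_ ?_ ?_ ?_ ?_).symm
  · intro j hj
    have := mem_range.mp hj
    rw [mem_SK]
    omega
  · intro i hi
    have := mem_SK.mp hi
    rw [mem_range]
    omega
  · intro j _
    simp
  · intro i hi
    have := mem_SK.mp hi
    omega
  · intro j _
    rfl

theorem prod_SK_erase (K j : ℕ) (f : ℤ → ℚ) :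
    ∏ i ∈ (SK K).erase ((j : ℤ) - K), f i =
      ∏ k ∈ (range (2 * K)).erase j, f ((k : ℤ) - K) := by
  refine (prod_nbij' (fun j : ℕ => (j : ℤ) - K) (fun i : ℤ => (i + K).toNat) ?_ ?_ ?_ ?_ ?_).symm
  · intro k hk
    obtain ⟨h1, h2⟩ := mem_erase.mp hk
    have := mem_range.mp h2
    rw [mem_erase, mem_SK]
    omega
  · intro i hi
    obtain ⟨h1, h2⟩ := mem_erase.mp hi
    have := mem_SK.mp h2
    rw [mem_erase, mem_range]
    omega
  · intro j _
    simp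
  · intro i hi
    have := mem_SK.mp (mem_erase.mp hi).2
    omega
  · intro j _
    rfl

theorem norm_DZ_le (p : ℕ) [Fact p.Prime] (m : ℕ) (y : ℤ) :
    nr p ((DZ (SK m)).eval (y : ℚ)) ≤ ‖((2 * m).factorial : ℚ_[p])‖ := by
  have h : (DZ (SK m)).eval (y : ℚ) = (W (2 * m)).eval ((y + m : ℤ) : ℚ) := by
    rw [DZ_eval, prod_SK m (fun i => (y : ℚ) - (i : ℚ)), W, eval_prod]
    refine prod_congr rfl fun j _ => ?_
    simp only [eval_sub, eval_X, eval_C]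
    push_cast
    ring
  rw [nr, h]
  exact Z23.SmallP.norm_W_le p _ _

theorem norm_inv_prod_le (p : ℕ) [Fact p.Prime] (K : ℕ) (i : ℤ) (hi : i ∈ SK K) :
    nr p (∏ j ∈ (SK K).erase i, ((i : ℚ) - (j : ℚ)))⁻¹ ≤ ‖((2 * K).factorial : ℚ_[p])‖⁻¹ := by
  have h1 := mem_SK.mp hi
  obtain ⟨j, rfl⟩ : ∃ j : ℕ, i = (j : ℤ) - K := ⟨(i + K).toNat, by omega⟩
  refine le_trans (le_of_eq ?_) (Z23.SmallP.norm_inv_prod_le p (2 * K) j (by omega))
  rw [prod_SK_erase K j (fun i => ((((j : ℤ) - K : ℤ) : ℚ) - (i : ℚ))), nr, Rat.cast_inv,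
    Rat.cast_inv, norm_inv, norm_inv, Rat.cast_prod, Rat.cast_prod, norm_prod, norm_prod]
  congr 1
  refine prod_congr rfl fun k _ => ?_
  rw [← norm_neg]
  congr 1
  push_cast
  ring

theorem norm_res_le' (p : ℕ) [Fact p.Prime] (K : ℕ) (i : ℤ) (hi : i ∈ SK K) (P : ℚ[X]) (F : ℝ)
    (hF : ∀ y : ℤ, nr p (P.eval (y : ℚ)) ≤ F) :
    nr p (res (SK K) P i) ≤ F * ‖((2 * K).factorial : ℚ_[p])‖⁻¹ := by
  have h := hF i
  have hF0 : 0 ≤ F := (norm_nonneg _).trans h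
  rw [res, div_eq_mul_inv, nr, Rat.cast_mul, norm_mul]
  exact mul_le_mul h (norm_inv_prod_le p K i hi) (norm_nonneg _) hF0

theorem inv_D_eq (S : Finset ℤ) (hS : 1 ≤ S.card) (y : ℤ) (hy : y ∉ S) :
    (∏ i ∈ S, ((y : ℚ) - (i : ℚ)))⁻¹ = ∑ i ∈ S, res S 1 i / ((y : ℚ) - (i : ℚ)) := by
  have h := eval_divByMonic S 1 y hy
  have h0 : (1 : ℚ[X]) /ₘ DZ S = 0 := by
    rw [divByMonic_eq_zero_iff (DZ_monic S), degree_one,
      degree_eq_natDegree (DZ_monic S).ne_zero, DZ_natDegree]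
    exact_mod_cast hS
  rw [h0, eval_zero, eval_one, one_div] at h
  linarith

theorem norm_sum_div_le (p : ℕ) [Fact p.Prime] (K m N : ℕ) (hm : K ≤ m) (hN : m + K ≤ N)
    (c : ℤ → ℚ) (E : ℝ) (hE : 0 ≤ E) (hc : ∀ i ∈ SK K, nr p (c i) ≤ E) :
    nr p (∑ i ∈ SK K, c i / (((m : ℤ) : ℚ) - (i : ℚ))) ≤ E * (p : ℝ) ^ (Nat.log p N) := by
  rw [nr, Rat.cast_sum]
  refine IsUltrametricDist.norm_sum_le_of_forall_le_of_nonneg (by positivity) fun i hi => ?_
  have hi' := mem_SK.mp hi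
  obtain ⟨d, hd⟩ : ∃ d : ℕ, (d : ℤ) = (m : ℤ) - i := ⟨((m : ℤ) - i).toNat, by omega⟩
  have e : ((c i / (((m : ℤ) : ℚ) - (i : ℚ)) : ℚ) : ℚ_[p]) =
      ((c i : ℚ) : ℚ_[p]) * ((d : ℚ_[p]))⁻¹ := by
    have h1 : (d : ℚ_[p]) = (m : ℚ_[p]) - (i : ℚ_[p]) := by
      exact_mod_cast congrArg (Int.cast : ℤ → ℚ_[p]) hd
    rw [h1]
    push_cast
    rw [div_eq_mul_inv]
  rw [e, norm_mul]
  exact mul_le_mul (hc i hi) (Z23.SmallP.norm_inv_nat_le p _ N (by omega) (by omega))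
    (norm_nonneg _) hE

theorem norm_Q_le (p : ℕ) [Fact p.Prime] (K m N : ℕ) (hK : 1 ≤ K) (hm : K ≤ m) (hN : m + K ≤ N)
    (P : ℚ[X]) (F : ℝ) (hF : ∀ y : ℤ, nr p (P.eval (y : ℚ)) ≤ F) :
    nr p ((P /ₘ DZ (SK K)).eval (m : ℚ)) ≤
      F * ‖((2 * K).factorial : ℚ_[p])‖⁻¹ * (p : ℝ) ^ (Nat.log p N) := by
  have hF0 : 0 ≤ F := (norm_nonneg _).trans (hF 0)
  have hy : (m : ℤ) ∉ SK K := by
    rw [mem_SK]
    omega
  have e : (m : ℚ) = ((m : ℤ) : ℚ) := by simp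
  rw [e, eval_divByMonic _ _ _ hy, div_eq_mul_inv, inv_D_eq _ (by rw [card_SK]; omega) _ hy, nr,
    Rat.cast_sub, sub_eq_add_neg]
  refine (IsUltrametricDist.norm_add_le_max _ _).trans (max_le ?_ ?_)
  · rw [Rat.cast_mul, norm_mul, mul_assoc]
    refine mul_le_mul (hF (m : ℤ)) ?_ (norm_nonneg _) hF0
    refine norm_sum_div_le p K m N hm hN _ _ (by positivity) fun i hi => ?_
    have := norm_res_le' p K i hi 1 1 (fun y => by simp)
    rwa [one_mul] at this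
  · rw [norm_neg]
    exact norm_sum_div_le p K m N hm hN _ _ (by positivity) fun i hi => norm_res_le' p K i hi P F hF

theorem norm_LZ_le (p : ℕ) [hp : Fact p.Prime] (s : ℕ) (hs : 2 ≤ s) (hs' : s ≤ 7) (K M N : ℕ)
    (hK : 1 ≤ K) (hN : M + 2 * K ≤ N) (P : ℚ[X]) (hP : P.natDegree ≤ M + 2 * K) (F : ℝ)
    (hF : ∀ y : ℤ, nr p (P.eval (y : ℚ)) ≤ F) :
    nr p (LZ s (SK K) P) ≤
      F * ‖((2 * K).factorial : ℚ_[p])‖⁻¹ * (p : ℝ) ^ (7 * Nat.log p N) := by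
  have hF0 : 0 ≤ F := (norm_nonneg _).trans (hF 0)
  have hp1 : (1 : ℝ) ≤ p := by exact_mod_cast hp.out.one_lt.le
  have hG : 0 ≤ F * ‖((2 * K).factorial : ℚ_[p])‖⁻¹ := by positivity
  rw [LZ, nr, Rat.cast_sub, sub_eq_add_neg]
  refine (IsUltrametricDist.norm_add_le_max _ _).trans (max_le ?_ ?_)
  · have hdeg : (P /ₘ DZ (SK K)).natDegree ≤ M := by
      rw [natDegree_divByMonic P (DZ_monic _), DZ_natDegree, card_SK]
      omega
    refine (norm_lp_le p (s - 1) (by omega) _ K M hdeg _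
      (fun m hm hm' => norm_Q_le p K m N hK hm (by omega) P F hF)).trans ?_
    rw [mul_assoc, ← pow_add]
    refine mul_le_mul_of_nonneg_left (pow_le_pow_right₀ hp1 ?_) hG
    have h1 : Nat.log p (M + 1) ≤ Nat.log p N := Nat.log_mono_right (by omega)
    have h2 : (s - 1) * Nat.log p (M + 1) ≤ 6 * Nat.log p N := Nat.mul_le_mul (by omega) h1
    omega
  · rw [norm_neg, Rat.cast_sum]
    refine IsUltrametricDist.norm_sum_le_of_forall_le_of_nonneg (by positivity) fun i hi => ?_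
    rw [Rat.cast_mul, norm_mul]
    refine mul_le_mul (norm_res_le' p K i hi P F hF) ?_ (norm_nonneg _) hG
    refine (norm_hz_le p s K i hi).trans (pow_le_pow_right₀ hp1 ?_)
    exact Nat.mul_le_mul hs' (Nat.log_mono_right (by omega))

theorem norm_RZ_le (p : ℕ) [hp : Fact p.Prime] (K e : ℕ) (P : ℚ[X]) (F : ℝ)
    (hF : ∀ y : ℤ, nr p (P.eval (y : ℚ)) ≤ F) :
    nr p (RZ (SK K) P) ≤ F * ‖((2 * K).factorial : ℚ_[p])‖⁻¹ * (p : ℝ) ^ e := by
  have hF0 : 0 ≤ F := (norm_nonneg _).trans (hF 0)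
  have hp1 : (1 : ℝ) ≤ p := by exact_mod_cast hp.out.one_lt.le
  rw [RZ, nr, Rat.cast_sum]
  refine IsUltrametricDist.norm_sum_le_of_forall_le_of_nonneg (by positivity) fun i hi => ?_
  exact (norm_res_le' p K i hi P F hF).trans
    (le_mul_of_one_le_right (by positivity) (one_le_pow₀ hp1))

theorem norm_num_le (p : ℕ) [Fact p.Prime] (m u t k : ℕ) (y : ℤ) :
    nr p ((num m u (WT t * WT k)).eval (y : ℚ)) ≤
      ‖((2 * u).factorial : ℚ_[p])‖ ^ m * ‖((2 * t).factorial : ℚ_[p])‖ *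
        ‖((2 * k).factorial : ℚ_[p])‖ := by
  have e : (2 * X + 1 : ℚ[X]).eval (y : ℚ) = ((2 * y + 1 : ℤ) : ℚ) := by
    simp
  rw [num, map_mul, map_mul, map_pow, tr_WT, tr_WT, tr_WT, eval_mul, eval_mul, eval_mul, eval_pow,
    e, nr, Rat.cast_mul, Rat.cast_mul, Rat.cast_mul, Rat.cast_pow, norm_mul, norm_mul, norm_mul,
    norm_pow, Rat.cast_intCast, mul_assoc (_ ^ m)]
  have h0 := Padic.norm_int_le_one (p := p) (2 * y + 1)
  have h1 := norm_DZ_le p u y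
  have h2 := norm_DZ_le p t y
  have h3 := norm_DZ_le p k y
  rw [nr] at h1 h2 h3
  refine (mul_le_of_le_one_left (by positivity) h0).trans ?_
  gcongr

theorem norm_entry_le (p : ℕ) [hp : Fact p.Prime] (s : ℕ) (hs : 2 ≤ s) (hs' : s ≤ 7) (a b x : ℤ)
    (m u t k : ℕ) (hu : 1 ≤ u) (h : m * u + t + k ≤ 31 * u) :
    nr p (FF s a b x m u (WT t * WT k)) ≤
      (p : ℝ) ^ (-((m * (padicValNat p (2 * u).factorial : ℝ) + padicValNat p (2 * t).factorial
        - padicValNat p (28 * u).factorial - 7 * (Nat.log p (64 * u) : ℝ))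
        + padicValNat p (2 * k).factorial)) := by
  have hp0 : (0 : ℝ) < p := by exact_mod_cast hp.out.pos
  have hnf : ∀ n : ℕ, ‖(n.factorial : ℚ_[p])‖ = (p : ℝ) ^ (-(padicValNat p n.factorial : ℝ)) :=
    fun n => Z23.SmallP.norm_nat p _ n.factorial_ne_zero
  have hdeg : (num m u (WT t * WT k)).natDegree ≤ 36 * u + 2 * (14 * u) := by
    refine (num_natDegree_le _ _ _).trans ?_
    have h1 : (WT t * WT k).natDegree ≤ t + k := by
      refine natDegree_mul_le.trans ?_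
      rw [WT_natDegree, WT_natDegree]
    omega
  have hF := norm_num_le p m u t k
  have h1 := norm_FF_le p s a b x m u (WT t * WT k) _
    (norm_LZ_le p 3 (by norm_num) (by norm_num) (14 * u) (36 * u) (64 * u) (by omega) (by omega) _
      hdeg _ hF)
    (norm_LZ_le p s hs hs' (14 * u) (36 * u) (64 * u) (by omega) (by omega) _ hdeg _ hF)
    (norm_RZ_le p (14 * u) _ _ _ hF)
  refine h1.trans (le_of_eq ?_)
  rw [show 2 * (14 * u) = 28 * u by ring, hnf, hnf, hnf, hnf, ← Real.rpow_natCast,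
    ← Real.rpow_natCast, ← Real.rpow_mul hp0.le, ← Real.rpow_neg hp0.le, ← Real.rpow_add hp0,
    ← Real.rpow_add hp0, ← Real.rpow_add hp0, ← Real.rpow_add hp0]
  congr 1
  push_cast
  ring

theorem sum_odd (h : ℕ) : ∑ t ∈ range h, (((2 * t : ℕ) : ℝ) + 1) = (h : ℝ) ^ 2 := by
  induction h with
  | zero => simp
  | succ h ih => rw [sum_range_succ, ih]; push_cast; ring

theorem sum_div_ge (h q : ℕ) (hq : 0 < q) :
    (h : ℝ) ^ 2 * (1 / q) - h ≤ ∑ t ∈ range h, ((2 * t / q : ℕ) : ℝ) := by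
  have h3 : ∑ t ∈ range h, ((((2 * t : ℕ) : ℝ) + 1) / q - 1) ≤
      ∑ t ∈ range h, ((2 * t / q : ℕ) : ℝ) := sum_le_sum fun t _ => Z23.SmallP.div_ge _ q hq
  rw [sum_sub_distrib, ← sum_div, sum_odd, sum_const, card_range, nsmul_eq_mul, mul_one] at h3
  rwa [mul_one_div]

theorem level_bound (u q : ℕ) (hq : 0 < q) :
    124 * (u : ℝ) ^ 2 * (1 / q) - 106 * u ≤
      70 * u * ((2 * u / q : ℕ) : ℝ) - 18 * u * ((28 * u / q : ℕ) : ℝ)
        + (∑ t ∈ range (10 * u), ((2 * t / q : ℕ) : ℝ) + ∑ t ∈ range (8 * u), ((2 * t / q : ℕ) : ℝ)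
          + ∑ t ∈ range (10 * u + 8 * u), ((2 * t / q : ℕ) : ℝ)) := by
  have hq' : (0 : ℝ) < q := by exact_mod_cast hq
  have hn : (0 : ℝ) ≤ u := by positivity
  have h1 := Z23.SmallP.div_ge (2 * u) q hq
  have h2 : ((28 * u / q : ℕ) : ℝ) ≤ 28 * u / q := by
    have := @Nat.cast_div_le ℝ _ _ _ (28 * u) q
    push_cast at this
    exact this
  have h3 := sum_div_ge (10 * u) q hq
  have h3' := sum_div_ge (8 * u) q hq
  have h3'' := sum_div_ge (10 * u + 8 * u) q hq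
  have h4 : 0 ≤ (u : ℝ) * (1 / q) := by positivity
  have h5 := mul_le_mul_of_nonneg_left h1 hn
  have h6 := mul_le_mul_of_nonneg_left h2 hn
  rw [Nat.cast_mul, Nat.cast_ofNat] at h3 h3' h5
  rw [Nat.cast_add, Nat.cast_mul, Nat.cast_mul, Nat.cast_ofNat, Nat.cast_ofNat] at h3''
  simp only [div_eq_mul_inv] at *
  nlinarith

theorem sum_val_ge (p : ℕ) [Fact p.Prime] (u h : ℕ) (hh : h ≤ 18 * u) :
    ∑ k ∈ Icc 1 (Nat.log p (28 * u)), ∑ t ∈ range h, ((2 * t / p ^ k : ℕ) : ℝ) ≤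
      ∑ t ∈ range h, (padicValNat p (2 * t).factorial : ℝ) := by
  rw [sum_comm]
  refine sum_le_sum fun t ht => ?_
  have := mem_range.mp ht
  rw [Z23.SmallP.val_fact p (2 * t) (36 * u) (by omega)]
  exact sum_le_sum_of_subset_of_nonneg
    (Icc_subset_Icc_right (Nat.log_mono_right (by omega))) fun _ _ _ => by positivity

theorem legendre_bound (p : ℕ) [hp : Fact p.Prime] (u : ℕ) :
    124 * (u : ℝ) ^ 2 * ∑ k ∈ Icc 1 (Nat.log p (28 * u)), 1 / (p : ℝ) ^ k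
      - 106 * u * (Nat.log p (64 * u) : ℝ) ≤
      70 * u * (padicValNat p (2 * u).factorial : ℝ)
        - 18 * u * (padicValNat p (28 * u).factorial : ℝ)
        + (∑ t ∈ range (10 * u), (padicValNat p (2 * t).factorial : ℝ)
          + ∑ t ∈ range (8 * u), (padicValNat p (2 * t).factorial : ℝ)
          + ∑ t ∈ range (10 * u + 8 * u), (padicValNat p (2 * t).factorial : ℝ)) := by
  have e1 := sum_val_ge p u (10 * u) (by omega)
  have e2 := sum_val_ge p u (8 * u) (by omega)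
  have e3 := sum_val_ge p u (10 * u + 8 * u) (by omega)
  have h1 : ∑ k ∈ Icc 1 (Nat.log p (28 * u)), (124 * (u : ℝ) ^ 2 * (1 / (p : ℝ) ^ k) - 106 * u) ≤
      ∑ k ∈ Icc 1 (Nat.log p (28 * u)), (70 * u * ((2 * u / p ^ k : ℕ) : ℝ)
        - 18 * u * ((28 * u / p ^ k : ℕ) : ℝ)
        + (∑ t ∈ range (10 * u), ((2 * t / p ^ k : ℕ) : ℝ)
          + ∑ t ∈ range (8 * u), ((2 * t / p ^ k : ℕ) : ℝ)
          + ∑ t ∈ range (10 * u + 8 * u), ((2 * t / p ^ k : ℕ) : ℝ))) := by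
    refine sum_le_sum fun k _ => ?_
    have := level_bound u (p ^ k) (pow_pos hp.out.pos k)
    rwa [Nat.cast_pow] at this
  rw [sum_sub_distrib, sum_const, Nat.card_Icc, nsmul_eq_mul, ← mul_sum, sum_add_distrib,
    sum_sub_distrib, ← mul_sum, ← mul_sum, sum_add_distrib, sum_add_distrib,
    ← Z23.SmallP.val_fact p (2 * u) (28 * u) (by omega),
    ← Z23.SmallP.val_fact p (28 * u) (28 * u) le_rfl] at h1
  have h2 : ((Nat.log p (28 * u) + 1 - 1 : ℕ) : ℝ) ≤ (Nat.log p (64 * u) : ℝ) := by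
    have : Nat.log p (28 * u) ≤ Nat.log p (64 * u) := Nat.log_mono_right (by omega)
    exact_mod_cast this
  have hn' : (0 : ℝ) ≤ u := by positivity
  nlinarith

end Small

theorem val_small (c : Par) (u p : ℕ) (hp : p.Prime) (hu : 1 ≤ u) (h0 : Delta c u ≠ 0) :
    124 * (u : ℝ) ^ 2 * ∑ k ∈ Icc 1 (Nat.log p (28 * u)), 1 / (p : ℝ) ^ k
      - 232 * u * (Nat.log p (64 * u) : ℝ) ≤ (padicValRat p (Delta c u) : ℝ) := by
  have : Fact p.Prime := ⟨hp⟩
  have hM : ∀ h, Mon WT h := fun h t _ => ⟨WT_monic t, WT_natDegree t⟩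
  have h := val_ge_of_levels p (FA c u) (FB c u) (FF_linear _ _ _ _ _ _) (FF_linear _ _ _ _ _ _)
    (10 * u) (8 * u) WT WT WT (hM _) (hM _) (hM _)
    (fun t => (3 : ℕ) * (padicValNat p (2 * u).factorial : ℝ) + padicValNat p (2 * t).factorial
        - padicValNat p (28 * u).factorial - 7 * (Nat.log p (64 * u) : ℝ))
    (fun t => (5 : ℕ) * (padicValNat p (2 * u).factorial : ℝ) + padicValNat p (2 * t).factorial
        - padicValNat p (28 * u).factorial - 7 * (Nat.log p (64 * u) : ℝ))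
    (fun k => (padicValNat p (2 * k).factorial : ℝ))
    (fun t ht k hk => Small.norm_entry_le p 5 (by norm_num) (by norm_num) _ _ _ 3 u t k hu
      (by omega))
    (fun t ht k hk => Small.norm_entry_le p 7 (by norm_num) (by norm_num) _ _ _ 5 u t k hu
      (by omega)) h0
  refine le_trans ?_ h
  have hl := Small.legendre_bound p u
  simp only [sum_sub_distrib, sum_add_distrib, sum_const, card_range, nsmul_eq_mul]
  push_cast
  nlinarith

end Pool.Agent.P.MP_a89d6d_nt.Z57
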