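import Pool.Agent.P.MP_a89d6d_nt.Z23.Final
import Pool.Agent.P.MP_a89d6d_nt.Z57.Medium
import Pool.Agent.P.MP_a89d6d_nt.Z57.Large
import Pool.Agent.P.MP_a89d6d_nt.Z57.Small
import Pool.Agent.P.MP_a89d6d_nt.Z57.Lower
import Pool.Agent.P.MP_a89d6d_nt.Z57.Integral
import Pool.Agent.P.MP_a89d6d_nt.Z57.Energy
import Pool.Agent.P.MP_a89d6d_nt.Z57.Nonzero

/-!
The two bounds for the determinant and the final contradiction.
-/

namespace Pool.Agent.P.MP_a89d6d_nt.Z57

open Polynomial Finset Filter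

namespace Final

theorem lower (c : Par) : ∀ᶠ n : ℕ in atTop, Delta c n ≠ 0 →
    124 * (n : ℝ) ^ 2 * Real.log n - 791 * (n : ℝ) ^ 2 ≤ Real.log |(Delta c n : ℝ)| := by
  filter_upwards [lower_abstract, eventually_ge_atTop 3] with n h hn h0
  exact h _ h0 (fun p hp h64 => val_medium c n p hp (by omega) h64 h0)
    (fun p hp h3 => val_large c n p hp hn h3 h0) (fun p hp => val_small c n p hp (by omega) h0)

theorem small_terms (c : ℝ) :
    ∀ᶠ n : ℕ in atTop, Real.log (18 * (n : ℝ)) + c ≤ (n : ℝ) / 20 := by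
  filter_upwards [Z23.Final.small_terms (c + Real.log 3), eventually_gt_atTop 0] with n hn hn0
  have h0 : (0 : ℝ) < n := by exact_mod_cast hn0
  have : Real.log (18 * (n : ℝ)) = Real.log 3 + Real.log (6 * n) := by
    rw [← Real.log_mul (by norm_num) (by positivity)]
    congr 1
    ring
  linarith

theorem cast_linear {F : ℚ[X] → ℚ} (hF : IsLinearMap ℚ F) :
    IsLinearMap ℚ fun P => (F P : ℝ) :=
  ⟨fun P Q => by rw [hF.map_add]; push_cast; rfl,
   fun a P => by rw [hF.map_smul, smul_eq_mul, Rat.smul_def]; push_cast; rfl⟩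

theorem prod_eq_exp (B : ℕ → ℝ) (hB : ∀ t, 0 < B t) (h : ℕ) :
    ∏ t ∈ range h, B t = Real.exp (∑ t ∈ range h, Real.log (B t)) := by
  rw [Real.exp_sum]
  exact prod_congr rfl fun t _ => (Real.exp_log (hB t)).symm

theorem upper (c : Par) (h5 : c.a5 ≠ 0)
    (hA : (c.xA : ℂ) = c.a3 * riemannZeta 3 + c.a5 * riemannZeta 5)
    (hB : (c.xB : ℂ) = c.b3 * riemannZeta 3 + c.b7 * riemannZeta 7) :
    ∀ᶠ n : ℕ in atTop, |(Delta c n : ℝ)| ≤
      Real.exp (124 * (n : ℝ) ^ 2 * Real.log n - 792 * (n : ℝ) ^ 2) := by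
  obtain ⟨κ, Cst, hC, hL⟩ := entry_bound c h5 hA hB
  filter_upwards [exists_good_basis, small_terms (Real.log Cst), eventually_ge_atTop 1]
    with n hn hs h1
  obtain ⟨φ, χ, ψ, BA, BB, BC, hφ, hχ, hψ, pA, pB, pC, wA, wB, hsum⟩ := hn
  have lA : IsLinearMap ℚ fun P => (FA c n P : ℝ) := cast_linear (FF_linear _ _ _ _ _ _)
  have lB : IsLinearMap ℚ fun P => (FB c n P : ℝ) := cast_linear (FF_linear _ _ _ _ _ _)
  have lB' : IsLinearMap ℚ fun P => (FB c n P : ℝ) - κ * (FA c n (WT n ^ 2 * P) : ℝ) :=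
    ⟨fun P Q => by
      have e1 := lA.map_add (WT n ^ 2 * P) (WT n ^ 2 * Q)
      have e2 := lB.map_add P Q
      rw [mul_add, e1, e2]
      ring,
     fun a P => by
      have e1 := lA.map_smul a (WT n ^ 2 * P)
      have e2 := lB.map_smul a P
      rw [mul_smul_comm, e1, e2]
      simp only [Rat.smul_def]
      ring⟩
  have hV : (WT n ^ 2).natDegree + 8 * n ≤ 10 * n := by
    rw [(WT_monic n).natDegree_pow, WT_natDegree]
    omega
  have e18 : 10 * n + 8 * n = 18 * n := by ring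
  have e0 : (Delta c n : ℝ) = hdet (fun P => (FA c n P : ℝ))
      (fun P => (FB c n P : ℝ) - κ * (FA c n (WT n ^ 2 * P) : ℝ)) (10 * n) (8 * n) :=
    (hdet_cast _ _ _ _).trans (hdet_rowop _ _ lA _ _ (WT n ^ 2) hV κ).symm
  rw [e0]
  have hb := abs_hdet_le _ _ lA lB' (10 * n) (8 * n) φ χ ψ hφ hχ (by rwa [e18])
    (fun t => Cst * BA t) (fun t => Cst * BB t) BC
    (fun t ht k hk => ((hL n h1 (φ t * ψ k) _).1 (wA t ht k (by omega))).trans
      (mul_assoc _ _ _).ge)
    (fun t ht k hk => ((hL n h1 (χ t * ψ k) _).2 (wB t ht k (by omega))).trans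
      (mul_assoc _ _ _).ge)
  refine hb.trans ?_
  have hn0 : (0 : ℝ) < n := by exact_mod_cast h1
  have e3 : ((18 * n).factorial : ℝ) ≤ Real.exp (18 * n * Real.log (18 * n)) := by
    have : (18 * n : ℝ) = ((18 * n : ℕ) : ℝ) := by push_cast; ring
    rw [this, Real.exp_nat_mul, Real.exp_log (by rw [← this]; positivity)]
    exact_mod_cast Nat.factorial_le_pow (18 * n)
  rw [e18, prod_eq_exp _ (fun t => mul_pos hC (pA t)), prod_eq_exp _ (fun t => mul_pos hC (pB t)),
    prod_eq_exp _ pC, ← Real.exp_add, ← Real.exp_add]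
  refine (mul_le_mul_of_nonneg_right e3 (Real.exp_pos _).le).trans ?_
  rw [← Real.exp_add]
  apply Real.exp_le_exp.mpr
  simp only [Real.log_mul hC.ne' (pA _).ne', Real.log_mul hC.ne' (pB _).ne', sum_add_distrib,
    sum_const, card_range, nsmul_eq_mul]
  have : 18 * (n : ℝ) * (Real.log (18 * n) + Real.log Cst) ≤ 18 * n * (n / 20) :=
    mul_le_mul_of_nonneg_left hs (by positivity)
  push_cast
  nlinarith

theorem no_relation (c : Par) (h5 : c.a5 ≠ 0) (h7 : c.b7 ≠ 0)
    (hA : (c.xA : ℂ) = c.a3 * riemannZeta 3 + c.a5 * riemannZeta 5)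
    (hB : (c.xB : ℂ) = c.b3 * riemannZeta 3 + c.b7 * riemannZeta 7) : False := by
  obtain ⟨N, hN⟩ := eventually_atTop.mp
    ((upper c h5 hA hB).and ((lower c).and ((nonzero c h5 h7).and (eventually_ge_atTop 1))))
  obtain ⟨p, hp, hpp⟩ := Nat.exists_infinite_primes N
  obtain ⟨hu, hl, hz, h1⟩ := hN p hp
  have h0 := hz hpp
  have hl' := hl h0
  have hpos : 0 < |(Delta c p : ℝ)| := abs_pos.mpr (by exact_mod_cast h0)
  have h2 := Real.log_le_log hpos hu
  rw [Real.log_exp] at h2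
  have hp0 : (0 : ℝ) < p := by exact_mod_cast h1
  nlinarith [sq_pos_of_pos hp0]

/-- A dependence between `1, zeta(3), w` gives an integer relation in which `w` occurs. -/
theorem exists_relation (w : ℂ) (h : ¬ LinearIndependent ℚ ![(1 : ℂ), riemannZeta 3, w]) :
    ∃ a b x : ℤ, b ≠ 0 ∧ (x : ℂ) = a * riemannZeta 3 + b * w := by
  rw [Fintype.not_linearIndependent_iff] at h
  obtain ⟨g, hg, i, hi⟩ := h
  simp only [Fin.sum_univ_three, Matrix.cons_val_zero, Matrix.cons_val_one, Matrix.cons_val,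
    Rat.smul_def, mul_one] at hg
  have h2 : g 2 ≠ 0 := by
    intro h2
    have hm := Fintype.linearIndependent_iff.mp Z23.main ![g 0, 0, g 1] (by
      simp only [Fin.sum_univ_three, Matrix.cons_val_zero, Matrix.cons_val_one, Matrix.cons_val,
        Rat.smul_def, mul_one]
      rw [h2] at hg
      simpa using hg)
    have h0 := hm 0
    have h1 := hm 2
    simp only [Matrix.cons_val_zero, Matrix.cons_val] at h0 h1
    fin_cases i
    · exact hi h0
    · exact hi h1
    · exact hi h2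
  refine ⟨(g 1).num * (g 0).den * (g 2).den, (g 2).num * (g 0).den * (g 1).den,
    -(g 0).num * (g 1).den * (g 2).den, ?_, ?_⟩
  · exact mul_ne_zero (mul_ne_zero (Rat.num_ne_zero.mpr h2) (by exact_mod_cast (g 0).den_nz))
      (by exact_mod_cast (g 1).den_nz)
  · have e : ∀ q : ℚ, ((q.num : ℤ) : ℂ) = (q : ℂ) * (q.den : ℕ) := fun q => by
      exact_mod_cast (Rat.mul_den_eq_num q).symm
    push_cast
    rw [e, e, e]
    linear_combination (-((g 0).den : ℂ) * ((g 1).den : ℂ) * ((g 2).den : ℂ)) * hg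

end Final

theorem main : LinearIndependent ℚ ![(1 : ℂ), riemannZeta 3, riemannZeta 5] ∨
    LinearIndependent ℚ ![(1 : ℂ), riemannZeta 3, riemannZeta 7] := by
  by_contra h
  rw [not_or] at h
  obtain ⟨a3, a5, xA, h5, hA⟩ := Final.exists_relation _ h.1
  obtain ⟨b3, b7, xB, h7, hB⟩ := Final.exists_relation _ h.2
  exact Final.no_relation ⟨a3, a5, xA, b3, b7, xB⟩ h5 h7 hA hB

end Pool.Agent.P.MP_a89d6d_nt.Z57
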