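import Pool.Agent.P.MP_a89d6d_nt.Z57.Defs

/-!
Gauss norm calculus for polynomials with rational coefficients and the local shape of the
denominators `DZ (SK (h * p))` on a residue class modulo `p` (Wilson blocks).
-/

namespace Pool.Agent.P.MP_a89d6d_nt.Z57

open Polynomial Finset Filter MeasureTheory
open Pool.Agent.P.MP_a89d6d_nt.Z23 (H W nc ach ff zpt)
open Pool.Agent.P.MP_a89d6d_nt.Z23.Large (IsZ)

namespace Gauss

variable {p : ℕ} [hp : Fact p.Prime]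

theorem one_lt_p : (1 : ℝ) < p := by exact_mod_cast hp.out.one_lt

theorem p_pos : (0 : ℝ) < p := lt_trans one_pos one_lt_p

theorem nr_mul (a b : ℚ) : nr p (a * b) = nr p a * nr p b := by
  simp [nr]

theorem nr_add_le (a b : ℚ) : nr p (a + b) ≤ max (nr p a) (nr p b) := by
  simp only [nr, Rat.cast_add]
  exact IsUltrametricDist.norm_add_le_max _ _

theorem nr_neg (a : ℚ) : nr p (-a) = nr p a := by simp [nr]

theorem nr_sum_le {ι : Type} (s : Finset ι) (f : ι → ℚ) (B : ℝ) (hB : 0 ≤ B)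
    (h : ∀ i ∈ s, nr p (f i) ≤ B) : nr p (∑ i ∈ s, f i) ≤ B := by
  simp only [nr, Rat.cast_sum]
  exact IsUltrametricDist.norm_sum_le_of_forall_le_of_nonneg hB h

theorem nr_int_le (z : ℤ) : nr p (z : ℚ) ≤ 1 := Z23.Large.norm_int_le p z

theorem nr_p_pow (e : ℕ) : nr p ((p : ℚ) ^ e) = (p : ℝ) ^ (-(e : ℤ)) := by
  simp [nr]

theorem nr_int_of_dvd (z : ℤ) (h : (p : ℤ) ∣ z) : nr p (z : ℚ) ≤ (p : ℝ) ^ (-(1 : ℤ)) := by
  obtain ⟨w, rfl⟩ := h
  have h1 := nr_p_pow (p := p) 1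
  rw [pow_one] at h1
  push_cast
  rw [nr_mul, h1]
  exact mul_le_of_le_one_right (zpow_nonneg p_pos.le _) (nr_int_le w)

theorem nr_int_of_not_dvd (z : ℤ) (h : ¬ (p : ℤ) ∣ z) : 1 ≤ nr p (z : ℚ) := by
  simp only [nr, Rat.cast_intCast]
  exact not_lt.mp fun h' => h (Padic.norm_intCast_lt_one_iff.mp h')

/-- The `p`-adic absolute value on the rationals. -/
noncomputable def av (p : ℕ) [Fact p.Prime] : AbsoluteValue ℚ ℝ where
  toFun := nr p
  map_mul' := nr_mul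
  nonneg' := fun _ => norm_nonneg _
  eq_zero' := fun x => by simp only [nr, norm_eq_zero, Rat.cast_eq_zero]
  add_le' := fun x y => by
    simp only [nr, Rat.cast_add]
    exact norm_add_le _ _

theorem av_na : IsNonarchimedean (av p) := fun a b => nr_add_le a b

theorem pn_iff (Q : ℚ[X]) (e : ℤ) : PN p Q e ↔ Q.gaussNorm (av p) 1 ≤ (p : ℝ) ^ (-e) := by
  constructor
  · intro h
    obtain ⟨i, hi⟩ := Q.exists_eq_gaussNorm (av p) 1
    rw [hi, one_pow, mul_one]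
    exact h i
  · intro h d
    have := Q.le_gaussNorm (av p) zero_le_one d
    rw [one_pow, mul_one] at this
    exact this.trans h

theorem isZ_comp {P Q : ℚ[X]} (hP : IsZ P) (hQ : IsZ Q) : IsZ (P.comp Q) := by
  obtain ⟨R, hR⟩ := (Polynomial.mem_lifts _).1 hP
  obtain ⟨S, hS⟩ := (Polynomial.mem_lifts _).1 hQ
  exact (Polynomial.mem_lifts _).2 ⟨R.comp S, by rw [Polynomial.map_comp, hR, hS]⟩

theorem isZ_lin (m : ℤ) : IsZ (X - C (m : ℚ)) := Z23.Large.isZ_X.sub (Z23.Large.isZ_C m)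

theorem isZ_neg {P : ℚ[X]} (hP : IsZ P) : IsZ (-P) := by
  obtain ⟨R, hR⟩ := (Polynomial.mem_lifts _).1 hP
  exact (Polynomial.mem_lifts _).2 ⟨-R, by rw [Polynomial.map_neg, hR]⟩

theorem isZ_one : IsZ (1 : ℚ[X]) := Subsemiring.one_mem _

theorem isZ_DZ' (S : Finset ℤ) : IsZ (DZ S) := Z23.Large.isZ_prod _ _ fun i _ => isZ_lin i

omit hp in
theorem loc_mul (c : ℕ) (N N' : ℚ[X]) : loc p c (N * N') = loc p c N * loc p c N' := by
  simp [loc, mul_comp]

omit hp in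
theorem loc_add (c : ℕ) (N N' : ℚ[X]) : loc p c (N + N') = loc p c N + loc p c N' := by
  simp [loc, add_comp]

omit hp in
theorem loc_sub (c : ℕ) (N N' : ℚ[X]) : loc p c (N - N') = loc p c N - loc p c N' := by
  simp [loc, sub_comp]

omit hp in
theorem loc_one (c : ℕ) : loc p c 1 = 1 := by simp [loc]

omit hp in
theorem loc_lin (c : ℕ) (a : ℚ) : loc p c (X - C a) = C (c : ℚ) + C (p : ℚ) * X - C a := by
  simp [loc, sub_comp]

end Gauss

open Gauss

theorem PN.mono {p : ℕ} [Fact p.Prime] {Q : ℚ[X]} {e e' : ℤ} (h : PN p Q e) (he : e' ≤ e) :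
    PN p Q e' := fun d =>
  (h d).trans (zpow_le_zpow_right₀ one_lt_p.le (neg_le_neg he))

theorem PN.add {p : ℕ} [Fact p.Prime] {Q R : ℚ[X]} {e : ℤ} (h : PN p Q e) (h' : PN p R e) :
    PN p (Q + R) e := fun d => by
  rw [coeff_add]
  exact (nr_add_le _ _).trans (max_le (h d) (h' d))

theorem PN.neg {p : ℕ} [Fact p.Prime] {Q : ℚ[X]} {e : ℤ} (h : PN p Q e) : PN p (-Q) e :=
  fun d => by
    rw [coeff_neg, nr_neg]
    exact h d

theorem PN.sub {p : ℕ} [Fact p.Prime] {Q R : ℚ[X]} {e : ℤ} (h : PN p Q e) (h' : PN p R e) :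
    PN p (Q - R) e := by
  rw [sub_eq_add_neg]
  exact h.add h'.neg

theorem PN.sum {p : ℕ} [Fact p.Prime] {ι : Type} (s : Finset ι) (Q : ι → ℚ[X]) (e : ℤ)
    (h : ∀ i ∈ s, PN p (Q i) e) : PN p (∑ i ∈ s, Q i) e := fun d => by
  rw [finsetSum_coeff]
  exact nr_sum_le _ _ _ (zpow_nonneg p_pos.le _) fun i hi => h i hi d

theorem PN.mul {p : ℕ} [Fact p.Prime] {Q R : ℚ[X]} {e e' : ℤ} (h : PN p Q e) (h' : PN p R e') :
    PN p (Q * R) (e + e') := by
  rw [pn_iff] at h h' ⊢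
  rw [gaussNorm_mul av_na one_pos, neg_add, zpow_add₀ p_pos.ne']
  exact mul_le_mul h h' (R.gaussNorm_nonneg _ zero_le_one) (zpow_nonneg p_pos.le _)

theorem PN_C {p : ℕ} [Fact p.Prime] {q : ℚ} {e : ℤ} (h : nr p q ≤ (p : ℝ) ^ (-e)) :
    PN p (C q) e := fun d => by
  rw [coeff_C]
  split_ifs
  · exact h
  · simp only [nr, Rat.cast_zero, norm_zero]
    exact zpow_nonneg p_pos.le _

theorem PN_of_isZ {p : ℕ} [Fact p.Prime] {Q : ℚ[X]} (h : IsZ Q) : PN p Q 0 := fun d => by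
  obtain ⟨z, hz⟩ := h.coeff d
  rw [hz, neg_zero, zpow_zero]
  exact nr_int_le z

theorem PN.eval {p : ℕ} [Fact p.Prime] {Q : ℚ[X]} {e : ℤ} (h : PN p Q e) (y : ℤ) :
    nr p (Q.eval (y : ℚ)) ≤ (p : ℝ) ^ (-e) := by
  rw [eval_eq_sum_range]
  refine nr_sum_le _ _ _ (zpow_nonneg p_pos.le _) fun i _ => ?_
  rw [nr_mul]
  have h1 : nr p ((y : ℚ) ^ i) ≤ 1 := by
    have := nr_int_le (p := p) (y ^ i)
    rwa [Int.cast_pow] at this
  exact (mul_le_of_le_one_right (norm_nonneg _) h1).trans (h i)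

theorem PN.cancel {p : ℕ} [Fact p.Prime] {A Q : ℚ[X]} {e : ℤ} (d : ℕ)
    (hA : 1 ≤ nr p (A.coeff d)) (h : PN p (A * Q) e) : PN p Q e := by
  rw [pn_iff] at h ⊢
  rw [gaussNorm_mul av_na one_pos] at h
  have h1 := A.le_gaussNorm (av p) zero_le_one d
  rw [one_pow, mul_one] at h1
  exact (le_mul_of_one_le_left (Q.gaussNorm_nonneg _ zero_le_one) (hA.trans h1)).trans h

theorem norm_coeff_loc {p : ℕ} [Fact p.Prime] (c : ℕ) {Q : ℚ[X]} (h : IsZ Q) (d : ℕ) :
    nr p ((loc p c Q).coeff d) ≤ (p : ℝ) ^ (-(d : ℤ)) := by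
  have h1 : loc p c Q = (Q.comp (X + C (c : ℚ))).comp (C (p : ℚ) * X) := by
    rw [comp_assoc, loc]
    congr 1
    simp [add_comp, add_comm]
  have h2 : IsZ (Q.comp (X + C (c : ℚ))) := by
    refine isZ_comp h (Z23.Large.isZ_X.add ?_)
    have := Z23.Large.isZ_C (c : ℤ)
    rwa [Int.cast_natCast] at this
  rw [h1, comp_C_mul_X_coeff, nr_mul, nr_p_pow]
  have h3 := PN_of_isZ (p := p) h2 d
  rw [neg_zero, zpow_zero] at h3
  exact mul_le_of_le_one_left (zpow_nonneg p_pos.le _) h3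

namespace Gauss

variable {p : ℕ} [hp : Fact p.Prime]

theorem pn_pow_mul {G : ℚ[X]} {e' : ℤ} (e : ℕ) (hG : PN p G e') :
    PN p (C ((p : ℚ) ^ e) * G) (e + e') :=
  (PN_C (nr_p_pow e).le).mul hG

theorem ap_pn {c : ℕ} {N G : ℚ[X]} {e : ℕ} (h : Ap p c N e G) (hG : IsZ G) :
    PN p (loc p c N) e := by
  have h1 := pn_pow_mul (p := p) e (PN_of_isZ hG)
  rw [add_zero] at h1
  have h2 := (PN.mono h (e' := e) (by omega)).add h1
  rwa [sub_add_cancel] at h2

theorem ap_congr {c : ℕ} {N G G' : ℚ[X]} {e : ℕ} (h : Ap p c N e G) (hG : PN p (G - G') 1) :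
    Ap p c N e G' := by
  have h1 := PN.add h (pn_pow_mul (p := p) e hG)
  have h2 : loc p c N - C ((p : ℚ) ^ e) * G + C ((p : ℚ) ^ e) * (G - G') =
      loc p c N - C ((p : ℚ) ^ e) * G' := by ring
  rwa [h2] at h1

theorem ap_one (c : ℕ) : Ap p c 1 0 1 := by
  intro d
  simp only [loc_one, pow_zero, map_one, mul_one, sub_self, coeff_zero, nr, Rat.cast_zero,
    norm_zero]
  exact zpow_nonneg p_pos.le _

end Gauss

theorem Ap.mul {p : ℕ} [Fact p.Prime] {c : ℕ} {N N' G G' : ℚ[X]} {e e' : ℕ} (h : Ap p c N e G)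
    (h' : Ap p c N' e' G') (hG : IsZ G) (hG' : IsZ G') : Ap p c (N * N') (e + e') (G * G') := by
  have h1 := PN.mul h (ap_pn h' hG')
  have h2 := PN.mul (pn_pow_mul (p := p) e (PN_of_isZ hG)) h'
  have e1 : (e : ℤ) + 1 + e' = ((e + e' : ℕ) : ℤ) + 1 := by push_cast; ring
  have e2 : (e : ℤ) + 0 + (e' + 1) = ((e + e' : ℕ) : ℤ) + 1 := by push_cast; ring
  rw [e1] at h1
  rw [e2] at h2
  have h3 := h1.add h2
  have h4 : (loc p c N - C ((p : ℚ) ^ e) * G) * loc p c N' +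
      C ((p : ℚ) ^ e) * G * (loc p c N' - C ((p : ℚ) ^ e') * G') =
      loc p c (N * N') - C ((p : ℚ) ^ (e + e')) * (G * G') := by
    rw [loc_mul, pow_add, map_mul]
    ring
  rwa [h4] at h3

theorem Ap.pow {p : ℕ} [Fact p.Prime] {c : ℕ} {N G : ℚ[X]} {e : ℕ} (h : Ap p c N e G)
    (hG : IsZ G) (n : ℕ) : Ap p c (N ^ n) (e * n) (G ^ n) := by
  induction n with
  | zero => simpa using ap_one (p := p) c
  | succ n ih =>
    rw [pow_succ, pow_succ, mul_add_one]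
    exact ih.mul h (hG.pow n) hG

theorem Ap.add {p : ℕ} [Fact p.Prime] {c : ℕ} {N N' G G' : ℚ[X]} {e : ℕ} (h : Ap p c N e G)
    (h' : Ap p c N' e G') : Ap p c (N + N') e (G + G') := by
  have h1 := PN.add h h'
  have h2 : loc p c N - C ((p : ℚ) ^ e) * G + (loc p c N' - C ((p : ℚ) ^ e) * G') =
      loc p c (N + N') - C ((p : ℚ) ^ e) * (G + G') := by
    rw [loc_add]
    ring
  rwa [h2] at h1

theorem Ap.sub {p : ℕ} [Fact p.Prime] {c : ℕ} {N N' G G' : ℚ[X]} {e : ℕ} (h : Ap p c N e G)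
    (h' : Ap p c N' e G') : Ap p c (N - N') e (G - G') := by
  have h1 := PN.sub h h'
  have h2 : loc p c N - C ((p : ℚ) ^ e) * G - (loc p c N' - C ((p : ℚ) ^ e) * G') =
      loc p c (N - N') - C ((p : ℚ) ^ e) * (G - G') := by
    rw [loc_sub]
    ring
  rwa [h2] at h1

namespace Gauss

variable {p : ℕ} [hp : Fact p.Prime]

theorem ap_prod {ι : Type} (c : ℕ) (s : Finset ι) (N G : ι → ℚ[X]) (e : ℕ)
    (h : ∀ i ∈ s, Ap p c (N i) e (G i)) (hG : ∀ i ∈ s, IsZ (G i)) :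
    Ap p c (∏ i ∈ s, N i) (e * s.card) (∏ i ∈ s, G i) := by
  classical
  induction s using Finset.induction_on with
  | empty => simpa using ap_one (p := p) c
  | insert a s ha ih =>
    rw [prod_insert ha, prod_insert ha, card_insert_of_notMem ha, mul_add_one, add_comm]
    exact (h a (mem_insert_self _ _)).mul
      (ih (fun i hi => h i (mem_insert_of_mem hi)) fun i hi => hG i (mem_insert_of_mem hi))
      (hG a (mem_insert_self _ _))
      (Z23.Large.isZ_prod _ _ fun i hi => hG i (mem_insert_of_mem hi))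

theorem wilson (c : ℕ) (hc : c < p) :
    (p : ℤ) ∣ (∏ d ∈ (range p).erase c, ((c : ℤ) - (d : ℤ))) + 1 := by
  rw [← ZMod.intCast_zmod_eq_zero_iff_dvd]
  push_cast
  have hinj : ∀ d < p, ∀ d' < p, (c : ZMod p) - (d : ZMod p) = c - d' → d = d' := by
    intro d hd d' hd' h
    have h1 : (d : ZMod p) = d' := by linear_combination -h
    have h2 := (ZMod.natCast_eq_natCast_iff' _ _ _).mp h1
    rwa [Nat.mod_eq_of_lt hd, Nat.mod_eq_of_lt hd'] at h2
  have hinj' : Set.InjOn (fun d : ℕ => (c : ZMod p) - (d : ZMod p))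
      ((range p).erase c : Finset ℕ) := by
    intro d hd d' hd' h
    exact hinj d (mem_range.mp (mem_of_mem_erase hd)) d' (mem_range.mp (mem_of_mem_erase hd')) h
  have himg : ((range p).erase c).image (fun d : ℕ => (c : ZMod p) - (d : ZMod p)) =
      univ.erase 0 := by
    apply eq_of_subset_of_card_le
    · intro z hz
      obtain ⟨d, hd, rfl⟩ := mem_image.mp hz
      refine mem_erase.mpr ⟨fun h => ?_, mem_univ _⟩
      exact (ne_of_mem_erase hd)
        (hinj d (mem_range.mp (mem_of_mem_erase hd)) c hc (h.trans (sub_self _).symm))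
    · rw [card_image_of_injOn hinj', card_erase_of_mem (mem_range.mpr hc),
        card_erase_of_mem (mem_univ _), card_range, card_univ, ZMod.card]
  have h1 : ∏ d ∈ (range p).erase c, ((c : ZMod p) - (d : ZMod p)) =
      ∏ z ∈ univ.erase (0 : ZMod p), z := by
    rw [← himg, prod_image hinj']
  rw [h1]
  have h2 := FiniteField.prod_univ_units_id_eq_neg_one (K := ZMod p)
  have h3 : ∏ z ∈ univ.erase (0 : ZMod p), z = ∏ x : (ZMod p)ˣ, (x : ZMod p) := by
    symm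
    refine prod_bij (fun x _ => (x : ZMod p)) (fun x _ => ?_) (fun x _ y _ h => Units.ext h)
      (fun z hz => ?_) (fun _ _ => rfl)
    · exact mem_erase.mpr ⟨x.ne_zero, mem_univ _⟩
    · exact ⟨Units.mk0 z (ne_of_mem_erase hz), mem_univ _, rfl⟩
  rw [h3, ← Units.coe_prod, h2]
  simp

/-- The block of `m` without the class of `c`. -/
noncomputable def eb (p c : ℕ) (m : ℤ) : ℚ[X] :=
  ∏ d ∈ (range p).erase c, (X - C ((((d : ℤ) + p * m : ℤ)) : ℚ))

/-- The full block of `m`. -/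
noncomputable def fb (p : ℕ) (m : ℤ) : ℚ[X] :=
  ∏ d ∈ range p, (X - C ((((d : ℤ) + p * m : ℤ)) : ℚ))

omit hp in
theorem fb_eq (c : ℕ) (hc : c < p) (m : ℤ) :
    fb p m = (X - C ((((c : ℤ) + p * m : ℤ)) : ℚ)) * eb p c m :=
  (mul_prod_erase (range p) (fun d : ℕ => (X - C ((((d : ℤ) + p * m : ℤ)) : ℚ) : ℚ[X]))
    (mem_range.mpr hc)).symm

theorem ap_eb (c : ℕ) (hc : c < p) (m : ℤ) : Ap p c (eb p c m) 0 (-1) := by
  have h1 := ap_prod (p := p) c ((range p).erase c)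
    (fun d : ℕ => (X - C ((((d : ℤ) + p * m : ℤ)) : ℚ) : ℚ[X]))
    (fun d : ℕ => C ((((c : ℤ) - (d : ℤ) : ℤ)) : ℚ)) 0 (fun d _ => ?_)
    (fun d _ => Z23.Large.isZ_C _)
  · rw [zero_mul] at h1
    refine ap_congr h1 ?_
    rw [← map_prod, sub_neg_eq_add, ← map_one (C : ℚ →+* ℚ[X]), ← map_add]
    refine PN_C ?_
    have := nr_int_of_dvd _ (wilson (p := p) c hc)
    push_cast at this ⊢
    exact this
  · have h2 := pn_pow_mul (p := p) 1 (PN_of_isZ (isZ_lin m))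
    have h3 : loc p c (X - C ((((d : ℤ) + p * m : ℤ)) : ℚ)) -
        C ((p : ℚ) ^ 0) * C ((((c : ℤ) - (d : ℤ) : ℤ)) : ℚ) = C ((p : ℚ) ^ 1) * (X - C (m : ℚ)) := by
      rw [loc_lin]
      push_cast
      simp only [pow_zero, pow_one, map_one, map_add, map_sub, map_mul]
      ring
    unfold Ap
    rw [h3]
    exact h2.mono (by simp)

theorem ap_lin (c : ℕ) (m : ℤ) :
    Ap p c (X - C ((((c : ℤ) + p * m : ℤ)) : ℚ)) 1 (X - C (m : ℚ)) := by
  have h3 : loc p c (X - C ((((c : ℤ) + p * m : ℤ)) : ℚ)) -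
      C ((p : ℚ) ^ 1) * (X - C (m : ℚ)) = 0 := by
    rw [loc_lin]
    push_cast
    simp only [pow_one, map_add, map_mul]
    ring
  unfold Ap
  rw [h3]
  intro d
  simp only [coeff_zero, nr, Rat.cast_zero, norm_zero]
  exact zpow_nonneg p_pos.le _

theorem ap_fb (c : ℕ) (hc : c < p) (m : ℤ) : Ap p c (fb p m) 1 (-(X - C (m : ℚ))) := by
  have := (ap_lin (p := p) c m).mul (ap_eb c hc m) (isZ_lin m) (isZ_neg isZ_one)
  rwa [← fb_eq c hc m, mul_neg_one] at this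

omit hp in
theorem mem_block (h d : ℕ) (hd : d < p) (m : ℤ) (hm : m ∈ SK h) :
    (d : ℤ) + p * m ∈ SK (h * p) := by
  simp only [SK, mem_Ico] at hm ⊢
  push_cast
  have h1 : (d : ℤ) < p := by exact_mod_cast hd
  have h2 : (0 : ℤ) ≤ d := Int.natCast_nonneg d
  have h3 : (0 : ℤ) ≤ p := Int.natCast_nonneg p
  constructor
  · nlinarith [mul_le_mul_of_nonneg_left hm.1 h3]
  · nlinarith [mul_le_mul_of_nonneg_left (Int.add_one_le_of_lt hm.2) h3]

theorem DZ_blocks (h : ℕ) : DZ (SK (h * p)) = ∏ m ∈ SK h, fb p m := by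
  have hp0 : (0 : ℤ) < p := by exact_mod_cast hp.out.pos
  unfold DZ fb
  rw [← prod_product' (f := fun (m : ℤ) (d : ℕ) =>
    (X - C ((((d : ℤ) + p * m : ℤ)) : ℚ) : ℚ[X]))]
  symm
  refine prod_nbij' (fun x : ℤ × ℕ => (x.2 : ℤ) + p * x.1) (fun i => (i / p, (i % p).toNat))
    ?_ ?_ ?_ ?_ ?_
  · rintro ⟨m, d⟩ hx
    rw [mem_product, mem_range] at hx
    exact mem_block h d hx.2 m hx.1
  · intro i hi
    rw [mem_product, mem_range]
    simp only [SK, mem_Ico] at hi ⊢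
    push_cast at hi
    refine ⟨⟨?_, ?_⟩, ?_⟩
    · exact (Int.le_ediv_iff_mul_le hp0).mpr (by linarith [hi.1])
    · exact (Int.ediv_lt_iff_lt_mul hp0).mpr hi.2
    · have := Int.emod_lt_of_pos i hp0
      have := Int.emod_nonneg i hp0.ne'
      omega
  · rintro ⟨m, d⟩ hx
    rw [mem_product, mem_range] at hx
    have h1 : (d : ℤ) < p := by exact_mod_cast hx.2
    have h2 : (0 : ℤ) ≤ d := Int.natCast_nonneg d
    simp only [Prod.mk.injEq]
    rw [Int.add_mul_ediv_left _ _ hp0.ne', Int.add_mul_emod_self_left, Int.ediv_eq_zero_of_lt h2 h1,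
      Int.emod_eq_of_lt h2 h1]
    simp
  · intro i _
    simp only
    rw [Int.toNat_of_nonneg (Int.emod_nonneg i hp0.ne')]
    exact Int.emod_add_mul_ediv i p
  · intro x _
    rfl

omit hp in
theorem card_SK' (K : ℕ) : (SK K).card = 2 * K := by
  simp only [SK, Int.card_Ico]
  omega

omit hp in
theorem prod_neg_lin (S : Finset ℤ) :
    ∏ m ∈ S, (-(X - C (m : ℚ)) : ℚ[X]) = (-1) ^ S.card * DZ S := by
  rw [prod_neg, DZ]

end Gauss

theorem Ap_DZ (p : ℕ) [Fact p.Prime] (c : ℕ) (hc : c < p) (h : ℕ) :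
    Ap p c (DZ (SK (h * p))) (2 * h) (DZ (SK h)) := by
  have h1 := ap_prod (p := p) c (SK h) (fb p) (fun m => -(X - C (m : ℚ))) 1
    (fun m _ => ap_fb c hc m) fun m _ => isZ_neg (isZ_lin m)
  rw [← DZ_blocks, prod_neg_lin, card_SK', one_mul, pow_mul, neg_one_sq, one_pow, one_mul] at h1
  exact h1

theorem Ap_DZ_erase (p : ℕ) [Fact p.Prime] (c : ℕ) (hc : c < p) (h : ℕ) (m : ℤ) (hm : m ∈ SK h) :
    Ap p c (DZ ((SK (h * p)).erase (c + p * m))) (2 * h - 1) (DZ ((SK h).erase m)) := by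
  have h0 : DZ ((SK (h * p)).erase (c + p * m)) =
      eb p c m * ∏ m' ∈ (SK h).erase m, fb p m' := by
    have hne : (X - C ((((c : ℤ) + p * m : ℤ)) : ℚ) : ℚ[X]) ≠ 0 := X_sub_C_ne_zero _
    apply mul_left_cancel₀ hne
    rw [← mul_assoc, ← fb_eq c hc m, mul_prod_erase _ _ hm, ← DZ_blocks, DZ, DZ]
    exact mul_prod_erase _ (fun i : ℤ => (X - C (i : ℚ) : ℚ[X])) (mem_block h c hc m hm)
  have h1 := ap_prod (p := p) c ((SK h).erase m) (fb p) (fun m => -(X - C (m : ℚ))) 1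
    (fun m _ => ap_fb c hc m) fun m _ => isZ_neg (isZ_lin m)
  have h2 := (ap_eb c hc m).mul h1 (isZ_neg isZ_one)
    (Z23.Large.isZ_prod _ _ fun m _ => isZ_neg (isZ_lin m))
  have hpos : 0 < (SK h).card := card_pos.mpr ⟨m, hm⟩
  rw [card_SK'] at hpos
  have h3 : (-1 : ℚ[X]) * ((-1) ^ (2 * h - 1) * DZ ((SK h).erase m)) = DZ ((SK h).erase m) := by
    rw [← mul_assoc, ← pow_succ', Nat.sub_add_cancel hpos, pow_mul, neg_one_sq, one_pow, one_mul]
  rw [← h0, prod_neg_lin, card_erase_of_mem hm, card_SK', one_mul, zero_add, h3] at h2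
  exact h2

theorem Ap_DZ_erase' (p : ℕ) [Fact p.Prime] (c : ℕ) (hc : c < p) (h : ℕ) (i : ℤ)
    (hi : ¬ (p : ℤ) ∣ c - i) : PN p (loc p c (DZ ((SK (h * p)).erase i))) (2 * h) := by
  have h1 := ap_pn (Ap_DZ p c hc h) (isZ_DZ' _)
  push_cast at h1
  by_cases hm : i ∈ SK (h * p)
  · have h2 : DZ (SK (h * p)) = (X - C (i : ℚ)) * DZ ((SK (h * p)).erase i) :=
      (mul_prod_erase _ (fun i : ℤ => (X - C (i : ℚ) : ℚ[X])) hm).symm
    rw [h2, loc_mul] at h1
    refine PN.cancel 0 ?_ h1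
    have := nr_int_of_not_dvd (p := p) _ hi
    push_cast at this
    rw [loc_lin]
    simpa using this
  · rwa [erase_eq_of_notMem hm]

end Pool.Agent.P.MP_a89d6d_nt.Z57
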