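import Pool.Agent.P.MP_a89d6d_nt.Z57.Core
import Pool.Agent.P.MP_a89d6d_nt.Z23.Integral

/-!
Integrals of polynomials and simple poles against the kernels of level 3, 5, 7.
-/

namespace Pool.Agent.P.MP_a89d6d_nt.Z57

open Polynomial Finset Filter MeasureTheory
open Pool.Agent.P.MP_a89d6d_nt.Z23 (H W nc ach ff zpt)
open Pool.Agent.P.MP_a89d6d_nt.Z23.Large (IsZ)

namespace Integral1

open Pool.Agent.P.MP_a89d6d_nt.Z23.Integral Topology

theorem integrable_ker (κ : ℝ → ℝ) (hκ : Continuous κ) (g : ℝ → ℂ) (hg : Continuous g) (C : ℝ)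
    (h : ∀ y, ‖g y‖ ≤ C * Real.exp |y|) :
    Integrable fun y => g y * ((sh y * κ (th y) : ℝ) : ℂ) := by
  obtain ⟨B, hB⟩ := (isCompact_Icc (a := (-1 : ℝ)) (b := 1)).exists_bound_of_continuousOn
    hκ.continuousOn
  have h1 := continuous_sh
  have h2 := continuous_th
  refine integrable_of_le _ (by fun_prop) (C * (4 * B)) fun y => ?_
  have h3 : |κ (th y)| ≤ B := hB _ (abs_le.1 (abs_th_le y))
  have h4 : |sh y * κ (th y)| ≤ 4 * Real.exp (-2 * Real.pi * |y|) * B := by
    rw [abs_mul, abs_of_pos (sh_pos y)]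
    exact mul_le_mul (sh_le y) h3 (abs_nonneg _) (by positivity)
  rw [norm_mul, Complex.norm_real, Real.norm_eq_abs]
  refine (mul_le_mul (h y) h4 (abs_nonneg _) ((norm_nonneg _).trans (h y))).trans (le_of_eq ?_)
  ring

/-- The polynomials giving the derivatives of `sh`. -/
noncomputable def pk : ℕ → ℝ[X]
  | 0 => 1
  | (k + 1) => C Real.pi * (-(C 2 * X * pk k) + (1 - X ^ 2) * derivative (pk k))

/-- The derivatives of `sh`. -/
noncomputable def wk (k : ℕ) (y : ℝ) : ℝ := sh y * (pk k).eval (th y)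

theorem hasDerivAt_wk (k : ℕ) (y : ℝ) : HasDerivAt (wk k) (wk (k + 1) y) y := by
  have h := (hasDerivAt_sh y).mul (((pk k).hasDerivAt (th y)).comp y (hasDerivAt_th y))
  refine HasDerivAt.congr_deriv h ?_
  simp only [wk, pk, eval_mul, eval_add, eval_neg, eval_sub, eval_C, eval_X, eval_one, eval_pow,
    Function.comp, ← sh_eq]
  ring

theorem integrable_wk (k : ℕ) (g : ℝ → ℂ) (hg : Continuous g) (C : ℝ)
    (h : ∀ y, ‖g y‖ ≤ C * Real.exp |y|) : Integrable fun y => g y * (wk k y : ℂ) :=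
  integrable_ker (fun t => (pk k).eval t) (pk k).continuous g hg C h

theorem hasDerivAt_zpt (y : ℝ) : HasDerivAt (zpt 0) Complex.I y := by
  have h : HasDerivAt (fun y : ℝ => (y : ℂ)) 1 y := Complex.ofRealCLM.hasDerivAt
  have h2 := (h.mul_const Complex.I).const_add (((0 : ℕ) : ℂ) - 1 / 2)
  rw [one_mul] at h2
  exact h2

theorem by_parts (G : ℕ → ℂ → ℂ)
    (hd : ∀ n (y : ℝ), HasDerivAt (G n) (G (n + 1) (zpt 0 y)) (zpt 0 y))
    (hb : ∀ n, ∃ C : ℝ, ∀ y : ℝ, ‖G n (zpt 0 y)‖ ≤ C * Real.exp |y|) (k n : ℕ) :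
    ∫ y : ℝ, G n (zpt 0 y) * (wk k y : ℂ) =
      (-Complex.I) ^ k * ∫ y : ℝ, G (n + k) (zpt 0 y) * (wk 0 y : ℂ) := by
  have hD : ∀ n (y : ℝ), HasDerivAt (fun y : ℝ => G n (zpt 0 y))
      (Complex.I * G (n + 1) (zpt 0 y)) y := fun n y => by
    have := (hd n y).scomp y (hasDerivAt_zpt y)
    rw [smul_eq_mul] at this
    exact this
  have hc : ∀ n, Continuous fun y : ℝ => G n (zpt 0 y) := fun n =>
    continuous_iff_continuousAt.2 fun y => (hD n y).continuousAt
  have hi : ∀ n k, Integrable fun y : ℝ => G n (zpt 0 y) * (wk k y : ℂ) := fun n k => by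
    obtain ⟨C, hC⟩ := hb n
    exact integrable_wk k _ (hc n) C hC
  induction k generalizing n with
  | zero => simp
  | succ k ih =>
    have h1 := integral_mul_deriv_eq_deriv_mul_of_integrable
      (u := fun y : ℝ => G n (zpt 0 y)) (u' := fun y => Complex.I * G (n + 1) (zpt 0 y))
      (v := fun y => (wk k y : ℂ)) (v' := fun y => (wk (k + 1) y : ℂ))
      (fun y _ => hD n y) (fun y _ => (hasDerivAt_wk k y).ofReal_comp) (hi n (k + 1))
      (((hi (n + 1) k).const_mul Complex.I).congr (Eventually.of_forall fun y => by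
        simp only [Pi.mul_apply]; ring)) (hi n k)
    rw [h1]
    simp only [mul_assoc]
    rw [integral_const_mul, ih (n + 1), show n + 1 + k = n + (k + 1) by ring]
    ring

theorem om_eq (y : ℝ) : om 1 0 y = (Real.pi / 2 : ℂ) * (wk 0 y : ℂ) := by
  simp [om, wk, pk]

theorem oms_eq (s : ℕ) (hs : s = 3 ∨ s = 5 ∨ s = 7) (y : ℝ) :
    oms s y = -(Complex.I ^ (s - 2) * (Real.pi / 2) / ((s - 1).factorial : ℂ)) *
      (wk (s - 2) y : ℂ) := by
  have h1 : (pk 1).eval (th y) = -2 * Real.pi * th y := by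
    simp [pk]; ring
  have h3 : (pk 3).eval (th y) = Real.pi ^ 3 * (16 * th y - 24 * th y ^ 3) := by
    simp [pk]; ring
  have h5 : (pk 5).eval (th y) =
      Real.pi ^ 5 * (-272 * th y + 960 * th y ^ 3 - 720 * th y ^ 5) := by
    simp [pk]; ring
  have hI : Complex.I ^ 3 = -Complex.I := Complex.I_pow_three
  have hI5 : Complex.I ^ 5 = Complex.I := by
    rw [show 5 = 4 + 1 from rfl, pow_succ, Complex.I_pow_four, one_mul]
  rcases hs with rfl | rfl | rfl
  · simp only [oms, qs, wk, Nat.reduceSub, h1, Nat.factorial, if_true]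
    push_cast
    ring
  · simp only [oms, qs, wk, Nat.reduceSub, h3, hI, Nat.factorial, sh_eq, if_true,
      show ¬ (5 = 3) by norm_num, if_false]
    push_cast
    ring
  · simp only [oms, qs, wk, Nat.reduceSub, h5, hI5, Nat.factorial, sh_eq,
      show ¬ (7 = 3) by norm_num, show ¬ (7 = 5) by norm_num, if_false]
    push_cast
    ring

theorem oms_reduce (s : ℕ) (hs : s = 3 ∨ s = 5 ∨ s = 7) (G : ℕ → ℂ → ℂ)
    (hd : ∀ n (y : ℝ), HasDerivAt (G n) (G (n + 1) (zpt 0 y)) (zpt 0 y))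
    (hb : ∀ n, ∃ C : ℝ, ∀ y : ℝ, ‖G n (zpt 0 y)‖ ≤ C * Real.exp |y|) :
    ∫ y : ℝ, G 0 (zpt 0 y) * oms s y =
      -(1 / ((s - 1).factorial : ℂ)) * ∫ y : ℝ, G (s - 2) (zpt 0 y) * om 1 0 y := by
  have h1 : ∀ y : ℝ, G 0 (zpt 0 y) * oms s y =
      -(Complex.I ^ (s - 2) * (Real.pi / 2) / ((s - 1).factorial : ℂ)) *
        (G 0 (zpt 0 y) * (wk (s - 2) y : ℂ)) := fun y => by
    rw [oms_eq s hs]; ring
  have h2 : ∀ y : ℝ, G (s - 2) (zpt 0 y) * om 1 0 y =
      (Real.pi / 2 : ℂ) * (G (s - 2) (zpt 0 y) * (wk 0 y : ℂ)) := fun y => by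
    rw [om_eq]; ring
  simp only [h1, h2]
  rw [integral_const_mul, integral_const_mul, by_parts G hd hb, zero_add]
  have h3 : Complex.I ^ (s - 2) * (-Complex.I) ^ (s - 2) = 1 := by
    rw [← mul_pow]; simp
  linear_combination (-(Real.pi / 2 : ℂ) / ((s - 1).factorial : ℂ) *
    ∫ y : ℝ, G (s - 2) (zpt 0 y) * (wk 0 y : ℂ)) * h3

theorem norm_le_exp (z : ℂ) (hz : |z.re| ≤ 1 / 2) :
    ‖z‖ ≤ Real.exp |z.im| ∧ ‖z‖ ^ 2 ≤ 4 * Real.exp |z.im| := by
  have h1 := Complex.norm_le_abs_re_add_abs_im z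
  have h2 := Real.add_one_le_exp |z.im|
  have h3 := Real.quadratic_le_exp_of_nonneg (abs_nonneg z.im)
  have h4 := norm_nonneg z
  have h5 := abs_nonneg z.im
  refine ⟨by linarith, ?_⟩
  have h6 : ‖z‖ ^ 2 ≤ (1 / 2 + |z.im|) ^ 2 := pow_le_pow_left₀ h4 (by linarith) 2
  nlinarith

/-- The shift of the line for a holomorphic function. -/
theorem shift_one (F : ℂ → ℂ) (hd : DifferentiableOn ℂ F {z | |z.re| ≤ 1 / 2}) (C : ℝ)
    (hb : ∀ z : ℂ, |z.re| ≤ 1 / 2 → ‖F z‖ ≤ C * Real.exp |z.im|) :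
    (∫ y : ℝ, F (zpt 0 y + 1) * om 1 0 y) - ∫ y : ℝ, F (zpt 0 y) * om 1 0 y = deriv F 0 := by
  have hn : {z : ℂ | |z.re| ≤ 1 / 2} ∈ 𝓝 (0 : ℂ) := by
    refine mem_of_superset (Metric.ball_mem_nhds 0 (show (0 : ℝ) < 1 / 2 by norm_num)) fun z hz => ?_
    rw [mem_ball_zero_iff] at hz
    exact (Complex.abs_re_le_norm z).trans hz.le
  have hd1 := (Complex.differentiableOn_dslope hn).2 hd
  have hd2 := (Complex.differentiableOn_dslope hn).2 hd1
  have hd3 := (Complex.differentiableOn_dslope hn).2 hd2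
  set F1 := dslope F 0 with hF1
  set F2 := dslope F1 0 with hF2
  set F3 := dslope F2 0 with hF3
  have hc1 : F1 0 = deriv F 0 := dslope_same F 0
  have e : ∀ z : ℂ, z ^ 3 * F3 z = F z - (F 0 + F1 0 * z + F2 0 * z ^ 2) := by
    intro z
    have h1 := sub_smul_dslope F 0 z
    have h2 := sub_smul_dslope F1 0 z
    have h3 := sub_smul_dslope F2 0 z
    simp only [sub_zero, smul_eq_mul, ← hF1, ← hF2, ← hF3] at h1 h2 h3
    linear_combination h1 + z * h2 + z ^ 2 * h3
  have hq : ∀ z : ℂ, |z.re| ≤ 1 / 2 → ‖F 0 + F1 0 * z + F2 0 * z ^ 2‖ ≤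
      (‖F 0‖ + ‖F1 0‖ + ‖F2 0‖ * 4) * Real.exp |z.im| := by
    intro z hz
    obtain ⟨h1, h2⟩ := norm_le_exp z hz
    have h3 := one_le_exp_abs z.im
    refine (norm_add₃_le).trans ?_
    rw [norm_mul, norm_mul, norm_pow]
    have h4 := mul_le_mul_of_nonneg_left h1 (norm_nonneg (F1 0))
    have h5 := mul_le_mul_of_nonneg_left h2 (norm_nonneg (F2 0))
    have h6 := mul_le_mul_of_nonneg_left h3 (norm_nonneg (F 0))
    linarith
  have key := shift 1 0 F3 hd3 (C + (‖F 0‖ + ‖F1 0‖ + ‖F2 0‖ * 4)) fun z hz => by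
    rw [e]
    refine (norm_sub_le _ _).trans ?_
    have := hb z hz
    have := hq z hz
    linarith
  have e1 : ∀ y : ℝ, (1 / 2 : ℂ) + y * Complex.I = zpt 0 y + 1 := by
    intro y; unfold zpt; push_cast; ring
  have e2 : ∀ y : ℝ, (-1 / 2 : ℂ) + y * Complex.I = zpt 0 y := by
    intro y; unfold zpt; push_cast; ring
  simp only [e, e1, e2, sub_mul] at key
  have hz0 := continuous_zpt 0
  have r1 : ∀ y : ℝ, |(zpt 0 y + 1).re| ≤ 1 / 2 := fun y => by
    rw [Complex.add_re, zpt_re]; norm_num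
  have r0 : ∀ y : ℝ, |(zpt 0 y).re| ≤ 1 / 2 := fun y => by
    rw [zpt_re]; norm_num
  have i1 : ∀ y : ℝ, (zpt 0 y + 1).im = y := fun y => by
    rw [Complex.add_im, zpt_im]; simp
  have hF1i : Integrable fun y : ℝ => F (zpt 0 y + 1) * om 1 0 y :=
    integrable_om 1 0 _ (hd.continuousOn.comp_continuous (by fun_prop) r1) C fun y => by
      have := hb _ (r1 y)
      rwa [i1] at this
  have hF0i : Integrable fun y : ℝ => F (zpt 0 y) * om 1 0 y :=
    integrable_om 1 0 _ (hd.continuousOn.comp_continuous hz0 r0) C fun y => by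
      have := hb _ (r0 y)
      rwa [zpt_im] at this
  have hq1 : Integrable fun y : ℝ =>
      (F 0 + F1 0 * (zpt 0 y + 1) + F2 0 * (zpt 0 y + 1) ^ 2) * om 1 0 y :=
    integrable_om 1 0 _ (by fun_prop) _ fun y => by
      have := hq _ (r1 y)
      rwa [i1] at this
  have hq0 : Integrable fun y : ℝ =>
      (F 0 + F1 0 * zpt 0 y + F2 0 * zpt 0 y ^ 2) * om 1 0 y :=
    integrable_om 1 0 _ (by fun_prop) _ fun y => by
      have := hq _ (r0 y)
      rwa [zpt_im] at this
  rw [integral_sub hF1i hq1, integral_sub hF0i hq0] at key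
  have h3 : (∫ y : ℝ, (F 0 + F1 0 * (zpt 0 y + 1) + F2 0 * (zpt 0 y + 1) ^ 2) * om 1 0 y) -
      ∫ y : ℝ, (F 0 + F1 0 * zpt 0 y + F2 0 * zpt 0 y ^ 2) * om 1 0 y = F1 0 := by
    rw [← integral_sub hq1 hq0]
    have e3 : ∀ y : ℝ, (F 0 + F1 0 * (zpt 0 y + 1) + F2 0 * (zpt 0 y + 1) ^ 2) * om 1 0 y -
        (F 0 + F1 0 * zpt 0 y + F2 0 * zpt 0 y ^ 2) * om 1 0 y =
        F1 0 * om 1 0 y + F2 0 * ((2 * (y : ℂ) * Complex.I) * om 1 0 y) := by
      intro y
      unfold zpt
      push_cast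
      ring
    simp only [e3]
    rw [integral_add ((integrable_om_one 1 0).const_mul _) ((integrable_om_lin 1 0).const_mul _),
      integral_const_mul, integral_const_mul, integral_om, integral_mul_om]
    simp
  rw [← hc1]
  linear_combination key + h3

theorem iterate_diff (S : ℚ[X]) (n : ℕ) :
    derivative^[n] (S.comp (X + 1) - S) = (derivative^[n] S).comp (X + 1) - derivative^[n] S := by
  induction n with
  | zero => rfl
  | succ n ih =>
    rw [Function.iterate_succ_apply', Function.iterate_succ_apply', ih, derivative_sub,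
      derivative_comp]
    simp

/-- The integrals of the powers of a pole against the basic kernel. -/
noncomputable def fp (k j : ℕ) : ℂ := ∫ y : ℝ, 1 / (zpt 0 y + j + 1) ^ k * om 1 0 y

theorem fp_succ (k j : ℕ) : fp k (j + 1) - fp k j = -(k : ℂ) / ((j : ℂ) + 1) ^ (k + 1) := by
  have hne : ∀ z : ℂ, |z.re| ≤ 1 / 2 → 1 / 2 ≤ ‖z + j + 1‖ := fun z hz => by
    have h1 := half_le_norm z (by linarith [(abs_le.1 hz).1]) j
    have : (0 : ℝ) ≤ j := by positivity
    linarith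
  have hne' : ∀ z : ℂ, |z.re| ≤ 1 / 2 → z + j + 1 ≠ 0 := fun z hz h => by
    have := hne z hz
    rw [h, norm_zero] at this
    norm_num at this
  have h := shift_one (fun z => 1 / (z + j + 1) ^ k)
    (DifferentiableOn.div (by fun_prop) (by fun_prop) fun z hz => pow_ne_zero _ (hne' z hz))
    (1 / (1 / 2) ^ k) fun z hz => by
      rw [norm_div, norm_one, norm_pow]
      have h1 : 1 / ‖z + j + 1‖ ^ k ≤ 1 / (1 / 2) ^ k :=
        one_div_le_one_div_of_le (by positivity) (pow_le_pow_left₀ (by norm_num) (hne z hz) k)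
      exact h1.trans (le_mul_of_one_le_right (by positivity) (one_le_exp_abs _))
  have hj : (0 : ℂ) + j + 1 ≠ 0 := hne' 0 (by simp)
  have hder : HasDerivAt (fun z : ℂ => 1 / (z + j + 1) ^ k)
      (-(k : ℂ) / ((j : ℂ) + 1) ^ (k + 1)) 0 := by
    have h1 : HasDerivAt (fun z : ℂ => z + j + 1) 1 0 :=
      ((hasDerivAt_id (0 : ℂ)).add_const _).add_const _
    have h2 := (hasDerivAt_zpow (-(k : ℤ)) ((0 : ℂ) + j + 1) (Or.inl hj)).comp (0 : ℂ) h1
    have h3 : (fun z : ℂ => 1 / (z + j + 1) ^ k) =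
        (fun x : ℂ => x ^ (-(k : ℤ))) ∘ fun z : ℂ => z + j + 1 := by
      funext z
      simp
    rw [h3]
    refine h2.congr_deriv ?_
    rw [zero_add, show -(k : ℤ) - 1 = -((k + 1 : ℕ) : ℤ) by push_cast; ring, zpow_neg, zpow_natCast]
    push_cast
    ring
  rw [hder.deriv] at h
  rw [← h]
  unfold fp
  congr 1
  refine integral_congr_ae (Eventually.of_forall fun y => ?_)
  push_cast
  ring

theorem fp_sub (k j : ℕ) : fp k j = fp k 0 - k * (H (k + 1) j : ℂ) := by
  induction j with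
  | zero => simp [H]
  | succ j ih =>
    have h := fp_succ k j
    unfold H at ih ⊢
    rw [sum_range_succ]
    push_cast at ih ⊢
    linear_combination h + ih

theorem tendsto_fp (k : ℕ) (hk : 1 ≤ k) : Tendsto (fun j => fp k j) atTop (𝓝 0) := by
  have hi := (integrable_om_one 1 0).norm
  have hb : ∀ᶠ j : ℕ in atTop,
      ‖fp k j‖ ≤ (∫ y, ‖om 1 0 y‖) * (2 * (1 / ((j : ℝ) + 1))) := by
    filter_upwards [eventually_ge_atTop 1] with j hj
    rw [fp, ← integral_mul_const]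
    refine norm_integral_le_of_norm_le (hi.mul_const _) (Eventually.of_forall fun y => ?_)
    rw [norm_mul, mul_comm]
    refine mul_le_mul_of_nonneg_left ?_ (norm_nonneg _)
    have h1 := half_le_norm (zpt 0 y) (le_zpt_re 0 y) j
    have hj1 : (1 : ℝ) ≤ j := by exact_mod_cast hj
    have h2 : ‖zpt 0 y + j + 1‖ ≤ ‖zpt 0 y + j + 1‖ ^ k :=
      le_self_pow₀ (by linarith) (by omega)
    rw [norm_div, norm_one, norm_pow, mul_one_div, div_le_div_iff₀ (by linarith) (by positivity)]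
    linarith
  refine squeeze_zero_norm' hb ?_
  simpa using (tendsto_one_div_add_atTop_nhds_zero_nat.const_mul 2).const_mul (∫ y, ‖om 1 0 y‖)

theorem fp_eq (k : ℕ) (hk : 1 ≤ k) (j : ℕ) :
    fp k j = k * (riemannZeta ((k + 1 : ℕ) : ℂ) - (H (k + 1) j : ℂ)) := by
  have h1 := (tendsto_const_nhds (x := fp k 0)).sub
    ((tendsto_H (k + 1) (by omega)).const_mul (k : ℂ))
  simp only [← fp_sub] at h1
  have h2 := tendsto_nhds_unique h1 (tendsto_fp k hk)
  rw [fp_sub]
  linear_combination h2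

theorem pole_neg (s : ℕ) (hs : s = 3 ∨ s = 5 ∨ s = 7) (j : ℕ) :
    ∫ y : ℝ, 1 / (zpt 0 y + j + 1) * oms s y = riemannZeta s - (H s j : ℂ) := by
  have hne : ∀ y : ℝ, 1 / 2 ≤ ‖zpt 0 y + j + 1‖ := fun y => by
    have h1 := half_le_norm _ (le_zpt_re 0 y) j
    have : (0 : ℝ) ≤ j := by positivity
    linarith
  have hne' : ∀ y : ℝ, zpt 0 y + j + 1 ≠ 0 := fun y h => by
    have := hne y
    rw [h, norm_zero] at this
    norm_num at this
  have h := oms_reduce s hs (fun n z => (-1) ^ n * (n.factorial : ℂ) * (1 / (z + j + 1) ^ (n + 1)))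
    (fun n y => by
      have h1 : HasDerivAt (fun z : ℂ => z + j + 1) 1 (zpt 0 y) :=
        ((hasDerivAt_id (zpt 0 y)).add_const _).add_const _
      have h2 := (hasDerivAt_zpow (-((n + 1 : ℕ) : ℤ)) (zpt 0 y + j + 1)
        (Or.inl (hne' y))).comp (zpt 0 y) h1
      have h3 : (fun z : ℂ => 1 / (z + j + 1) ^ (n + 1)) =
          (fun x : ℂ => x ^ (-((n + 1 : ℕ) : ℤ))) ∘ fun z : ℂ => z + j + 1 := by
        funext z
        simp only [Function.comp, zpow_neg, zpow_natCast, one_div]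
      rw [← h3] at h2
      refine (h2.const_mul ((-1) ^ n * (n.factorial : ℂ))).congr_deriv ?_
      rw [show -((n + 1 : ℕ) : ℤ) - 1 = -((n + 1 + 1 : ℕ) : ℤ) by push_cast; ring, zpow_neg,
        zpow_natCast, Nat.factorial_succ]
      push_cast
      ring)
    (fun n => ⟨n.factorial * (1 / (1 / 2) ^ (n + 1)), fun y => by
      rw [norm_mul, norm_mul, norm_pow, norm_neg, norm_one, one_pow, one_mul, Complex.norm_natCast,
        norm_div, norm_one, norm_pow, mul_assoc]
      refine mul_le_mul_of_nonneg_left ?_ (by positivity)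
      have h1 : 1 / ‖zpt 0 y + j + 1‖ ^ (n + 1) ≤ 1 / (1 / 2) ^ (n + 1) :=
        one_div_le_one_div_of_le (by positivity) (pow_le_pow_left₀ (by norm_num) (hne y) _)
      exact h1.trans (le_mul_of_one_le_right (by positivity) (one_le_exp_abs _))⟩)
  simp only [pow_zero, Nat.factorial_zero, Nat.cast_one, one_mul, zero_add, pow_one, mul_assoc,
    integral_const_mul] at h
  rw [h]
  have h2 := fp_eq (s - 2 + 1) (by omega) j
  unfold fp at h2
  rw [h2]
  rcases hs with rfl | rfl | rfl <;>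
  · simp only [Nat.reduceSub, Nat.reduceAdd, Nat.factorial]
    push_cast
    ring

theorem oms_neg (s : ℕ) (y : ℝ) : oms s (-y) = -oms s y := by
  unfold oms
  rw [sh_neg, th_neg]
  push_cast
  ring

end Integral1

theorem integrable_oms (s : ℕ) (g : ℝ → ℂ) (hg : Continuous g) (C : ℝ)
    (h : ∀ y, ‖g y‖ ≤ C * Real.exp |y|) : Integrable fun y => g y * oms s y := by
  have hq : Continuous (qs s) := by
    unfold qs
    split_ifs <;> fun_prop
  have h1 := Integral1.integrable_ker (fun t => Real.pi ^ 2 * t * qs s (1 - t ^ 2)) (by fun_prop)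
    g hg C h
  refine (h1.const_mul Complex.I).congr (Eventually.of_forall fun y => ?_)
  simp only [oms, ← Z23.Integral.sh_eq]
  push_cast
  ring

theorem oms_poly (s : ℕ) (hs : s = 3 ∨ s = 5 ∨ s = 7) (Q : ℚ[X]) :
    ∫ y : ℝ, aeval (zpt 0 y) Q * oms s y = (lp (s - 1) Q : ℂ) := by
  obtain ⟨S, rfl⟩ := Z23.Integral.exists_diff Q
  have h := Integral1.oms_reduce s hs (fun n z => aeval z (derivative^[n] (S.comp (X + 1) - S)))
    (fun n y => by
      rw [Function.iterate_succ_apply']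
      exact Polynomial.hasDerivAt_aeval _ _)
    (fun n => by
      obtain ⟨C, -, hC⟩ := Z23.Integral.poly_le (derivative^[n] (S.comp (X + 1) - S)) 1
      refine ⟨C, fun y => ?_⟩
      have := hC (zpt 0 y) (by rw [Z23.Integral.zpt_re]; norm_num [abs_le])
      rwa [Z23.Integral.zpt_im] at this)
  simp only [Function.iterate_zero, id] at h
  have h2 := Z23.Integral.Lam_poly 1 0 (derivative^[s - 2] (S.comp (X + 1) - S))
  unfold Z23.Integral.Lam at h2
  simp only [Z23.D, range_zero, prod_empty, map_one, div_one, Rat.cast_one, Rat.cast_zero] at h2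
  rw [h, h2, Integral1.iterate_diff, Z23.Lpoly_diff, lp_diff _ (by omega),
    coeff_iterate_derivative]
  rcases hs with rfl | rfl | rfl <;>
  · simp only [Nat.reduceSub, Nat.reduceAdd, Nat.factorial, Nat.descFactorial, nsmul_eq_mul]
    push_cast
    ring

theorem oms_pole (s : ℕ) (hs : s = 3 ∨ s = 5 ∨ s = 7) (i : ℤ) :
    ∫ y : ℝ, 1 / (zpt 0 y - i) * oms s y = riemannZeta s - (hz s i : ℂ) := by
  unfold hz
  split_ifs with hi
  · obtain ⟨j, rfl⟩ := Int.eq_ofNat_of_zero_le hi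
    rw [Int.toNat_natCast, ← Integral1.pole_neg s hs j, ← integral_neg_eq_self]
    refine integral_congr_ae (Eventually.of_forall fun y => ?_)
    have e : zpt 0 (-y) - ((j : ℤ) : ℂ) = -(zpt 0 y + j + 1) := by
      unfold zpt; push_cast; ring
    simp only [e, Integral1.oms_neg, one_div, inv_neg, neg_mul_neg]
  · obtain ⟨j, hj⟩ := Int.eq_ofNat_of_zero_le (show 0 ≤ -1 - i by omega)
    rw [hj, Int.toNat_natCast, ← Integral1.pole_neg s hs j]
    refine integral_congr_ae (Eventually.of_forall fun y => ?_)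
    have e : zpt 0 y - (i : ℂ) = zpt 0 y + j + 1 := by
      rw [show i = -1 - (j : ℤ) by omega]; push_cast; ring
    simp only [e]

end Pool.Agent.P.MP_a89d6d_nt.Z57
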