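import Pool.Agent.P.MP_a89d6d_nt.Z57.Local

/-!
Norms of the functionals on polynomials with integer coefficients.
-/

namespace Pool.Agent.P.MP_a89d6d_nt.Z57

open Polynomial Finset Filter MeasureTheory
open Pool.Agent.P.MP_a89d6d_nt.Z23 (H W nc ach ff zpt)
open Pool.Agent.P.MP_a89d6d_nt.Z23.Large (IsZ)

namespace LocalInt

open Z23.Large

theorem peel (p : ℕ) [Fact p.Prime] (k : ℕ) (E : ℝ) (hE : 0 ≤ E) : ∀ (M : ℕ) (Q : ℚ[X]), IsZ Q →
    Q.degree < M → (∀ m < M, nr p (lp k (W m)) ≤ E) → nr p (lp k Q) ≤ E := by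
  intro M
  induction M with
  | zero =>
    intro Q _ hd _
    have : Q = 0 := by
      rw [← Polynomial.degree_eq_bot]
      simpa using hd
    subst this
    simpa [nr] using hE
  | succ M ih =>
    intro Q hQ hd hM
    obtain ⟨z, hz⟩ := hQ.coeff M
    have hW : (W M).degree = M := by
      rw [Polynomial.degree_eq_natDegree (Z23.W_monic M).ne_zero, Z23.W_natDegree]
    have hWc : (W M).coeff M = 1 := by
      have := (Z23.W_monic M).coeff_natDegree
      rwa [Z23.W_natDegree] at this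
    have hR : (Q - C (z : ℚ) * W M).degree < M := by
      rw [Polynomial.degree_lt_iff_coeff_zero]
      intro k hk
      rw [Polynomial.coeff_sub, Polynomial.coeff_C_mul]
      rcases hk.eq_or_lt with rfl | hk'
      · rw [hz, hWc]
        simp
      · have h1 : Q.coeff k = 0 :=
          Polynomial.coeff_eq_zero_of_degree_lt (hd.trans_le (by exact_mod_cast hk'))
        have h2 : (W M).coeff k = 0 :=
          Polynomial.coeff_eq_zero_of_degree_lt (by rw [hW]; exact_mod_cast hk')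
        rw [h1, h2]
        simp
    have h1 := ih _ (hQ.sub ((isZ_C z).mul (isZ_W M))) hR fun m hm => hM m (by omega)
    have h2 : lp k Q = lp k (Q - C (z : ℚ) * W M) + (z : ℚ) * lp k (W M) := by
      rw [map_sub, ← Polynomial.smul_eq_C_mul, map_smul, smul_eq_mul]
      ring
    rw [h2]
    refine norm_add_le p _ _ _ h1 ?_
    rw [Rat.cast_mul, norm_mul]
    calc _ ≤ 1 * E :=
          mul_le_mul (norm_int_le p _) (hM M (Nat.lt_succ_self M)) (norm_nonneg _) zero_le_one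
      _ = _ := one_mul _

theorem nr_mul (p : ℕ) [Fact p.Prime] (u v : ℚ) : nr p (u * v) = nr p u * nr p v := by
  rw [nr, Rat.cast_mul, norm_mul]

theorem nr_neg (p : ℕ) [Fact p.Prime] (u : ℚ) : nr p (-u) = nr p u := by
  rw [nr, Rat.cast_neg, norm_neg]

theorem nr_inv_int (p : ℕ) [Fact p.Prime] (z : ℤ) (h : ¬ (p : ℤ) ∣ z) : nr p ((z : ℚ)⁻¹) ≤ 1 := by
  have := Z23.Local.norm_inv_int_le p z 0 (by simpa using h)
  simpa [nr] using this

theorem nr_p (p : ℕ) [Fact p.Prime] : nr p (p : ℚ) = (p : ℝ)⁻¹ := by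
  simp [nr]

theorem nr_inv_p (p : ℕ) [Fact p.Prime] : nr p ((p : ℚ)⁻¹) = p := by
  simp [nr]

theorem W_coeff_dvd (p : ℕ) [hp : Fact p.Prime] (k : ℕ) (hk : 2 ≤ k) (hkp : k < p) :
    ∃ z : ℤ, (W p).coeff k = p * z := by
  set V : ℤ[X] := ∏ i ∈ range p, (X - C (i : ℤ)) with hV
  have h1 : W p = V.map (Int.castRingHom ℚ) := by
    simp [W, hV, Polynomial.map_prod]
  have h2 : V.map (Int.castRingHom (ZMod p)) = X ^ p - X := by
    have hm : (X ^ p - X : (ZMod p)[X]).Monic :=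
      monic_X_pow_sub (by rw [degree_X]; exact_mod_cast hp.out.one_lt)
    have hr := FiniteField.roots_X_pow_card_sub_X (ZMod p)
    rw [ZMod.card] at hr
    have h3 := prod_multiset_X_sub_C_of_monic_of_roots_card_eq hm (by
      rw [hr, FiniteField.X_pow_card_sub_X_natDegree_eq _ hp.out.one_lt]
      simp)
    rw [← h3, hr]
    have h4 : V.map (Int.castRingHom (ZMod p)) = ∏ i ∈ range p, (X - C (i : ZMod p)) := by
      simp [hV, Polynomial.map_prod]
    rw [h4]
    change _ = ∏ a : ZMod p, (X - C a)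
    refine Finset.prod_nbij (fun i : ℕ => (i : ZMod p)) (fun _ _ => mem_univ _) ?_ ?_
      fun _ _ => rfl
    · intro i hi j hj hij
      have hi' : i < p := by simpa using hi
      have hj' : j < p := by simpa using hj
      have := congrArg ZMod.val hij
      simpa [ZMod.val_natCast, Nat.mod_eq_of_lt hi', Nat.mod_eq_of_lt hj'] using this
    · intro a _
      exact ⟨a.val, by simpa using ZMod.val_lt a, by simp⟩
  have h5 : ((V.coeff k : ℤ) : ZMod p) = 0 := by
    have := congrArg (fun Q => Polynomial.coeff Q k) h2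
    simp only [coeff_map, coeff_sub, coeff_X_pow, coeff_X] at this
    rw [if_neg (by omega), if_neg (by omega)] at this
    simpa using this
  obtain ⟨z, hz⟩ := (ZMod.intCast_zmod_eq_zero_iff_dvd _ _).1 h5
  refine ⟨z, ?_⟩
  rw [h1, coeff_map, hz]
  simp

theorem H_step (p : ℕ) [hp : Fact p.Prime] (s : ℕ) (hso : Odd s) : ∀ c : ℕ, c + 1 ≤ p →
    nr p ((H s (p - 1 - c) - H s c) - (H s (p - 1) - H s 0)) ≤ (p : ℝ)⁻¹ := by
  intro c
  induction c with
  | zero => intro _; simp [nr]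
  | succ c ih =>
    intro hc
    obtain ⟨b, hb⟩ : ∃ b, p = c + 1 + (b + 1) := ⟨p - c - 2, by omega⟩
    have e1 : p - 1 - c = b + 1 := by omega
    have e2 : p - 1 - (c + 1) = b := by omega
    have h0 := ih (by omega)
    rw [e1] at h0
    rw [e2]
    obtain ⟨z, hz⟩ := hso.add_dvd_pow_add_pow ((c : ℤ) + 1) ((b : ℤ) + 1)
    have hz' : ((c : ℚ) + 1) ^ s + ((b : ℚ) + 1) ^ s = p * z := by
      rw [hb]; exact_mod_cast hz
    have e : H s b - H s (c + 1) - (H s (p - 1) - H s 0) =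
        (H s (b + 1) - H s c - (H s (p - 1) - H s 0)) -
          (p : ℚ) * ((z : ℚ) * (((((c : ℤ) + 1) ^ s * ((b : ℤ) + 1) ^ s : ℤ) : ℚ))⁻¹) := by
      rw [← mul_assoc, ← hz']
      simp only [H, sum_range_succ]
      push_cast
      field_simp
      ring
    rw [e]
    refine norm_sub_le' p _ _ _ h0 ?_
    have hpz : Prime (p : ℤ) := Nat.prime_iff_prime_int.1 hp.out
    have hn : ¬ (p : ℤ) ∣ ((c : ℤ) + 1) ^ s * ((b : ℤ) + 1) ^ s := by
      intro h
      rcases hpz.dvd_or_dvd h with h | h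
      · have := Int.le_of_dvd (by positivity) (hpz.dvd_of_dvd_pow h)
        omega
      · have := Int.le_of_dvd (by positivity) (hpz.dvd_of_dvd_pow h)
        omega
    change nr p _ ≤ _
    rw [nr_mul, nr_mul, nr_p]
    refine mul_le_of_le_one_right (by positivity) ?_
    exact mul_le_one₀ (norm_int_le p z) (norm_nonneg _) (nr_inv_int p _ hn)

theorem H_sym (p : ℕ) [hp : Fact p.Prime] (h3 : 3 ≤ p) (s : ℕ) (hso : Odd s) (c : ℕ)
    (hc : c < p) : nr p (H s (p - 1 - c) - H s c) ≤ (p : ℝ)⁻¹ := by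
  obtain ⟨m, hm⟩ := hp.out.odd_of_ne_two (by omega)
  have h1 := H_step p s hso c hc
  have h2 := H_step p s hso m (by omega)
  rw [show p - 1 - m = m by omega] at h2
  have := norm_sub_le' p _ _ _ h1 h2
  rwa [show H s (p - 1 - c) - H s c - (H s (p - 1) - H s 0) -
    (H s m - H s m - (H s (p - 1) - H s 0)) = H s (p - 1 - c) - H s c by ring] at this

theorem sum_SK (p : ℕ) (F : ℤ → ℚ) :
    ∑ i ∈ SK p, F i = ∑ c ∈ range p, (F c + F (c - p)) := by
  have h : SK p = (range p).image (fun c : ℕ => (c : ℤ)) ∪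
      (range p).image (fun c : ℕ => (c : ℤ) - p) := by
    ext i
    simp only [SK, mem_Ico, mem_union, mem_image, mem_range]
    constructor
    · rintro ⟨h1, h2⟩
      by_cases h : 0 ≤ i
      · exact Or.inl ⟨i.toNat, by omega, by omega⟩
      · exact Or.inr ⟨(i + p).toNat, by omega, by omega⟩
    · rintro (⟨c, h1, h2⟩ | ⟨c, h1, h2⟩) <;> omega
  rw [h, sum_union, sum_image, sum_image, sum_add_distrib]
  · intro a _ b _ hab
    have : (a : ℤ) - p = b - p := hab
    omega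
  · intro a _ b _ hab
    have : (a : ℤ) = b := hab
    omega
  · rw [disjoint_left]
    intro i h1 h2
    simp only [mem_image, mem_range] at h1 h2
    obtain ⟨c, h1, h1'⟩ := h1
    obtain ⟨d, h2, h2'⟩ := h2
    omega

theorem pair (p : ℕ) [hp : Fact p.Prime] (s : ℕ) (h3 : 3 ≤ p) (hso : Odd s) (N : ℚ[X])
    (hZ : IsZ N) (c : ℕ) (hc : c < p) :
    nr p (res (SK p) N c * hz s c + res (SK p) N (c - p) * hz s (c - p)) ≤ 1 := by
  have hpz : Prime (p : ℤ) := Nat.prime_iff_prime_int.1 hp.out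
  obtain ⟨N0, hN0⟩ := (Polynomial.mem_lifts _).1 hZ
  have hev : ∀ y : ℤ, N.eval (y : ℚ) = ((N0.eval y : ℤ) : ℚ) := fun y => by
    rw [← hN0]; exact Polynomial.eval_intCast_map (Int.castRingHom ℚ) N0 y
  set T := ((SK p).erase (c : ℤ)).erase ((c : ℤ) - p) with hT
  have hTm : ∀ j ∈ T, ¬ (p : ℤ) ∣ c - j := by
    intro j hj ⟨t, ht⟩
    simp only [hT, mem_erase, SK, mem_Ico] at hj
    obtain ⟨h1, h2, h4, h5⟩ := hj
    have a1 : -1 < t := by nlinarith
    have a2 : t < 2 := by nlinarith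
    have : t = 0 ∨ t = 1 := by omega
    rcases this with rfl | rfl <;> omega
  set R : ℤ := ∏ j ∈ T, ((c : ℤ) - j) with hR
  set R' : ℤ := ∏ j ∈ T, ((c : ℤ) - p - j) with hR'
  have hRn : ¬ (p : ℤ) ∣ R := by
    rw [hR, hpz.dvd_finsetProd_iff]
    rintro ⟨j, hj, h⟩
    exact hTm j hj h
  have hRn' : ¬ (p : ℤ) ∣ R' := by
    rw [hR', hpz.dvd_finsetProd_iff]
    rintro ⟨j, hj, h⟩
    refine hTm j hj ?_
    have := dvd_add h (dvd_refl (p : ℤ))
    rwa [show (c : ℤ) - p - j + p = c - j by ring] at this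
  have hRR : R' ≡ R [ZMOD p] := by
    refine Int.ModEq.prod fun j _ => ?_
    rw [Int.modEq_iff_dvd]
    exact ⟨1, by ring⟩
  have haa : N0.eval ((c : ℤ) - p) ≡ N0.eval (c : ℤ) [ZMOD p] := by
    rw [Int.modEq_iff_dvd]
    have := Polynomial.sub_dvd_eval_sub (c : ℤ) ((c : ℤ) - p) N0
    rwa [show (c : ℤ) - (c - p) = p by ring] at this
  set a := N0.eval (c : ℤ)
  set a' := N0.eval ((c : ℤ) - p)
  obtain ⟨z, hz0⟩ := Int.modEq_iff_dvd.1 (haa.mul hRR.symm)
  have hp0 : (p : ℚ) ≠ 0 := by exact_mod_cast hp.out.ne_zero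
  have hR0 : (R : ℚ) ≠ 0 := by
    have : R ≠ 0 := fun h => hRn (h ▸ dvd_zero _)
    exact_mod_cast this
  have hR0' : (R' : ℚ) ≠ 0 := by
    have : R' ≠ 0 := fun h => hRn' (h ▸ dvd_zero _)
    exact_mod_cast this
  have r1 : res (SK p) N c = a / (p * R) := by
    rw [res, hev, ← mul_prod_erase _ _ (a := (c : ℤ) - p)
      (by simp only [mem_erase, SK, mem_Ico]; omega), ← hT, hR]
    push_cast
    ring
  have r2 : res (SK p) N (c - p) = -(a' / (p * R')) := by
    rw [res, hev, ← mul_prod_erase _ _ (a := (c : ℤ))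
      (by simp only [mem_erase, SK, mem_Ico]; omega), erase_right_comm, ← hT, hR']
    push_cast
    rw [show (c : ℚ) - p - c = -p by ring, neg_mul, div_neg]
  have z1 : hz s c = H s c := by simp [hz]
  have z2 : hz s (c - p) = H s (p - 1 - c) := by
    rw [hz, if_neg (by omega)]
    congr 1
    omega
  have hz1 : (a : ℚ) * R' - a' * R = p * z := by exact_mod_cast hz0
  have e : res (SK p) N c * hz s c + res (SK p) N (c - p) * hz s (c - p) =
      (z : ℚ) * ((R : ℚ)⁻¹ * ((R' : ℚ)⁻¹ * H s c)) -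
        (a' : ℚ) * ((R' : ℚ)⁻¹ * ((p : ℚ)⁻¹ * (H s (p - 1 - c) - H s c))) := by
    have : (z : ℚ) = (a * R' - a' * R) / p := by rw [hz1]; field_simp
    rw [r1, r2, z1, z2, this]
    field_simp
    ring
  rw [e]
  have hH : nr p (H s c) ≤ 1 := by
    have := Z23.norm_H_le p s c c le_rfl
    rwa [Nat.log_of_lt hc, mul_zero, pow_zero] at this
  refine norm_sub_le' p _ _ _ ?_ ?_
  · change nr p _ ≤ _
    rw [nr_mul, nr_mul, nr_mul]
    exact mul_le_one₀ (norm_int_le p z) (by positivity) (mul_le_one₀ (nr_inv_int p _ hRn)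
      (by positivity) (mul_le_one₀ (nr_inv_int p _ hRn') (by positivity) hH))
  · change nr p _ ≤ _
    rw [nr_mul, nr_mul, nr_mul, nr_inv_p]
    refine mul_le_one₀ (norm_int_le p _) (by positivity) (mul_le_one₀ (nr_inv_int p _ hRn')
      (by positivity) ?_)
    have hp1 : (0 : ℝ) < p := by exact_mod_cast hp.out.pos
    calc _ ≤ (p : ℝ) * (p : ℝ)⁻¹ := mul_le_mul_of_nonneg_left (H_sym p h3 s hso c hc) hp1.le
      _ = 1 := mul_inv_cancel₀ hp1.ne'

end LocalInt

open LocalInt Z23.Large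

theorem norm_lp_int (p : ℕ) [Fact p.Prime] (k : ℕ) (hk : 1 ≤ k) (Q : ℚ[X]) (hQ : IsZ Q)
    (h : Q.natDegree + 1 < p ^ 2) : nr p (lp k Q) ≤ p := by
  refine peel p k p (Nat.cast_nonneg p) (Q.natDegree + 1) Q hQ
    (degree_le_natDegree.trans_lt (by exact_mod_cast Nat.lt_succ_self _)) fun m hm => ?_
  obtain ⟨z, hz⟩ := (isZ_W (m + 1)).coeff k
  rw [lp_W k m hk, nr_neg, hz, div_eq_mul_inv, nr_mul]
  have := norm_inv_nat p (m + 1) 1 (Nat.succ_pos m) (show m + 1 < p ^ 2 by omega)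
  calc _ ≤ 1 * (p : ℝ) := by
        refine mul_le_mul (norm_int_le p _) ?_ (norm_nonneg _) zero_le_one
        simpa [nr] using this
    _ = _ := one_mul _

theorem norm_lp_int' (p : ℕ) [Fact p.Prime] (k : ℕ) (hk : 2 ≤ k) (hkp : k < p) (Q : ℚ[X])
    (hQ : IsZ Q) (h : Q.natDegree + 1 < 2 * p) : nr p (lp k Q) ≤ 1 := by
  refine peel p k 1 zero_le_one (Q.natDegree + 1) Q hQ
    (degree_le_natDegree.trans_lt (by exact_mod_cast Nat.lt_succ_self _)) fun m hm => ?_
  rw [lp_W k m (by omega), nr_neg]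
  by_cases hmp : m + 1 = p
  · obtain ⟨z, hz⟩ := W_coeff_dvd p k hk hkp
    have e : (m : ℚ) + 1 = p := by exact_mod_cast hmp
    have hp0 : (p : ℚ) ≠ 0 := by rw [← e]; positivity
    rw [hmp, hz, e, mul_div_cancel_left₀ _ hp0]
    exact norm_int_le p z
  · obtain ⟨z, hz⟩ := (isZ_W (m + 1)).coeff k
    rw [hz, div_eq_mul_inv, nr_mul]
    refine mul_le_one₀ (norm_int_le p _) (norm_nonneg _) ?_
    have := nr_inv_int p ((m : ℤ) + 1) (by
      rintro ⟨t, ht⟩
      have a1 : 0 < t := by nlinarith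
      have a2 : t < 2 := by
        have : (m : ℤ) + 1 < 2 * p := by exact_mod_cast (by omega : m + 1 < 2 * p)
        nlinarith
      have : t = 1 := by omega
      subst this
      omega)
    simpa using this

theorem polewise (p : ℕ) [Fact p.Prime] (s : ℕ) (hs : 2 ≤ s) (K : ℕ) (hK : 2 * K ≤ p ^ 2)
    (N : ℚ[X]) (hZ : IsZ N) (hN : N.natDegree + 1 < p ^ 2) (E : ℝ) (hE : (p : ℝ) ≤ E)
    (h : ∀ i ∈ SK K, nr p (N.eval (i : ℚ)) * (p : ℝ) ^ (cnt p K i - 1) *
      (if i ∈ SK p then 1 else (p : ℝ) ^ s) ≤ E) : nr p (LZ s (SK K) N) ≤ E := by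
  have hp : p.Prime := Fact.out
  unfold LZ
  refine norm_sub_le' p _ _ _ ((norm_lp_int p (s - 1) (by omega) _
    (hZ.divByMonic (isZ_DZ _) (DZ_monic _)) ?_).trans hE)
    (norm_sum_le p _ _ _ ((Nat.cast_nonneg p).trans hE) fun i hi => ?_)
  · rw [natDegree_divByMonic _ (DZ_monic _)]
    omega
  · refine le_trans ?_ (h i hi)
    change nr p _ ≤ _
    rw [nr_mul]
    refine mul_le_mul (norm_res_le p K hK N i hi) ?_ (norm_nonneg _) (by positivity)
    split_ifs with hip
    · have := norm_hz_le p s p i hip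
      rwa [Nat.log_of_lt (by have := hp.pos; omega), mul_zero, pow_zero] at this
    · refine (norm_hz_le p s K i hi).trans (pow_le_pow_right₀ (Z23.Local.one_le_p p) ?_)
      have h1 := Z23.Local.log_le_one p (K - 1) (by have := pow_pos hp.pos 2; omega)
      calc _ ≤ s * 1 := Nat.mul_le_mul_left _ h1
        _ = s := mul_one s

theorem shallow (p : ℕ) [Fact p.Prime] (s : ℕ) (hs : 3 ≤ s) (hso : Odd s) (hsp : s ≤ p)
    (N : ℚ[X]) (hZ : IsZ N) :
    (N.natDegree + 1 < p ^ 2 → nr p (LZ s (SK p) N) ≤ p) ∧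
      (N.natDegree + 1 < 4 * p → nr p (LZ s (SK p) N) ≤ 1) := by
  have hS : nr p (∑ i ∈ SK p, res (SK p) N i * hz s i) ≤ 1 := by
    rw [sum_SK]
    exact norm_sum_le p _ _ _ zero_le_one fun c hc =>
      pair p s (by omega) hso N hZ c (mem_range.1 hc)
  have hq := hZ.divByMonic (isZ_DZ (SK p)) (DZ_monic _)
  have hd : (N /ₘ DZ (SK p)).natDegree = N.natDegree - 2 * p := by
    rw [natDegree_divByMonic _ (DZ_monic _), DZ_natDegree, card_SK]
  unfold LZ
  exact ⟨fun h => norm_sub_le' p _ _ _ (norm_lp_int p (s - 1) (by omega) _ hq (by omega))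
      (hS.trans (Z23.Local.one_le_p p)),
    fun h => norm_sub_le' p _ _ _
      (norm_lp_int' p (s - 1) (by omega) (by omega) _ hq (by omega)) hS⟩

end Pool.Agent.P.MP_a89d6d_nt.Z57
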