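import Pool.Agent.P.MP_a89d6d_nt.Z57.Gauss
import Pool.Agent.P.MP_a89d6d_nt.Z57.LocalInt

/-!
The local formula: for `u = p` prime, the functional on `N / DZ (SK (14 p))` is, to leading
`p`-adic order, the functional for `u = 1` on the sum of the local leading terms of `N`.
-/

namespace Pool.Agent.P.MP_a89d6d_nt.Z57

open Polynomial Finset Filter MeasureTheory
open Pool.Agent.P.MP_a89d6d_nt.Z23 (H W nc ach ff zpt)
open Pool.Agent.P.MP_a89d6d_nt.Z23.Large (IsZ)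

namespace LocF

/-- The rational number `q` has valuation at least `e`. -/
def V (p : ℕ) [Fact p.Prime] (q : ℚ) (e : ℤ) : Prop := nr p q ≤ (p : ℝ) ^ (-e)

variable {p : ℕ} [hp : Fact p.Prime]

theorem p_pos : (0 : ℝ) < p := by exact_mod_cast hp.out.pos

theorem p_ne : (p : ℚ) ≠ 0 := by exact_mod_cast hp.out.ne_zero

theorem V.mono {q : ℚ} {e e' : ℤ} (h : V p q e) (he : e' ≤ e) : V p q e' :=
  le_trans h (zpow_le_zpow_right₀ (Z23.Local.one_le_p p) (by omega))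

theorem V.add {q r : ℚ} {e : ℤ} (h : V p q e) (h' : V p r e) : V p (q + r) e :=
  Z23.Large.norm_add_le p _ _ _ h h'

theorem V.sub {q r : ℚ} {e : ℤ} (h : V p q e) (h' : V p r e) : V p (q - r) e :=
  Z23.Large.norm_sub_le' p _ _ _ h h'

theorem V.sum {ι : Type} (s : Finset ι) (f : ι → ℚ) (e : ℤ) (h : ∀ i ∈ s, V p (f i) e) :
    V p (∑ i ∈ s, f i) e :=
  Z23.Large.norm_sum_le p s f _ (zpow_nonneg p_pos.le _) h

theorem V.mul {q r : ℚ} {e e' : ℤ} (h : V p q e) (h' : V p r e') : V p (q * r) (e + e') := by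
  unfold V nr at *
  rw [Rat.cast_mul, norm_mul, neg_add, zpow_add₀ p_pos.ne']
  exact mul_le_mul h h' (norm_nonneg _) (zpow_nonneg p_pos.le _)

theorem V.congr {q r : ℚ} {e e' : ℤ} (h : V p q e) (hq : r = q) (he : e' ≤ e) : V p r e' :=
  hq ▸ h.mono he

theorem V_zero (e : ℤ) : V p 0 e := by
  unfold V nr
  simpa using zpow_nonneg (p_pos (p := p)).le _

theorem V_of_le_one {q : ℚ} (h : nr p q ≤ 1) : V p q 0 := by
  unfold V
  simpa using h

theorem V_int (z : ℤ) : V p (z : ℚ) 0 := V_of_le_one (Z23.Large.norm_int_le p z)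

theorem nr_zpow (k : ℤ) : nr p ((p : ℚ) ^ k) = (p : ℝ) ^ (-k) := by
  unfold nr
  push_cast
  exact Padic.norm_p_zpow k

theorem V_zpow (k : ℤ) : V p ((p : ℚ) ^ k) k := (nr_zpow k).le

theorem V_pow (k : ℕ) : V p ((p : ℚ) ^ k) k := by
  have := V_zpow (p := p) (k : ℤ)
  rwa [zpow_natCast] at this

theorem V.pow_zero {q : ℚ} (h : V p q 0) (n : ℕ) : V p (q ^ n) 0 := by
  induction n with
  | zero => simpa using V_int (p := p) 1
  | succ n ih => exact (ih.mul h).congr (pow_succ _ _) le_rfl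

theorem V.prod_zero {ι : Type} (s : Finset ι) (f : ι → ℚ) (h : ∀ i ∈ s, V p (f i) 0) :
    V p (∏ i ∈ s, f i) 0 := by
  classical
  induction s using Finset.induction_on with
  | empty => simpa using V_int (p := p) 1
  | insert i s hi ih =>
    rw [Finset.prod_insert hi]
    exact ((h i (mem_insert_self _ _)).mul
      (ih fun k hk => h k (mem_insert_of_mem hk))).mono le_rfl

theorem V_inv_int (z : ℤ) (h : ¬ (p : ℤ) ∣ z) : V p ((z : ℚ))⁻¹ 0 := by
  apply V_of_le_one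
  have := Z23.Local.norm_inv_int_le p z 0 (by simpa using h)
  unfold nr
  push_cast
  simpa using this

theorem le_nr_of_approx {b u : ℚ} {k : ℤ} (h : V p (b - (p : ℚ) ^ k * u) (k + 1)) (hu : u ≠ 0)
    (hu' : V p u⁻¹ 0) : (p : ℝ) ^ (-k) ≤ nr p b := by
  by_contra hlt
  rw [not_le] at hlt
  have h1 : nr p ((p : ℚ) ^ k * u) < (p : ℝ) ^ (-k) := by
    have e1 : (p : ℚ) ^ k * u = b + -(b - (p : ℚ) ^ k * u) := by ring
    rw [e1]
    unfold nr
    rw [Rat.cast_add]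
    refine (Padic.nonarchimedean _ _).trans_lt (max_lt hlt ?_)
    rw [Rat.cast_neg, norm_neg]
    exact lt_of_le_of_lt h (zpow_lt_zpow_right₀ (Z23.Local.one_lt_p p) (by omega))
  have h2 : nr p ((p : ℚ) ^ k) = nr p ((p : ℚ) ^ k * u) * nr p u⁻¹ := by
    unfold nr
    rw [← norm_mul, ← Rat.cast_mul, mul_assoc, mul_inv_cancel₀ hu, mul_one]
  rw [nr_zpow] at h2
  have h3 : nr p u⁻¹ ≤ 1 := by simpa [V] using hu'
  have h4 : nr p ((p : ℚ) ^ k * u) * nr p u⁻¹ ≤ nr p ((p : ℚ) ^ k * u) :=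
    mul_le_of_le_one_right (norm_nonneg _) h3
  linarith

theorem inv_of_approx {b u : ℚ} {k : ℤ} (h : V p (b - (p : ℚ) ^ k * u) (k + 1)) (hu : u ≠ 0)
    (hu' : V p u⁻¹ 0) : b ≠ 0 ∧ V p b⁻¹ (-k) := by
  have h1 := le_nr_of_approx h hu hu'
  have h2 : (0 : ℝ) < (p : ℝ) ^ (-k) := zpow_pos p_pos _
  refine ⟨?_, ?_⟩
  · rintro rfl
    simp [nr] at h1
    have := zpow_pos (p_pos (p := p)) k
    linarith
  · unfold V nr
    rw [Rat.cast_inv, norm_inv, zpow_neg]
    exact inv_anti₀ h2 h1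

omit hp in
theorem loc_eval (c : ℕ) (Q : ℚ[X]) (m : ℤ) :
    (loc p c Q).eval (m : ℚ) = Q.eval ((((c : ℤ) + p * m : ℤ)) : ℚ) := by
  unfold loc
  rw [eval_comp]
  simp

theorem Ap_eval {c : ℕ} {N G : ℚ[X]} {e : ℕ} (h : Ap p c N e G) (m : ℤ) :
    V p (N.eval ((((c : ℤ) + p * m : ℤ)) : ℚ) - (p : ℚ) ^ (e : ℤ) * G.eval (m : ℚ)) (e + 1) := by
  have := PN.eval h m
  rw [eval_sub, loc_eval, eval_mul, eval_C, ← zpow_natCast] at this
  exact this

theorem den_unit (h64 : 64 ≤ p) (m : ℤ) (hm : m ∈ SK 14) :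
    (∏ j ∈ (SK 14).erase m, ((m : ℚ) - (j : ℚ))) ≠ 0 ∧
      V p (∏ j ∈ (SK 14).erase m, ((m : ℚ) - (j : ℚ)))⁻¹ 0 := by
  refine ⟨Finset.prod_ne_zero_iff.2 fun j hj => ?_, ?_⟩
  · have : j ≠ m := (mem_erase.1 hj).1
    exact sub_ne_zero.2 (by exact_mod_cast this.symm)
  · rw [← Finset.prod_inv_distrib]
    refine V.prod_zero _ _ fun j hj => ?_
    have h1 : j ≠ m := (mem_erase.1 hj).1
    have h2 := (mem_erase.1 hj).2
    simp only [SK, mem_Ico] at h2 hm
    have := V_inv_int (p := p) (m - j) (by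
      intro hd
      have h3 := Int.le_of_dvd (abs_pos.2 (sub_ne_zero.2 h1.symm)) ((dvd_abs _ _).2 hd)
      have h4 : |m - j| < 64 := by rw [abs_lt]; push_cast at h2 hm; constructor <;> omega
      omega)
    simpa using this

theorem V_res0 (h64 : 64 ≤ p) {G : ℚ[X]} (hG : IsZ G) (m : ℤ) (hm : m ∈ SK 14) :
    V p (res (SK 14) G m) 0 := by
  unfold res
  rw [div_eq_mul_inv]
  exact ((V_of_le_one (hG.norm_eval p m)).mul (den_unit h64 m hm).2).mono le_rfl

theorem res_approx (h64 : 64 ≤ p) {c : ℕ} (hc : c < p) {N G : ℚ[X]} {e : ℕ} (h : Ap p c N e G)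
    (hG : IsZ G) (m : ℤ) (hm : m ∈ SK 14) :
    V p (res (SK (14 * p)) N (c + p * m) - (p : ℚ) ^ ((e : ℤ) - 27) * res (SK 14) G m)
      ((e : ℤ) - 26) := by
  have ha := Ap_eval h m
  have hb := Ap_eval (Ap_DZ_erase p c hc 14 m hm) m
  rw [DZ_eval, DZ_eval] at hb
  obtain ⟨hu, hu'⟩ := den_unit h64 m hm
  obtain ⟨hb0, hb'⟩ := inv_of_approx hb hu hu'
  have hg : V p (G.eval (m : ℚ)) 0 := V_of_le_one (hG.norm_eval p m)
  unfold res
  set a := N.eval ((((c : ℤ) + p * m : ℤ)) : ℚ)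
  set b := ∏ j ∈ (SK (14 * p)).erase ((c : ℤ) + p * m), (((((c : ℤ) + p * m : ℤ)) : ℚ) - (j : ℚ))
  set u := ∏ j ∈ (SK 14).erase m, ((m : ℚ) - (j : ℚ))
  set g := G.eval (m : ℚ)
  have e27 : (((2 * 14 - 1 : ℕ) : ℕ) : ℤ) = 27 := by norm_num
  rw [e27] at hb hb'
  have t1 := ha.mul hb'
  have t2 := ((((V_zpow (p := p) ((e : ℤ) - 27)).mul hg).mul hu').mul hb').mul hb
  refine ((t1.mono (e' := (e : ℤ) - 26) (by omega)).sub (t2.mono (by omega))).congr ?_ le_rfl
  have e1 : (p : ℚ) ^ (e : ℤ) = (p : ℚ) ^ ((e : ℤ) - 27) * (p : ℚ) ^ (27 : ℤ) := by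
    rw [← zpow_add₀ p_ne]; congr 1; ring
  rw [e1]
  field_simp
  ring

theorem V_res (h64 : 64 ≤ p) {c : ℕ} (hc : c < p) {N G : ℚ[X]} {e : ℕ} (h : Ap p c N e G)
    (hG : IsZ G) (m : ℤ) (hm : m ∈ SK 14) :
    V p (res (SK (14 * p)) N (c + p * m)) ((e : ℤ) - 27) := by
  have h1 := res_approx h64 hc h hG m hm
  have h2 := (V_zpow (p := p) ((e : ℤ) - 27)).mul (V_res0 h64 hG m hm)
  exact ((h1.mono (e' := (e : ℤ) - 27) (by omega)).add (h2.mono (by omega))).congr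
    (by ring) le_rfl

theorem H_approx (s n : ℕ) : V p (H s n - (p : ℚ) ^ (-(s : ℤ)) * H s (n / p)) 0 := by
  induction n with
  | zero => simpa [H] using V_zero (p := p) 0
  | succ n ih =>
    have hs : ∀ k : ℕ, H s (k + 1) = H s k + 1 / ((k : ℚ) + 1) ^ s := fun k => sum_range_succ _ _
    rw [Nat.succ_div]
    split_ifs with hd
    · refine ih.congr ?_ le_rfl
      have h1 : n + 1 = p * (n / p + 1) := by
        have h2 := Nat.mul_div_cancel' hd
        rw [Nat.succ_div, if_pos hd] at h2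
        exact h2.symm
      have h3 : (n : ℚ) + 1 = p * (((n / p : ℕ) : ℚ) + 1) := by exact_mod_cast h1
      rw [hs, hs, h3, zpow_neg, zpow_natCast, mul_pow]
      have := p_ne (p := p)
      field_simp
      ring
    · have h1 := (V_inv_int (p := p) ((n : ℤ) + 1) (by exact_mod_cast hd)).pow_zero s
      refine (ih.add h1).congr ?_ le_rfl
      rw [hs, add_zero]
      push_cast
      rw [inv_pow]
      ring

theorem hz_approx (s : ℕ) {c : ℕ} (hc : c < p) (m : ℤ) :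
    V p (hz s (c + p * m) - (p : ℚ) ^ (-(s : ℤ)) * hz s m) 0 := by
  have hp0 : 0 < p := hp.out.pos
  unfold hz
  by_cases hm : 0 ≤ m
  · obtain ⟨k, rfl⟩ := Int.eq_ofNat_of_zero_le hm
    have h1 : (0 : ℤ) ≤ (c : ℤ) + p * k := by positivity
    rw [if_pos h1, if_pos hm]
    have h2 : ((c : ℤ) + p * k).toNat = c + p * k := by
      rw [← Nat.cast_mul, ← Nat.cast_add, Int.toNat_natCast]
    have h3 : (c + p * k) / p = k := by
      rw [Nat.add_mul_div_left _ _ hp0, Nat.div_eq_of_lt hc, zero_add]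
    have := H_approx (p := p) s (c + p * k)
    rw [h3] at this
    rw [h2, Int.toNat_natCast]
    exact this
  · obtain ⟨k, hk⟩ := Int.eq_ofNat_of_zero_le (a := -1 - m) (by omega)
    have hm' : m = -1 - k := by omega
    have h0 : -1 - ((c : ℤ) + p * m) = ((p - 1 - c + p * k : ℕ) : ℤ) := by
      rw [hm']
      push_cast [Nat.cast_sub (show c ≤ p - 1 by omega), Nat.cast_sub (show 1 ≤ p by omega)]
      ring
    have h1 : ¬ (0 : ℤ) ≤ (c : ℤ) + p * m := by omega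
    rw [if_neg h1, if_neg hm, h0, hk, Int.toNat_natCast, Int.toNat_natCast]
    have h3 : (p - 1 - c + p * k) / p = k := by
      rw [Nat.add_mul_div_left _ _ hp0, Nat.div_eq_of_lt (by omega), zero_add]
    have := H_approx (p := p) s (p - 1 - c + p * k)
    rwa [h3] at this

theorem V_hz0 (h64 : 64 ≤ p) (s : ℕ) (m : ℤ) (hm : m ∈ SK 14) : V p (hz s m) 0 := by
  apply V_of_le_one
  have := norm_hz_le p s 14 m hm
  rwa [Nat.log_of_lt (show 14 - 1 < p by omega), mul_zero, pow_zero] at this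

theorem term_approx (h64 : 64 ≤ p) (s : ℕ) (hs : 1 ≤ s) {c : ℕ} (hc : c < p) {N G : ℚ[X]} {e : ℕ}
    (h : Ap p c N e G) (hG : IsZ G) (m : ℤ) (hm : m ∈ SK 14) :
    V p (res (SK (14 * p)) N (c + p * m) * hz s (c + p * m) -
      (p : ℚ) ^ ((e : ℤ) - 27 - s) * (res (SK 14) G m * hz s m)) ((e : ℤ) - 26 - s) := by
  have h1 := res_approx h64 hc h hG m hm
  have h2 := hz_approx (p := p) s hc m
  have h3 := (V_zpow (p := p) (-(s : ℤ))).mul (V_hz0 h64 s m hm)
  have h4 : V p (hz s (c + p * m)) (-(s : ℤ)) :=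
    ((h2.mono (e' := -(s : ℤ)) (by omega)).add (h3.mono (by omega))).congr (by ring) le_rfl
  have t1 := h1.mul h4
  have t2 := ((V_zpow (p := p) ((e : ℤ) - 27)).mul (V_res0 h64 hG m hm)).mul h2
  refine ((t1.mono (e' := (e : ℤ) - 26 - s) (by omega)).add (t2.mono (by omega))).congr ?_ le_rfl
  have e1 : (p : ℚ) ^ ((e : ℤ) - 27 - s) = (p : ℚ) ^ ((e : ℤ) - 27) * (p : ℚ) ^ (-(s : ℤ)) := by
    rw [← zpow_add₀ p_ne]; congr 1
  rw [e1]
  ring

theorem sum_SK {M : Type} [AddCommMonoid M] (h : ℕ) (f : ℤ → M) :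
    ∑ i ∈ SK (h * p), f i = ∑ c ∈ range p, ∑ m ∈ SK h, f ((c : ℤ) + p * m) := by
  have hp0 : (0 : ℤ) < p := by exact_mod_cast hp.out.pos
  rw [← Finset.sum_product']
  symm
  refine Finset.sum_nbij' (fun x : ℕ × ℤ => (x.1 : ℤ) + p * x.2)
    (fun i => ((i % p).toNat, i / p)) ?_ ?_ ?_ ?_ ?_
  · rintro ⟨c, m⟩ hx
    simp only [SK, mem_product, mem_range, mem_Ico] at hx ⊢
    obtain ⟨h1, h2, h3⟩ := hx
    have h1' : (c : ℤ) < p := by exact_mod_cast h1
    push_cast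
    constructor
    · nlinarith
    · nlinarith
  · intro i hi
    simp only [SK, mem_product, mem_range, mem_Ico] at hi ⊢
    push_cast at hi
    have h1 := Int.emod_nonneg i hp0.ne'
    have h2 := Int.emod_lt_of_pos i hp0
    refine ⟨by omega, ?_, ?_⟩
    · exact (Int.le_ediv_iff_mul_le hp0).2 (by linarith [hi.1])
    · exact (Int.ediv_lt_iff_lt_mul hp0).2 hi.2
  · rintro ⟨c, m⟩ hx
    simp only [mem_product, mem_range] at hx
    have h1' : (c : ℤ) < p := by exact_mod_cast hx.1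
    have h0 : (0 : ℤ) ≤ c := by positivity
    simp only [Prod.mk.injEq]
    constructor
    · rw [Int.add_mul_emod_self_left, Int.emod_eq_of_lt h0 h1', Int.toNat_natCast]
    · rw [Int.add_mul_ediv_left _ _ hp0.ne', Int.ediv_eq_zero_of_lt h0 h1', zero_add]
  · intro i _
    have h1 := Int.emod_nonneg i hp0.ne'
    simp only
    rw [Int.toNat_of_nonneg h1]
    exact Int.emod_add_mul_ediv i p
  · intro _ _
    rfl

theorem PN_congr {Q R : ℚ[X]} {e e' : ℤ} (h : PN p Q e) (hq : R = Q) (he : e' ≤ e) : PN p R e' :=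
  hq ▸ h.mono he

theorem poly_approx (h64 : 64 ≤ p) (N : ℚ[X]) (e : ℕ) (G : ℕ → ℚ[X])
    (hG : ∀ c < p, IsZ (G c)) (h : ∀ c < p, Ap p c N e (G c)) {c : ℕ} (hc : c < p) :
    PN p (loc p c (N /ₘ DZ (SK (14 * p))) - C ((p : ℚ) ^ ((e : ℤ) - 28)) * (G c /ₘ DZ (SK 14)))
      ((e : ℤ) - 27) := by
  set F := N /ₘ DZ (SK (14 * p)) with hF
  set Gq := G c /ₘ DZ (SK 14) with hGq
  set A := C ((p : ℚ) ^ (-28 : ℤ)) * loc p c (DZ (SK (14 * p))) with hA
  have hinv : (C ((p : ℚ) ^ (-28 : ℤ)) : ℚ[X]) * C ((p : ℚ) ^ (2 * 14)) = 1 := by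
    rw [← C_mul, ← zpow_natCast, ← zpow_add₀ p_ne]
    simp
  have hAD : PN p (A - DZ (SK 14)) 1 := by
    have h1 := (PN_C (V_zpow (p := p) (-28))).mul (Ap_DZ p c hc 14)
    refine PN_congr h1 ?_ (by norm_num)
    rw [mul_sub, ← mul_assoc, hinv, one_mul]
  have hA1 : 1 ≤ nr p (A.coeff 28) := by
    have h1 : (DZ (SK 14)).coeff 28 = 1 := by
      have := (DZ_monic (SK 14)).coeff_natDegree
      rwa [DZ_natDegree, card_SK] at this
    have h2 : V p (A.coeff 28 - (p : ℚ) ^ (0 : ℤ) * 1) (0 + 1) := by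
      have := hAD 28
      rw [coeff_sub, h1] at this
      simpa [V] using this
    have := le_nr_of_approx h2 one_ne_zero (by simpa using V_int (p := p) 1)
    simpa using this
  refine PN.cancel 28 hA1 ?_
  have hpf := partial_fractions (SK (14 * p)) N
  have hpf0 := partial_fractions (SK 14) (G c)
  rw [sum_SK] at hpf
  have hloc : loc p c N = loc p c F * loc p c (DZ (SK (14 * p))) +
      ∑ c' ∈ range p, ∑ m ∈ SK 14, C (res (SK (14 * p)) N (c' + p * m)) *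
        loc p c (DZ ((SK (14 * p)).erase (c' + p * m))) := by
    conv_lhs => rw [hpf]
    simp only [loc, add_comp, mul_comp, Polynomial.sum_comp, C_comp, hF]
  have hS : PN p (∑ c' ∈ range p, ∑ m ∈ SK 14, (C (res (SK (14 * p)) N (c' + p * m)) *
        loc p c (DZ ((SK (14 * p)).erase (c' + p * m))) -
        if c' = c then C ((p : ℚ) ^ e) * (C (res (SK 14) (G c) m) * DZ ((SK 14).erase m))
          else 0)) ((e : ℤ) + 1) := by
    refine PN.sum _ _ _ fun c' hc' => PN.sum _ _ _ fun m hm => ?_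
    have hc'' := mem_range.1 hc'
    split_ifs with hcc
    · subst hcc
      have h1 := res_approx h64 hc (h c' hc) (hG c' hc) m hm
      have h2 : PN p (loc p c' (DZ ((SK (14 * p)).erase (c' + p * m))) -
          C ((p : ℚ) ^ 27) * DZ ((SK 14).erase m)) 28 := Ap_DZ_erase p c' hc 14 m hm
      have h3 := (PN_C (V_pow (p := p) 27)).mul (PN_of_isZ (isZ_DZ ((SK 14).erase m)))
      have h4 : PN p (loc p c' (DZ ((SK (14 * p)).erase (c' + p * m)))) 27 :=
        PN_congr ((h2.mono (e' := 27) (by norm_num)).add (h3.mono (by norm_num))) (by ring) le_rfl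
      have t1 := (PN_C h1).mul h4
      have t2 := (PN_C ((V_zpow (p := p) ((e : ℤ) - 27)).mul
        (V_res0 h64 (hG c' hc) m hm))).mul h2
      refine PN_congr ((t1.mono (e' := (e : ℤ) + 1) (by omega)).add (t2.mono (by omega))) ?_ le_rfl
      have e1 : (p : ℚ) ^ e = (p : ℚ) ^ ((e : ℤ) - 27) * (p : ℚ) ^ 27 := by
        rw [← zpow_natCast, ← zpow_natCast, ← zpow_add₀ p_ne]; congr 1; push_cast; ring
      rw [e1]
      simp only [C_mul, C_sub]
      ring
    · have h1 := V_res h64 hc'' (h c' hc'') (hG c' hc'') m hm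
      have h2 := Ap_DZ_erase' p c hc 14 ((c' : ℤ) + p * m) (by
        intro hd
        have h3 : (p : ℤ) ∣ (c : ℤ) - c' := by
          have := hd.add (Dvd.intro m rfl : (p : ℤ) ∣ p * m)
          simpa [sub_add_eq_sub_sub] using this
        have h5 : (c : ℤ) - c' ≠ 0 := by
          intro h0
          exact hcc (by omega)
        have h4 := Int.le_of_dvd (abs_pos.2 h5) ((dvd_abs _ _).2 h3)
        have h6 : |(c : ℤ) - c'| < p := by rw [abs_lt]; constructor <;> omega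
        omega)
      exact PN_congr ((PN_C h1).mul h2) (sub_zero _) (by push_cast; omega)
  have hS' : ∑ c' ∈ range p, ∑ m ∈ SK 14, (C (res (SK (14 * p)) N (c' + p * m)) *
        loc p c (DZ ((SK (14 * p)).erase (c' + p * m))) -
        if c' = c then C ((p : ℚ) ^ e) * (C (res (SK 14) (G c) m) * DZ ((SK 14).erase m))
          else 0) = (loc p c N - loc p c F * loc p c (DZ (SK (14 * p)))) -
        C ((p : ℚ) ^ e) * (G c - Gq * DZ (SK 14)) := by
    simp only [Finset.sum_sub_distrib]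
    congr 1
    · rw [hloc]; ring
    · rw [Finset.sum_eq_single c]
      · simp only [if_true]
        rw [← Finset.mul_sum]
        congr 1
        exact eq_sub_of_add_eq' hpf0.symm
      · intro b _ hb
        simp [hb]
      · intro hb
        exact absurd (mem_range.2 hc) hb
  rw [hS'] at hS
  have t1 := (PN_C (V_zpow (p := p) (-28))).mul (h c hc)
  have t2 := (PN_C (V_zpow (p := p) (-28))).mul hS
  have t3 := ((PN_C (V_zpow (p := p) ((e : ℤ) - 28))).mul hAD).mul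
    (PN_of_isZ ((hG c hc).divByMonic (isZ_DZ (SK 14)) (DZ_monic _)))
  refine PN_congr (((t1.mono (e' := (e : ℤ) - 27) (by omega)).sub (t2.mono (by omega))).sub
    (t3.mono (by omega))) ?_ le_rfl
  have e1 : (C ((p : ℚ) ^ ((e : ℤ) - 28)) : ℚ[X]) = C ((p : ℚ) ^ (-28 : ℤ)) * C ((p : ℚ) ^ e) := by
    rw [← C_mul, ← zpow_natCast, ← zpow_add₀ p_ne, show (e : ℤ) - 28 = -28 + e by ring]
  rw [e1, ← hGq, hA]
  ring

theorem V_lp (k : ℕ) (hk : 2 ≤ k) (hkp : k < p) (Q : ℚ[X]) (hQ : Q.natDegree + 1 < p ^ 2) (e : ℤ)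
    (h1 : PN p Q e) (h2 : ∀ d, 2 * p ≤ d + 1 → V p (Q.coeff d) (e + 1)) : V p (lp k Q) e := by
  rw [Q.as_sum_range_C_mul_X_pow, map_sum]
  refine V.sum _ _ _ fun d hd => ?_
  have hd' := mem_range.1 hd
  rw [C_mul', map_smul, smul_eq_mul]
  have hX : IsZ ((X : ℚ[X]) ^ d) := Z23.Large.isZ_X.pow d
  by_cases hdp : d + 1 < 2 * p
  · have := norm_lp_int' p k hk hkp _ hX (by rwa [natDegree_X_pow])
    exact (V.mul (h1 d) (V_of_le_one this)).mono (by omega)
  · have h3 := norm_lp_int p k (by omega) _ hX (by rw [natDegree_X_pow]; omega)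
    have h4 : V p (lp k (X ^ d)) (-1) := by simpa [V] using h3
    exact ((h2 d (by omega)).mul h4).mono (by omega)

theorem lp_approx (h64 : 64 ≤ p) (k : ℕ) (hk : 2 ≤ k) (hkp : k < p) (N : ℚ[X]) (hZ : IsZ N)
    (hN : N.natDegree + 1 < p ^ 2) (e : ℕ) (he : e ≤ p) (G : ℕ → ℚ[X])
    (hG : ∀ c < p, IsZ (G c) ∧ (G c).natDegree ≤ p) (h : ∀ c < p, Ap p c N e (G c))
    {c : ℕ} (hc : c < p) :
    V p (lp k (loc p c (N /ₘ DZ (SK (14 * p)))) -
      (p : ℚ) ^ ((e : ℤ) - 28) * lp k (G c /ₘ DZ (SK 14))) ((e : ℤ) - 27) := by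
  have h1 := poly_approx h64 N e G (fun c hc => (hG c hc).1) h hc
  have hdG : (G c /ₘ DZ (SK 14)).natDegree ≤ p := by
    rw [natDegree_divByMonic _ (DZ_monic _)]
    exact (Nat.sub_le _ _).trans (hG c hc).2
  have hdF : (loc p c (N /ₘ DZ (SK (14 * p)))).natDegree ≤ N.natDegree := by
    unfold loc
    refine natDegree_comp_le.trans ?_
    have h2 : (C (c : ℚ) + C (p : ℚ) * X).natDegree ≤ 1 := by
      rw [add_comm]
      exact natDegree_linear_le
    rw [natDegree_divByMonic _ (DZ_monic _)]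
    calc _ ≤ N.natDegree * 1 := Nat.mul_le_mul (Nat.sub_le _ _) h2
      _ = _ := mul_one _
  have h2 := V_lp k hk hkp _ (by
    have h3 := natDegree_sub_le (loc p c (N /ₘ DZ (SK (14 * p))))
      (C ((p : ℚ) ^ ((e : ℤ) - 28)) * (G c /ₘ DZ (SK 14)))
    have h4 := natDegree_C_mul_le ((p : ℚ) ^ ((e : ℤ) - 28)) (G c /ₘ DZ (SK 14))
    have h5 : p + 1 < p ^ 2 := by nlinarith
    have h6 := h3.trans (max_le_max hdF (h4.trans hdG))
    rcases le_max_iff.1 h6 with h7 | h7 <;> omega) _ h1 (by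
    intro d hd
    rw [coeff_sub, coeff_C_mul, coeff_eq_zero_of_natDegree_lt (p := G c /ₘ DZ (SK 14)) (by omega),
      mul_zero, sub_zero]
    have h3 : V p ((loc p c (N /ₘ DZ (SK (14 * p)))).coeff d) d :=
      norm_coeff_loc c (hZ.divByMonic (isZ_DZ _) (DZ_monic _)) d
    exact h3.mono (by omega))
  rwa [map_sub, C_mul', map_smul, smul_eq_mul] at h2

end LocF

open LocF in
theorem local_formula (p : ℕ) [Fact p.Prime] (hp : 64 ≤ p) (s : ℕ) (hs : 3 ≤ s) (hs7 : s ≤ 7)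
    (N : ℚ[X]) (hZ : IsZ N) (hN : N.natDegree + 1 < p ^ 2) (e : ℕ) (he : e ≤ p)
    (G : ℕ → ℚ[X]) (hG : ∀ c < p, IsZ (G c) ∧ (G c).natDegree ≤ p)
    (h : ∀ c < p, Ap p c N e (G c)) :
    nr p (LZ s (SK (14 * p)) N - (p : ℚ) ^ ((e : ℤ) - 27 - s) * LZ s (SK 14) (∑ c ∈ range p, G c))
        ≤ (p : ℝ) ^ (-((e : ℤ) - 26 - s)) ∧
      nr p (RZ (SK (14 * p)) N) ≤ (p : ℝ) ^ (-((e : ℤ) - 27)) := by
  refine ⟨?_, ?_⟩
  · have hsum : LZ s (SK 14) (∑ c ∈ range p, G c) = ∑ c ∈ range p, LZ s (SK 14) (G c) :=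
      map_sum ((LZ_linear s (SK 14)).mk' _) _ _
    have hs1 : (((s - 1 : ℕ) : ℕ) : ℤ) = (s : ℤ) - 1 := by omega
    have hd := lp_distrib (s - 1) p (by omega) (N /ₘ DZ (SK (14 * p)))
    have t1 := (V_zpow (p := p) (-((s : ℤ) - 1))).mul (V.sum (range p) _ ((e : ℤ) - 27)
      fun c hc => lp_approx hp (s - 1) (by omega) (by omega) N hZ hN e he G hG h (mem_range.1 hc))
    have t2 := V.sum (range p) _ ((e : ℤ) - 26 - s) fun c hc => V.sum (SK 14) _ _
      fun m hm => term_approx hp s (by omega) (mem_range.1 hc) (h c (mem_range.1 hc))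
        (hG c (mem_range.1 hc)).1 m hm
    refine ((t1.mono (e' := (e : ℤ) - 26 - s) (by omega)).sub t2).congr ?_ le_rfl
    have e1 : (p : ℚ) ^ ((e : ℤ) - 27 - s) =
        (p : ℚ) ^ (-((s : ℤ) - 1)) * (p : ℚ) ^ ((e : ℤ) - 28) := by
      rw [← zpow_add₀ p_ne]; congr 1; ring
    have e2 : (p : ℚ) ^ (-((s : ℤ) - 1)) * (p : ℚ) ^ (s - 1) = 1 := by
      rw [← zpow_natCast, ← zpow_add₀ p_ne, hs1]; simp
    rw [hsum]
    unfold LZ
    rw [sum_SK]
    simp only [Finset.sum_sub_distrib, ← Finset.mul_sum]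
    rw [← hd, mul_sub, mul_sub, ← mul_assoc, e2, e1]
    ring
  · unfold RZ
    rw [sum_SK]
    exact V.sum (range p) _ _ fun c hc => V.sum (SK 14) _ _ fun m hm =>
      V_res hp (mem_range.1 hc) (h c (mem_range.1 hc)) (hG c (mem_range.1 hc)).1 m hm

end Pool.Agent.P.MP_a89d6d_nt.Z57
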