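import Pool.Agent.P.MP_a89d6d_nt.Z57.Core

/-! Local estimates at a prime `p`. -/

namespace Pool.Agent.P.MP_a89d6d_nt.Z57

open Polynomial Finset Filter MeasureTheory
open Pool.Agent.P.MP_a89d6d_nt.Z23 (H W nc ach ff zpt)
open Pool.Agent.P.MP_a89d6d_nt.Z23.Large (IsZ)
open Pool.Agent.P.MP_a89d6d_nt.Z23.Local (one_le_p one_lt_p norm_add_le_of norm_sub_le_of
  norm_sum_le_of norm_inv_nat_le norm_inv_small norm_inv_small' log_le_one)

namespace Local

theorem W_eval_int (m : ℕ) (y : ℤ) :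
    (W m).eval (y : ℚ) = (m.factorial : ℚ) * ((Ring.choose y m : ℤ) : ℚ) := by
  have h1 := Ring.descPochhammer_eq_factorial_smul_choose y m
  rw [← Polynomial.eval_eq_smeval, descPochhammer_eval_eq_prod_range, nsmul_eq_mul] at h1
  have h2 : (W m).eval (y : ℚ) = ((∏ j ∈ range m, (y - (j : ℤ)) : ℤ) : ℚ) := by
    simp [W, Polynomial.eval_prod]
  rw [h2, h1]
  push_cast
  rfl

theorem nr_mul (p : ℕ) [Fact p.Prime] (a b : ℚ) : nr p (a * b) = nr p a * nr p b := by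
  rw [nr, Rat.cast_mul, norm_mul]

theorem nr_int (p : ℕ) [Fact p.Prime] (z : ℤ) : nr p (z : ℚ) ≤ 1 := by
  rw [nr, Rat.cast_intCast]
  exact Padic.norm_int_le_one z

theorem nr_int_mul_le (p : ℕ) [Fact p.Prime] (z : ℤ) (q : ℚ) {E : ℝ} (h : nr p q ≤ E) :
    nr p ((z : ℚ) * q) ≤ E := by
  rw [nr_mul]
  calc _ ≤ 1 * E := mul_le_mul (nr_int p z) h (norm_nonneg _) zero_le_one
    _ = E := one_mul E

theorem nr_sum_le (p : ℕ) [Fact p.Prime] {ι : Type*} {s : Finset ι} {f : ι → ℚ} {c : ℝ}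
    (hc : 0 ≤ c) (h : ∀ i ∈ s, nr p (f i) ≤ c) : nr p (∑ i ∈ s, f i) ≤ c := by
  rw [nr, Rat.cast_sum]
  exact norm_sum_le_of hc h

theorem nr_add_le (p : ℕ) [Fact p.Prime] {a b : ℚ} {c : ℝ} (ha : nr p a ≤ c) (hb : nr p b ≤ c) :
    nr p (a + b) ≤ c := by
  rw [nr, Rat.cast_add]
  exact norm_add_le_of ha hb

theorem nr_sub_le (p : ℕ) [Fact p.Prime] {a b : ℚ} {c : ℝ} (ha : nr p a ≤ c) (hb : nr p b ≤ c) :
    nr p (a - b) ≤ c := by
  rw [nr, Rat.cast_sub]
  exact norm_sub_le_of ha hb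

theorem nr_neg (p : ℕ) [Fact p.Prime] (a : ℚ) : nr p (-a) = nr p a := by
  rw [nr, Rat.cast_neg, norm_neg]

theorem norm_nc_le (p : ℕ) [Fact p.Prime] (Q : ℚ[X]) (m : ℕ) (E : ℝ)
    (hE : ∀ i : ℕ, i ≤ m → nr p (Q.eval (i : ℚ)) ≤ E) : nr p (nc Q m) ≤ E := by
  have hE0 : 0 ≤ E := (norm_nonneg _).trans (hE 0 (Nat.zero_le _))
  unfold nc
  apply nr_sum_le p hE0
  intro i hi
  have hi' : i ≤ m := by have := Finset.mem_range.1 hi; omega
  have := nr_int_mul_le p ((-1) ^ (m - i) * (m.choose i : ℤ)) _ (hE i hi')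
  push_cast at this
  exact this

/-- A bound at `M + 1` consecutive integers holds at all integers. -/
theorem norm_eval_int_le (p : ℕ) [Fact p.Prime] (Q : ℚ[X]) (K M : ℕ) (h : Q.natDegree ≤ M)
    (E : ℝ) (hE : ∀ m : ℕ, K ≤ m → m ≤ K + M → nr p (Q.eval (m : ℚ)) ≤ E) (y : ℤ) :
    nr p (Q.eval (y : ℚ)) ≤ E := by
  have hE0 : 0 ≤ E := (norm_nonneg _).trans (hE K le_rfl (Nat.le_add_right _ _))
  set R := Q.comp (X + C (K : ℚ)) with hR
  have hd : R.natDegree ≤ M := by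
    rw [hR, natDegree_comp, natDegree_X_add_C, mul_one]
    exact h
  have h1 : Q.eval (y : ℚ) = R.eval ((y - K : ℤ) : ℚ) := by
    rw [hR, eval_comp]
    simp
  rw [h1, Z23.Core.newton R M hd, eval_finsetSum]
  apply nr_sum_le p hE0
  intro m hm
  have hm' : m ≤ M := by have := Finset.mem_range.1 hm; omega
  have hf : (m.factorial : ℚ) ≠ 0 := by positivity
  have h2 : eval ((y - K : ℤ) : ℚ) ((nc R m / (m.factorial : ℚ)) • W m) =
      ((Ring.choose (y - K) m : ℤ) : ℚ) * nc R m := by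
    rw [eval_smul, W_eval_int, smul_eq_mul]
    field_simp
  rw [h2]
  apply nr_int_mul_le
  apply norm_nc_le
  intro i hi
  have h3 : R.eval (i : ℚ) = Q.eval ((i + K : ℕ) : ℚ) := by
    rw [hR, eval_comp]
    simp
  rw [h3]
  exact hE _ (by omega) (by omega)

theorem nr_div_nat_le (p : ℕ) [Fact p.Prime] (q : ℚ) (n N : ℕ) (h : n + 1 ≤ N) {E : ℝ}
    (hq : nr p q ≤ E) : nr p (q / ((n : ℚ) + 1)) ≤ E * (p : ℝ) ^ Nat.log p N := by
  have h1 := norm_inv_nat_le p (n + 1) N (Nat.succ_pos n) h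
  rw [nr]
  push_cast at h1 ⊢
  rw [div_eq_mul_inv, norm_mul]
  exact mul_le_mul hq h1 (norm_nonneg _) ((norm_nonneg _).trans hq)

theorem norm_coeff_V (p : ℕ) [Fact p.Prime] (N n : ℕ) (h : n ≤ N) (k : ℕ) :
    nr p ((∏ i ∈ range n, (X - C (((i + 1 : ℕ) : ℚ)))).coeff k / (n.factorial : ℚ)) ≤
      ((p : ℝ) ^ Nat.log p N) ^ k := by
  have hA : (1 : ℝ) ≤ (p : ℝ) ^ Nat.log p N := one_le_pow₀ (one_le_p p)
  induction n generalizing k with
  | zero =>
    rw [prod_range_zero, coeff_one]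
    split_ifs
    · simpa [nr] using one_le_pow₀ hA
    · simp [nr]
  | succ n ih =>
    have hf : (n.factorial : ℚ) ≠ 0 := by positivity
    have hn : ((n : ℚ) + 1) ≠ 0 := by positivity
    rw [prod_range_succ, mul_sub, coeff_sub, coeff_mul_C, Nat.factorial_succ]
    set V := ∏ i ∈ range n, (X - C (((i + 1 : ℕ) : ℚ))) with hV
    cases k with
    | zero =>
      have e : ((V * X).coeff 0 - V.coeff 0 * ((n + 1 : ℕ) : ℚ)) /
          (((n + 1) * n.factorial : ℕ) : ℚ) = -(V.coeff 0 / (n.factorial : ℚ)) := by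
        rw [mul_coeff_zero, coeff_X_zero]
        push_cast
        field_simp
        ring
      rw [e, nr_neg]
      exact ih (by omega) 0
    | succ k =>
      have e : ((V * X).coeff (k + 1) - V.coeff (k + 1) * ((n + 1 : ℕ) : ℚ)) /
          (((n + 1) * n.factorial : ℕ) : ℚ) =
          V.coeff k / (n.factorial : ℚ) / ((n : ℚ) + 1) - V.coeff (k + 1) / (n.factorial : ℚ) := by
        rw [coeff_mul_X]
        push_cast
        field_simp
      rw [e]
      apply nr_sub_le p _ (ih (by omega) (k + 1))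
      rw [pow_succ]
      exact nr_div_nat_le p _ n N h (ih (by omega) k)

theorem norm_coeff_W (p : ℕ) [Fact p.Prime] (N m : ℕ) (h : m + 1 ≤ N) (k : ℕ) :
    nr p ((W (m + 1)).coeff (k + 1) / ((m : ℚ) + 1) / (m.factorial : ℚ)) ≤
      (p : ℝ) ^ ((k + 1) * Nat.log p N) := by
  have h1 : W (m + 1) = (∏ i ∈ range m, (X - C (((i + 1 : ℕ) : ℚ)))) * X := by
    rw [W, prod_range_succ']
    simp
  rw [h1, coeff_mul_X, div_right_comm, mul_comm (k + 1), pow_mul, pow_succ]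
  exact nr_div_nat_le p _ m N h (norm_coeff_V p N m (by omega) k)

theorem norm_inv_prod (p : ℕ) [Fact p.Prime] (s : Finset ℤ) (y : ℤ)
    (hz : ∀ i ∈ s, y - i ≠ 0 ∧ |y - i| < (p : ℤ) ^ 2) :
    nr p (∏ i ∈ s, ((y : ℚ) - (i : ℚ)))⁻¹ ≤
      (p : ℝ) ^ (s.filter fun i => (p : ℤ) ∣ y - i).card := by
  rw [nr]
  push_cast
  rw [← Finset.prod_inv_distrib, norm_prod, Finset.card_filter, ← Finset.prod_pow_eq_pow_sum]
  refine Finset.prod_le_prod (fun _ _ => norm_nonneg _) fun i hi => ?_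
  have := norm_inv_small p _ (hz i hi).1 (hz i hi).2
  push_cast at this
  exact this

theorem mem_SK {K : ℕ} {i : ℤ} : i ∈ SK K ↔ -(K : ℤ) ≤ i ∧ i < K := by
  rw [SK, mem_Ico]

theorem one_le_cnt (p K : ℕ) (i : ℤ) (hi : i ∈ SK K) : 1 ≤ cnt p K i :=
  Finset.card_pos.2 ⟨i, mem_filter.2 ⟨hi, by simp⟩⟩

end Local

open Local

theorem norm_lp_le (p : ℕ) [Fact p.Prime] (k : ℕ) (hk : 1 ≤ k) (Q : ℚ[X]) (K M : ℕ)
    (h : Q.natDegree ≤ M) (E : ℝ) (hE : ∀ m : ℕ, K ≤ m → m ≤ K + M → nr p (Q.eval (m : ℚ)) ≤ E) :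
    nr p (lp k Q) ≤ E * (p : ℝ) ^ (k * Nat.log p (M + 1)) := by
  have hE0 : 0 ≤ E := (norm_nonneg _).trans (hE K le_rfl (Nat.le_add_right _ _))
  have hI := norm_eval_int_le p Q K M h E hE
  obtain ⟨k, rfl⟩ : ∃ k', k = k' + 1 := ⟨k - 1, by omega⟩
  rw [Z23.Core.newton Q M h, map_sum]
  apply nr_sum_le p (by positivity)
  intro m hm
  have hm' : m + 1 ≤ M + 1 := Finset.mem_range.1 hm
  have e : lp (k + 1) ((nc Q m / (m.factorial : ℚ)) • W m) =
      -(nc Q m * ((W (m + 1)).coeff (k + 1) / ((m : ℚ) + 1) / (m.factorial : ℚ))) := by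
    rw [map_smul, lp_W _ _ hk, smul_eq_mul]
    ring
  rw [e, nr_neg, nr_mul]
  refine mul_le_mul ?_ (norm_coeff_W p (M + 1) m hm' k) (norm_nonneg _) hE0
  apply norm_nc_le
  intro i _
  have := hI (i : ℤ)
  rwa [Int.cast_natCast] at this

theorem norm_hz_le (p : ℕ) [Fact p.Prime] (s K : ℕ) (i : ℤ) (hi : i ∈ SK K) :
    nr p (hz s i) ≤ (p : ℝ) ^ (s * Nat.log p (K - 1)) := by
  obtain ⟨h1, h2⟩ := mem_SK.1 hi
  unfold hz
  split_ifs
  · exact Z23.norm_H_le p s _ _ (by omega)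
  · exact Z23.norm_H_le p s _ _ (by omega)

theorem norm_res_le (p : ℕ) [Fact p.Prime] (K : ℕ) (hK : 2 * K ≤ p ^ 2) (N : ℚ[X]) (i : ℤ)
    (hi : i ∈ SK K) :
    nr p (res (SK K) N i) ≤ nr p (N.eval (i : ℚ)) * (p : ℝ) ^ (cnt p K i - 1) := by
  obtain ⟨h1, h2⟩ := mem_SK.1 hi
  have hK' : 2 * (K : ℤ) ≤ (p : ℤ) ^ 2 := by exact_mod_cast hK
  have h3 := norm_inv_prod p ((SK K).erase i) i (by
    intro j hj
    obtain ⟨hj1, hj2⟩ := Finset.mem_erase.1 hj
    obtain ⟨hj3, hj4⟩ := mem_SK.1 hj2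
    refine ⟨by omega, ?_⟩
    rw [abs_lt]
    constructor <;> omega)
  have h4 : (((SK K).erase i).filter fun j => (p : ℤ) ∣ i - j).card = cnt p K i - 1 := by
    rw [Finset.filter_erase, Finset.card_erase_of_mem (mem_filter.2 ⟨hi, by simp⟩), cnt]
  rw [h4] at h3
  rw [res, div_eq_mul_inv, nr_mul]
  exact mul_le_mul_of_nonneg_left h3 (norm_nonneg _)

theorem norm_DZ_eval_le (p : ℕ) [Fact p.Prime] (S : Finset ℤ) (y : ℤ) :
    nr p ((DZ S).eval (y : ℚ)) * (p : ℝ) ^ (S.filter fun i : ℤ => (p : ℤ) ∣ y - i).card ≤ 1 := by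
  have hp0 : (0 : ℝ) < p := by have := one_lt_p p; positivity
  rw [DZ_eval, nr]
  push_cast
  rw [norm_prod, Finset.card_filter, ← Finset.prod_pow_eq_pow_sum, ← Finset.prod_mul_distrib]
  refine Finset.prod_le_one (fun _ _ => by positivity) fun i _ => ?_
  split_ifs with hd
  · have h1 : ‖((y - i : ℤ) : ℚ_[p])‖ ≤ (p : ℝ) ^ (-((1 : ℕ) : ℤ)) :=
      (Padic.norm_int_le_pow_iff_dvd _ _).2 (by simpa using hd)
    push_cast at h1
    rw [zpow_neg_one] at h1
    rw [pow_one]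
    calc _ ≤ (p : ℝ)⁻¹ * p := by gcongr
      _ = 1 := inv_mul_cancel₀ hp0.ne'
  · have h1 := Padic.norm_int_le_one (p := p) (y - i)
    push_cast at h1
    simpa using h1

theorem local_bound (p : ℕ) [Fact p.Prime] (s : ℕ) (hs : 2 ≤ s) (K : ℕ) (hK : 2 * K ≤ p ^ 2)
    (N : ℚ[X]) (hN : N.natDegree + 1 < p ^ 2) (E : ℝ)
    (h : ∀ y : ℤ, nr p (N.eval (y : ℚ)) * (p : ℝ) ^ cnt p K y ≤ E) :
    nr p (LZ s (SK K) N) ≤ E * (p : ℝ) ^ (s - 1) ∧ nr p (RZ (SK K) N) ≤ E := by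
  have hp1 := one_le_p p
  have hp0 : (0 : ℝ) < p := by linarith
  have hE0 : 0 ≤ E := le_trans (by positivity) (h 0)
  have hres : ∀ i ∈ SK K, nr p (res (SK K) N i) * p ≤ E := by
    intro i hi
    refine le_trans ?_ (h i)
    have h1 := one_le_cnt p K i hi
    calc _ ≤ nr p (N.eval (i : ℚ)) * (p : ℝ) ^ (cnt p K i - 1) * p := by
          gcongr
          exact norm_res_le p K hK N i hi
      _ = _ := by rw [mul_assoc, ← pow_succ, Nat.sub_add_cancel h1]
  obtain ⟨s, rfl⟩ : ∃ s', s = s' + 1 := ⟨s - 1, by omega⟩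
  constructor
  · rw [LZ, Nat.add_sub_cancel]
    apply nr_sub_le
    · by_cases hd : N.natDegree < 2 * K
      · have : N /ₘ DZ (SK K) = 0 := by
          rw [divByMonic_eq_zero_iff (DZ_monic _)]
          exact degree_lt_degree (by rwa [DZ_natDegree, card_SK])
        rw [this, map_zero, nr, Rat.cast_zero, norm_zero]
        positivity
      have hdeg : (N /ₘ DZ (SK K)).natDegree ≤ N.natDegree - 2 * K := by
        rw [natDegree_divByMonic _ (DZ_monic _), DZ_natDegree, card_SK]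
      have hN' : ((N.natDegree : ℤ) + 1) < (p : ℤ) ^ 2 := by exact_mod_cast hN
      have h1 := norm_lp_le p s (by omega) (N /ₘ DZ (SK K)) K (N.natDegree - 2 * K) hdeg E (by
        intro m hm1 hm2
        have hz : ∀ j ∈ SK K, (m : ℤ) - j ≠ 0 ∧ |(m : ℤ) - j| < (p : ℤ) ^ 2 := by
          intro j hj
          obtain ⟨hj1, hj2⟩ := mem_SK.1 hj
          refine ⟨by omega, ?_⟩
          rw [abs_lt]
          constructor <;> omega
        have hm : (m : ℤ) ∉ SK K := by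
          rw [mem_SK]
          omega
        have h2 := eval_divByMonic (SK K) N (m : ℤ) hm
        rw [← Int.cast_natCast (R := ℚ) m, h2]
        apply nr_sub_le
        · rw [div_eq_mul_inv, nr_mul]
          exact (mul_le_mul_of_nonneg_left (norm_inv_prod p (SK K) m hz) (norm_nonneg _)).trans
            (h m)
        · apply nr_sum_le p hE0
          intro j hj
          have h3 := norm_inv_small' p _ (hz j hj).1 (hz j hj).2
          rw [div_eq_mul_inv, nr_mul]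
          refine le_trans (mul_le_mul_of_nonneg_left ?_ (norm_nonneg _)) (hres j hj)
          rw [nr]
          push_cast at h3 ⊢
          exact h3)
      refine h1.trans ?_
      have h2 := log_le_one p (N.natDegree - 2 * K + 1) (by omega)
      exact mul_le_mul_of_nonneg_left (pow_le_pow_right₀ hp1 (by nlinarith)) hE0
    · apply nr_sum_le p (by positivity)
      intro j hj
      have h2 := log_le_one p (K - 1) (by
        have : 0 < p ^ 2 := by omega
        omega)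
      have h3 : nr p (hz (s + 1) j) ≤ (p : ℝ) ^ (s + 1) :=
        (norm_hz_le p (s + 1) K j hj).trans (pow_le_pow_right₀ hp1 (by nlinarith))
      rw [nr_mul]
      calc _ ≤ nr p (res (SK K) N j) * (p : ℝ) ^ (s + 1) :=
            mul_le_mul_of_nonneg_left h3 (norm_nonneg _)
        _ = nr p (res (SK K) N j) * p * (p : ℝ) ^ s := by ring
        _ ≤ _ := mul_le_mul_of_nonneg_right (hres j hj) (by positivity)
  · rw [RZ]
    apply nr_sum_le p hE0
    intro j hj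
    exact (le_mul_of_one_le_right (norm_nonneg _) hp1).trans (hres j hj)

theorem norm_FF_le (p : ℕ) [Fact p.Prime] (s : ℕ) (a b x : ℤ) (m u : ℕ) (P : ℚ[X]) (E : ℝ)
    (h3 : nr p (LZ 3 (SK (14 * u)) (num m u P)) ≤ E)
    (hs : nr p (LZ s (SK (14 * u)) (num m u P)) ≤ E)
    (hR : nr p (RZ (SK (14 * u)) (num m u P)) ≤ E) : nr p (FF s a b x m u P) ≤ E :=
  nr_add_le p (nr_add_le p (nr_int_mul_le p a _ h3) (nr_int_mul_le p b _ hs))
    (nr_int_mul_le p x _ hR)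

end Pool.Agent.P.MP_a89d6d_nt.Z57
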