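import Pool.Agent.P.MP_a89d6d_nt.Z57.Defs
import Pool.Agent.P.MP_a89d6d_nt.Z23.Star
import Pool.Agent.P.MP_a89d6d_nt.Z23.Energy1

namespace Pool.Agent.P.MP_a89d6d_nt.Z57

open Polynomial Finset Filter MeasureTheory
open Pool.Agent.P.MP_a89d6d_nt.Z23 (H W nc ach ff zpt)
open Pool.Agent.P.MP_a89d6d_nt.Z23.Large (IsZ)

namespace Star

open Pool.Agent.P.MP_a89d6d_nt.Z23.Star (A A_zero A_deriv A_tendsto G_deriv ff_cont ach_nonneg
  cosh_le_of_le_ach)
open Pool.Agent.P.MP_a89d6d_nt.Z23.Energy (gg gg_lip sum_ff_le le_sum_ff ff_nonneg)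

theorem cheb_aux (c : ℚ) (d : ℕ) :
    ((chebT c d).Monic ∧ (chebT c d).natDegree = d) ∧
      ((chebT c (d + 1)).Monic ∧ (chebT c (d + 1)).natDegree = d + 1) := by
  induction d with
  | zero =>
    refine ⟨⟨by simp [chebT], by simp [chebT]⟩, ?_, ?_⟩
    · exact monic_X_add_C _
    · exact natDegree_X_add_C _
  | succ d ih =>
    refine ⟨ih.2, ?_⟩
    have h1 : ((X + C (1 / 4 + c ^ 2 / 2)) * chebT c (d + 1)).Monic :=
      (monic_X_add_C _).mul ih.2.1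
    have h2 : ((X + C (1 / 4 + c ^ 2 / 2)) * chebT c (d + 1)).natDegree = d + 2 := by
      rw [(monic_X_add_C _).natDegree_mul ih.2.1, natDegree_X_add_C, ih.2.2]; ring
    have h3 : (C (c ^ 4 / 16) * chebT c d).natDegree < d + 2 :=
      lt_of_le_of_lt (natDegree_C_mul_le _ _) (by rw [ih.1.2]; omega)
    have h4 : (C (c ^ 4 / 16) * chebT c d).degree <
        ((X + C (1 / 4 + c ^ 2 / 2)) * chebT c (d + 1)).degree :=
      degree_lt_degree (by rw [h2]; exact h3)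
    have h5 : chebT c (d + 1 + 1) =
        (X + C (1 / 4 + c ^ 2 / 2)) * chebT c (d + 1) - C (c ^ 4 / 16) * chebT c d := rfl
    rw [h5]
    exact ⟨h1.sub_of_left h4, by
      rw [natDegree_sub_eq_left_of_natDegree_lt (by rw [h2]; exact h3), h2]⟩

theorem cheb_rec (c : ℚ) (z al be : ℂ) (h1 : al + be = z + (1 / 4 + (c : ℂ) ^ 2 / 2))
    (h2 : al * be = (c : ℂ) ^ 4 / 16) (d : ℕ) :
    aeval z (chebT c (d + 1)) = al ^ (d + 1) + be * aeval z (chebT c d) := by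
  have e1 : (algebraMap ℚ ℂ) (1 / 4 + c ^ 2 / 2) = 1 / 4 + (c : ℂ) ^ 2 / 2 := by simp
  induction d with
  | zero =>
    have h0 : chebT c (0 + 1) = X + C (1 / 4 + c ^ 2 / 2) := rfl
    have h0' : chebT c 0 = 1 := rfl
    rw [h0, h0', aeval_add, aeval_X, aeval_C, e1, aeval_one, zero_add, pow_one, mul_one, h1]
  | succ d ih =>
    have h5 : chebT c (d + 1 + 1) =
        (X + C (1 / 4 + c ^ 2 / 2)) * chebT c (d + 1) - C (c ^ 4 / 16) * chebT c d := rfl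
    rw [h5]
    rw [aeval_sub, aeval_mul, aeval_mul, aeval_add, aeval_X, aeval_C, aeval_C]
    have e2 : (algebraMap ℚ ℂ) (c ^ 4 / 16) = al * be := by rw [h2]; simp
    rw [e1, e2, ← h1, ih]
    ring

theorem cheb_norm (c : ℚ) (y : ℝ) (a b : ℂ) (h1 : a + b = (y : ℂ) * Complex.I)
    (h2 : a * b = -((c : ℂ) ^ 2 / 4)) (R : ℝ) (ha : ‖a‖ ≤ R) (hb : ‖b‖ ≤ R) (d : ℕ) :
    |aeval (tt y) (chebT c d)| ≤ ((d : ℝ) + 1) * (R ^ 2) ^ d := by
  have hR : 0 ≤ R := (norm_nonneg _).trans ha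
  have e0 : |aeval (tt y) (chebT c d)| = ‖aeval ((tt y : ℝ) : ℂ) (chebT c d)‖ := by
    have := Polynomial.aeval_algebraMap_apply ℂ (tt y) (chebT c d)
    rw [Complex.coe_algebraMap] at this
    rw [this, Complex.norm_real, Real.norm_eq_abs]
  rw [e0]
  have g1 : a ^ 2 + b ^ 2 = ((tt y : ℝ) : ℂ) + (1 / 4 + (c : ℂ) ^ 2 / 2) := by
    unfold tt
    push_cast
    linear_combination (a + b + (y : ℂ) * Complex.I) * h1 - 2 * h2 + (y : ℂ) ^ 2 * Complex.I_sq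
  have g2 : a ^ 2 * b ^ 2 = (c : ℂ) ^ 4 / 16 := by rw [← mul_pow, h2]; ring
  have ga : ‖a ^ 2‖ ≤ R ^ 2 := by rw [norm_pow]; gcongr
  have gb : ‖b ^ 2‖ ≤ R ^ 2 := by rw [norm_pow]; gcongr
  clear e0
  induction d with
  | zero => simp [chebT]
  | succ d ih =>
    rw [cheb_rec c _ _ _ g1 g2 d]
    calc ‖(a ^ 2) ^ (d + 1) + b ^ 2 * aeval ((tt y : ℝ) : ℂ) (chebT c d)‖
        ≤ ‖a ^ 2‖ ^ (d + 1) + ‖b ^ 2‖ * ‖aeval ((tt y : ℝ) : ℂ) (chebT c d)‖ := by
          refine (norm_add_le _ _).trans ?_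
          rw [norm_pow (a ^ 2), norm_mul]
      _ ≤ (R ^ 2) ^ (d + 1) + R ^ 2 * (((d : ℝ) + 1) * (R ^ 2) ^ d) := by gcongr
      _ = (((d + 1 : ℕ) : ℝ) + 1) * (R ^ 2) ^ (d + 1) := by push_cast; ring

theorem TT_cont (κ u : ℕ) (y : ℝ) : Continuous fun t => TT κ u (y / Real.cosh t) := by
  unfold TT
  have h0 : Continuous fun t => y / Real.cosh t :=
    continuous_const.div Real.continuous_cosh fun t => (Real.cosh_pos t).ne'
  refine ((continuous_const.mul h0).sub (continuous_const.mul ?_)).add ?_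
  · exact continuous_finsetSum _ fun i _ => ff_cont y _ (by positivity)
  · exact continuous_finsetSum _ fun i _ => ff_cont y _ (by positivity)

theorem TT_integral (κ u : ℕ) (y T : ℝ) :
    ∫ t in (0 : ℝ)..T, TT κ u (y / Real.cosh t) =
      κ * (2 * y * Real.arctan (Real.sinh T)) - 2 * κ * ∑ i ∈ range u, A y ((i : ℝ) + 1 / 2) T
        + ∑ j ∈ Ico u (14 * u - 2), A y ((j : ℝ) + 1 / 2) T := by
  have h : ∀ t, HasDerivAt (fun T => κ * (2 * y * Real.arctan (Real.sinh T))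
      - 2 * κ * ∑ i ∈ range u, A y ((i : ℝ) + 1 / 2) T
      + ∑ j ∈ Ico u (14 * u - 2), A y ((j : ℝ) + 1 / 2) T)
      (TT κ u (y / Real.cosh t)) t := by
    intro t
    unfold TT
    refine ((((G_deriv y t).const_mul (κ : ℝ)).congr_deriv (by ring)).sub
      (HasDerivAt.const_mul _ ?_)).add ?_
    · exact HasDerivAt.fun_sum fun i _ => A_deriv y _ (by positivity) t
    · exact HasDerivAt.fun_sum fun i _ => A_deriv y _ (by positivity) t
  rw [intervalIntegral.integral_eq_sub_of_hasDerivAt (fun t _ => h t)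
    ((TT_cont κ u y).intervalIntegrable _ _)]
  simp [A_zero]

theorem star_nonneg (κ u J : ℕ) (d : ℕ → ℕ) (c : ℕ → ℝ) (hc : ∀ l, 0 < c l)
    (hT : ∀ v : ℝ, 0 ≤ v → ∑ l ∈ (range J).filter (fun l => c l ≤ v), (d l : ℝ) ≤ TT κ u v)
    (y : ℝ) (hy : 0 ≤ y) :
    2 * ∑ l ∈ range J, (d l : ℝ) * ach (y / c l) ≤
      2 * Real.pi * κ * y
        - 2 * κ * ∑ i ∈ range u, Real.log (1 + y ^ 2 / ((i : ℝ) + 1 / 2) ^ 2)
        + ∑ j ∈ Ico u (14 * u - 2), Real.log (1 + y ^ 2 / ((j : ℝ) + 1 / 2) ^ 2) := by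
  have hlim : Tendsto (fun T => Real.pi * κ * y - 2 * κ * ∑ i ∈ range u, A y ((i : ℝ) + 1 / 2) T
      + ∑ j ∈ Ico u (14 * u - 2), A y ((j : ℝ) + 1 / 2) T) atTop
      (nhds (Real.pi * κ * y
        - 2 * κ * ∑ i ∈ range u, 1 / 2 * Real.log (1 + y ^ 2 / ((i : ℝ) + 1 / 2) ^ 2)
        + ∑ j ∈ Ico u (14 * u - 2), 1 / 2 * Real.log (1 + y ^ 2 / ((j : ℝ) + 1 / 2) ^ 2))) := by
    refine (tendsto_const_nhds.sub (Tendsto.const_mul _ ?_)).add ?_
    · exact tendsto_finsetSum _ fun i _ => A_tendsto y _ (by positivity)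
    · exact tendsto_finsetSum _ fun i _ => A_tendsto y _ (by positivity)
  have key : ∑ l ∈ range J, (d l : ℝ) * ach (y / c l) ≤ Real.pi * κ * y
        - 2 * κ * ∑ i ∈ range u, 1 / 2 * Real.log (1 + y ^ 2 / ((i : ℝ) + 1 / 2) ^ 2)
        + ∑ j ∈ Ico u (14 * u - 2), 1 / 2 * Real.log (1 + y ^ 2 / ((j : ℝ) + 1 / 2) ^ 2) := by
    refine ge_of_tendsto hlim ?_
    have hev : ∀ᶠ T : ℝ in atTop, ∀ l ∈ range J, ach (y / c l) ≤ T :=
      (eventually_all_finset _).mpr fun l _ => eventually_ge_atTop _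
    filter_upwards [hev, eventually_ge_atTop (0 : ℝ)] with T hTl hT0
    have hint : ∀ l, IntervalIntegrable
        (Set.indicator {x : ℝ | x ≤ ach (y / c l)} fun _ => (d l : ℝ)) volume 0 T := by
      intro l
      rw [intervalIntegrable_iff]
      exact (intervalIntegrable_iff.mp
        (continuous_const.intervalIntegrable 0 T)).indicator measurableSet_Iic
    have e1 : ∑ l ∈ range J, (d l : ℝ) * ach (y / c l) = ∫ t in (0 : ℝ)..T,
        ∑ l ∈ range J, Set.indicator {x : ℝ | x ≤ ach (y / c l)} (fun _ => (d l : ℝ)) t := by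
      rw [intervalIntegral.integral_finsetSum fun l _ => hint l]
      refine Finset.sum_congr rfl fun l hl => ?_
      rw [intervalIntegral.integral_indicator ⟨ach_nonneg _, hTl l hl⟩]
      simp [mul_comm]
    have e2 : ∫ t in (0 : ℝ)..T,
        ∑ l ∈ range J, Set.indicator {x : ℝ | x ≤ ach (y / c l)} (fun _ => (d l : ℝ)) t ≤
        ∫ t in (0 : ℝ)..T, TT κ u (y / Real.cosh t) := by
      refine intervalIntegral.integral_mono_on_of_le_Ioo hT0 ?_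
        ((TT_cont κ u y).intervalIntegrable _ _) fun t ht => ?_
      · have := IntervalIntegrable.sum (range J) fun l _ => hint l
        have e : (∑ l ∈ range J, Set.indicator {x : ℝ | x ≤ ach (y / c l)} fun _ => (d l : ℝ)) =
            fun t => ∑ l ∈ range J,
              Set.indicator {x : ℝ | x ≤ ach (y / c l)} (fun _ => (d l : ℝ)) t := by
          ext t
          simp [Finset.sum_apply]
        rwa [e] at this
      · have hC : 0 < Real.cosh t := Real.cosh_pos t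
        refine le_trans ?_ (hT _ (by positivity))
        rw [Finset.sum_filter]
        refine Finset.sum_le_sum fun l _ => ?_
        by_cases hl : t ≤ ach (y / c l)
        · have h1 := cosh_le_of_le_ach ht.1 hl
          have h2 : c l ≤ y / Real.cosh t := by
            rw [le_div_iff₀ (hc l)] at h1
            rw [le_div_iff₀ hC]; linarith
          rw [if_pos h2, Set.indicator_of_mem (by exact hl)]
        · rw [Set.indicator_of_notMem (by exact hl)]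
          split_ifs
          · positivity
          · exact le_rfl
    rw [TT_integral] at e2
    have e3 : κ * (2 * y * Real.arctan (Real.sinh T)) ≤ Real.pi * κ * y := by
      have := (Real.arctan_lt_pi_div_two (Real.sinh T)).le
      have h0 : (0 : ℝ) ≤ κ * y := by positivity
      nlinarith
    linarith
  rw [← Finset.mul_sum, ← Finset.mul_sum] at key
  linarith

theorem sqrt_diff (a b w v : ℝ) (ha : 0 < a) (hab : a ≤ b) (hw : 0 ≤ w) (hv : w ≤ v) :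
    Real.sqrt (v ^ 2 + b ^ 2) - Real.sqrt (v ^ 2 + a ^ 2) ≤
      Real.sqrt (w ^ 2 + b ^ 2) - Real.sqrt (w ^ 2 + a ^ 2) := by
  have h1 : Real.sqrt (w ^ 2 + a ^ 2) ≤ Real.sqrt (v ^ 2 + a ^ 2) :=
    Real.sqrt_le_sqrt (by nlinarith)
  have h2 : Real.sqrt (w ^ 2 + b ^ 2) ≤ Real.sqrt (v ^ 2 + b ^ 2) :=
    Real.sqrt_le_sqrt (by nlinarith)
  have h3 : Real.sqrt (v ^ 2 + a ^ 2) ≤ Real.sqrt (v ^ 2 + b ^ 2) :=
    Real.sqrt_le_sqrt (by nlinarith)
  have h4 : 0 < Real.sqrt (w ^ 2 + a ^ 2) := Real.sqrt_pos.mpr (by positivity)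
  have h5 : 0 ≤ Real.sqrt (w ^ 2 + b ^ 2) := Real.sqrt_nonneg _
  have e1 : Real.sqrt (w ^ 2 + a ^ 2) ^ 2 = w ^ 2 + a ^ 2 := Real.sq_sqrt (by positivity)
  have e2 : Real.sqrt (w ^ 2 + b ^ 2) ^ 2 = w ^ 2 + b ^ 2 := Real.sq_sqrt (by positivity)
  have e3 : Real.sqrt (v ^ 2 + a ^ 2) ^ 2 = v ^ 2 + a ^ 2 := Real.sq_sqrt (by positivity)
  have e4 : Real.sqrt (v ^ 2 + b ^ 2) ^ 2 = v ^ 2 + b ^ 2 := Real.sq_sqrt (by positivity)
  set A := Real.sqrt (w ^ 2 + a ^ 2)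
  set B := Real.sqrt (w ^ 2 + b ^ 2)
  set A' := Real.sqrt (v ^ 2 + a ^ 2)
  set B' := Real.sqrt (v ^ 2 + b ^ 2)
  by_contra hc
  push Not at hc
  have k1 : (B - A) * (B + A) < (B' - A') * (B + A) := mul_lt_mul_of_pos_right hc (by linarith)
  have k2 : (B' - A') * (B + A) ≤ (B' - A') * (B' + A') :=
    mul_le_mul_of_nonneg_left (by linarith) (by linarith)
  nlinarith

theorem gg_zero (v : ℝ) (hv : 0 ≤ v) : gg v 0 = -v := by
  unfold gg
  rw [show v ^ 2 + (0 : ℝ) ^ 2 = v ^ 2 by ring, Real.sqrt_sq hv]; ring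

end Star

theorem chebT_monic (c : ℚ) (d : ℕ) : (chebT c d).Monic := (Star.cheb_aux c d).1.1

theorem chebT_natDegree (c : ℚ) (d : ℕ) : (chebT c d).natDegree = d := (Star.cheb_aux c d).1.2

theorem chebT_bound (c : ℚ) (hc : 0 < c) (d : ℕ) (y : ℝ) :
    |aeval (tt y) (chebT c d)| ≤
      ((d : ℝ) + 1) * ((c : ℝ) ^ 2 / 4) ^ d * Real.exp (2 * d * ach (|y| / c)) := by
  have hc' : (0 : ℝ) < c := by exact_mod_cast hc
  have e0 : ((d : ℝ) + 1) * ((c : ℝ) ^ 2 / 4) ^ d * Real.exp (2 * d * ach (|y| / c)) =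
      ((d : ℝ) + 1) * (((c : ℝ) / 2 * Real.exp (ach (|y| / c))) ^ 2) ^ d := by
    rw [show 2 * (d : ℝ) * ach (|y| / c) = ((2 * d : ℕ) : ℝ) * ach (|y| / c) by push_cast; ring,
      Real.exp_nat_mul, mul_pow, mul_pow, ← pow_mul (Real.exp _),
      show ((c : ℝ) / 2) ^ 2 = (c : ℝ) ^ 2 / 4 by ring]
    ring
  rw [e0]
  by_cases h : 1 ≤ |y| / c
  · have hy : (c : ℝ) ≤ |y| := by rwa [le_div_iff₀ hc', one_mul] at h
    have hy2 : (c : ℝ) ^ 2 ≤ y ^ 2 := by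
      rw [← sq_abs y]; gcongr
    set s := Real.sqrt (y ^ 2 - (c : ℝ) ^ 2) with hs
    have hs0 : 0 ≤ s := Real.sqrt_nonneg _
    have hs2 : s ^ 2 = y ^ 2 - (c : ℝ) ^ 2 := Real.sq_sqrt (by linarith)
    have hR : (c : ℝ) / 2 * Real.exp (ach (|y| / c)) = (|y| + s) / 2 := by
      unfold ach
      rw [if_pos h]
      have := Real.exp_arcosh h
      unfold Real.arcosh at this
      rw [this]
      have e : Real.sqrt ((|y| / c) ^ 2 - 1) = s / c := by
        rw [Real.sqrt_eq_iff_mul_self_eq (by nlinarith) (by positivity)]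
        field_simp
        rw [hs2, sq_abs]
      rw [e]; field_simp
    rw [hR]
    refine Star.cheb_norm c y ((((y + s) / 2 : ℝ) : ℂ) * Complex.I)
      ((((y - s) / 2 : ℝ) : ℂ) * Complex.I) ?_ ?_ _ ?_ ?_ d
    · push_cast; ring
    · have : ((s : ℂ)) ^ 2 = (y : ℂ) ^ 2 - (c : ℂ) ^ 2 := by exact_mod_cast hs2
      push_cast
      linear_combination (1 / 4 : ℂ) * this + ((y : ℂ) ^ 2 - (s : ℂ) ^ 2) / 4 * Complex.I_sq
    · rw [norm_mul, Complex.norm_I, mul_one, Complex.norm_real, Real.norm_eq_abs, abs_le]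
      constructor <;> linarith [le_abs_self y, neg_abs_le y]
    · rw [norm_mul, Complex.norm_I, mul_one, Complex.norm_real, Real.norm_eq_abs, abs_le]
      constructor <;> linarith [le_abs_self y, neg_abs_le y]
  · have hy : |y| < c := by
      rw [not_le, div_lt_one hc'] at h; exact h
    have hy2 : y ^ 2 ≤ (c : ℝ) ^ 2 := by
      rw [← sq_abs y]; gcongr
    set s := Real.sqrt ((c : ℝ) ^ 2 - y ^ 2) with hs
    have hs2 : s ^ 2 = (c : ℝ) ^ 2 - y ^ 2 := Real.sq_sqrt (by linarith)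
    have hR : (c : ℝ) / 2 * Real.exp (ach (|y| / c)) = c / 2 := by
      unfold ach
      rw [if_neg h]; simp
    rw [hR]
    refine Star.cheb_norm c y (((s / 2 : ℝ) : ℂ) + ((y / 2 : ℝ) : ℂ) * Complex.I)
      (((-s / 2 : ℝ) : ℂ) + ((y / 2 : ℝ) : ℂ) * Complex.I) ?_ ?_ _ ?_ ?_ d
    · push_cast; ring
    · have : ((s : ℂ)) ^ 2 = (c : ℂ) ^ 2 - (y : ℂ) ^ 2 := by exact_mod_cast hs2
      push_cast
      linear_combination (-1 / 4 : ℂ) * this + ((y : ℂ) ^ 2) / 4 * Complex.I_sq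
    · rw [Complex.norm_add_mul_I]
      exact Real.sqrt_le_iff.mpr ⟨by positivity, by nlinarith⟩
    · rw [Complex.norm_add_mul_I]
      exact Real.sqrt_le_iff.mpr ⟨by positivity, by nlinarith⟩

theorem star (κ u J : ℕ) (d : ℕ → ℕ) (c : ℕ → ℝ) (hc : ∀ l, 0 < c l)
    (hT : ∀ v : ℝ, 0 ≤ v → ∑ l ∈ (range J).filter (fun l => c l ≤ v), (d l : ℝ) ≤ TT κ u v)
    (y : ℝ) :
    2 * ∑ l ∈ range J, (d l : ℝ) * ach (|y| / c l) ≤
      2 * Real.pi * κ * |y|
        - 2 * κ * ∑ i ∈ range u, Real.log (1 + y ^ 2 / ((i : ℝ) + 1 / 2) ^ 2)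
        + ∑ j ∈ Ico u (14 * u - 2), Real.log (1 + y ^ 2 / ((j : ℝ) + 1 / 2) ^ 2) := by
  have := Star.star_nonneg κ u J d c hc hT |y| (abs_nonneg y)
  rwa [sq_abs] at this

theorem TT_nonneg (κ u : ℕ) (v : ℝ) (hv : 0 ≤ v) : 0 ≤ TT κ u v := by
  unfold TT
  have h1 := Z23.Energy.sum_ff_le v u
  have h2 : 0 ≤ ∑ j ∈ Ico u (14 * u - 2), ff v ((j : ℝ) + 1 / 2) :=
    sum_nonneg fun j _ => Z23.Energy.ff_nonneg v _ (by positivity)
  have h4 := Star.gg_zero v hv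
  have h5 : Z23.Energy.gg v u ≤ 0 := by
    unfold Z23.Energy.gg
    have : (u : ℝ) ≤ Real.sqrt (v ^ 2 + (u : ℝ) ^ 2) :=
      Real.le_sqrt_of_sq_le (by nlinarith [sq_nonneg v])
    linarith
  have h6 : ∑ i ∈ range u, ff v ((i : ℝ) + 1 / 2) ≤ v := by linarith
  have h7 := mul_le_mul_of_nonneg_left h6 (show (0 : ℝ) ≤ 2 * κ by positivity)
  linarith

theorem TT_grid (κ u : ℕ) (hu : 1 ≤ u) (s r1 r2 v : ℝ) (hs : 0 ≤ s) (h2 : 0 ≤ r2)
    (hr1 : r1 ^ 2 ≤ 1 + s ^ 2) (hr2 : 196 + s ^ 2 ≤ r2 ^ 2) (hv : u * s ≤ v) :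
    u * (13 - 2 * κ + (2 * κ + 1) * r1 - r2) - 2 ≤ TT κ u v := by
  have hu1 : (1 : ℝ) ≤ u := by exact_mod_cast hu
  have hus : 0 ≤ u * s := by positivity
  have hv0 : 0 ≤ v := hus.trans hv
  unfold TT
  have a1 := Z23.Energy.sum_ff_le v u
  have a2 := Z23.Energy.le_sum_ff v u (14 * u - 2) (by omega)
  have a3 : ((14 * u - 2 : ℕ) : ℝ) = 14 * u - 2 := by
    rw [Nat.cast_sub (by omega)]; push_cast; ring
  rw [a3] at a2
  have a4 := Star.gg_zero v hv0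
  have a5 := (Z23.Energy.gg_lip v (14 * (u : ℝ) - 2 + 1 / 2) (14 * u) (by linarith)
    (by linarith)).2
  have a6 := (Z23.Energy.gg_lip v (u : ℝ) ((u : ℝ) + 1 / 2) (by linarith) (by linarith)).2
  have a7 : Z23.Energy.gg v u = u - Real.sqrt (v ^ 2 + (u : ℝ) ^ 2) := rfl
  have a8 : Z23.Energy.gg v (14 * (u : ℝ)) = 14 * u - Real.sqrt (v ^ 2 + (14 * (u : ℝ)) ^ 2) := rfl
  have b1 : u * r1 ≤ Real.sqrt ((u * s) ^ 2 + (u : ℝ) ^ 2) := by
    apply Real.le_sqrt_of_sq_le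
    nlinarith [mul_le_mul_of_nonneg_left hr1 (sq_nonneg (u : ℝ))]
  have b2 : Real.sqrt ((u * s) ^ 2 + (u : ℝ) ^ 2) ≤ Real.sqrt (v ^ 2 + (u : ℝ) ^ 2) :=
    Real.sqrt_le_sqrt (by nlinarith)
  have b3 : Real.sqrt ((u * s) ^ 2 + (14 * (u : ℝ)) ^ 2) ≤ u * r2 := by
    apply Real.sqrt_le_iff.mpr
    refine ⟨by positivity, ?_⟩
    nlinarith [mul_le_mul_of_nonneg_left hr2 (sq_nonneg (u : ℝ))]
  have b4 := Star.sqrt_diff u (14 * u) (u * s) v (by linarith) (by linarith) hus hv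
  have b5 : ∑ i ∈ range u, ff v ((i : ℝ) + 1 / 2) ≤ u + v - u * r1 := by linarith
  have b6 := mul_le_mul_of_nonneg_left b5 (show (0 : ℝ) ≤ 2 * κ by positivity)
  nlinarith

end Pool.Agent.P.MP_a89d6d_nt.Z57
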